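import Pool.Agent.Lib.MP_a8d7f7_al.N.Defs

/-!
# MP_a8d7f7_al, semiprimitive ideals, module Act: the action on functions of words
All by linearity from `act_of` (`MonoidAlgebra.induction_on`, or `FinSym.expand`, `act_apply`).
`dot_act`: reindex the words by `w ↦ w ∘ σ` (`Equiv.arrowCongr`/`Fintype.sum_bijective`).
`kills_adj`: `f` supported on content `a`; for every `g`, `⟨act (adj x) f, g⟩ = ⟨f, act x g⟩ = ⟨f, act x g_a⟩ = 0`, `g_a` = `g` restricted to
the words of content `a` (`act_supp`: `act x g` restricted to content `a` is `act x g_a`); `dotProduct_eq_zero`-type: take `g = Pi.single w 1`.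
-/

set_option autoImplicit false
set_option linter.unusedSectionVars false
set_option linter.unusedVariables false

namespace NoethSym

open Finset Equiv FinSym
open SmallPrime (IsPrime SAlg incl)
open ThreeLetter (Ideals)

variable {K : Type*} [Field K] {α : Type*} [Fintype α] [DecidableEq α] {n : ℕ}

theorem act_of (σ : Perm α) (f : (α → Fin n) → K) :
    act K n (MonoidAlgebra.of K (Perm α) σ) f = fun w => f (w ∘ σ) := by
  unfold act
  rw [MonoidAlgebra.lift_of]
  rfl

private theorem act_xp (x : MonoidAlgebra K (Perm α)) :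
    x = ∑ σ : Perm α, x.coeff σ • MonoidAlgebra.of K (Perm α) σ := by
  refine MonoidAlgebra.ext ?_
  rw [MonoidAlgebra.coeff_sum]
  ext τ
  rw [Finsupp.finsetSum_apply]
  simp only [MonoidAlgebra.coeff_smul_apply, MonoidAlgebra.of_apply, MonoidAlgebra.coeff_single, Finsupp.single_apply, smul_eq_mul,
    mul_ite, mul_one, mul_zero]
  simp

theorem act_apply (x : MonoidAlgebra K (Perm α)) (f : (α → Fin n) → K) (w : α → Fin n) :
    act K n x f w = ∑ σ : Perm α, x.coeff σ * f (w ∘ σ) := by
  conv_lhs => rw [act_xp x]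
  rw [map_sum, LinearMap.sum_apply, Finset.sum_apply]
  refine Finset.sum_congr rfl fun σ _ => ?_
  rw [map_smul, LinearMap.smul_apply, act_of, Pi.smul_apply, smul_eq_mul]

theorem ct_comp (w : α → Fin n) (σ : Perm α) : ct (w ∘ σ) = ct w := by
  funext i
  unfold ct
  refine Finset.card_bij (fun x _ => σ x) ?_ ?_ ?_
  · intro x hx
    simpa using hx
  · intro x _ y _ h
    exact σ.injective h
  · intro y hy
    refine ⟨σ.symm y, ?_, by simp⟩
    simpa using hy

theorem wt_comp (w : α → Fin n) (σ : Perm α) : wt (w ∘ σ) = wt w := by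
  unfold wt
  exact Equiv.sum_comp σ (fun x => (w x : ℕ))

/-- the weight is determined by the content -/
theorem wt_eq_ct (w : α → Fin n) : wt w = ∑ i : Fin n, (i : ℕ) * ct w i := by
  unfold wt ct
  have h1 : ∀ i : Fin n, (i : ℕ) * (univ.filter (fun x => w x = i)).card = ∑ x ∈ univ.filter (fun x => w x = i), (w x : ℕ) := by
    intro i
    rw [Finset.sum_congr rfl (g := fun _ => (i : ℕ)) fun x hx => by rw [(Finset.mem_filter.mp hx).2], Finset.sum_const, smul_eq_mul,
      mul_comm]
  rw [Finset.sum_congr rfl fun i _ => h1 i]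
  exact (Finset.sum_fiberwise univ w (fun x => (w x : ℕ))).symm

theorem sum_ct (w : α → Fin n) : ∑ i, ct w i = Fintype.card α := by
  unfold ct
  rw [← Finset.card_univ]
  exact (Finset.card_eq_sum_card_fiberwise (f := w) (t := univ) (fun x _ => Finset.mem_coe.mpr (Finset.mem_univ _))).symm

/-- any property of the words which is invariant under the permutations of the places is kept: here
`P w` = the words where `f` may be nonzero -/
theorem act_supp (P : (α → Fin n) → Prop) (hP : ∀ w (σ : Perm α), P (w ∘ σ) → P w)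
    (x : MonoidAlgebra K (Perm α)) (f : (α → Fin n) → K) (hf : ∀ w, ¬ P w → f w = 0) :
    ∀ w, ¬ P w → act K n x f w = 0 := by
  intro w hw
  rw [act_apply]
  refine Finset.sum_eq_zero fun σ _ => ?_
  rw [hf (w ∘ σ) (fun h => hw (hP w σ h)), mul_zero]

private theorem adj_coeff (x : MonoidAlgebra K (Perm α)) (τ : Perm α) : (adj x).coeff τ = x.coeff τ⁻¹ := by
  unfold adj
  rw [MonoidAlgebra.coeff_sum, Finsupp.finsetSum_apply]
  simp only [MonoidAlgebra.coeff_single, Finsupp.single_apply]
  rw [Finset.sum_eq_single τ⁻¹]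
  · simp
  · intro σ _ hσ
    rw [if_neg]
    intro h
    apply hσ
    rw [← h, inv_inv]
  · intro h
    exact absurd (Finset.mem_univ _) h

theorem adj_adj (x : MonoidAlgebra K (Perm α)) : adj (adj x) = x := by
  refine MonoidAlgebra.ext ?_
  ext τ
  rw [adj_coeff, adj_coeff, inv_inv]

theorem dot_act (x : MonoidAlgebra K (Perm α)) (f g : (α → Fin n) → K) :
    dotProduct (act K n x f) g = dotProduct f (act K n (adj x) g) := by
  unfold dotProduct
  simp only [act_apply, Finset.sum_mul, Finset.mul_sum]
  rw [Finset.sum_comm, Finset.sum_comm (s := univ) (t := univ) (f := fun w σ => f w * ((adj x).coeff σ * g (w ∘ σ)))]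
  rw [← Equiv.sum_comp (Equiv.inv (Perm α)) (fun σ => ∑ w : α → Fin n, f w * ((adj x).coeff σ * g (w ∘ σ)))]
  refine Finset.sum_congr rfl fun σ _ => ?_
  rw [← Equiv.sum_comp (Equiv.arrowCongr σ.symm (Equiv.refl (Fin n))) (fun w => f w * ((adj x).coeff ((Equiv.inv (Perm α)) σ) *
    g (w ∘ ((Equiv.inv (Perm α)) σ))))]
  refine Finset.sum_congr rfl fun w _ => ?_
  rw [adj_coeff]
  have h1 : (Equiv.arrowCongr σ.symm (Equiv.refl (Fin n))) w = w ∘ σ := by
    funext x
    simp [Equiv.arrowCongr]
  rw [h1]
  have h2 : (w ∘ σ) ∘ ((Equiv.inv (Perm α)) σ) = w := by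
    funext x
    simp
  rw [h2]
  simp only [Equiv.inv_apply, inv_inv]
  ring

theorem kills_adj {a : Fin n → ℕ} {x : MonoidAlgebra K (Perm α)} (h : Kills a x) :
    Kills a (adj x) := by
  intro f hf
  funext w
  have h1 : dotProduct (act K n (adj x) f) (Pi.single w 1) = act K n (adj x) f w := by
    rw [dotProduct_single, mul_one]
  rw [← h1, dot_act, adj_adj]
  by_cases hw : ct w = a
  · have h2 : act K n x (Pi.single w 1) = 0 := by
      refine h _ fun w' hw' => ?_
      rw [Pi.single_apply, if_neg]
      rintro rfl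
      exact hw' hw
    rw [h2, dotProduct_zero]
    rfl
  · have h2 := act_supp (K := K) (fun w' => ct w' ≠ a) (fun w' σ hs => by rwa [ct_comp] at hs) x (Pi.single w 1) (fun w' hw' => by
      rw [Pi.single_apply, if_neg]
      rintro rfl
      exact hw' hw)
    unfold dotProduct
    rw [Pi.zero_apply]
    refine Finset.sum_eq_zero fun w' _ => ?_
    by_cases hw' : ct w' = a
    · rw [h2 w' (fun h => h hw'), mul_zero]
    · rw [hf w' hw', zero_mul]

end NoethSym
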