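import Pool.Agent.Lib.MP_a8d7f7_al.P.U0b
import Pool.Agent.Lib.MP_a8d7f7_al.N.Act

/-!
# MP_a8d7f7_al, semiprimitive ideals, module AnnW: the annihilators `Ann K Ω n` and words
-/

set_option autoImplicit false
set_option linter.unusedSectionVars false
set_option linter.unusedVariables false

namespace NoethSym

open Finset Equiv FinSym
open SmallPrime (IsPrime SAlg incl)
open ThreeLetter (Ideals)

open SmallPrime (emb rho)

variable {K : Type*} [Field K] {Ω : Type*} [DecidableEq Ω]

theorem ann_emb {n d : ℕ} (a : Fin d ↪ Ω) {x : SAlg K d} (h : act K n x = 0) :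
    emb K a x ∈ Ann K Ω n := by
  classical
  rw [mem_Ann]
  apply Finsupp.lhom_ext
  intro C c
  rw [LinearMap.zero_apply]
  have h1 : emb K a x = ∑ σ : Perm (Fin d), x.coeff σ • MonoidAlgebra.of K (FSym Ω) (rho a σ) := by
    conv_lhs => rw [expand x (subset_univ _), map_sum]
    apply sum_congr rfl
    intro σ _
    rw [map_smul, SmallPrime.emb_of]
  rw [h1, map_sum, LinearMap.sum_apply]
  have h2 : ∀ σ : Perm (Fin d), (col K Ω n) (x.coeff σ • MonoidAlgebra.of K (FSym Ω) (rho a σ))
      (Finsupp.single C c) =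
      Finsupp.single (C ∘ (((rho a σ)⁻¹ : FSym Ω) : Perm Ω)) (x.coeff σ * c) := by
    intro σ
    rw [map_smul, LinearMap.smul_apply, col_of, Finsupp.smul_single, smul_eq_mul]
  simp only [h2]
  apply Finsupp.ext
  intro B
  rw [Finsupp.finsetSum_apply, Finsupp.zero_apply]
  simp only [Finsupp.single_apply]
  have h5 : ∀ σ : Perm (Fin d), (C ∘ (((rho a σ)⁻¹ : FSym Ω) : Perm Ω) = B) ↔
      C = B ∘ ((rho a σ : FSym Ω) : Perm Ω) := by
    intro σ
    constructor
    · intro h
      rw [← h]
      funext z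
      simp
    · intro h
      rw [h]
      funext z
      simp
  by_cases hex : ∃ σ₀ : Perm (Fin d), C = B ∘ ((rho a σ₀ : FSym Ω) : Perm Ω)
  · obtain ⟨σ₀, hσ₀⟩ := hex
    have hoff : ∀ z, (∀ i, a i ≠ z) → C z = B z := by
      intro z hz
      rw [hσ₀]
      simp only [Function.comp]
      rw [SmallPrime.rho_fix a σ₀ hz]
    have h3 : ∀ σ : Perm (Fin d), (C = B ∘ ((rho a σ : FSym Ω) : Perm Ω)) ↔
        ((fun i => B (a i)) ∘ σ = fun i => C (a i)) := by
      intro σ
      constructor
      · intro h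
        funext i
        rw [h]
        simp only [Function.comp]
        rw [SmallPrime.rho_apply]
      · intro h
        funext z
        simp only [Function.comp]
        by_cases hz : ∀ i, a i ≠ z
        · rw [SmallPrime.rho_fix a σ hz, hoff z hz]
        · push Not at hz
          obtain ⟨i, rfl⟩ := hz
          rw [SmallPrime.rho_apply]
          exact (congrFun h i).symm
    have h4 : act K n x (Pi.single (fun i => C (a i)) c) (fun i => B (a i)) = 0 := by
      rw [h]
      rfl
    rw [act_apply] at h4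
    refine Eq.trans (sum_congr rfl ?_) h4
    intro σ _
    rw [if_congr ((h5 σ).trans (h3 σ)) rfl rfl, Pi.single_apply]
    split_ifs <;> simp
  · push Not at hex
    apply sum_eq_zero
    intro σ _
    rw [if_neg (fun h => hex σ ((h5 σ).1 h))]

theorem exists_ann_le {p : ℕ} (hp : p.Prime) [CharP K p] [Infinite Ω] {I : Ideals K Ω} (h : I ≠ ⊥) :
    ∃ n : ℕ, Ann K Ω n ≤ I := by
  classical
  obtain ⟨f, hf, hf0⟩ : ∃ f ∈ I, f ≠ 0 := by
    by_contra hcon
    push Not at hcon
    apply h
    rw [eq_bot_iff]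
    intro x hx
    rw [TwoSidedIdeal.mem_bot]
    exact hcon x hx
  obtain ⟨X, hX⟩ := exists_support f
  obtain ⟨ω⟩ := (inferInstance : Nonempty Ω)
  set X' : Finset Ω := insert ω X with hX'
  have hX1 : 1 ≤ X'.card := card_pos.mpr (insert_nonempty _ _)
  have hXX : ∀ σ ∈ f.coeff.support, ∀ z, z ∉ X' → (σ : Perm Ω) z = z :=
    fun σ hσ z hz => hX σ hσ z (fun hz' => hz (mem_insert_of_mem hz'))
  have hpos : 1 ≤ X'.card * (p + 1) ^ (X'.card - 1) :=
    Nat.mul_pos hX1 (Nat.pow_pos (Nat.succ_pos p))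
  refine ⟨X'.card * (p + 1) ^ (X'.card - 1) - 1, Ann_le ?_ ⟨ω⟩⟩
  intro Δ hΔ
  exact (thmA hp hf hf0 hX1 hXX (by omega)).2

end NoethSym
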