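import Pool.Agent.Lib.MP_a8d7f7_al.N.Defs

/-!
# MP_a8d7f7_al, semiprimitive ideals, module Ring: prime ideals avoiding the powers of an element
`exists_prime_avoid`: Zorn (`zorn_le_nonempty₀`) for the two-sided ideals `Q ≥ I` containing no power of `y` (a chain: its union; `sSup` of a chain of two-sided ideals,
membership in the supremum of a chain: prove or use `TwoSidedIdeal` as ring congruences; it may be easier to build the union ideal with `TwoSidedIdeal.mk'`).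
Maximal `Q`: prime: if `u R v ⊆ Q`, `u, v ∉ Q` then `y^N ∈ Q ⊔ span {u}`, `y^M ∈ Q ⊔ span {v}`, so `y^(N+M) ∈ Q` (the product of the two ideals is in `Q`).
`NilFree`: if `J` is nil mod `Q`, `J ≰ Q`, then `Q ⊔ J` contains a power of `y`; it is nil mod `Q` too (or: replace `J` by `J ⊔ Q`: an element `j + q` has a power
in `Q`: `(j + q)^N ≡ j^N`), so a power of `y` is in `Q`.
`nilFree_sep`: `x ∉ M`, `NilFree M`: the ideal `span {x}` is not nil mod `M`, so some `y ∈ span {x}` has no power in `M`; apply the first.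
-/

set_option autoImplicit false
set_option linter.unusedSectionVars false
set_option linter.unusedVariables false

namespace NoethSym

open Finset Equiv FinSym
open SmallPrime (IsPrime SAlg incl)
open ThreeLetter (Ideals)

variable {R : Type*} [Ring R]

private theorem rg_span (P : R → Prop) (h0 : P 0) (ha : ∀ a b, P a → P b → P (a + b)) (hn : ∀ a, P a → P (-a))
    (hl : ∀ a b, P b → P (a * b)) (hr : ∀ a b, P a → P (a * b)) {u : R} (hu : P u) :
    ∀ a ∈ TwoSidedIdeal.span {u}, P a := by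
  intro a h
  have h1 : TwoSidedIdeal.span {u} ≤ TwoSidedIdeal.mk' {a | P a} h0 (fun {a b} h h' => ha a b h h') (fun {a} h => hn a h)
      (fun {a b} h => hl a b h) (fun {a b} h => hr a b h) := by
    rw [TwoSidedIdeal.span_le]
    intro b hb
    rw [Set.mem_singleton_iff.1 hb, TwoSidedIdeal.coe_mk']
    exact hu
  have h2 := h1 h
  rw [TwoSidedIdeal.mem_mk'] at h2
  exact h2

private theorem rg_mul (Q : TwoSidedIdeal R) {u v : R} (h : ∀ r, u * r * v ∈ Q) {a b : R}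
    (ha : a ∈ TwoSidedIdeal.span {u}) (hb : b ∈ TwoSidedIdeal.span {v}) : a * b ∈ Q := by
  have h1 : ∀ a ∈ TwoSidedIdeal.span {u}, ∀ r, a * r * v ∈ Q := by
    refine rg_span (fun a => ∀ r, a * r * v ∈ Q) ?_ ?_ ?_ ?_ ?_ h
    · intro r
      rw [zero_mul, zero_mul]
      exact Q.zero_mem
    · intro a b h h' r
      rw [add_mul, add_mul]
      exact Q.add_mem (h r) (h' r)
    · intro a h r
      rw [neg_mul, neg_mul]
      exact Q.neg_mem (h r)
    · intro a b h r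
      rw [mul_assoc a, mul_assoc a]
      exact Q.mul_mem_left _ _ (h r)
    · intro a b h r
      rw [mul_assoc a]
      exact h (b * r)
  have h2 : ∀ b ∈ TwoSidedIdeal.span {v}, ∀ r, a * r * b ∈ Q := by
    refine rg_span (fun b => ∀ r, a * r * b ∈ Q) ?_ ?_ ?_ ?_ ?_ (h1 a ha)
    · intro r
      rw [mul_zero]
      exact Q.zero_mem
    · intro b c h h' r
      rw [mul_add]
      exact Q.add_mem (h r) (h' r)
    · intro b h r
      rw [mul_neg]
      exact Q.neg_mem (h r)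
    · intro b c h r
      rw [← mul_assoc, mul_assoc a r b]
      exact h (r * b)
    · intro b c h r
      rw [← mul_assoc]
      exact Q.mul_mem_right _ _ (h r)
  have h3 := h2 b hb 1
  rwa [mul_one] at h3

private theorem rg_pow (Q : TwoSidedIdeal R) {q : R} (hq : q ∈ Q) (j : R) (m : ℕ) : (q + j) ^ m - j ^ m ∈ Q := by
  induction m with
  | zero =>
    rw [pow_zero, pow_zero, sub_self]
    exact Q.zero_mem
  | succ m ih =>
    have h : (q + j) ^ (m + 1) - j ^ (m + 1) = ((q + j) ^ m - j ^ m) * (q + j) + j ^ m * q := by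
      rw [pow_succ, pow_succ, sub_mul, mul_add (j ^ m)]
      abel
    rw [h]
    exact Q.add_mem (Q.mul_mem_right _ _ ih) (Q.mul_mem_left _ _ hq)

private theorem rg_lt {Q J : TwoSidedIdeal R} (h : ¬ J ≤ Q) : Q < Q ⊔ J := left_lt_sup.2 h

theorem exists_prime_avoid (I : TwoSidedIdeal R) (y : R) (h : ∀ N : ℕ, y ^ N ∉ I) :
    ∃ Q : TwoSidedIdeal R, IsPrime Q ∧ NilFree Q ∧ I ≤ Q ∧ ∀ N : ℕ, y ^ N ∉ Q := by
  obtain ⟨Q, hIQ, hQ⟩ := zorn_le_nonempty₀ {Q : TwoSidedIdeal R | ∀ N : ℕ, y ^ N ∉ Q} (fun c hc hch Q0 hQ0 => by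
    have hdir : ∀ a b : R, (∃ Q ∈ c, a ∈ Q) → (∃ Q ∈ c, b ∈ Q) → ∃ Q ∈ c, a ∈ Q ∧ b ∈ Q := by
      rintro a b ⟨Q1, h1, h1'⟩ ⟨Q2, h2, h2'⟩
      rcases hch.total h1 h2 with h3 | h3
      · exact ⟨Q2, h2, h3 h1', h2'⟩
      · exact ⟨Q1, h1, h1', h3 h2'⟩
    refine ⟨TwoSidedIdeal.mk' {a | ∃ Q ∈ c, a ∈ Q} ⟨Q0, hQ0, Q0.zero_mem⟩ ?_ ?_ ?_ ?_, ?_, ?_⟩
    · intro a b ha hb
      obtain ⟨Q1, h1, h2, h3⟩ := hdir a b ha hb
      exact ⟨Q1, h1, Q1.add_mem h2 h3⟩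
    · rintro a ⟨Q1, h1, h2⟩
      exact ⟨Q1, h1, Q1.neg_mem h2⟩
    · rintro a b ⟨Q1, h1, h2⟩
      exact ⟨Q1, h1, Q1.mul_mem_left _ _ h2⟩
    · rintro a b ⟨Q1, h1, h2⟩
      exact ⟨Q1, h1, Q1.mul_mem_right _ _ h2⟩
    · intro N hN
      rw [TwoSidedIdeal.mem_mk'] at hN
      obtain ⟨Q1, h1, h2⟩ := hN
      exact hc h1 N h2
    · intro Q1 h1 a ha
      rw [TwoSidedIdeal.mem_mk']
      exact ⟨Q1, h1, ha⟩) I h
  have hmax : ∀ J : TwoSidedIdeal R, ¬ J ≤ Q → ∃ (N : ℕ) (q j : R), q ∈ Q ∧ j ∈ J ∧ y ^ N = q + j := by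
    intro J hJ
    have h1 := hQ.not_prop_of_gt (rg_lt hJ)
    have h2 : ∃ N : ℕ, y ^ N ∈ Q ⊔ J := by
      by_contra hc
      exact h1 fun N hN => hc ⟨N, hN⟩
    obtain ⟨N, hN⟩ := h2
    obtain ⟨q, hq, j, hj, hqj⟩ := TwoSidedIdeal.mem_sup.1 hN
    exact ⟨N, q, j, hq, hj, hqj.symm⟩
  have hspan : ∀ u, u ∉ Q → ¬ TwoSidedIdeal.span {u} ≤ Q := fun u hu hc =>
    hu (hc (TwoSidedIdeal.subset_span (Set.mem_singleton u)))
  refine ⟨Q, ⟨?_, ?_⟩, ?_, hIQ, hQ.prop⟩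
  · intro htop
    refine hQ.prop 0 ?_
    rw [htop]
    exact TwoSidedIdeal.mem_top R
  · intro u v huv
    by_contra hc
    rw [not_or] at hc
    obtain ⟨N, q, a, hq, ha, h1⟩ := hmax _ (hspan u hc.1)
    obtain ⟨M, q', b, hq', hb, h2⟩ := hmax _ (hspan v hc.2)
    refine hQ.prop (N + M) ?_
    rw [pow_add, h1, h2, add_mul, mul_add a]
    exact Q.add_mem (Q.mul_mem_right _ _ hq) (Q.add_mem (Q.mul_mem_left _ _ hq') (rg_mul Q huv ha hb))
  · intro J hJ
    by_contra hc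
    obtain ⟨N, q, j, hq, hj, h1⟩ := hmax J hc
    obtain ⟨m, hm⟩ := hJ j hj
    refine hQ.prop (N * m) ?_
    rw [pow_mul, h1]
    have h2 := Q.add_mem (rg_pow Q hq j m) hm
    rwa [sub_add_cancel] at h2

/-- an element of `span {x}` without powers in `M` -/
theorem nilFree_elem {M : TwoSidedIdeal R} (hM : NilFree M) {x : R} (hx : x ∉ M) :
    ∃ y ∈ TwoSidedIdeal.span {x}, ∀ N : ℕ, y ^ N ∉ M := by
  by_contra hc
  refine hx (hM (TwoSidedIdeal.span {x}) (fun y hy => ?_) (TwoSidedIdeal.subset_span (Set.mem_singleton x)))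
  by_contra hc'
  exact hc ⟨y, hy, fun N hN => hc' ⟨N, hN⟩⟩

theorem nilFree_sep {M : TwoSidedIdeal R} (hM : NilFree M) {x : R} (hx : x ∉ M) :
    ∃ Q : TwoSidedIdeal R, IsPrime Q ∧ NilFree Q ∧ M ≤ Q ∧ x ∉ Q := by
  obtain ⟨y, hy, hy'⟩ := nilFree_elem hM hx
  obtain ⟨Q, h1, h2, h3, h4⟩ := exists_prime_avoid M y hy'
  refine ⟨Q, h1, h2, h3, fun hx' => h4 1 ?_⟩
  rw [pow_one]
  have h5 : TwoSidedIdeal.span {x} ≤ Q := TwoSidedIdeal.span_le.2 (Set.singleton_subset_iff.2 hx')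
  exact h5 hy

theorem nilFree_sInf {S : Set (TwoSidedIdeal R)} (h : ∀ I ∈ S, NilFree I) : NilFree (sInf S) := by
  intro J hJ x hx
  rw [TwoSidedIdeal.mem_sInf]
  intro I hI
  refine h I hI J (fun y hy => ?_) hx
  obtain ⟨N, hN⟩ := hJ y hy
  exact ⟨N, (TwoSidedIdeal.mem_sInf R).1 hN I hI⟩

theorem nilFree_top : NilFree (⊤ : TwoSidedIdeal R) := fun _ _ _ _ => TwoSidedIdeal.mem_top R

end NoethSym
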