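import Pool.Agent.Lib.MP_a8d7f7_al.N.Emb
import Pool.Agent.Lib.MP_a8d7f7_al.N.Ring

/-!
# MP_a8d7f7_al, semiprimitive ideals, module Sep: separation at a finite level
PROOF of `exists_level`. `nilFree_elem` for `x = emb K a b`: `y ∈ span {x}` without powers in `I`; `y = ∑ u_i x v_i` (finite sum; `TwoSidedIdeal.mem_span_iff_exists_fin` or span
induction: the set of `y` such that for some `e, f, a'` ... `y = emb K a' c` with `c ∈ span {incl f b}` is closed under sums and multiplications, `exists_emb`), so for some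
`e, f, a'` with `a = f.trans a'`: `y = emb K a' c`, `c ∈ TwoSidedIdeal.span {incl f b}`. The ideal `I_e = I.comap (emb K a')` contains no power of `c`: `exists_prime_avoid` in `SAlg K e` gives `M`,
prime, `I_e ≤ M`, no power of `c` in `M`, so `c ∉ M`, so `incl f b ∉ M`. By `emb_conj` `I_e ≤ M` holds for all tuples.
-/

set_option autoImplicit false
set_option linter.unusedSectionVars false
set_option linter.unusedVariables false

namespace NoethSym

open Finset Equiv FinSym
open SmallPrime (IsPrime SAlg incl)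
open ThreeLetter (Ideals)

open SmallPrime (emb rho)

variable {K : Type*} [Field K] {Ω : Type*} [DecidableEq Ω]

/-- the prime ideal `M` of `K[S_e]` lies over `I ∩ K[S_e]` -/
def Over (I : Ideals K Ω) {e : ℕ} (M : TwoSidedIdeal (SAlg K e)) : Prop :=
  IsPrime M ∧ ∀ (a : Fin e ↪ Ω) (x : SAlg K e), emb K a x ∈ I → x ∈ M

/-- finitely many elements lie in one `K[S_e]`, compatibly with a given tuple -/
theorem Sep_exists_emb_list (L : List (MonoidAlgebra K (FSym Ω))) {d : ℕ} (a : Fin d ↪ Ω) :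
    ∃ (e : ℕ) (f : Fin d ↪ Fin e) (a' : Fin e ↪ Ω), a = f.trans a' ∧
      ∀ u ∈ L, ∃ b : SAlg K e, emb K a' b = u := by
  induction L with
  | nil =>
    refine ⟨d, Function.Embedding.refl _, a, ?_, ?_⟩
    · ext i; rfl
    · intro u hu
      exact absurd hu List.not_mem_nil
  | cons x L ih =>
    obtain ⟨e, f, a', ha, h⟩ := ih
    obtain ⟨e', f', a'', b, ha', hb⟩ := exists_emb (K := K) a' x
    refine ⟨e', f.trans f', a'', ?_, ?_⟩
    · rw [ha, ha']
      ext i; rfl
    · intro u hu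
      rcases List.mem_cons.mp hu with rfl | hu
      · exact ⟨b, hb⟩
      · obtain ⟨b', hb'⟩ := h u hu
        refine ⟨incl f' b', ?_⟩
        rw [emb_incl, ← ha', hb']

/-- the elements of the two-sided ideal generated by `emb K a b` come from a finite level -/
theorem Sep_exists_span_level {d : ℕ} (a : Fin d ↪ Ω) (b : SAlg K d)
    {y : MonoidAlgebra K (FSym Ω)} (hy : y ∈ TwoSidedIdeal.span {emb K a b}) :
    ∃ L : List (MonoidAlgebra K (FSym Ω)), ∀ (e : ℕ) (f : Fin d ↪ Fin e) (a' : Fin e ↪ Ω),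
      a = f.trans a' → (∀ u ∈ L, ∃ b : SAlg K e, emb K a' b = u) →
      ∃ c ∈ TwoSidedIdeal.span {incl f b}, emb K a' c = y := by
  induction hy using TwoSidedIdeal.span_induction with
  | mem x hx =>
    refine ⟨[], fun e f a' ha _ => ⟨incl f b, TwoSidedIdeal.subset_span rfl, ?_⟩⟩
    rw [emb_incl, ← ha]
    exact (Set.mem_singleton_iff.mp hx).symm
  | zero => exact ⟨[], fun e f a' ha _ => ⟨0, TwoSidedIdeal.zero_mem _, map_zero _⟩⟩
  | add x y _ _ hx hy =>
    obtain ⟨L, hL⟩ := hx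
    obtain ⟨M, hM⟩ := hy
    refine ⟨L ++ M, fun e f a' ha h => ?_⟩
    obtain ⟨c, hc, hcx⟩ := hL e f a' ha (fun u hu => h u (List.mem_append_left _ hu))
    obtain ⟨c', hc', hcx'⟩ := hM e f a' ha (fun u hu => h u (List.mem_append_right _ hu))
    exact ⟨c + c', TwoSidedIdeal.add_mem _ hc hc', by rw [map_add, hcx, hcx']⟩
  | neg x _ hx =>
    obtain ⟨L, hL⟩ := hx
    refine ⟨L, fun e f a' ha h => ?_⟩
    obtain ⟨c, hc, hcx⟩ := hL e f a' ha h
    exact ⟨-c, TwoSidedIdeal.neg_mem _ hc, by rw [map_neg, hcx]⟩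
  | left_absorb r x _ hx =>
    obtain ⟨L, hL⟩ := hx
    refine ⟨r :: L, fun e f a' ha h => ?_⟩
    obtain ⟨c, hc, hcx⟩ := hL e f a' ha (fun u hu => h u (List.mem_cons_of_mem _ hu))
    obtain ⟨r', hr'⟩ := h r List.mem_cons_self
    exact ⟨r' * c, TwoSidedIdeal.mul_mem_left _ _ _ hc, by rw [map_mul, hcx, hr']⟩
  | right_absorb r x _ hx =>
    obtain ⟨L, hL⟩ := hx
    refine ⟨r :: L, fun e f a' ha h => ?_⟩
    obtain ⟨c, hc, hcx⟩ := hL e f a' ha (fun u hu => h u (List.mem_cons_of_mem _ hu))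
    obtain ⟨r', hr'⟩ := h r List.mem_cons_self
    exact ⟨c * r', TwoSidedIdeal.mul_mem_right _ _ _ hc, by rw [map_mul, hcx, hr']⟩

theorem exists_level {I : Ideals K Ω} (hI : NilFree I) {d : ℕ} (a : Fin d ↪ Ω) (b : SAlg K d)
    (hb : emb K a b ∉ I) : ∃ (e : ℕ) (f : Fin d ↪ Fin e) (M : TwoSidedIdeal (SAlg K e)),
      Over I M ∧ incl f b ∉ M := by
  obtain ⟨y, hy, hyN⟩ := nilFree_elem hI hb
  obtain ⟨L, hL⟩ := Sep_exists_span_level a b hy
  obtain ⟨e, f, a', ha, h⟩ := Sep_exists_emb_list L a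
  obtain ⟨c, hc, hcy⟩ := hL e f a' ha h
  obtain ⟨M, hM, -, hIM, hcM⟩ := exists_prime_avoid (I.comap (emb K a')) c (by
    intro N hN
    rw [TwoSidedIdeal.mem_comap, map_pow, hcy] at hN
    exact hyN N hN)
  refine ⟨e, f, M, ⟨hM, ?_⟩, ?_⟩
  · intro a'' x hx
    apply hIM
    rw [TwoSidedIdeal.mem_comap]
    exact (emb_conj a'' a' x).mp hx
  · intro hbM
    apply hcM 1
    rw [pow_one]
    exact TwoSidedIdeal.mem_span_iff.mp hc M (by
      intro z hz
      rw [Set.mem_singleton_iff.mp hz]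
      exact hbM)

end NoethSym
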