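import Pool.Agent.Lib.MP_a8d7f7_al.N.Wqo
import Pool.Agent.Lib.MP_a8d7f7_al.N.Sep
import Pool.Agent.Lib.MP_a8d7f7_al.N.AnnW

/-!
# MP_a8d7f7_al, semiprimitive ideals, module Acc: ascending chains

A strictly increasing sequence of ideals gives prime ideals `M k` of `K[S_(d k)]` over the ideals and elements `c k ∉ M k` which belong to the
next ideal. `wqo` gives `j < k` and an embedding under which `M k` restricts into `M j`, so `c j ∈ M j`.
-/

set_option autoImplicit false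
set_option linter.unusedSectionVars false
set_option linter.unusedVariables false

namespace NoethSym

open Finset Equiv FinSym
open SmallPrime (IsPrime SAlg incl)
open ThreeLetter (Ideals)
open SmallPrime (emb rho)

variable {K : Type*} [Field K] {Ω : Type*} [DecidableEq Ω]

private theorem acc_mem {I J : Ideals K Ω} (h : I ≤ J) {x : MonoidAlgebra K (FSym Ω)} (hx : x ∈ I) : x ∈ J :=
  TwoSidedIdeal.le_iff.1 h hx

/-- the data of one step -/
private theorem acc_step {I J : Ideals K Ω} (hI : NilFree I) (hle : I ≤ J) (hne : J ≠ I) [Infinite Ω] :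
    ∃ (e : ℕ) (M : TwoSidedIdeal (SAlg K e)) (c : SAlg K e), Over I M ∧ c ∉ M ∧
      ∀ a : Fin e ↪ Ω, emb K a c ∈ J := by
  have h1 : ∃ x, x ∈ J ∧ x ∉ I := by
    by_contra hcon
    push Not at hcon
    exact hne (le_antisymm (TwoSidedIdeal.le_iff.2 hcon) hle)
  obtain ⟨x, hxJ, hxI⟩ := h1
  obtain ⟨a0⟩ := exists_tuple' (Ω := Ω) 0
  obtain ⟨e0, f0, a', b, -, hb⟩ := exists_emb (K := K) a0 x
  rw [← hb] at hxJ hxI
  obtain ⟨e, f, M, hM, hbM⟩ := exists_level hI a' b hxI
  refine ⟨e, M, incl f b, hM, hbM, ?_⟩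
  intro a
  rw [emb_incl]
  exact (emb_conj a' (f.trans a) b).1 hxJ

/-- strictly increasing sequences do not exist -/
private theorem acc_strict {p : ℕ} (hp : p.Prime) [CharP K p] [Infinite Ω] (J : ℕ → Ideals K Ω) (hm : Monotone J)
    (h : ∀ k, NilFree (J k)) (h0 : J 0 ≠ ⊥) (hne : ∀ k, J (k + 1) ≠ J k) : False := by
  obtain ⟨n, hn⟩ := exists_ann_le hp h0
  have h1 : ∀ k, ∃ (e : ℕ) (M : TwoSidedIdeal (SAlg K e)) (c : SAlg K e), Over (J k) M ∧ c ∉ M ∧
      ∀ a : Fin e ↪ Ω, emb K a c ∈ J (k + 1) :=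
    fun k => acc_step (h k) (hm (Nat.le_succ k)) (hne k)
  choose d M c hO hc hJ using h1
  obtain ⟨j, k, hjk, f, hf⟩ := wqo (n := n) d M (fun k => (hO k).1) (fun k x hx => by
    obtain ⟨a⟩ := exists_tuple' (Ω := Ω) (d k)
    exact (hO k).2 a x (acc_mem (hn.trans (hm (Nat.zero_le k))) (ann_emb a hx)))
  apply hc j
  apply hf
  obtain ⟨a⟩ := exists_tuple' (Ω := Ω) (d k)
  apply (hO k).2 a
  rw [emb_incl]
  exact acc_mem (hm (Nat.succ_le_of_lt hjk)) (hJ j (f.trans a))

theorem acc {p : ℕ} (hp : p.Prime) [CharP K p] [Infinite Ω] (I : ℕ → Ideals K Ω) (hm : Monotone I)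
    (h : ∀ k, NilFree (I k)) : ∃ m, ∀ k, m ≤ k → I k = I m := by
  by_contra hcon
  push Not at hcon
  choose g hg1 hg2 using hcon
  have hs : ∀ i, g^[i + 2] 0 = g (g^[i + 1] 0) := fun i => Function.iterate_succ_apply' g (i + 1) 0
  refine acc_strict hp (fun i => I (g^[i + 1] 0)) ?_ (fun k => h _) ?_ ?_
  · apply monotone_nat_of_le_succ
    intro i
    show I (g^[i + 1] 0) ≤ I (g^[i + 2] 0)
    rw [hs]
    exact hm (hg1 _)
  · intro h0
    have h1 : I (g 0) = ⊥ := h0
    have h2 : I 0 ≤ I (g 0) := hm (hg1 0)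
    rw [h1] at h2
    exact hg2 0 (h1.trans (le_bot_iff.1 h2).symm)
  · intro k
    show I (g^[k + 2] 0) ≠ I (g^[k + 1] 0)
    rw [hs]
    exact hg2 _

theorem acc_max {p : ℕ} (hp : p.Prime) [CharP K p] [Infinite Ω] (S : Set (Ideals K Ω))
    (hS : S.Nonempty) (h : ∀ I ∈ S, NilFree I) : ∃ M ∈ S, ∀ J ∈ S, M ≤ J → J = M := by
  by_contra hcon
  push Not at hcon
  obtain ⟨M0, hM0⟩ := hS
  choose! g hg1 hg2 hg3 using hcon
  have hmem : ∀ i, g^[i] M0 ∈ S := by
    intro i
    induction i with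
    | zero => exact hM0
    | succ i ih =>
      rw [Function.iterate_succ_apply']
      exact hg1 _ ih
  obtain ⟨m, hm⟩ := acc hp (fun i => g^[i] M0) (monotone_nat_of_le_succ fun i => by
    show g^[i] M0 ≤ g^[i + 1] M0
    rw [Function.iterate_succ_apply']
    exact hg2 _ (hmem i)) (fun k => h _ (hmem k))
  have h1 := hm (m + 1) (Nat.le_succ m)
  have h2 : g^[m + 1] M0 = g^[m] M0 := h1
  rw [Function.iterate_succ_apply'] at h2
  exact hg3 _ (hmem m) h2

end NoethSym
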