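import Pool.Agent.Lib.MP_a8d7f7_al.N.BDefs
import Pool.Agent.Lib.MP_a8d7f7_al.N.AnnW

/-!
# MP_a8d7f7_al, semiprimitive ideals, module AnnC: the converse of `ann_emb`, and `Ann ≤ P_c`
`act_of_ann`: `emb K s x` kills the colourings; for words `w, w'` choose colourings `C, C'` of `Ω` equal off the range of `s` with `C ∘ s = w`, `C' ∘ s = w'` (constant off the range; if `n = 0` and `e > 0` there are no words, if `e = 0`, `n = 0`:
`Ω` infinite, so there are no colourings and the statement for `e = 0` fails: therefore the hypothesis `1 ≤ n`): the coefficient of `C'` in `emb K s x C` is the matrix coefficient of `x`. (Compare `Chain.lean`, `Growth.lean: coeff_col`.)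
`kb_ann`: `y ∈ Ann K Ω n`, `1 ≤ n`: `KB c y` with `N = 0`: `act K n x = 0` so `InK a x`.
-/

set_option autoImplicit false
set_option linter.unusedSectionVars false
set_option linter.unusedVariables false

namespace NoethSym

open Finset Equiv FinSym
open SmallPrime (IsPrime SAlg incl emb)
open SmallPrime (rho)
open ThreeLetter (Ideals)

variable {K : Type*} [Field K] {Ω : Type*} [DecidableEq Ω]

theorem act_of_ann {n e : ℕ} (hn : 1 ≤ n) (s : Fin e ↪ Ω) {x : SAlg K e}
    (h : emb K s x ∈ Ann K Ω n) : act K n x = 0 := by
  classical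
  rw [mem_Ann] at h
  have h1 : emb K s x = ∑ σ : Perm (Fin e), x.coeff σ • MonoidAlgebra.of K (FSym Ω) (rho s σ) := by
    conv_lhs => rw [expand x (subset_univ _), map_sum]
    apply sum_congr rfl
    intro σ _
    rw [map_smul, SmallPrime.emb_of]
  have key : ∀ w w' : Fin e → Fin n, act K n x (Pi.single w' 1) w = 0 := by
    intro w w'
    set B : Ω → Fin n := Function.extend s w (fun _ => ⟨0, hn⟩) with hB
    set C : Ω → Fin n := Function.extend s w' (fun _ => ⟨0, hn⟩) with hC
    have hBs : ∀ i, B (s i) = w i := fun i => by rw [hB, s.injective.extend_apply]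
    have hCs : ∀ i, C (s i) = w' i := fun i => by rw [hC, s.injective.extend_apply]
    have hoff : ∀ z, (∀ i, s i ≠ z) → C z = B z := by
      intro z hz
      have hz' : ¬ ∃ i, s i = z := fun ⟨i, hi⟩ => hz i hi
      rw [hB, hC, Function.extend_apply' _ _ _ hz', Function.extend_apply' _ _ _ hz']
    have h2 : ∀ σ : Perm (Fin e), (col K Ω n) (x.coeff σ • MonoidAlgebra.of K (FSym Ω) (rho s σ))
        (Finsupp.single C 1) =
        Finsupp.single (C ∘ (((rho s σ)⁻¹ : FSym Ω) : Perm Ω)) (x.coeff σ) := by
      intro σ
      rw [map_smul, LinearMap.smul_apply, col_of, Finsupp.smul_single, smul_eq_mul, mul_one]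
    have h3 := congrArg (fun g => g (Finsupp.single C 1)) h
    simp only [LinearMap.zero_apply] at h3
    rw [h1, map_sum, LinearMap.sum_apply] at h3
    simp only [h2] at h3
    have h4 := congrArg (fun g => g B) h3
    simp only [Finsupp.finsetSum_apply, Finsupp.zero_apply, Finsupp.single_apply] at h4
    have h5 : ∀ σ : Perm (Fin e), (C ∘ (((rho s σ)⁻¹ : FSym Ω) : Perm Ω) = B) ↔ w ∘ σ = w' := by
      intro σ
      constructor
      · intro hh
        funext i
        have h6 := congrFun hh (s (σ i))
        rw [Function.comp_apply] at h6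
        have h7 : (((rho s σ)⁻¹ : FSym Ω) : Perm Ω) (s (σ i)) = s i := by
          rw [← SmallPrime.rho_apply s σ i]
          simp
        rw [h7, hCs, hBs] at h6
        exact h6.symm
      · intro hh
        have h8 : C = B ∘ ((rho s σ : FSym Ω) : Perm Ω) := by
          funext z
          rw [Function.comp_apply]
          by_cases hz : ∀ i, s i ≠ z
          · rw [SmallPrime.rho_fix s σ hz, hoff z hz]
          · push Not at hz
            obtain ⟨i, rfl⟩ := hz
            rw [SmallPrime.rho_apply, hCs, hBs]
            exact (congrFun hh i).symm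
        rw [h8]
        funext z
        simp
    rw [act_apply]
    refine Eq.trans (sum_congr rfl ?_) h4
    intro σ _
    rw [if_congr (h5 σ) rfl rfl, Pi.single_apply]
    split_ifs <;> simp
  refine LinearMap.pi_ext' fun w' => ?_
  refine LinearMap.ext_ring ?_
  funext w
  rw [LinearMap.comp_apply, LinearMap.comp_apply]
  simp only [LinearMap.coe_single, LinearMap.zero_apply, Pi.zero_apply]
  exact key w w'

theorem kb_ann {n : ℕ} (hn : 1 ≤ n) (c : Fin n → ℕ∞) {y : MonoidAlgebra K (FSym Ω)}
    (h : y ∈ Ann K Ω n) : KB c y := by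
  refine ⟨0, fun e s x _ hx a _ _ T T' _ _ => ?_⟩
  subst hx
  rw [act_of_ann hn s h, LinearMap.zero_apply, zero_dotProduct]

end NoethSym
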