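import Pool.Agent.Lib.MP_a8d7f7_al.P.Stmt

/-!
# MP_a8d7f7_al, semiprimitive ideals: definitions (helper13)

Functions on words `α → Fin n`, tableaux, the vectors `z T`, raising operators, the ideals `InK`.
-/

set_option autoImplicit false
set_option linter.unusedSectionVars false
set_option linter.unusedVariables false

namespace NoethSym

open Finset Equiv FinSym
open SmallPrime (IsPrime SAlg incl)
open ThreeLetter (Ideals)

/-- the content of a word: the number of places of each letter -/
def ct {α : Type*} [Fintype α] {n : ℕ} (w : α → Fin n) : Fin n → ℕ :=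
  fun i => (univ.filter (fun x => w x = i)).card

/-- the weight of a word -/
def wt {α : Type*} [Fintype α] {n : ℕ} (w : α → Fin n) : ℕ := ∑ x, (w x : ℕ)

/-- the group algebra acts on functions of words: `(σ f) w = f (w ∘ σ)` -/
noncomputable def act (K : Type*) [Field K] {α : Type*} (n : ℕ) :
    MonoidAlgebra K (Perm α) →ₐ[K] Module.End K ((α → Fin n) → K) :=
  MonoidAlgebra.lift K _ _
    { toFun := fun σ => LinearMap.funLeft K K (fun w => w ∘ σ)
      map_one' := by
        ext f w
        rfl
      map_mul' := by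
        intro σ τ
        ext f w
        rfl }

/-- the anti-automorphism `σ ↦ σ⁻¹` -/
noncomputable def adj {K : Type*} [Field K] {α : Type*} [Fintype α] [DecidableEq α]
    (x : MonoidAlgebra K (Perm α)) : MonoidAlgebra K (Perm α) :=
  ∑ σ : Perm α, MonoidAlgebra.single σ⁻¹ (x.coeff σ)

/-- `x` kills the functions of words of content `a` -/
def Kills {K : Type*} [Field K] {α : Type*} [Fintype α] {n : ℕ} (a : Fin n → ℕ)
    (x : MonoidAlgebra K (Perm α)) : Prop :=
  ∀ f : (α → Fin n) → K, (∀ w, ct w ≠ a → f w = 0) → act K n x f = 0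

/-- `w'` is obtained from `w` by changing exactly `k` letters `i + 1` into `i` -/
def Up {α : Type*} [Fintype α] {n : ℕ} (i k : ℕ) (w w' : α → Fin n) : Prop :=
  (∀ x, w x ≠ w' x → ((w' x : ℕ) = i ∧ (w x : ℕ) = i + 1)) ∧
    (univ.filter (fun x => w x ≠ w' x)).card = k

instance {α : Type*} [Fintype α] {n : ℕ} (i k : ℕ) (w w' : α → Fin n) : Decidable (Up i k w w') := by
  unfold Up; infer_instance

/-- raising operator -/
noncomputable def E {K : Type*} [Field K] {α : Type*} [Fintype α] [DecidableEq α] {n : ℕ} (i k : ℕ)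
    (f : (α → Fin n) → K) : (α → Fin n) → K :=
  fun w' => ∑ w : α → Fin n, if Up i k w w' then f w else 0

/-- `f` is killed by all raising operators -/
def Hi {K : Type*} [Field K] {α : Type*} [Fintype α] [DecidableEq α] {n : ℕ}
    (f : (α → Fin n) → K) : Prop := ∀ i k, 1 ≤ k → E i k f = 0

/-- a tableau: rows, and columns whose rows are initial segments (the names of the columns are
arbitrary natural numbers) -/
structure Tab (α : Type*) (n : ℕ) where
  row : α → Fin n
  col : α → ℕ
  inj : ∀ x y, row x = row y → col x = col y → x = y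
  down : ∀ x (i : Fin n), i < row x → ∃ y, col y = col x ∧ row y = i

/-- the polytabloid -/
noncomputable def z (K : Type*) [Field K] {α : Type*} [Fintype α] [DecidableEq α] {n : ℕ}
    (T : Tab α n) : (α → Fin n) → K :=
  fun w => ∑ σ : Perm α, if (∀ x, T.col (σ x) = T.col x) ∧ w ∘ σ = T.row then
    ((Perm.sign σ : ℤ) : K) else 0

/-- the column antisymmetrizer -/
noncomputable def kap (K : Type*) [Field K] {α : Type*} [Fintype α] [DecidableEq α] {n : ℕ}
    (T : Tab α n) : MonoidAlgebra K (Perm α) :=
  ∑ σ : Perm α, if (∀ x, T.col (σ x) = T.col x) then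
    ((Perm.sign σ : ℤ) : K) • MonoidAlgebra.of K (Perm α) σ else 0

/-- the span of the polytabloids of content `a` -/
noncomputable def Sp (K : Type*) [Field K] {α : Type*} [Fintype α] [DecidableEq α] {n : ℕ}
    (a : Fin n → ℕ) : Submodule K ((α → Fin n) → K) :=
  Submodule.span K {f | ∃ T : Tab α n, ct T.row = a ∧ f = z K T}

/-- all matrix coefficients of `x` at the polytabloids of content `a` vanish -/
def InK {K : Type*} [Field K] {α : Type*} [Fintype α] [DecidableEq α] {n : ℕ}
    (a : Fin n → ℕ) (x : MonoidAlgebra K (Perm α)) : Prop :=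
  ∀ T T' : Tab α n, ct T.row = a → ct T'.row = a →
    dotProduct (act K n x (z K T)) (z K T') = 0

/-! ## the final notions -/

/-- `J(R/I) = 0`: the two-sided ideal `I` is an intersection of maximal left ideals -/
def Semiprimitive {R : Type*} [Ring R] (I : TwoSidedIdeal R) : Prop :=
  (TwoSidedIdeal.asIdeal I).jacobson = TwoSidedIdeal.asIdeal I

/-- `R/I` has no nonzero nil two-sided ideal -/
def NilFree {R : Type*} [Ring R] (I : TwoSidedIdeal R) : Prop :=
  ∀ J : TwoSidedIdeal R, (∀ y ∈ J, ∃ N : ℕ, y ^ N ∈ I) → J ≤ I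

end NoethSym
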