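import Pool.Agent.Lib.MP_a8d7f7_al.P.U0b
import Pool.Agent.Lib.MP_a8d7f7_al.P.S2
import Pool.Agent.Lib.MP_a8d7f7_al.P.O1c
import Pool.Agent.Lib.MP_a8d7f7_al.P.U1b
import Pool.Agent.Lib.MP_a8d7f7_al.N.Defs

/-!
# MP_a8d7f7_al, semiprimitive ideals, module Emb: `K[S_d]` in `K[FSym(Ω)]` along tuples
`emb` and `rho` are in `P/U0b.lean`, `exists_mv` in `P/S2.lean`, `incl_of` etc. in `P/O1c.lean`.
`emb_conj`: `g` with `g ∘ a = a'` (`exists_mv`): `rho a' σ = g * rho a σ * g⁻¹`, so `emb K a' x = g * emb K a x * g⁻¹`.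
`emb_incl`: `rho a' (σ.viaFintypeEmbedding f) = rho (f.trans a') σ`.
`exists_emb`: the letters moved by the support of `x` (`exists_support`), plus the given tuple: `a = f.trans a'`; every `g` in the support is `rho a' σ`.
-/

set_option autoImplicit false
set_option linter.unusedSectionVars false
set_option linter.unusedVariables false

namespace NoethSym

open Finset Equiv FinSym
open SmallPrime (IsPrime SAlg incl)
open ThreeLetter (Ideals)

open SmallPrime (emb rho)

variable {K : Type*} [Field K] {Ω : Type*} [DecidableEq Ω]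

/-- `rho a' σ = g * rho a σ * g⁻¹` if `g ∘ a = a'` -/
private theorem emb_rho_conj {d : ℕ} (a a' : Fin d ↪ Ω) (g : FSym Ω) (hg : ∀ i, (g : Perm Ω) (a i) = a' i)
    (σ : Perm (Fin d)) : rho a' σ = g * rho a σ * g⁻¹ := by
  apply Subtype.ext
  apply Equiv.ext
  intro z
  have hR : ((g * rho a σ * g⁻¹ : FSym Ω) : Perm Ω) z = (g : Perm Ω) ((rho a σ : Perm Ω) ((g : Perm Ω)⁻¹ z)) := rfl
  rw [hR]
  by_cases hz : ∃ i, a' i = z
  · obtain ⟨i, rfl⟩ := hz
    have h1 : (g : Perm Ω)⁻¹ (a' i) = a i := by rw [Perm.inv_eq_iff_eq, hg]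
    rw [h1, SmallPrime.rho_apply, SmallPrime.rho_apply, hg]
  · push Not at hz
    have h2 : (g : Perm Ω) ((g : Perm Ω)⁻¹ z) = z := Equiv.apply_symm_apply (g : Perm Ω) z
    rw [SmallPrime.rho_fix a' σ hz, SmallPrime.rho_fix a σ, h2]
    intro i hi
    apply hz i
    rw [← hg, hi, h2]

private theorem emb_conj_eq {d : ℕ} (a a' : Fin d ↪ Ω) (g : FSym Ω) (hg : ∀ i, (g : Perm Ω) (a i) = a' i)
    (x : SAlg K d) : emb K a' x = MonoidAlgebra.of K (FSym Ω) g * emb K a x * MonoidAlgebra.of K (FSym Ω) g⁻¹ := by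
  induction x using MonoidAlgebra.induction_on with
  | of σ =>
    rw [SmallPrime.emb_of, SmallPrime.emb_of, ← map_mul, ← map_mul, emb_rho_conj a a' g hg σ]
  | add f h hf hh =>
    rw [map_add, map_add, hf, hh, mul_add, add_mul]
  | smul c f hf =>
    rw [map_smul, map_smul, hf, mul_smul_comm, smul_mul_assoc]

private theorem emb_conj_aux {I : Ideals K Ω} {d : ℕ} (a a' : Fin d ↪ Ω) (x : SAlg K d)
    (h : emb K a x ∈ I) : emb K a' x ∈ I := by
  obtain ⟨g, hg⟩ := SmallPrime.exists_mv a a' a.injective a'.injective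
  rw [emb_conj_eq a a' g hg x]
  exact I.mul_mem_right _ _ (I.mul_mem_left _ _ h)

theorem emb_conj {I : Ideals K Ω} {d : ℕ} (a a' : Fin d ↪ Ω) (x : SAlg K d) :
    emb K a x ∈ I ↔ emb K a' x ∈ I :=
  ⟨emb_conj_aux a a' x, emb_conj_aux a' a x⟩

private theorem emb_rho_incl {d e : ℕ} (f : Fin d ↪ Fin e) (a' : Fin e ↪ Ω) (σ : Perm (Fin d)) :
    rho a' (σ.viaFintypeEmbedding f) = rho (f.trans a') σ := by
  apply Subtype.ext
  apply Equiv.ext
  intro z
  by_cases hz : ∃ j, a' j = z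
  · obtain ⟨j, rfl⟩ := hz
    rw [SmallPrime.rho_apply]
    by_cases hj : j ∈ Set.range f
    · obtain ⟨i, rfl⟩ := hj
      rw [Perm.viaFintypeEmbedding_apply_image]
      exact (SmallPrime.rho_apply (f.trans a') σ i).symm
    · rw [Perm.viaFintypeEmbedding_apply_notMem_range _ _ hj, SmallPrime.rho_fix]
      intro i hi
      exact hj ⟨i, a'.injective hi⟩
  · push Not at hz
    rw [SmallPrime.rho_fix a' _ hz, SmallPrime.rho_fix]
    intro i
    exact hz (f i)

theorem emb_incl {d e : ℕ} (f : Fin d ↪ Fin e) (a' : Fin e ↪ Ω) (x : SAlg K d) :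
    emb K a' (incl f x) = emb K (f.trans a') x := by
  induction x using MonoidAlgebra.induction_on with
  | of σ =>
    rw [SmallPrime.incl_of, SmallPrime.emb_of, SmallPrime.emb_of, emb_rho_incl]
  | add g h hg hh =>
    rw [SmallPrime.incl_add, map_add, map_add, hg, hh]
  | smul c g hg =>
    rw [SmallPrime.incl_smul, map_smul, map_smul, hg]

theorem emb_injective {d : ℕ} (a : Fin d ↪ Ω) : Function.Injective (emb K a) :=
  Function.LeftInverse.injective (g := fun y => SmallPrime.sym y a a) (fun n => SmallPrime.sym_emb a n)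

/-- a permutation that fixes everything outside the range of a tuple -/
private theorem emb_exists_rho {e : ℕ} (a : Fin e ↪ Ω) (g : FSym Ω)
    (hg : ∀ z, (∀ i, a i ≠ z) → (g : Perm Ω) z = z) : ∃ σ : Perm (Fin e), rho a σ = g := by
  have h1 : ∀ i, ∃ j, a j = (g : Perm Ω) (a i) := by
    intro i
    by_contra hcon
    push Not at hcon
    have h2 := hg _ hcon
    exact hcon i ((g : Perm Ω).injective h2).symm
  choose s hs using h1
  have hinj : Function.Injective s := by
    intro i j hij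
    apply a.injective
    apply (g : Perm Ω).injective
    rw [← hs, ← hs, hij]
  refine ⟨Equiv.ofBijective s (Finite.injective_iff_bijective.1 hinj), ?_⟩
  apply Subtype.ext
  apply Equiv.ext
  intro z
  by_cases hz : ∃ i, a i = z
  · obtain ⟨i, rfl⟩ := hz
    rw [SmallPrime.rho_apply]
    exact hs i
  · push Not at hz
    rw [SmallPrime.rho_fix a _ hz, hg z hz]

/-- finitely many elements lie in one `K[S_e]`, compatibly with a given tuple -/
theorem exists_emb {d : ℕ} (a : Fin d ↪ Ω) (x : MonoidAlgebra K (FSym Ω)) :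
    ∃ (e : ℕ) (f : Fin d ↪ Fin e) (a' : Fin e ↪ Ω) (b : SAlg K e), a = f.trans a' ∧ emb K a' b = x := by
  obtain ⟨D, hD⟩ := Rank2.exists_On x
  let W : Finset Ω := univ.image a ∪ D
  have hWa : ∀ i, a i ∈ W := fun i => mem_union_left _ (mem_image_of_mem a (mem_univ i))
  let a' : Fin W.card ↪ Ω := W.equivFin.symm.toEmbedding.trans (Function.Embedding.subtype _)
  have ha' : ∀ z ∈ W, ∃ j, a' j = z := fun z hz => ⟨W.equivFin ⟨z, hz⟩, by
    change ((W.equivFin.symm (W.equivFin ⟨z, hz⟩) : W) : Ω) = z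
    rw [Equiv.symm_apply_apply]⟩
  let f : Fin d ↪ Fin W.card := ⟨fun i => W.equivFin ⟨a i, hWa i⟩, fun i j hij =>
    a.injective (congrArg Subtype.val (W.equivFin.injective hij))⟩
  have hf : a = f.trans a' := by
    apply Function.Embedding.ext
    intro i
    change a i = ((W.equivFin.symm (W.equivFin ⟨a i, hWa i⟩) : W) : Ω)
    rw [Equiv.symm_apply_apply]
  have key : ∃ b : SAlg K W.card, emb K a' b = x := by
    refine Rank2.On.induction (D := D) (q := fun y => ∃ b : SAlg K W.card, emb K a' b = y) ?_ ?_ ?_ ?_ hD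
    · exact ⟨0, map_zero _⟩
    · rintro y z ⟨b, rfl⟩ ⟨c, rfl⟩
      exact ⟨b + c, map_add _ _ _⟩
    · rintro r y ⟨b, rfl⟩
      exact ⟨r • b, map_smul _ _ _⟩
    · intro g hg
      obtain ⟨σ, hσ⟩ := emb_exists_rho a' g (fun z hz => hg z (fun hzD => by
        obtain ⟨j, hj⟩ := ha' z (mem_union_right _ hzD)
        exact hz j hj))
      exact ⟨MonoidAlgebra.of K _ σ, by rw [SmallPrime.emb_of, hσ]⟩
  obtain ⟨b, hb⟩ := key
  exact ⟨W.card, f, a', b, hf, hb⟩

theorem exists_tuple' [Infinite Ω] (d : ℕ) : Nonempty (Fin d ↪ Ω) :=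
  ⟨Fin.valEmbedding.trans (Infinite.natEmbedding Ω)⟩

end NoethSym
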