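import Pool.Agent.Lib.MP_a8d7f7_al.N.AnnC
import Pool.Agent.Lib.MP_a8d7f7_al.N.Ring
import Pool.Agent.Lib.MP_a8d7f7_al.N.Emb

/-!
# MP_a8d7f7_al, semiprimitive ideals, module AnnNil: `K[FSym Ω]/Ann(M_n)` has no nil ideals (any field)
PROOF (traces). Let `J` be nil mod `Ann K Ω n`, `y ∈ J`; `n = 0`: `Ann K Ω 0 = ⊤` for `Ω` infinite. `n ≥ 1`: `y = emb K s x`, `x ∈ K[S_d]`. Claim: for every `c : Fin d → Fin n`: `∑_{g : c ∘ g = c} x_g = 0` (`trace_zero`). Applied to `y * emb s τ ∈ J` for all `τ` it gives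
`∑_{g : c ∘ g = c ∘ τ⁻¹} x_g = 0`, i.e. all matrix coefficients of `x` vanish (two words with different contents: trivial; with the same content `c' = c ∘ τ⁻¹`), so `act K n x = 0`, so `y ∈ Ann` (`ann_emb`).
Proof of the claim: blocks of sizes `2^i`, `α = Σ i : Fin d, Fin (2^i)`, `h` = the permutation `(i, t) ↦ (i, t + 1 mod 2^i)`. Extend `g ∈ S_d` to `ĝ` on `α` (moves `(i, 0)` to `(g i, 0)`, fixes the rest).
`z = ∑ x_g ĝ h` is the image of an element of `J`, so it acts nilpotently on the functions of words `α → Fin n`, and on those of content `a j = ∑_{i : c i = j} 2^i`. The trace of a nilpotent map is `0`. The trace of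
`ĝ h` on the functions on the words of content `a` is `#{w : ct w = a, w ∘ (ĝ h) = w}`. A word `w` fixed by `ĝ h` is constant on `{i} × Fin (2^i)` with value `c' i` and `c' (g i) = c' i`; its content is `a` iff `c' = c` (binary digits). So the trace is `∑_{g : c ∘ g = c} x_g`.
-/

set_option autoImplicit false
set_option linter.unusedSectionVars false
set_option linter.unusedVariables false

namespace NoethSym

open Finset Equiv FinSym
open SmallPrime (IsPrime SAlg incl emb)
open ThreeLetter (Ideals)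

variable {K : Type*} [Field K] {Ω : Type*} [DecidableEq Ω]

private theorem an_trace {W : Type*} [Fintype W] [DecidableEq W] (f : Module.End K (W → K)) :
    LinearMap.trace K (W → K) f = ∑ w, f (Pi.single w 1) w := by
  rw [LinearMap.trace_eq_matrix_trace K (Pi.basisFun K W), Matrix.trace]
  refine Finset.sum_congr rfl fun w _ => ?_
  rw [Matrix.diag_apply, LinearMap.toMatrix_apply, Pi.basisFun_apply, Pi.basisFun_repr]

private theorem an_act_incl {d e n : ℕ} (f : Fin d ↪ Fin e) (x : SAlg K d) (h : Perm (Fin e))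
    (φ : (Fin e → Fin n) → K) (w : Fin e → Fin n) :
    act K n (incl f x * MonoidAlgebra.of K _ h) φ w =
      ∑ g : Perm (Fin d), x.coeff g * φ (w ∘ (g.viaFintypeEmbedding f * h : Perm (Fin e))) := by
  unfold SmallPrime.incl
  rw [Finset.sum_mul, map_sum, LinearMap.sum_apply, Finset.sum_apply]
  refine Finset.sum_congr rfl fun g _ => ?_
  have h1 : MonoidAlgebra.single (g.viaFintypeEmbedding f) (x.coeff g) * MonoidAlgebra.of K _ h =
      x.coeff g • MonoidAlgebra.of K (Perm (Fin e)) (g.viaFintypeEmbedding f * h) := by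
    rw [MonoidAlgebra.of_apply, MonoidAlgebra.of_apply, MonoidAlgebra.single_mul_single, mul_one,
      MonoidAlgebra.smul_single, smul_eq_mul, mul_one]
  rw [h1, map_smul, LinearMap.smul_apply, act_of, Pi.smul_apply, smul_eq_mul]

section blocks

variable {d e n : ℕ} {m : Fin d → ℕ} (E : (Σ i : Fin d, Fin (m i + 1)) ≃ Fin e)

/-- the first letters of the blocks -/
private def anF : Fin d ↪ Fin e :=
  ⟨fun i => E ⟨i, 0⟩, fun i j h => congrArg Sigma.fst (E.injective h)⟩

/-- the rotation of the blocks -/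
private def anH : Perm (Fin e) := E.permCongr (Equiv.sigmaCongrRight fun i => finRotate (m i + 1))

private theorem anH_apply (i : Fin d) (t : Fin (m i + 1)) : anH E (E ⟨i, t⟩) = E ⟨i, t + 1⟩ := by
  unfold anH
  rw [Equiv.permCongr_apply, Equiv.symm_apply_apply]
  congr 1
  change (⟨i, finRotate (m i + 1) t⟩ : Σ i : Fin d, Fin (m i + 1)) = _
  rw [finRotate_apply]

/-- the word with the value `c i` on the block `i` -/
private def anW (c : Fin d → Fin n) : Fin e → Fin n := fun y => c (E.symm y).1

private theorem anW_apply (c : Fin d → Fin n) (i : Fin d) (t : Fin (m i + 1)) :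
    anW E c (E ⟨i, t⟩) = c i := by
  unfold anW
  rw [Equiv.symm_apply_apply]

private theorem anW_inj {c c' : Fin d → Fin n} (h : anW E c = anW E c') : c = c' := by
  funext i
  have h1 := congrFun h (E ⟨i, 0⟩)
  rwa [anW_apply, anW_apply] at h1

private theorem an_fix (g : Perm (Fin d)) (w : Fin e → Fin n) :
    w ∘ (g.viaFintypeEmbedding (anF E) * anH E : Perm (Fin e)) = w ↔
      ∃ c : Fin d → Fin n, c ∘ g = c ∧ w = anW E c := by
  have hg0 : ∀ i : Fin d, g.viaFintypeEmbedding (anF E) (E ⟨i, 0⟩) = E ⟨g i, 0⟩ := fun i =>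
    Perm.viaFintypeEmbedding_apply_image g (anF E) i
  have hg1 : ∀ (i : Fin d) (t : Fin (m i + 1)), t ≠ 0 →
      g.viaFintypeEmbedding (anF E) (E ⟨i, t⟩) = E ⟨i, t⟩ := by
    intro i t ht
    apply Perm.viaFintypeEmbedding_apply_notMem_range
    rintro ⟨j, hj⟩
    have h1 : (⟨j, 0⟩ : Σ i : Fin d, Fin (m i + 1)) = ⟨i, t⟩ := E.injective hj
    rw [Sigma.mk.injEq] at h1
    obtain ⟨rfl, h2⟩ := h1
    exact ht (eq_of_heq h2).symm
  constructor
  · intro h
    have hw : ∀ (i : Fin d) (t : Fin (m i + 1)), w (g.viaFintypeEmbedding (anF E) (E ⟨i, t + 1⟩)) = w (E ⟨i, t⟩) := by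
      intro i t
      have h1 := congrFun h (E ⟨i, t⟩)
      rw [Function.comp_apply, Perm.mul_apply, anH_apply] at h1
      exact h1
    have hc : ∀ (i : Fin d) (t : Fin (m i + 1)), w (E ⟨i, t⟩) = w (E ⟨i, 0⟩) := by
      intro i t
      induction t using Fin.induction with
      | zero => rfl
      | succ t ih =>
        have h1 := hw i t.castSucc
        rw [Fin.coeSucc_eq_succ, hg1 i _ (Fin.succ_ne_zero t), ih] at h1
        exact h1
    refine ⟨fun i => w (E ⟨i, 0⟩), ?_, ?_⟩
    · funext i
      have h1 := hw i (Fin.last (m i))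
      rw [Fin.last_add_one, hg0, hc i (Fin.last _)] at h1
      exact h1
    · funext y
      obtain ⟨⟨i, t⟩, rfl⟩ := E.surjective y
      rw [anW_apply]
      exact hc i t
  · rintro ⟨c, hc, rfl⟩
    funext y
    obtain ⟨⟨i, t⟩, rfl⟩ := E.surjective y
    rw [Function.comp_apply, Perm.mul_apply, anH_apply, anW_apply]
    by_cases ht : t + 1 = 0
    · rw [ht, hg0, anW_apply]
      exact congrFun hc i
    · rw [hg1 i _ ht, anW_apply]

private theorem an_ct (c : Fin d → Fin n) (j : Fin n) :
    ct (anW E c) j = ∑ i, if c i = j then m i + 1 else 0 := by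
  unfold ct
  rw [Finset.card_filter, ← Equiv.sum_comp E (fun y => if anW E c y = j then 1 else 0), Fintype.sum_sigma]
  refine Finset.sum_congr rfl fun i _ => ?_
  rw [Finset.sum_congr rfl (g := fun _ => if c i = j then 1 else 0) (fun t _ => by rw [anW_apply]), Finset.sum_const,
    Finset.card_univ, Fintype.card_fin]
  split_ifs <;> simp

end blocks

/-- binary digits -/
private theorem an_bin {d n : ℕ} {c c' : Fin d → Fin n}
    (h : ∀ j, (∑ i : Fin d, if c i = j then 2 ^ (i : ℕ) - 1 + 1 else 0) =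
      ∑ i : Fin d, if c' i = j then 2 ^ (i : ℕ) - 1 + 1 else 0) : c = c' := by
  have h1 : ∀ (c : Fin d → Fin n) (j : Fin n), (∑ i : Fin d, if c i = j then 2 ^ (i : ℕ) - 1 + 1 else 0) =
      ∑ k ∈ (univ.filter (fun i : Fin d => c i = j)).map Fin.valEmbedding, 2 ^ k := by
    intro c j
    rw [Finset.sum_map, Finset.sum_filter]
    refine Finset.sum_congr rfl fun i _ => ?_
    rw [Nat.sub_add_cancel Nat.one_le_two_pow]
    rfl
  funext i
  have h2 := h (c i)
  rw [h1, h1] at h2
  have h3 := Finset.geomSum_injective le_rfl h2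
  have h4 := Finset.map_injective _ h3
  have h5 : i ∈ univ.filter (fun k : Fin d => c k = c i) := by simp
  rw [h4, Finset.mem_filter] at h5
  exact h5.2.symm

/-- the projection on the functions supported on the words of content `a` -/
private def anP (K : Type*) [Field K] {e n : ℕ} (a : Fin n → ℕ) : Module.End K ((Fin e → Fin n) → K) where
  toFun φ := fun w => if ct w = a then φ w else 0
  map_add' φ ψ := by
    funext w
    simp only [Pi.add_apply]
    split_ifs <;> simp
  map_smul' r φ := by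
    funext w
    simp only [Pi.smul_apply, RingHom.id_apply]
    split_ifs <;> simp

private theorem an_comm {e n : ℕ} (a : Fin n → ℕ) (z : SAlg K e) :
    Commute (anP K (e := e) a) (act K n z) := by
  apply LinearMap.ext
  intro φ
  funext w
  change (if ct w = a then act K n z φ w else 0) = act K n z (anP K a φ) w
  rw [act_apply, act_apply]
  by_cases hw : ct w = a
  · rw [if_pos hw]
    refine Finset.sum_congr rfl fun σ _ => ?_
    change _ = _ * (if ct (w ∘ σ) = a then φ (w ∘ σ) else 0)
    rw [ct_comp, if_pos hw]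
  · rw [if_neg hw]
    symm
    refine Finset.sum_eq_zero fun σ _ => ?_
    change _ * (if ct (w ∘ σ) = a then φ (w ∘ σ) else 0) = 0
    rw [ct_comp, if_neg hw, mul_zero]

private theorem an_claim [Infinite Ω] {n : ℕ} (hn : 1 ≤ n) {J : Ideals K Ω}
    (hJ : ∀ y ∈ J, ∃ N : ℕ, y ^ N ∈ Ann K Ω n) {d : ℕ} (s : Fin d ↪ Ω) (x : SAlg K d)
    (hx : emb K s x ∈ J) (c : Fin d → Fin n) :
    (∑ g : Perm (Fin d), if c ∘ g = c then x.coeff g else 0) = 0 := by
  classical
  let m : Fin d → ℕ := fun i => 2 ^ (i : ℕ) - 1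
  let E : (Σ i : Fin d, Fin (m i + 1)) ≃ Fin (Fintype.card (Σ i : Fin d, Fin (m i + 1))) := Fintype.equivFin _
  obtain ⟨a'⟩ := exists_tuple' (Ω := Ω) (Fintype.card (Σ i : Fin d, Fin (m i + 1)))
  set z := incl (anF E) x * MonoidAlgebra.of K _ (anH E) with hz
  have h1 : emb K a' z ∈ J := by
    rw [hz, map_mul, emb_incl]
    exact J.mul_mem_right _ _ ((emb_conj s _ x).1 hx)
  obtain ⟨N, hN⟩ := hJ _ h1
  rw [← map_pow] at hN
  have h2 := act_of_ann hn a' hN
  rw [map_pow] at h2
  set a := ct (anW E c) with ha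
  have h3 : IsNilpotent (anP K a * act K n z) := ⟨N, by
    rw [(an_comm a z).mul_pow, h2, mul_zero]⟩
  have h4 : LinearMap.trace K _ (anP K a * act K n z) = 0 :=
    (LinearMap.isNilpotent_trace_of_isNilpotent h3).eq_zero
  rw [an_trace] at h4
  have h5 : ∀ w : Fin (Fintype.card (Σ i : Fin d, Fin (m i + 1))) → Fin n,
      (anP K a * act K n z : Module.End K _) (Pi.single w 1) w =
      ∑ g : Perm (Fin d), if ct w = a ∧ w ∘ (g.viaFintypeEmbedding (anF E) * anH E : Perm (Fin _)) = w then x.coeff g else 0 := by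
    intro w
    change (if ct w = a then act K n z (Pi.single w 1) w else 0) = _
    by_cases hw : ct w = a
    · rw [if_pos hw, hz, an_act_incl]
      refine Finset.sum_congr rfl fun g _ => ?_
      rw [Pi.single_apply, mul_ite, mul_one, mul_zero]
      exact if_congr (by rw [and_iff_right hw]) rfl rfl
    · rw [if_neg hw]
      symm
      refine Finset.sum_eq_zero fun g _ => ?_
      rw [if_neg fun h => hw h.1]
  rw [Finset.sum_congr rfl fun w _ => h5 w, Finset.sum_comm] at h4
  refine Eq.trans ?_ h4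
  refine Finset.sum_congr rfl fun g _ => ?_
  by_cases hg : c ∘ g = c
  · rw [if_pos hg, Finset.sum_eq_single (anW E c)]
    · rw [if_pos ⟨rfl, (an_fix E g _).2 ⟨c, hg, rfl⟩⟩]
    · intro w _ hw
      rw [if_neg]
      rintro ⟨h6, h7⟩
      obtain ⟨c', hc', rfl⟩ := (an_fix E g w).1 h7
      apply hw
      have h8 : c' = c := an_bin fun j => by
        have h9 := congrFun h6 j
        rw [ha, an_ct, an_ct] at h9
        exact h9
      rw [h8]
    · intro h
      exact absurd (Finset.mem_univ _) h
  · have h10 : ∀ w : Fin (Fintype.card (Σ i : Fin d, Fin (m i + 1))) → Fin n,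
        ¬ (ct w = a ∧ w ∘ (g.viaFintypeEmbedding (anF E) * anH E : Perm (Fin _)) = w) := by
      rintro w ⟨h6, h7⟩
      obtain ⟨c', hc', rfl⟩ := (an_fix E g w).1 h7
      apply hg
      have h8 : c' = c := an_bin fun j => by
        have h9 := congrFun h6 j
        rw [ha, an_ct, an_ct] at h9
        exact h9
      rw [← h8]
      exact hc'
    simp only [if_neg hg, if_neg (h10 _), Finset.sum_const_zero]

theorem nilFree_ann [Infinite Ω] (n : ℕ) : NilFree (Ann K Ω n) := by
  classical
  intro J hJ y hy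
  rcases Nat.eq_zero_or_pos n with rfl | hn
  · rw [mem_Ann]
    apply Finsupp.lhom_ext
    intro C r
    obtain ⟨ω⟩ := (inferInstance : Nonempty Ω)
    exact (C ω).elim0
  obtain ⟨s0⟩ := exists_tuple' (Ω := Ω) 0
  obtain ⟨d, -, s, x, -, rfl⟩ := exists_emb s0 y
  apply ann_emb
  apply LinearMap.ext
  intro φ
  funext w
  rw [act_apply]
  have key : ∀ w' : Fin d → Fin n, (∑ σ : Perm (Fin d), if w ∘ σ = w' then x.coeff σ else 0) = 0 := by
    intro w'
    by_cases hex : ∃ τ : Perm (Fin d), w' = w ∘ τ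
    · obtain ⟨τ, rfl⟩ := hex
      have h1 : emb K s (x * MonoidAlgebra.of K _ τ⁻¹) ∈ J := by
        rw [map_mul]
        exact J.mul_mem_right _ _ hy
      refine Eq.trans ?_ (an_claim hn hJ s _ h1 w)
      rw [← Equiv.sum_comp (Equiv.mulRight τ)]
      refine Finset.sum_congr rfl fun g _ => ?_
      rw [Equiv.coe_mulRight]
      have h3 : (x * MonoidAlgebra.of K (Perm (Fin d)) τ⁻¹).coeff g = x.coeff (g * τ) := by
        rw [MonoidAlgebra.of_apply, MonoidAlgebra.coeff_mul_single_eq_coeff_mul (g * τ), mul_one]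
        intro m' _
        rw [mul_inv_eq_iff_eq_mul]
      rw [h3]
      refine if_congr ?_ rfl rfl
      constructor
      · intro h
        funext i
        have h4 := congrFun h (τ⁻¹ i)
        simpa using h4
      · intro h
        funext i
        have h4 := congrFun h (τ i)
        simpa using h4
    · push Not at hex
      refine Finset.sum_eq_zero fun σ _ => ?_
      rw [if_neg fun h => hex σ h.symm]
  have h6 : ∀ σ : Perm (Fin d), x.coeff σ * φ (w ∘ σ) =
      ∑ w' : Fin d → Fin n, (if w ∘ σ = w' then x.coeff σ else 0) * φ w' := by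
    intro σ
    rw [Finset.sum_eq_single (w ∘ σ)]
    · rw [if_pos rfl]
    · intro w' _ h
      rw [if_neg (Ne.symm h), zero_mul]
    · intro h
      exact absurd (Finset.mem_univ _) h
  rw [Finset.sum_congr rfl fun σ _ => h6 σ, Finset.sum_comm]
  refine Finset.sum_eq_zero fun w' _ => ?_
  rw [← Finset.sum_mul, key w', zero_mul]

theorem nilFree_bot [Infinite Ω] : NilFree (⊥ : Ideals K Ω) := by
  intro J hJ
  rw [← iInf_Ann]
  refine le_iInf fun n => nilFree_ann n J fun y hy => ?_
  obtain ⟨N, hN⟩ := hJ y hy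
  exact ⟨N, (bot_le : (⊥ : Ideals K Ω) ≤ Ann K Ω n) hN⟩

end NoethSym
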