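import Pool.Agent.Lib.MP_a8d7f7_al.N.Act
import Pool.Agent.Lib.MP_a8d7f7_al.P.O1c

/-!
# MP_a8d7f7_al, semiprimitive ideals, module App: two tableaux side by side
`Tab.app T S`: on `Fin (d + m)`, rows `Fin.append`, columns `2 * T.col` and `2 * S.col + 1`.
`z_app`: the permutations of `Fin (d + m)` which keep the columns of `T.app S` keep the two blocks (parity of the column), so are
`finSumFinEquiv.permCongr (Equiv.sumCongr σ τ)` with `σ, τ` keeping the columns; signs multiply (`Equiv.Perm.sign_sumCongr`, `Equiv.Perm.sign_permCongr`), and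
`Fin.append w v ∘ (σ, τ) = Fin.append (w ∘ σ) (v ∘ τ)`.
`act_incl`: for `x = σ`: `σ.viaFintypeEmbedding (Fin.castAddEmb m)` acts on `Fin.append w v` through `w` (`Perm.viaFintypeEmbedding_apply_image`, `..._apply_notMem_range`),
`incl` is linear (`SmallPrime.incl_of`, `incl_add`, `incl_smul` in `P/O1c.lean`).
-/

set_option autoImplicit false
set_option linter.unusedSectionVars false
set_option linter.unusedVariables false

namespace NoethSym

open Finset Equiv FinSym
open SmallPrime (IsPrime SAlg incl)
open ThreeLetter (Ideals)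

variable {K : Type*} [Field K] {n : ℕ}

/-- two tableaux side by side -/
def Tab.app {d m : ℕ} (T : Tab (Fin d) n) (S : Tab (Fin m) n) : Tab (Fin (d + m)) n where
  row := Fin.append T.row S.row
  col := Fin.append (fun x => 2 * T.col x) (fun x => 2 * S.col x + 1)
  inj := by
    intro x y
    refine Fin.addCases (fun x => ?_) (fun x => ?_) x <;> refine Fin.addCases (fun y => ?_) (fun y => ?_) y
    · simp only [Fin.append_left]
      intro h1 h2
      rw [T.inj x y h1 (by omega)]
    · simp only [Fin.append_left, Fin.append_right]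
      intro h1 h2
      omega
    · simp only [Fin.append_left, Fin.append_right]
      intro h1 h2
      omega
    · simp only [Fin.append_right]
      intro h1 h2
      rw [S.inj x y h1 (by omega)]
  down := by
    intro x i
    refine Fin.addCases (fun x => ?_) (fun x => ?_) x
    · simp only [Fin.append_left]
      intro hi
      obtain ⟨y, h1, h2⟩ := T.down x i hi
      exact ⟨Fin.castAdd m y, by simp only [Fin.append_left]; rw [h1], by simp only [Fin.append_left]; exact h2⟩
    · simp only [Fin.append_right]
      intro hi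
      obtain ⟨y, h1, h2⟩ := S.down x i hi
      exact ⟨Fin.natAdd d y, by simp only [Fin.append_right]; rw [h1], by simp only [Fin.append_right]; exact h2⟩

theorem ct_append {d m : ℕ} (w : Fin d → Fin n) (v : Fin m → Fin n) (i : Fin n) :
    ct (Fin.append w v) i = ct w i + ct v i := by
  unfold ct
  rw [card_filter, card_filter, card_filter, Fin.sum_univ_add]
  simp only [Fin.append_left, Fin.append_right]

/-- two permutations side by side -/
private def appBlk {d m : ℕ} (σ : Perm (Fin d)) (τ : Perm (Fin m)) : Perm (Fin (d + m)) :=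
  finSumFinEquiv.permCongr (Perm.sumCongr σ τ)

private theorem appBlk_left {d m : ℕ} (σ : Perm (Fin d)) (τ : Perm (Fin m)) (x : Fin d) :
    appBlk σ τ (Fin.castAdd m x) = Fin.castAdd m (σ x) := by
  unfold appBlk
  rw [Equiv.permCongr_apply, finSumFinEquiv_symm_apply_castAdd]
  rfl

private theorem appBlk_right {d m : ℕ} (σ : Perm (Fin d)) (τ : Perm (Fin m)) (x : Fin m) :
    appBlk σ τ (Fin.natAdd d x) = Fin.natAdd d (τ x) := by
  unfold appBlk
  rw [Equiv.permCongr_apply, finSumFinEquiv_symm_apply_natAdd]
  rfl

private theorem append_comp_appBlk {d m : ℕ} {β : Type*} (σ : Perm (Fin d)) (τ : Perm (Fin m)) (w : Fin d → β)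
    (v : Fin m → β) : Fin.append w v ∘ appBlk σ τ = Fin.append (w ∘ σ) (v ∘ τ) := by
  funext x
  refine Fin.addCases (fun x => ?_) (fun x => ?_) x
  · rw [Function.comp_apply, appBlk_left, Fin.append_left, Fin.append_left]
    rfl
  · rw [Function.comp_apply, appBlk_right, Fin.append_right, Fin.append_right]
    rfl

private theorem append_eq_iff {d m : ℕ} {β : Type*} (w w' : Fin d → β) (v v' : Fin m → β) :
    Fin.append w v = Fin.append w' v' ↔ w = w' ∧ v = v' := by
  constructor
  · intro h
    constructor
    · funext x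
      have := congrFun h (Fin.castAdd m x)
      rwa [Fin.append_left, Fin.append_left] at this
    · funext x
      have := congrFun h (Fin.natAdd d x)
      rwa [Fin.append_right, Fin.append_right] at this
  · rintro ⟨rfl, rfl⟩
    rfl

private theorem appBlk_inj {d m : ℕ} {σ σ' : Perm (Fin d)} {τ τ' : Perm (Fin m)}
    (h : appBlk σ τ = appBlk σ' τ') : σ = σ' ∧ τ = τ' := by
  constructor
  · ext x
    have h1 : appBlk σ τ (Fin.castAdd m x) = appBlk σ' τ' (Fin.castAdd m x) := by rw [h]
    rw [appBlk_left, appBlk_left] at h1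
    exact congrArg Fin.val (Fin.castAdd_injective d m h1)
  · ext x
    have h1 : appBlk σ τ (Fin.natAdd d x) = appBlk σ' τ' (Fin.natAdd d x) := by rw [h]
    rw [appBlk_right, appBlk_right] at h1
    exact congrArg Fin.val (Fin.natAdd_injective m d h1)

private theorem sign_appBlk {d m : ℕ} (σ : Perm (Fin d)) (τ : Perm (Fin m)) :
    Perm.sign (appBlk σ τ) = Perm.sign σ * Perm.sign τ := by
  unfold appBlk
  rw [Perm.sign_permCongr, Perm.sign_sumCongr]

/-- the permutations which keep the columns keep the blocks -/
private theorem exists_appBlk {d m : ℕ} (T : Tab (Fin d) n) (S : Tab (Fin m) n) (ρ : Perm (Fin (d + m)))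
    (h : ∀ x, (T.app S).col (ρ x) = (T.app S).col x) : ∃ σ τ, ρ = appBlk σ τ := by
  have h1 : Set.MapsTo (finSumFinEquiv.symm.permCongr ρ) (Set.range Sum.inl)
      (Set.range (Sum.inl : Fin d → Fin d ⊕ Fin m)) := by
    rintro _ ⟨x, rfl⟩
    rw [Equiv.permCongr_apply, Equiv.symm_symm, finSumFinEquiv_apply_left]
    have h2 := h (Fin.castAdd m x)
    have h3 : (T.app S).col (Fin.castAdd m x) = 2 * T.col x :=
      Fin.append_left (fun x => 2 * T.col x) (fun x => 2 * S.col x + 1) x
    rw [h3] at h2
    generalize ρ (Fin.castAdd m x) = y at h2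
    revert h2
    refine Fin.addCases (fun y => ?_) (fun y => ?_) y
    · intro _
      exact ⟨y, (finSumFinEquiv_symm_apply_castAdd y).symm⟩
    · intro h2
      have h4 : (T.app S).col (Fin.natAdd d y) = 2 * S.col y + 1 :=
        Fin.append_right (fun x => 2 * T.col x) (fun x => 2 * S.col x + 1) y
      rw [h4] at h2
      omega
  obtain ⟨⟨σ, τ⟩, h2⟩ := Perm.mem_sumCongrHom_range_of_perm_mapsTo_inl h1
  refine ⟨σ, τ, ?_⟩
  have h3 : Perm.sumCongr σ τ = finSumFinEquiv.symm.permCongr ρ := h2
  unfold appBlk
  rw [h3]
  ext x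
  rw [Equiv.permCongr_apply, Equiv.permCongr_apply, Equiv.symm_symm, Equiv.apply_symm_apply, Equiv.apply_symm_apply]

theorem z_app {d m : ℕ} (T : Tab (Fin d) n) (S : Tab (Fin m) n) (w : Fin d → Fin n)
    (v : Fin m → Fin n) : z K (T.app S) (Fin.append w v) = z K T w * z K S v := by
  unfold z
  rw [Fintype.sum_mul_sum, ← sum_product', univ_product_univ]
  symm
  refine sum_of_injOn (fun q : Perm (Fin d) × Perm (Fin m) => appBlk q.1 q.2) ?_ ?_ ?_ ?_
  · rintro ⟨σ, τ⟩ _ ⟨σ', τ'⟩ _ h
    have h1 : σ = σ' ∧ τ = τ' := appBlk_inj h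
    rw [h1.1, h1.2]
  · intro q _
    exact mem_coe.2 (mem_univ _)
  · intro ρ _ h
    rw [if_neg]
    rintro ⟨h1, -⟩
    obtain ⟨σ, τ, h2⟩ := exists_appBlk T S ρ h1
    exact h ⟨(σ, τ), mem_coe.2 (mem_univ _), h2.symm⟩
  · rintro ⟨σ, τ⟩ _
    have hcol : (∀ x, (T.app S).col (appBlk σ τ x) = (T.app S).col x) ↔
        (∀ x, T.col (σ x) = T.col x) ∧ ∀ x, S.col (τ x) = S.col x := by
      have h0 : (∀ x, (T.app S).col (appBlk σ τ x) = (T.app S).col x) ↔
          (T.app S).col ∘ appBlk σ τ = (T.app S).col := by
        constructor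
        · intro h
          funext x
          exact h x
        · intro h x
          exact congrFun h x
      rw [h0]
      have h1 : (T.app S).col = Fin.append (fun x => 2 * T.col x) (fun x => 2 * S.col x + 1) := rfl
      rw [h1, append_comp_appBlk, append_eq_iff]
      constructor
      · rintro ⟨h2, h3⟩
        constructor
        · intro x
          have := congrFun h2 x
          simp only [Function.comp_apply] at this
          omega
        · intro x
          have := congrFun h3 x
          simp only [Function.comp_apply] at this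
          omega
      · rintro ⟨h2, h3⟩
        constructor
        · funext x
          simp only [Function.comp_apply]
          rw [h2]
        · funext x
          simp only [Function.comp_apply]
          rw [h3]
    have hrow : Fin.append w v ∘ appBlk σ τ = (T.app S).row ↔ w ∘ σ = T.row ∧ v ∘ τ = S.row := by
      have h1 : (T.app S).row = Fin.append T.row S.row := rfl
      rw [h1, append_comp_appBlk, append_eq_iff]
    have hsgn := sign_appBlk σ τ
    dsimp only
    by_cases h1 : (∀ x, T.col (σ x) = T.col x) ∧ w ∘ σ = T.row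
    · by_cases h2 : (∀ x, S.col (τ x) = S.col x) ∧ v ∘ τ = S.row
      · rw [if_pos h1, if_pos h2, if_pos ⟨hcol.2 ⟨h1.1, h2.1⟩, hrow.2 ⟨h1.2, h2.2⟩⟩, hsgn]
        push_cast
        rfl
      · rw [if_neg h2, mul_zero, if_neg]
        rintro ⟨h3, h4⟩
        exact h2 ⟨(hcol.1 h3).2, (hrow.1 h4).2⟩
    · rw [if_neg h1, zero_mul, if_neg]
      rintro ⟨h3, h4⟩
      exact h1 ⟨(hcol.1 h3).1, (hrow.1 h4).1⟩

private theorem append_comp_via {d m : ℕ} (σ : Perm (Fin d)) (w : Fin d → Fin n) (v : Fin m → Fin n) :
    Fin.append w v ∘ (σ.viaFintypeEmbedding (Fin.castAddEmb m)) = Fin.append (w ∘ σ) v := by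
  funext x
  refine Fin.addCases (fun x => ?_) (fun x => ?_) x
  · have h1 := Perm.viaFintypeEmbedding_apply_image σ (Fin.castAddEmb m) x
    rw [Fin.castAddEmb_apply, Fin.castAddEmb_apply] at h1
    rw [Function.comp_apply, h1, Fin.append_left, Fin.append_left]
    rfl
  · have h1 : Fin.natAdd d x ∉ Set.range (Fin.castAddEmb m : Fin d ↪ Fin (d + m)) := by
      rintro ⟨y, hy⟩
      rw [Fin.castAddEmb_apply] at hy
      have := congrArg Fin.val hy
      simp only [Fin.val_castAdd, Fin.val_natAdd] at this
      omega
    rw [Function.comp_apply, Perm.viaFintypeEmbedding_apply_notMem_range σ _ h1, Fin.append_right, Fin.append_right]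

theorem act_incl {d m : ℕ} (x : SAlg K d) (f : (Fin (d + m) → Fin n) → K) (w : Fin d → Fin n)
    (v : Fin m → Fin n) : act K n (incl (Fin.castAddEmb m) x) f (Fin.append w v) =
      act K n x (fun w' => f (Fin.append w' v)) w := by
  induction x using MonoidAlgebra.induction_on with
  | of σ =>
    rw [SmallPrime.incl_of, act_of, act_of]
    dsimp only
    rw [append_comp_via]
  | add x y hx hy =>
    rw [SmallPrime.incl_add, map_add, map_add, LinearMap.add_apply, LinearMap.add_apply, Pi.add_apply, Pi.add_apply, hx, hy]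
  | smul r x hx =>
    rw [SmallPrime.incl_smul, map_smul, map_smul, LinearMap.smul_apply, LinearMap.smul_apply, Pi.smul_apply, Pi.smul_apply, hx]

theorem incl_mul_castAdd {d m : ℕ} (x y : SAlg K d) :
    incl (Fin.castAddEmb m) (x * y) = incl (Fin.castAddEmb m) x * incl (Fin.castAddEmb m) y := by
  induction x using MonoidAlgebra.induction_on with
  | of σ =>
    induction y using MonoidAlgebra.induction_on with
    | of τ =>
      rw [← map_mul, SmallPrime.incl_of, SmallPrime.incl_of, SmallPrime.incl_of, ← map_mul]
      congr 1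
      unfold Perm.viaFintypeEmbedding
      rw [Perm.extendDomain_mul]
    | add x y hx hy =>
      rw [mul_add, SmallPrime.incl_add, SmallPrime.incl_add, hx, hy, mul_add]
    | smul r x hx =>
      rw [mul_smul_comm, SmallPrime.incl_smul, SmallPrime.incl_smul, hx, mul_smul_comm]
  | add x y hx hy =>
    rw [add_mul, SmallPrime.incl_add, SmallPrime.incl_add, hx, hy, add_mul]
  | smul r x hx =>
    rw [smul_mul_assoc, SmallPrime.incl_smul, SmallPrime.incl_smul, hx, smul_mul_assoc]

end NoethSym
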