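import Pool.Agent.Lib.MP_a8d7f7_al.N.Box
import Pool.Agent.Lib.MP_a8d7f7_al.P.U0b

/-!
# MP_a8d7f7_al, semiprimitive ideals: the sets `KB c` (helper13)
-/

set_option autoImplicit false
set_option linter.unusedSectionVars false
set_option linter.unusedVariables false

namespace NoethSym

open Finset Equiv FinSym
open SmallPrime (IsPrime SAlg incl emb)
open ThreeLetter (Ideals)

/-- no `p` equal nonzero entries (for antitone `a`) -/
def PReg (p : ℕ) {n : ℕ} (a : Fin n → ℕ) : Prop :=
  ∀ i j : Fin n, (i : ℕ) + (p - 1) = j → a i ≠ 0 → a j ≠ a i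

/-- the antitone `a` whose gaps are at most `c` -/
def Below {n : ℕ} (c : Fin n → ℕ∞) (a : Fin n → ℕ) : Prop :=
  Antitone a ∧ ∀ i, (gap a i : ℕ∞) ≤ c i

/-- `y` kills the modules `D^a` for all large `a` with gaps at most `c`: every `x ∈ K[S_e]`, `e` large,
which represents `y` along a tuple of letters satisfies `InK a` for all `a` of size `e` -/
def KB {K : Type*} [Field K] {Ω : Type*} {n : ℕ} (c : Fin n → ℕ∞) (y : MonoidAlgebra K (FSym Ω)) :
    Prop :=
  ∃ N : ℕ, ∀ (e : ℕ) (s : Fin e ↪ Ω) (x : SAlg K e), N ≤ e → emb K s x = y →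
    ∀ a : Fin n → ℕ, Below c a → ∑ i, a i = e → InK a x

end NoethSym
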