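import Pool.Agent.Lib.MP_a8d7f7_al.N.Act

/-!
# MP_a8d7f7_al, semiprimitive ideals, module Box: lower sets of `ℕ^n` are finite unions of boxes (helper13)
-/

set_option autoImplicit false
set_option linter.unusedSectionVars false
set_option linter.unusedVariables false

namespace NoethSym

open Finset

/-- the gaps of a content (the last one is the last entry) -/
def gap {n : ℕ} (a : Fin n → ℕ) : Fin n → ℕ :=
  fun i => a i - (if h : (i : ℕ) + 1 < n then a ⟨i + 1, h⟩ else 0)

/-- the gaps of `a` are bounded by one of the (possibly infinite) bounds in `C` -/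
def InBox {n : ℕ} (C : Finset (Fin n → ℕ∞)) (a : Fin n → ℕ) : Prop :=
  ∃ c ∈ C, ∀ i, (gap a i : ℕ∞) ≤ c i

/-- `D` is a finite union of boxes -/
private def Bx {n : ℕ} (D : Set (Fin n → ℕ)) : Prop :=
  ∃ C : Finset (Fin n → ℕ∞), ∀ a, a ∈ D ↔ ∃ c ∈ C, ∀ i, (a i : ℕ∞) ≤ c i

private theorem bx_univ {n : ℕ} : Bx (Set.univ : Set (Fin n → ℕ)) := by
  classical
  exact ⟨{fun _ => ⊤}, fun a => by simp⟩

private theorem bx_inter {n : ℕ} {D D' : Set (Fin n → ℕ)} (h : Bx D) (h' : Bx D') : Bx (D ∩ D') := by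
  classical
  obtain ⟨C, hC⟩ := h
  obtain ⟨C', hC'⟩ := h'
  refine ⟨(C ×ˢ C').image fun q => q.1 ⊓ q.2, fun a => ?_⟩
  rw [Set.mem_inter_iff, hC, hC']
  constructor
  · rintro ⟨⟨c, hc, h1⟩, ⟨c', hc', h2⟩⟩
    exact ⟨c ⊓ c', mem_image.2 ⟨(c, c'), mem_product.2 ⟨hc, hc'⟩, rfl⟩, fun i => le_inf (h1 i) (h2 i)⟩
  · rintro ⟨c, hc, h1⟩
    obtain ⟨⟨c1, c2⟩, h3, rfl⟩ := mem_image.1 hc
    rw [mem_product] at h3
    exact ⟨⟨c1, h3.1, fun i => (h1 i).trans inf_le_left⟩, ⟨c2, h3.2, fun i => (h1 i).trans inf_le_right⟩⟩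

private theorem bx_not {n : ℕ} (m : Fin n → ℕ) : Bx {a : Fin n → ℕ | ¬ m ≤ a} := by
  classical
  refine ⟨(univ.filter fun i => 0 < m i).image fun i => Function.update (fun _ => ⊤) i ((m i - 1 : ℕ) : ℕ∞),
    fun a => ?_⟩
  rw [Set.mem_ofPred_eq, Pi.le_def]
  push Not
  constructor
  · rintro ⟨i, hi⟩
    refine ⟨_, mem_image.2 ⟨i, mem_filter.2 ⟨mem_univ _, by omega⟩, rfl⟩, fun j => ?_⟩
    by_cases hj : j = i
    · subst hj
      rw [Function.update_self]
      exact_mod_cast Nat.le_sub_one_of_lt hi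
    · rw [Function.update_of_ne hj]
      exact le_top
  · rintro ⟨c, hc, h1⟩
    obtain ⟨i, hi, rfl⟩ := mem_image.1 hc
    have hm := (mem_filter.1 hi).2
    have h2 := h1 i
    rw [Function.update_self] at h2
    have h3 : a i ≤ m i - 1 := by exact_mod_cast h2
    exact ⟨i, by omega⟩

theorem lower_boxes {n : ℕ} (D : Set (Fin n → ℕ)) (hD : IsLowerSet D) :
    ∃ C : Finset (Fin n → ℕ∞), ∀ a, a ∈ D ↔ ∃ c ∈ C, ∀ i, (a i : ℕ∞) ≤ c i := by
  classical
  have hfin : {m : Fin n → ℕ | Minimal (· ∉ D) m}.Finite :=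
    WellQuasiOrderedLE.finite_of_isAntichain (setOfPred_minimal_antichain _)
  have key : ∀ S : Finset (Fin n → ℕ), Bx {a : Fin n → ℕ | ∀ m ∈ S, ¬ m ≤ a} := by
    intro S
    induction S using Finset.induction_on with
    | empty =>
      obtain ⟨C, hC⟩ := bx_univ (n := n)
      exact ⟨C, fun a => by rw [← hC]; simp⟩
    | insert m S hm ih =>
      obtain ⟨C, hC⟩ := bx_inter (bx_not m) ih
      refine ⟨C, fun a => ?_⟩
      rw [← hC]
      simp
  obtain ⟨C, hC⟩ := key hfin.toFinset
  refine ⟨C, fun a => ?_⟩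
  rw [← hC]
  constructor
  · intro ha m hm hma
    rw [Set.Finite.mem_toFinset] at hm
    have hm2 : Minimal (· ∉ D) m := hm
    exact hm2.prop (hD hma ha)
  · intro h
    by_contra ha
    obtain ⟨m, hma, hm⟩ := exists_minimal_le_of_wellFoundedLT (· ∉ D) a ha
    exact h m ((Set.Finite.mem_toFinset _).2 hm) hma

/-- the gaps of a sum -/
theorem gap_add {n : ℕ} {a b : Fin n → ℕ} (ha : Antitone a) (hb : Antitone b) :
    gap (a + b) = gap a + gap b := by
  ext i
  simp only [gap, Pi.add_apply]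
  split_ifs with h
  · have h1 : (i : Fin n) ≤ ⟨i + 1, h⟩ := by
      rw [Fin.le_def]
      exact Nat.le_succ _
    have h2 := ha h1
    have h3 := hb h1
    omega
  · omega

/-- a content with smaller gaps is smaller by a dominant content -/
theorem exists_add {n : ℕ} : ∀ {a b : Fin n → ℕ}, Antitone a → Antitone b → gap a ≤ gap b →
    ∃ c : Fin n → ℕ, Antitone c ∧ b = a + c := by
  intro a b ha hb h
  have key : ∀ k : ℕ, ∀ i : Fin n, (i : ℕ) + k = n - 1 → a i ≤ b i := by
    intro k
    induction k with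
    | zero =>
      intro i hi
      have h1 := h i
      simp only [gap] at h1
      rw [dif_neg (by omega), dif_neg (by omega)] at h1
      omega
    | succ k ih =>
      intro i hi
      have h2 : (i : ℕ) + 1 < n := by omega
      have h1 := h i
      simp only [gap] at h1
      rw [dif_pos h2, dif_pos h2] at h1
      have h3 := ih ⟨i + 1, h2⟩ (by simp only; omega)
      have h4 : (i : Fin n) ≤ ⟨i + 1, h2⟩ := by
        rw [Fin.le_def]
        exact Nat.le_succ _
      have h5 := ha h4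
      have h6 := hb h4
      omega
  have hle : ∀ i, a i ≤ b i := fun i => key (n - 1 - i) i (by omega)
  refine ⟨fun i => b i - a i, ?_, funext fun i => by have := hle i; simp only [Pi.add_apply]; omega⟩
  have step : ∀ (i j : Fin n), (i : ℕ) + 1 = j → b j - a j ≤ b i - a i := by
    intro i j hij
    have h2 : (i : ℕ) + 1 < n := by omega
    have hj : j = ⟨i + 1, h2⟩ := Fin.ext hij.symm
    have h1 := h i
    simp only [gap] at h1
    rw [dif_pos h2, dif_pos h2, ← hj] at h1
    have h4 : (i : Fin n) ≤ j := by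
      rw [Fin.le_def]
      omega
    have h5 := ha h4
    have h6 := hb h4
    have h7 := hle i
    have h8 := hle j
    omega
  have key2 : ∀ k : ℕ, ∀ (i j : Fin n), (i : ℕ) + k = j → b j - a j ≤ b i - a i := by
    intro k
    induction k with
    | zero =>
      intro i j hij
      have : i = j := Fin.ext (by omega)
      rw [this]
    | succ k ih =>
      intro i j hij
      have h2 : (i : ℕ) + k < n := by omega
      exact (step ⟨i + k, h2⟩ j (by simp only; omega)).trans (ih i ⟨i + k, h2⟩ rfl)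
  intro i j hij
  rw [Fin.le_def] at hij
  exact key2 (j - i) i j (by omega)

end NoethSym
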