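import Pool.Agent.Lib.MP_a8d7f7_al.N.Conj

/-!
# MP_a8d7f7_al, semiprimitive ideals, module Ink: `InK` is a two-sided ideal, and maximal (helper13)

`InK a x` iff `⟨act x f, g⟩ = 0` for all `f, g ∈ Sp K a`. Maximality by a generalized inverse of the Gram
matrix of a basis of `Sp K a`.
-/

set_option autoImplicit false
set_option linter.unusedSectionVars false
set_option linter.unusedVariables false

namespace NoethSym

open Finset Equiv FinSym
open SmallPrime (IsPrime SAlg incl)
open ThreeLetter (Ideals)

variable {K : Type*} [Field K] {α : Type*} [Fintype α] [DecidableEq α] {n : ℕ}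

theorem inK_iff {a : Fin n → ℕ} {x : MonoidAlgebra K (Perm α)} :
    InK a x ↔ ∀ f ∈ Sp K (α := α) a, ∀ g ∈ Sp K (α := α) a, dotProduct (act K n x f) g = 0 := by
  constructor
  · intro h f hf g hg
    unfold Sp at hf hg
    induction hf using Submodule.span_induction with
    | mem f hf =>
      obtain ⟨T, hT, rfl⟩ := hf
      induction hg using Submodule.span_induction with
      | mem g hg =>
        obtain ⟨T', hT', rfl⟩ := hg
        exact h T T' hT hT'
      | zero => exact dotProduct_zero _
      | add g g' _ _ h1 h2 => rw [dotProduct_add, h1, h2, add_zero]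
      | smul c g _ h1 => rw [dotProduct_smul, h1, smul_zero]
    | zero => rw [map_zero, zero_dotProduct]
    | add f f' _ _ h1 h2 => rw [map_add, add_dotProduct, h1, h2, add_zero]
    | smul c f _ h1 => rw [map_smul, smul_dotProduct, h1, smul_zero]
  · intro h T T' hT hT'
    exact h _ (Submodule.subset_span ⟨T, hT, rfl⟩) _ (Submodule.subset_span ⟨T', hT', rfl⟩)

theorem inK_add {a : Fin n → ℕ} {x y : MonoidAlgebra K (Perm α)} (hx : InK a x) (hy : InK a y) :
    InK a (x + y) := by
  intro T T' hT hT'
  rw [map_add, LinearMap.add_apply, add_dotProduct, hx T T' hT hT', hy T T' hT hT', add_zero]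

theorem inK_smul {a : Fin n → ℕ} (c : K) {x : MonoidAlgebra K (Perm α)} (hx : InK a x) :
    InK a (c • x) := by
  intro T T' hT hT'
  rw [map_smul, LinearMap.smul_apply, smul_dotProduct, hx T T' hT hT', smul_zero]

theorem inK_mul {a : Fin n → ℕ} {x : MonoidAlgebra K (Perm α)} (hx : InK a x)
    (y y' : MonoidAlgebra K (Perm α)) : InK a (y * x * y') := by
  rw [inK_iff]
  intro f hf g hg
  rw [map_mul, map_mul, Module.End.mul_apply, Module.End.mul_apply, dot_act]
  exact inK_iff.1 hx _ (act_mem_Sp y' hf) _ (act_mem_Sp _ hg)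

/-- the vectors of the span have content `a` -/
theorem Sp_ct {a : Fin n → ℕ} {f : (α → Fin n) → K} (hf : f ∈ Sp K (α := α) a) :
    ∀ w, ct w ≠ a → f w = 0 := by
  unfold Sp at hf
  induction hf using Submodule.span_induction with
  | mem f hf =>
    obtain ⟨T, hT, rfl⟩ := hf
    intro w hw
    exact z_ct T (by rw [hT]; exact hw)
  | zero => intro w _; rfl
  | add f g _ _ h1 h2 => intro w hw; rw [Pi.add_apply, h1 w hw, h2 w hw, add_zero]
  | smul c f _ h1 => intro w hw; rw [Pi.smul_apply, h1 w hw, smul_zero]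

private theorem act_ct {a : Fin n → ℕ} (x : MonoidAlgebra K (Perm α)) {f : (α → Fin n) → K}
    (hf : ∀ w, ct w ≠ a → f w = 0) : ∀ w, ct w ≠ a → act K n x f w = 0 :=
  act_supp (fun w => ct w = a) (fun w σ h => by rw [← ct_comp w σ]; exact h) x f hf

private theorem adj_of (σ : Perm α) :
    adj (MonoidAlgebra.of K (Perm α) σ) = MonoidAlgebra.of K (Perm α) σ⁻¹ := by
  unfold adj
  rw [Finset.sum_eq_single σ]
  · rw [MonoidAlgebra.of_apply, MonoidAlgebra.of_apply, MonoidAlgebra.coeff_single,
      Finsupp.single_eq_same]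
  · intro τ _ hτ
    rw [MonoidAlgebra.of_apply, MonoidAlgebra.coeff_single, Finsupp.single_eq_of_ne hτ,
      MonoidAlgebra.single_zero]
  · intro h
    exact absurd (Finset.mem_univ σ) h

/-- the rank one operators are actions of elements of the ideal -/
private theorem rank_one {a : Fin n → ℕ} {M : TwoSidedIdeal (MonoidAlgebra K (Perm α))}
    {b : MonoidAlgebra K (Perm α)} (hb : b ∈ M) (hnb : ¬ InK a b) {v : (α → Fin n) → K}
    (hv : v ∈ Sp K (α := α) a) {v' : (α → Fin n) → K} (hv' : v' ∈ Sp K (α := α) a) :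
    ∃ u ∈ M, ∀ f : (α → Fin n) → K, (∀ w, ct w ≠ a → f w = 0) →
      act K n u f = dotProduct f v • v' := by
  unfold InK at hnb
  push Not at hnb
  obtain ⟨T, T', hT, hT', hγ⟩ := hnb
  set γ := dotProduct (act K n b (z K T)) (z K T') with hγd
  unfold Sp at hv hv'
  induction hv using Submodule.span_induction with
  | mem v hv =>
    obtain ⟨S, hS, rfl⟩ := hv
    induction hv' using Submodule.span_induction with
    | mem v' hv' =>
      obtain ⟨S', hS', rfl⟩ := hv'
      obtain ⟨σ, hσ⟩ := conj (K := K) T S (hT.trans hS.symm)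
      obtain ⟨τ, hτ⟩ := conj (K := K) T' S' (hT'.trans hS'.symm)
      refine ⟨γ⁻¹ • (MonoidAlgebra.of K (Perm α) τ * (kap K T' * b * kap K T) *
        MonoidAlgebra.of K (Perm α) σ⁻¹), ?_, ?_⟩
      · apply smul_mem_ideal
        apply M.mul_mem_right
        apply M.mul_mem_left
        apply M.mul_mem_right
        exact M.mul_mem_left _ _ hb
      · intro f hf
        have h1 := act_ct (MonoidAlgebra.of K (Perm α) σ⁻¹) hf
        have h2 : act K n (kap K T) (act K n (MonoidAlgebra.of K (Perm α) σ⁻¹) f) =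
            dotProduct f (z K S) • z K T := by
          rw [act_kap T _ (by rw [hT]; exact h1), dot_act, adj_of, inv_inv, ← hσ]
        have h3 : act K n (kap K T') (act K n b (z K T)) = γ • z K T' := by
          rw [act_kap T' _ (by
            rw [hT']
            exact act_ct b (fun w hw => z_ct T (by rw [hT]; exact hw)))]
        rw [map_smul, LinearMap.smul_apply, map_mul, map_mul, map_mul, map_mul,
          Module.End.mul_apply, Module.End.mul_apply, Module.End.mul_apply, Module.End.mul_apply,
          h2, map_smul, map_smul, h3, map_smul, map_smul, ← hτ, smul_smul, smul_smul]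
        congr 1
        field_simp
    | zero => exact ⟨0, M.zero_mem, fun f _ => by rw [map_zero, smul_zero]; rfl⟩
    | add v v' _ _ h1 h2 =>
      obtain ⟨u, hu, h1⟩ := h1
      obtain ⟨u', hu', h2⟩ := h2
      refine ⟨u + u', M.add_mem hu hu', fun f hf => ?_⟩
      rw [map_add, LinearMap.add_apply, h1 f hf, h2 f hf, smul_add]
    | smul c v _ h1 =>
      obtain ⟨u, hu, h1⟩ := h1
      refine ⟨c • u, smul_mem_ideal c hu, fun f hf => ?_⟩
      rw [map_smul, LinearMap.smul_apply, h1 f hf, smul_comm]
  | zero => exact ⟨0, M.zero_mem, fun f _ => by rw [map_zero, dotProduct_zero, zero_smul]; rfl⟩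
  | add v v' _ _ h1 h2 =>
    obtain ⟨u, hu, h1⟩ := h1
    obtain ⟨u', hu', h2⟩ := h2
    refine ⟨u + u', M.add_mem hu hu', fun f hf => ?_⟩
    rw [map_add, LinearMap.add_apply, h1 f hf, h2 f hf, dotProduct_add, add_smul]
  | smul c v _ h1 =>
    obtain ⟨u, hu, h1⟩ := h1
    refine ⟨c • u, smul_mem_ideal c hu, fun f hf => ?_⟩
    rw [map_smul, LinearMap.smul_apply, h1 f hf, dotProduct_smul, smul_eq_mul, mul_smul]

/-- an ideal which contains all `x` with `InK a x` and one more element is everything -/
theorem ink_max {a : Fin n → ℕ} {M : TwoSidedIdeal (MonoidAlgebra K (Perm α))}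
    (h : ∀ x, InK a x → x ∈ M) {b : MonoidAlgebra K (Perm α)} (hb : b ∈ M) (hnb : ¬ InK a b) :
    M = ⊤ := by
  classical
  let V := Sp K (α := α) a
  let e := Module.finBasis K V
  let φ : V →ₗ[K] (Fin (Module.finrank K V) → K) :=
    { toFun := fun f i => dotProduct (f : (α → Fin n) → K) (e i : (α → Fin n) → K)
      map_add' := by
        intro f g
        ext i
        simp [add_dotProduct]
      map_smul' := by
        intro c f
        ext i
        simp [smul_dotProduct] }
  obtain ⟨s, hs⟩ := φ.rangeRestrict.exists_rightInverse_of_surjective φ.range_rangeRestrict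
  obtain ⟨ψ, hψ⟩ := LinearMap.exists_extend s
  have hφ : ∀ f : V, φ (ψ (φ f)) = φ f := by
    intro f
    have h1 : ψ (φ f) = s ⟨φ f, LinearMap.mem_range_self φ f⟩ := by
      rw [← hψ]
      rfl
    rw [h1]
    have h2 := LinearMap.congr_fun hs ⟨φ f, LinearMap.mem_range_self φ f⟩
    exact congrArg Subtype.val h2
  have hex : ∀ i, ∃ u ∈ M, ∀ f : (α → Fin n) → K, (∀ w, ct w ≠ a → f w = 0) →
      act K n u f = dotProduct f (e i : (α → Fin n) → K) • ((ψ (Pi.single i 1) : V) : (α → Fin n) → K) :=
    fun i => rank_one hb hnb (e i).2 (ψ (Pi.single i 1)).2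
  choose u hu huf using hex
  have hact : ∀ f : V, act K n (∑ i, u i) (f : (α → Fin n) → K) = ((ψ (φ f) : V) : (α → Fin n) → K) := by
    intro f
    rw [map_sum, LinearMap.sum_apply]
    have h1 : ψ (φ f) = ∑ i, φ f i • ψ (Pi.single i 1) := by
      have h0 : φ f = ∑ i, φ f i • (Pi.single i 1 : Fin (Module.finrank K V) → K) := by
        ext j
        rw [Finset.sum_apply, Finset.sum_eq_single j]
        · simp
        · intro i _ hij
          rw [Pi.smul_apply, Pi.single_eq_of_ne hij.symm, smul_zero]
        · intro hj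
          exact absurd (Finset.mem_univ j) hj
      conv_lhs => rw [h0, map_sum]
      exact Finset.sum_congr rfl fun i _ => map_smul _ _ _
    rw [h1, Submodule.coe_sum]
    refine Finset.sum_congr rfl fun i _ => ?_
    rw [huf i _ (Sp_ct f.2), Submodule.coe_smul]
    rfl
  have hin : InK a (1 - ∑ i, u i) := by
    rw [inK_iff]
    intro f hf g hg
    rw [map_sub, LinearMap.sub_apply, map_one, Module.End.one_apply, sub_dotProduct]
    have h1 := hact ⟨f, hf⟩
    have h2 : ∀ g : V, dotProduct ((ψ (φ ⟨f, hf⟩) : V) : (α → Fin n) → K) (g : (α → Fin n) → K) =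
        dotProduct f (g : (α → Fin n) → K) := by
      intro g
      have h3 : (g : (α → Fin n) → K) = ∑ i, e.repr g i • (e i : (α → Fin n) → K) := by
        conv_lhs => rw [← e.sum_repr g]
        rw [Submodule.coe_sum]
        rfl
      rw [h3, dotProduct_sum, dotProduct_sum]
      refine Finset.sum_congr rfl fun i _ => ?_
      rw [dotProduct_smul, dotProduct_smul]
      exact congrArg _ (congrFun (hφ ⟨f, hf⟩) i)
    rw [h1]
    have h4 := h2 ⟨g, hg⟩
    simp only at h4
    rw [h4, sub_self]
  have h1 : (1 : MonoidAlgebra K (Perm α)) ∈ M := by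
    have h2 : (1 : MonoidAlgebra K (Perm α)) = (1 - ∑ i, u i) + ∑ i, u i := by abel
    rw [h2]
    exact M.add_mem (h _ hin) (M.finsetSum_mem _ _ fun i _ => hu i)
  rw [eq_top_iff]
  intro x _
  have := M.mul_mem_left x _ h1
  rwa [mul_one] at this

end NoethSym
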