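import Pool.Agent.Lib.MP_a8d7f7_al.N.KI
import Pool.Agent.Lib.MP_a8d7f7_al.N.Ink

/-!
# MP_a8d7f7_al, semiprimitive ideals, module PrimeEq: the prime ideals of `K[S_d]` with at most `n` rows
PROOF. (1) `exists_kills`: the contents of words form a finite set `F = univ.image ct`; `x` with `Kills a x` for all `a ∈ F` has `act x = 0`. A prime ideal which contains the
intersection of finitely many ideals contains one of them. So some `a ∈ F` satisfies: `Kills a x → x ∈ M` for all `x`; choose it with `∑ i * a i` minimal.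
(2) The `x` with `Kills b x` for all `b ∈ F` with smaller weight (then for all `b`: for `b ∉ F` trivial) are not all in `M` (same lemma), take such `x₀ ∉ M`; `adj x₀` has the same
property (`kills_adj`). (3) For `InK a y`: `Kills a (x₀ * y * x₁)` for `x₀, x₁` as in (2): for `f` of content `a` and any `g` (wlog of content `a`, `act_supp`),
`⟨act (x₀ y x₁) f, g⟩ = ⟨act y (act x₁ f), act (adj x₀) g⟩ = 0` since both `act x₁ f`, `act (adj x₀) g` are in `Sp K a` (`hi_of_kills`, `mem_Sp_of_hi`, `act_supp`), `inK_iff`.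
So for all `c, c'`: `x₀ * c * (y * c' * x₀) ∈ M` (`inK_mul`), so `y * c' * x₀ ∈ M` for all `c'`, so `y ∈ M`. (4) If some `b ∈ M` had `¬ InK a b`, then `M = ⊤` by `ink_max`.
-/

set_option autoImplicit false
set_option linter.unusedSectionVars false
set_option linter.unusedVariables false

namespace NoethSym

open Finset Equiv FinSym
open SmallPrime (IsPrime SAlg incl)
open ThreeLetter (Ideals)

variable {K : Type*} [Field K] {n : ℕ}

/-- `Kills a` is closed under multiplication -/
private theorem peq_kills_mul {α : Type*} [Fintype α] [DecidableEq α] {a : Fin n → ℕ}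
    {x : MonoidAlgebra K (Perm α)} (hx : Kills a x) (y y' : MonoidAlgebra K (Perm α)) :
    Kills a (y * x * y') := by
  intro f hf
  have h1 : ∀ w, ct w ≠ a → act K n y' f w = 0 :=
    act_supp (fun w => ct w = a) (fun w σ h => by rwa [ct_comp] at h) y' f hf
  rw [map_mul, map_mul, Module.End.mul_apply, Module.End.mul_apply, hx _ h1, map_zero]

/-- a prime ideal which contains the intersection of finitely many `Kills a` contains one of them -/
private theorem peq_exists {d : ℕ} {M : TwoSidedIdeal (SAlg K d)} (hM : IsPrime M)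
    (S : Finset (Fin n → ℕ)) (hS : ∀ x : SAlg K d, (∀ a ∈ S, Kills a x) → x ∈ M) :
    ∃ a ∈ S, ∀ x : SAlg K d, Kills a x → x ∈ M := by
  classical
  induction S using Finset.induction_on with
  | empty =>
    exfalso
    apply hM.1
    rw [eq_top_iff]
    intro x _
    exact hS x (by simp)
  | insert b S hb ih =>
    by_cases hc : ∀ x : SAlg K d, Kills b x → x ∈ M
    · exact ⟨b, mem_insert_self _ _, hc⟩
    · push Not at hc
      obtain ⟨u, hu, huM⟩ := hc
      obtain ⟨a, ha, ha2⟩ := ih (by
        intro x hx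
        have h1 : ∀ r : SAlg K d, u * r * x ∈ M := by
          intro r
          apply hS
          intro a ha
          rcases mem_insert.1 ha with rfl | ha
          · have := peq_kills_mul hu 1 (r * x)
            rwa [one_mul, ← mul_assoc] at this
          · have := peq_kills_mul (hx a ha) (u * r) 1
            rwa [mul_one] at this
        rcases hM.2 u x h1 with h | h
        · exact absurd h huM
        · exact h)
      exact ⟨a, mem_insert_of_mem ha, ha2⟩

private theorem peq_kills_triv {d : ℕ} {b : Fin n → ℕ} (hb : ∀ w : Fin d → Fin n, ct w ≠ b)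
    (x : SAlg K d) : Kills b x := by
  intro f hf
  have : f = 0 := funext fun w => hf w (hb w)
  rw [this, map_zero]

/-- the key step: products of highest elements with `InK` elements kill the content -/
private theorem peq_kills_of_inK {d : ℕ} {a : Fin n → ℕ} {x₀ x₁ y : SAlg K d}
    (h0 : ∀ b : Fin n → ℕ, ∑ i : Fin n, (i : ℕ) * b i < ∑ i : Fin n, (i : ℕ) * a i → Kills b x₀)
    (h1 : ∀ b : Fin n → ℕ, ∑ i : Fin n, (i : ℕ) * b i < ∑ i : Fin n, (i : ℕ) * a i → Kills b x₁)
    (hy : InK a y) : Kills a (x₀ * y * x₁) := by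
  intro f hf
  have hP : ∀ (w : Fin d → Fin n) (σ : Perm (Fin d)), ct (w ∘ σ) = a → ct w = a :=
    fun w σ h => by rwa [ct_comp] at h
  have e1 : act K n x₁ f ∈ Sp K (α := Fin d) a :=
    mem_Sp_of_hi (act_supp (fun w => ct w = a) hP x₁ f hf) (hi_of_kills h1 hf)
  funext w
  by_cases hw : ct w = a
  · have hg : ∀ v, ct v ≠ a → (Pi.single w (1 : K) : (Fin d → Fin n) → K) v = 0 := by
      intro v hv
      rw [Pi.single_apply, if_neg]
      rintro rfl
      exact hv hw
    have e2 : act K n (adj x₀) (Pi.single w (1 : K)) ∈ Sp K (α := Fin d) a :=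
      mem_Sp_of_hi (act_supp (fun w => ct w = a) hP _ _ hg)
        (hi_of_kills (fun b hb => kills_adj (h0 b hb)) hg)
    have e3 : dotProduct (act K n (x₀ * y * x₁) f) (Pi.single w (1 : K)) = 0 := by
      rw [map_mul, map_mul, Module.End.mul_apply, Module.End.mul_apply, dot_act]
      exact inK_iff.1 hy _ e1 _ e2
    rw [dotProduct_single, mul_one] at e3
    exact e3
  · exact act_supp (fun w => ct w = a) hP _ f hf w hw

theorem prime_eq {d : ℕ} {M : TwoSidedIdeal (SAlg K d)} (hM : IsPrime M)
    (h : ∀ x : SAlg K d, act K n x = 0 → x ∈ M) :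
    ∃ a : Fin n → ℕ, ∀ x, x ∈ M ↔ InK a x := by
  classical
  let F : Finset (Fin n → ℕ) := univ.image (ct : (Fin d → Fin n) → Fin n → ℕ)
  let W : (Fin n → ℕ) → ℕ := fun b => ∑ i : Fin n, (i : ℕ) * b i
  have hF : ∀ b, b ∉ F → ∀ w : Fin d → Fin n, ct w ≠ b := by
    rintro b hb w rfl
    exact hb (mem_image_of_mem _ (mem_univ _))
  have h1 : ∃ a ∈ F, ∀ x : SAlg K d, Kills a x → x ∈ M := by
    apply peq_exists hM
    intro x hx
    apply h
    apply LinearMap.ext
    intro f
    have hdec : f = ∑ b ∈ F, fun w => if ct w = b then f w else 0 := by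
      funext w
      rw [Finset.sum_apply, Finset.sum_ite_eq, if_pos (mem_image_of_mem _ (mem_univ _))]
    rw [hdec, map_sum, LinearMap.zero_apply]
    refine sum_eq_zero fun b hb => ?_
    apply hx b hb
    intro w hw
    exact if_neg hw
  obtain ⟨a0, ha0, ha0'⟩ := h1
  obtain ⟨a, ha, hmin⟩ := Finset.exists_min_image
    (F.filter fun a => ∀ x : SAlg K d, Kills a x → x ∈ M) W ⟨a0, mem_filter.2 ⟨ha0, ha0'⟩⟩
  rw [mem_filter] at ha
  obtain ⟨haF, haM⟩ := ha
  have h2 : ∃ x₀ : SAlg K d, (∀ b ∈ F.filter (fun b => W b < W a), Kills b x₀) ∧ x₀ ∉ M := by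
    by_contra hcon
    push Not at hcon
    obtain ⟨b, hb, hb2⟩ := peq_exists hM _ hcon
    rw [mem_filter] at hb
    have := hmin b (mem_filter.2 ⟨hb.1, hb2⟩)
    omega
  obtain ⟨x₀, hx₀, hx₀M⟩ := h2
  have hx : ∀ b : Fin n → ℕ, W b < W a → Kills b x₀ := by
    intro b hb
    by_cases hbF : b ∈ F
    · exact hx₀ b (mem_filter.2 ⟨hbF, hb⟩)
    · exact peq_kills_triv (hF b hbF) x₀
  have h3 : ∀ y : SAlg K d, InK a y → y ∈ M := by
    intro y hy
    have h4 : ∀ c' : SAlg K d, y * c' * x₀ ∈ M := by
      intro c'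
      have h5 : ∀ c : SAlg K d, x₀ * c * (y * c' * x₀) ∈ M := by
        intro c
        have h6 := haM _ (peq_kills_of_inK hx hx (inK_mul hy c c'))
        have h7 : x₀ * c * (y * c' * x₀) = x₀ * (c * y * c') * x₀ := by
          simp only [mul_assoc]
        rw [h7]
        exact h6
      rcases hM.2 _ _ h5 with h6 | h6
      · exact absurd h6 hx₀M
      · exact h6
    rcases hM.2 _ _ h4 with h6 | h6
    · exact h6
    · exact absurd h6 hx₀M
  refine ⟨a, fun x => ⟨fun hxM => ?_, h3 x⟩⟩
  by_contra hn
  exact hM.1 (ink_max h3 hxM hn)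

end NoethSym
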