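import Pool.Agent.Lib.MP_a8d7f7_al.N.Sep
import Pool.Agent.Lib.MP_a8d7f7_al.N.AnnW
import Pool.Agent.Lib.MP_a8d7f7_al.N.PrimeEq

/-!
# MP_a8d7f7_al, semiprimitive ideals, module Pf: definability over the prime field
`IntC x`: all coefficients are images of integers. `inK_pf`: write `b = ∑_j k_j b_j`, `b_j` with coefficients in the prime subfield (images of integers; `K` is a vector space over the
prime subfield `F = (algebraMap (ZMod p) K).range` or `ZMod p`; take a basis and expand the finitely many coefficients; `k_j` linearly independent over `ZMod p`). The vectors `z T` have integer values, so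
`⟨act b (z T), z T'⟩ = ∑_j k_j ⟨act b_j (z T), z T'⟩` with coefficients in `ZMod p`: it is `0` iff each is `0`.
`exists_pf`: the statement used: one decomposition `b = ∑_j k_j b_j` such that for ALL `e, f, n, a`: `InK a (incl f b) → ∀ j, InK a (incl f b_j)` (`incl` is linear and keeps `IntC`).
`mem_span_pf`: `I ≠ ⊥` (else `b = 0`, `emb_injective`), `Ann K Ω n ≤ I`. If `emb K a b ∈ I` then `emb K a b_j ∈ I`: otherwise `exists_level` for `b_j`: `M` over `I`, `incl f b_j ∉ M`; `M = InK a'` by `prime_eq` (`ann_emb`),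
`incl f b ∈ M` as `emb (incl f b) ∈ I` (`emb_incl`, `emb_conj`), so `incl f b_j ∈ M`, contradiction.
-/

set_option autoImplicit false
set_option linter.unusedSectionVars false
set_option linter.unusedVariables false

namespace NoethSym

open Finset Equiv FinSym
open SmallPrime (IsPrime SAlg incl)
open ThreeLetter (Ideals)

open SmallPrime (emb rho)

variable {K : Type*} [Field K] {Ω : Type*} [DecidableEq Ω]

/-- all coefficients are images of integers -/
def IntC {G : Type*} [Monoid G] (x : MonoidAlgebra K G) : Prop := ∀ g, ∃ m : ℤ, x.coeff g = (m : K)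

private theorem pf_range {x : K} : x ∈ (Int.castRingHom K).range ↔ ∃ m : ℤ, x = (m : K) := by
  constructor
  · rintro ⟨m, rfl⟩; exact ⟨m, rfl⟩
  · rintro ⟨m, rfl⟩; exact ⟨m, rfl⟩

private theorem pf_z {e n : ℕ} (T : Tab (Fin e) n) (w : Fin e → Fin n) :
    z K T w ∈ (Int.castRingHom K).range := by
  unfold z
  refine Subring.sum_mem _ fun σ _ => ?_
  split_ifs
  · exact ⟨_, rfl⟩
  · exact Subring.zero_mem _

/-- the matrix coefficient of a permutation -/
private theorem pf_dot {e n : ℕ} (T T' : Tab (Fin e) n) (x : SAlg K e) :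
    dotProduct (act K n x (z K T)) (z K T') =
      ∑ σ : Perm (Fin e), x.coeff σ * ∑ w : Fin e → Fin n, z K T (w ∘ σ) * z K T' w := by
  unfold dotProduct
  simp only [act_apply, Finset.sum_mul, Finset.mul_sum]
  rw [Finset.sum_comm]
  refine Finset.sum_congr rfl fun σ _ => Finset.sum_congr rfl fun w _ => ?_
  ring

private theorem pf_dm {e n : ℕ} (T T' : Tab (Fin e) n) (σ : Perm (Fin e)) :
    (∑ w : Fin e → Fin n, z K T (w ∘ σ) * z K T' w) ∈ (Int.castRingHom K).range :=
  Subring.sum_mem _ fun w _ => Subring.mul_mem _ (pf_z T _) (pf_z T' _)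

/-- the matrix coefficient of `incl f x` -/
private theorem pf_incl {d e n : ℕ} (f : Fin d ↪ Fin e) (T T' : Tab (Fin e) n) :
    ∃ D : Perm (Fin d) → K, (∀ σ, D σ ∈ (Int.castRingHom K).range) ∧ ∀ x : SAlg K d,
      dotProduct (act K n (incl f x) (z K T)) (z K T') = ∑ σ, x.coeff σ * D σ := by
  classical
  refine ⟨fun σ => ∑ w : Fin e → Fin n, z K T (w ∘ (σ.viaFintypeEmbedding f)) * z K T' w,
    fun σ => pf_dm T T' _, fun x => ?_⟩
  rw [pf_dot]
  have h1 : ∀ τ : Perm (Fin e), (incl f x).coeff τ =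
      ∑ σ : Perm (Fin d), if σ.viaFintypeEmbedding f = τ then x.coeff σ else 0 := by
    intro τ
    unfold incl
    rw [MonoidAlgebra.coeff_sum, Finsupp.finsetSum_apply]
    refine Finset.sum_congr rfl fun σ _ => ?_
    rw [MonoidAlgebra.coeff_single, Finsupp.single_apply]
  simp only [h1, Finset.sum_mul]
  rw [Finset.sum_comm]
  refine Finset.sum_congr rfl fun σ _ => ?_
  rw [Finset.sum_eq_single (σ.viaFintypeEmbedding f)]
  · rw [if_pos rfl]
  · intro τ _ hτ
    rw [if_neg (fun h => hτ h.symm), zero_mul]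
  · intro h; exact absurd (Finset.mem_univ _) h

theorem exists_pf {p : ℕ} (hp : p.Prime) [CharP K p] {d : ℕ} (b : SAlg K d) :
    ∃ (r : ℕ) (k : Fin r → K) (c : Fin r → SAlg K d), b = ∑ j, k j • c j ∧ (∀ j, IntC (c j)) ∧
      ∀ (e n : ℕ) (f : Fin d ↪ Fin e) (a : Fin n → ℕ), InK a (incl f b) → ∀ j, InK a (incl f (c j)) := by
  classical
  have : Fact p.Prime := ⟨hp⟩
  let _ : Algebra (ZMod p) K := ZMod.algebra K p
  let B := Module.Basis.ofVectorSpace (ZMod p) K
  let S : Finset (Module.Basis.ofVectorSpaceIndex (ZMod p) K) :=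
    Finset.univ.biUnion fun σ : Perm (Fin d) => (B.repr (b.coeff σ)).support
  let E := S.equivFin
  have hint : ∀ z : ZMod p, algebraMap (ZMod p) K z ∈ (Int.castRingHom K).range := by
    intro z
    obtain ⟨m, rfl⟩ := ZMod.intCast_surjective z
    exact ⟨m, by simp⟩
  have hint' : ∀ x ∈ (Int.castRingHom K).range, ∃ z : ZMod p, x = algebraMap (ZMod p) K z := by
    rintro x ⟨m, rfl⟩
    exact ⟨(m : ZMod p), by simp⟩
  let k : Fin S.card → K := fun j => B (E.symm j : Module.Basis.ofVectorSpaceIndex (ZMod p) K)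
  let co : Fin S.card → Perm (Fin d) → ZMod p := fun j σ => B.repr (b.coeff σ) (E.symm j)
  let c : Fin S.card → SAlg K d := fun j =>
    ∑ σ : Perm (Fin d), MonoidAlgebra.single σ (algebraMap (ZMod p) K (co j σ))
  have hc : ∀ j σ, (c j).coeff σ = algebraMap (ZMod p) K (co j σ) := by
    intro j σ
    simp only [c]
    rw [MonoidAlgebra.coeff_sum, Finsupp.finsetSum_apply, Finset.sum_eq_single σ]
    · rw [MonoidAlgebra.coeff_single, Finsupp.single_eq_same]
    · intro τ _ hτ
      rw [MonoidAlgebra.coeff_single, Finsupp.single_apply, if_neg hτ]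
    · intro h; exact absurd (Finset.mem_univ _) h
  have hk : LinearIndependent (ZMod p) k := by
    refine B.linearIndependent.comp (fun j => (E.symm j : Module.Basis.ofVectorSpaceIndex (ZMod p) K)) ?_
    intro i j hij
    exact E.symm.injective (Subtype.ext hij)
  have hb : ∀ σ, b.coeff σ = ∑ j, k j * (c j).coeff σ := by
    intro σ
    have h1 : b.coeff σ = ∑ i ∈ S, (B.repr (b.coeff σ) i) • B i := by
      conv_lhs => rw [← B.linearCombination_repr (b.coeff σ)]
      rw [Finsupp.linearCombination_apply, Finsupp.sum]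
      refine Finset.sum_subset ?_ ?_
      · intro i hi
        exact Finset.mem_biUnion.mpr ⟨σ, Finset.mem_univ _, hi⟩
      · intro i _ hi
        rw [Finsupp.notMem_support_iff.mp hi, zero_smul]
    rw [h1, ← Finset.sum_coe_sort S, ← E.symm.sum_comp]
    refine Finset.sum_congr rfl fun j _ => ?_
    rw [hc, Algebra.smul_def, mul_comm]
  refine ⟨S.card, k, c, ?_, ?_, ?_⟩
  · ext σ
    rw [MonoidAlgebra.coeff_sum, Finsupp.finsetSum_apply, hb]
    refine Finset.sum_congr rfl fun j _ => ?_
    rw [MonoidAlgebra.coeff_smul, Finsupp.smul_apply, smul_eq_mul]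
  · intro j σ
    rw [hc]
    exact pf_range.mp (hint _)
  · intro e n f a hb' j T T' hT hT'
    obtain ⟨D, hD, hDx⟩ := pf_incl (K := K) f T T'
    have h0 := hb' T T' hT hT'
    rw [hDx] at h0
    choose D' hD' using fun σ => hint' (D σ) (hD σ)
    let m : Fin S.card → ZMod p := fun j => ∑ σ, co j σ * D' σ
    have hm : ∀ j, ∑ σ, (c j).coeff σ * D σ = algebraMap (ZMod p) K (m j) := by
      intro j
      simp only [m, map_sum, map_mul]
      refine Finset.sum_congr rfl fun σ _ => ?_
      rw [hc, hD']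
    have h1 : ∑ j, m j • k j = 0 := by
      rw [← h0]
      simp only [hb, Finset.sum_mul]
      rw [Finset.sum_comm]
      refine Finset.sum_congr rfl fun j _ => ?_
      rw [Algebra.smul_def, ← hm, Finset.sum_mul]
      refine Finset.sum_congr rfl fun σ _ => ?_
      ring
    have h2 : m j = 0 := by
      have := Fintype.linearIndependent_iff.mp hk m h1 j
      exact this
    rw [hDx, hm, h2, map_zero]

theorem mem_span_pf {p : ℕ} (hp : p.Prime) [CharP K p] [Infinite Ω] {I : Ideals K Ω} (hI : NilFree I)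
    {d : ℕ} (a : Fin d ↪ Ω) {b : SAlg K d} (hb : emb K a b ∈ I) :
    b ∈ Submodule.span K {c : SAlg K d | IntC c ∧ emb K a c ∈ I} := by
  by_cases hbot : I = ⊥
  · have h1 : emb K a b = 0 := by
      rw [hbot] at hb
      exact (TwoSidedIdeal.mem_bot _).mp hb
    have h2 : b = 0 := emb_injective a (by rw [h1, map_zero])
    rw [h2]
    exact Submodule.zero_mem _
  obtain ⟨n, hn⟩ := exists_ann_le (K := K) (Ω := Ω) hp hbot
  obtain ⟨r, k, c, hbc, hc, hin⟩ := exists_pf hp b
  rw [hbc]
  refine Submodule.sum_mem _ fun j _ => Submodule.smul_mem _ _ (Submodule.subset_span ⟨hc j, ?_⟩)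
  by_contra hcj
  obtain ⟨e, f, M, hM, hMc⟩ := exists_level hI a (c j) hcj
  obtain ⟨a'⟩ := exists_tuple' (Ω := Ω) e
  obtain ⟨a'', ha''⟩ := prime_eq (n := n) hM.1 (fun x hx => hM.2 a' x (hn (ann_emb a' hx)))
  have h1 : incl f b ∈ M := by
    refine hM.2 a' _ ?_
    rw [emb_incl]
    exact (emb_conj a _ b).mp hb
  exact hMc ((ha'' _).mpr (hin e n f a'' ((ha'' _).mp h1) j))

end NoethSym
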