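import Pool.Agent.Lib.MP_a8d7f7_al.N.Dec
import Pool.Agent.Lib.MP_a8d7f7_al.N.Pf

/-!
# MP_a8d7f7_al, semiprimitive ideals, module Cnt: there are countably many
For `I` choose `D` as in `determined`, `d = #D`, a bijection of `Fin d` with `D` (an embedding `a`), and `V = {v : Perm (Fin d) → ZMod p | the element of SAlg K d with coefficients v is in I along a}`.
The pair `(d, V)` lies in a countable type and determines `I`: if `I, J` have the same pair, then along any tuple of `d` letters `I` and `J` have the same integral elements, so by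
`mem_span_pf` the same elements of `K[S_d]` (`emb_conj`), so `restr I D ⊆ restr J D` for both sets `D` (an element of `K[Sym D]` is carried to `SAlg K d` by a bijection; `phi K D x ∈ I` iff
`emb K a x' ∈ I`), so `I ≤ J`, `J ≤ I`.
`Set.countable_iff...`: `Function.Injective.countable` / `Set.Countable` of the image under an injective-on map to `Σ d, Set (Perm (Fin d) → ZMod p)`.
-/

set_option autoImplicit false
set_option linter.unusedSectionVars false
set_option linter.unusedVariables false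

namespace NoethSym

open Finset Equiv FinSym
open SmallPrime (IsPrime SAlg incl)
open ThreeLetter (Ideals)

variable {K : Type*} [Field K] {Ω : Type*} [DecidableEq Ω]

open SmallPrime (emb rho)

private theorem cnt_range {x : K} : x ∈ (Int.castRingHom K).range ↔ ∃ m : ℤ, x = (m : K) := by
  constructor
  · rintro ⟨m, rfl⟩; exact ⟨m, rfl⟩
  · rintro ⟨m, rfl⟩; exact ⟨m, rfl⟩

/-- an element with given coefficients in `ZMod p` -/
private noncomputable def elt (K : Type*) [Field K] {p d : ℕ} (v : Perm (Fin d) → ZMod p) : SAlg K d :=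
  ∑ σ : Perm (Fin d), MonoidAlgebra.single σ (((v σ).val : ℕ) : K)

private theorem elt_surj {p : ℕ} (hp : p.Prime) [CharP K p] {d : ℕ} {c : SAlg K d} (hc : IntC c) :
    ∃ v : Perm (Fin d) → ZMod p, c = elt K v := by
  classical
  have : Fact p.Prime := ⟨hp⟩
  choose m hm using hc
  refine ⟨fun σ => ((m σ : ℤ) : ZMod p), ?_⟩
  ext σ
  unfold elt
  rw [MonoidAlgebra.coeff_sum, Finsupp.finsetSum_apply, Finset.sum_eq_single σ]
  · rw [MonoidAlgebra.coeff_single, Finsupp.single_eq_same, hm]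
    have h1 : (((((m σ : ℤ) : ZMod p).val : ℕ) : ℤ) : ZMod p) = ((m σ : ℤ) : ZMod p) := by
      rw [Int.cast_natCast, ZMod.natCast_zmod_val]
    have h2 : (p : ℤ) ∣ (m σ - ((((m σ : ℤ) : ZMod p).val : ℕ) : ℤ)) := by
      rw [← ZMod.intCast_zmod_eq_zero_iff_dvd]
      push_cast
      rw [ZMod.natCast_zmod_val, sub_self]
    have h3 : ((m σ - ((((m σ : ℤ) : ZMod p).val : ℕ) : ℤ) : ℤ) : K) = 0 :=
      (CharP.intCast_eq_zero_iff K p _).mpr h2
    rw [Int.cast_sub, Int.cast_natCast, sub_eq_zero] at h3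
    exact h3
  · intro τ _ hτ
    rw [MonoidAlgebra.coeff_single, Finsupp.single_apply, if_neg hτ]
  · intro h; exact absurd (Finset.mem_univ _) h

private theorem rho_ext {D : Finset Ω} {d : ℕ} (θ : Fin d ≃ D) (τ : Perm D) :
    rho (θ.toEmbedding.trans (Function.Embedding.subtype _)) (θ.symm.permCongr τ) = ext D τ := by
  apply Subtype.ext
  ext z
  by_cases hz : z ∈ D
  · obtain ⟨i, hi⟩ := θ.surjective ⟨z, hz⟩
    have h1 : z = (θ.toEmbedding.trans (Function.Embedding.subtype _)) i := by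
      simp [hi]
    conv_lhs => rw [h1]
    rw [SmallPrime.rho_apply, ext_mem D τ hz]
    simp [hi]
  · rw [ext_notMem D τ hz, SmallPrime.rho_fix]
    intro i hi
    apply hz
    rw [← hi]
    exact (θ i).2

private theorem exists_coord {D : Finset Ω} {d : ℕ} (hd : D.card = d) :
    ∃ a : Fin d ↪ Ω, ∀ x : MonoidAlgebra K (Perm D), ∃ b : SAlg K d, emb K a b = phi K D x := by
  classical
  let θ : Fin d ≃ D := (D.equivFinOfCardEq hd).symm
  refine ⟨θ.toEmbedding.trans (Function.Embedding.subtype _), fun x => ?_⟩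
  refine ⟨∑ τ : Perm D, x.coeff τ • MonoidAlgebra.of K (Perm (Fin d)) (θ.symm.permCongr τ), ?_⟩
  have hx : x = ∑ τ : Perm D, x.coeff τ • MonoidAlgebra.of K (Perm D) τ := by
    ext σ
    rw [MonoidAlgebra.coeff_sum, Finsupp.finsetSum_apply, Finset.sum_eq_single σ]
    · rw [MonoidAlgebra.coeff_smul, Finsupp.smul_apply, MonoidAlgebra.of_apply, MonoidAlgebra.coeff_single,
        Finsupp.single_eq_same, smul_eq_mul, mul_one]
    · intro τ _ hτ
      rw [MonoidAlgebra.coeff_smul, Finsupp.smul_apply, MonoidAlgebra.of_apply, MonoidAlgebra.coeff_single,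
        Finsupp.single_apply, if_neg hτ, smul_zero]
    · intro h; exact absurd (Finset.mem_univ _) h
  conv_rhs => rw [hx]
  rw [map_sum, map_sum]
  refine Finset.sum_congr rfl fun τ _ => ?_
  rw [map_smul, map_smul, SmallPrime.emb_of, rho_ext]
  congr 1
  unfold phi
  exact (MonoidAlgebra.lift_of ((MonoidAlgebra.of K (FSym Ω)).comp (ext D)) τ).symm

/-- the span of elements whose images are in `J` -/
private theorem span_mem {J : Ideals K Ω} {d : ℕ} {a : Fin d ↪ Ω} {s : Set (SAlg K d)}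
    (hs : ∀ c ∈ s, emb K a c ∈ J) {b : SAlg K d} (hb : b ∈ Submodule.span K s) : emb K a b ∈ J := by
  induction hb using Submodule.span_induction with
  | mem x hx => exact hs x hx
  | zero => rw [map_zero]; exact J.zero_mem
  | add x y _ _ hx hy => rw [map_add]; exact J.add_mem hx hy
  | smul r x _ hx => rw [map_smul]; exact smul_mem_ideal r hx

private theorem cnt_le {p : ℕ} (hp : p.Prime) [CharP K p] [Infinite Ω] {I J : Ideals K Ω} (hI : NilFree I)
    {d : ℕ} {V : Set (Perm (Fin d) → ZMod p)} {D : Finset Ω} (hD : D.card = d)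
    (hDI : ∀ J : Ideals K Ω, NilFree J → (∀ x ∈ restr I D, x ∈ restr J D) → I ≤ J) (hJ : NilFree J)
    (hVI : ∀ a : Fin d ↪ Ω, V = {v | emb K a (elt K v) ∈ I})
    (hVJ : ∀ a : Fin d ↪ Ω, V = {v | emb K a (elt K v) ∈ J}) : I ≤ J := by
  apply hDI J hJ
  intro x hx
  obtain ⟨a, ha⟩ := exists_coord (K := K) hD
  obtain ⟨b, hb⟩ := ha x
  have hx' : phi K D x ∈ I := hx
  rw [← hb] at hx'
  have h1 := mem_span_pf hp hI a hx'
  have h2 : emb K a b ∈ J := by
    refine span_mem ?_ h1
    rintro c ⟨hc, hcI⟩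
    obtain ⟨v, rfl⟩ := elt_surj hp hc
    have hv : v ∈ V := by rw [hVI a]; exact hcI
    rw [hVJ a] at hv
    exact hv
  rw [hb] at h2
  exact h2

theorem countable_nilFree {p : ℕ} (hp : p.Prime) [CharP K p] [Infinite Ω] :
    {I : Ideals K Ω | NilFree I}.Countable := by
  classical
  have : Fact p.Prime := ⟨hp⟩
  let P : (d : ℕ) → Set (Perm (Fin d) → ZMod p) → Set (Ideals K Ω) := fun d V =>
    {I | NilFree I ∧ (∃ D : Finset Ω, D.card = d ∧
      ∀ J : Ideals K Ω, NilFree J → (∀ x ∈ restr I D, x ∈ restr J D) → I ≤ J) ∧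
      ∀ a : Fin d ↪ Ω, V = {v | emb K a (elt K v) ∈ I}}
  have hsub : {I : Ideals K Ω | NilFree I} ⊆ ⋃ d, ⋃ V : Set (Perm (Fin d) → ZMod p), P d V := by
    intro I hI
    obtain ⟨D, hD⟩ := determined hp hI
    obtain ⟨a0⟩ := exists_tuple' (Ω := Ω) D.card
    rw [Set.mem_iUnion]
    refine ⟨D.card, ?_⟩
    rw [Set.mem_iUnion]
    refine ⟨{v | emb K a0 (elt K v) ∈ I}, hI, ⟨D, rfl, hD⟩, ?_⟩
    intro a
    ext v
    exact emb_conj a0 a (elt K v)
  refine Set.Countable.mono hsub (Set.countable_iUnion fun d => Set.countable_iUnion fun V => ?_)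
  refine Set.Subsingleton.countable ?_
  rintro I ⟨hI, ⟨D, hDc, hD⟩, hV⟩ J ⟨hJ, ⟨D', hDc', hD'⟩, hV'⟩
  exact le_antisymm (cnt_le hp hI hDc hD hJ hV hV') (cnt_le hp hJ hDc' hD' hI hV' hV)

/-- each element is a combination of elements with integer coefficients -/
theorem mem_span_int {p : ℕ} (hp : p.Prime) [CharP K p] [Infinite Ω] {I : Ideals K Ω} (hI : NilFree I)
    {x : MonoidAlgebra K (FSym Ω)} (hx : x ∈ I) : x ∈ Submodule.span K {y | IntC y ∧ y ∈ I} := by
  classical
  obtain ⟨a0⟩ := exists_tuple' (Ω := Ω) 0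
  obtain ⟨e, f, a', b, -, hb⟩ := exists_emb a0 x
  rw [← hb] at hx ⊢
  have h1 := mem_span_pf hp hI a' hx
  have h2 : (emb K a').toLinearMap b ∈ (Submodule.span K {c : SAlg K e | IntC c ∧ emb K a' c ∈ I}).map
      (emb K a').toLinearMap := Submodule.mem_map_of_mem h1
  rw [Submodule.map_span] at h2
  refine Submodule.span_mono ?_ h2
  rintro y ⟨c, ⟨hc, hcI⟩, rfl⟩
  refine ⟨?_, hcI⟩
  intro g
  rw [← cnt_range]
  have h3 : (emb K a').toLinearMap c = ∑ σ : Perm (Fin e), c.coeff σ • MonoidAlgebra.of K (FSym Ω) (rho a' σ) := by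
    have hc' : c = ∑ σ : Perm (Fin e), c.coeff σ • MonoidAlgebra.of K (Perm (Fin e)) σ := by
      ext σ
      rw [MonoidAlgebra.coeff_sum, Finsupp.finsetSum_apply, Finset.sum_eq_single σ]
      · rw [MonoidAlgebra.coeff_smul, Finsupp.smul_apply, MonoidAlgebra.of_apply, MonoidAlgebra.coeff_single,
          Finsupp.single_eq_same, smul_eq_mul, mul_one]
      · intro τ _ hτ
        rw [MonoidAlgebra.coeff_smul, Finsupp.smul_apply, MonoidAlgebra.of_apply, MonoidAlgebra.coeff_single,
          Finsupp.single_apply, if_neg hτ, smul_zero]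
      · intro h; exact absurd (Finset.mem_univ _) h
    conv_lhs => rw [hc']
    rw [map_sum]
    refine Finset.sum_congr rfl fun σ _ => ?_
    rw [map_smul]
    congr 1
    exact SmallPrime.emb_of a' σ
  rw [h3, MonoidAlgebra.coeff_sum, Finsupp.finsetSum_apply]
  refine Subring.sum_mem _ fun σ _ => ?_
  rw [MonoidAlgebra.coeff_smul, Finsupp.smul_apply, MonoidAlgebra.of_apply, MonoidAlgebra.coeff_single,
    Finsupp.single_apply, smul_eq_mul]
  refine Subring.mul_mem _ (cnt_range.mpr (hc σ)) ?_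
  split_ifs
  · exact Subring.one_mem _
  · exact Subring.zero_mem _

end NoethSym
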