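import Pool.Agent.Lib.MP_a8d7f7_al.N.Act

/-!
# MP_a8d7f7_al, semiprimitive ideals, module Col: column antisymmetrizers
-/

set_option autoImplicit false
set_option linter.unusedSectionVars false
set_option linter.unusedVariables false

namespace NoethSym

open Finset Equiv FinSym
open SmallPrime (IsPrime SAlg incl)
open ThreeLetter (Ideals)

variable {K : Type*} [Field K] {α : Type*} [Fintype α] [DecidableEq α] {n : ℕ}

private theorem col_card_le (T : Tab α n) (w : α → Fin n)
    (hi : ∀ x y, T.col x = T.col y → w x = w y → x = y) (c m : ℕ) :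
    (univ.filter (fun x => T.col x = c ∧ (w x : ℕ) < m)).card ≤
      (univ.filter (fun x => T.col x = c ∧ (T.row x : ℕ) < m)).card := by
  classical
  by_cases h : ∃ x, T.col x = c ∧ m ≤ (T.row x : ℕ)
  · obtain ⟨x0, hx0, hm⟩ := h
    have h1 : (univ.filter (fun x => T.col x = c ∧ (w x : ℕ) < m)).card ≤ (range m).card := by
      apply Finset.card_le_card_of_injOn (fun x => (w x : ℕ))
      · intro x hx
        simp only [coe_filter, Set.mem_ofPred_eq, mem_univ, true_and] at hx
        simpa using hx.2
      · intro x hx y hy hxy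
        simp only [coe_filter, Set.mem_ofPred_eq, mem_univ, true_and] at hx hy
        exact hi x y (hx.1.trans hy.1.symm) (Fin.ext hxy)
    have h2 : (range m).card ≤ (univ.filter (fun x => T.col x = c ∧ (T.row x : ℕ) < m)).card := by
      have h3 : range m ⊆ (univ.filter (fun x => T.col x = c ∧ (T.row x : ℕ) < m)).image
          (fun x => (T.row x : ℕ)) := by
        intro j hj
        rw [mem_range] at hj
        have hjn : j < n := lt_of_lt_of_le hj (hm.trans (T.row x0).2.le)
        obtain ⟨y, hy1, hy2⟩ := T.down x0 ⟨j, hjn⟩ (by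
          rw [Fin.lt_def]; exact lt_of_lt_of_le hj hm)
        rw [mem_image]
        refine ⟨y, ?_, ?_⟩
        · simp only [mem_filter, mem_univ, true_and]
          exact ⟨hy1.trans hx0, by rw [hy2]; exact hj⟩
        · rw [hy2]
      exact (card_le_card h3).trans card_image_le
    exact h1.trans h2
  · push Not at h
    apply card_le_card
    intro x hx
    simp only [mem_filter, mem_univ, true_and] at hx ⊢
    exact ⟨hx.1, h x hx.1⟩

private theorem col_card_total (T : Tab α n) (w : α → Fin n) (m : ℕ) :
    ∑ c ∈ univ.image T.col, (univ.filter (fun x => T.col x = c ∧ (w x : ℕ) < m)).card =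
      ∑ i ∈ univ.filter (fun i : Fin n => (i : ℕ) < m), ct w i := by
  classical
  have h1 : (univ.filter (fun x => (w x : ℕ) < m)).card =
      ∑ c ∈ univ.image T.col, ((univ.filter (fun x => (w x : ℕ) < m)).filter
        (fun x => T.col x = c)).card := by
    apply Finset.card_eq_sum_card_fiberwise
    intro x hx
    simp
  have h2 : (univ.filter (fun x => (w x : ℕ) < m)).card =
      ∑ i ∈ univ.filter (fun i : Fin n => (i : ℕ) < m), ((univ.filter (fun x => (w x : ℕ) < m)).filter
        (fun x => w x = i)).card := by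
    apply Finset.card_eq_sum_card_fiberwise
    intro x hx
    simpa using hx
  rw [h1] at h2
  have h3 : ∀ c, ((univ.filter (fun x => (w x : ℕ) < m)).filter (fun x => T.col x = c)) =
      univ.filter (fun x => T.col x = c ∧ (w x : ℕ) < m) := by
    intro c
    ext x
    simp only [mem_filter, mem_univ, true_and]
    tauto
  simp only [h3] at h2
  rw [h2]
  apply Finset.sum_congr rfl
  intro i hi
  simp only [mem_filter, mem_univ, true_and] at hi
  unfold ct
  congr 1
  ext x
  simp only [mem_filter, mem_univ, true_and]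
  constructor
  · rintro ⟨_, h⟩; exact h
  · intro h; exact ⟨by rw [h]; exact hi, h⟩

/-- a word with the content of the rows and injective on the columns is a column permutation of the rows -/
theorem exists_col (T : Tab α n) (w : α → Fin n) (h : ct w = ct T.row)
    (hi : ∀ x y, T.col x = T.col y → w x = w y → x = y) :
    ∃ σ : Perm α, (∀ x, T.col (σ x) = T.col x) ∧ w ∘ σ = T.row := by
  classical
  have key : ∀ c ∈ univ.image T.col, ∀ m : ℕ,
      (univ.filter (fun x => T.col x = c ∧ (w x : ℕ) < m)).card =
      (univ.filter (fun x => T.col x = c ∧ (T.row x : ℕ) < m)).card := by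
    intro c hc m
    have h1 := col_card_total T w m
    have h2 := col_card_total T T.row m
    rw [h, ← h2] at h1
    exact (Finset.sum_eq_sum_iff_of_le (fun c _ => col_card_le T w hi c m)).1 h1 c hc
  have hex : ∀ x, ∃ y, T.col y = T.col x ∧ w y = T.row x := by
    intro x
    have hc : T.col x ∈ univ.image T.col := mem_image_of_mem _ (mem_univ x)
    have h1 := key _ hc (T.row x)
    have h2 := key _ hc ((T.row x : ℕ) + 1)
    have h3 : (univ.filter (fun y => T.col y = T.col x ∧ (T.row y : ℕ) < (T.row x : ℕ))).card <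
        (univ.filter (fun y => T.col y = T.col x ∧ (T.row y : ℕ) < (T.row x : ℕ) + 1)).card := by
      apply card_lt_card
      rw [Finset.ssubset_iff_of_subset]
      · exact ⟨x, by simp, by simp⟩
      · intro y hy
        simp only [mem_filter, mem_univ, true_and] at hy ⊢
        exact ⟨hy.1, by omega⟩
    rw [← h1, ← h2] at h3
    obtain ⟨y, hy, hy'⟩ := Finset.exists_mem_notMem_of_card_lt_card h3
    simp only [mem_filter, mem_univ, true_and, not_and] at hy hy'
    refine ⟨y, hy.1, Fin.ext ?_⟩
    have := hy' hy.1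
    omega
  choose s hs1 hs2 using hex
  have hinj : Function.Injective s := by
    intro x y hxy
    apply T.inj
    · rw [← hs2 x, ← hs2 y, hxy]
    · rw [← hs1 x, ← hs1 y, hxy]
  refine ⟨Equiv.ofBijective s (Finite.injective_iff_bijective.1 hinj), fun x => ?_, ?_⟩
  · simpa using hs1 x
  · funext x
    simpa using hs2 x

/-- `z T` vanishes at a word with two equal letters in one column -/
theorem z_eq_zero (T : Tab α n) (w : α → Fin n) {x y : α} (hxy : x ≠ y) (hc : T.col x = T.col y)
    (hw : w x = w y) : z K T w = 0 := by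
  unfold z
  apply Finset.sum_eq_zero
  intro σ _
  rw [if_neg]
  rintro ⟨h1, h2⟩
  apply hxy
  have h3 : ∀ t, T.row (σ.symm t) = w t := by
    intro t
    rw [← h2]; simp
  have h4 : ∀ t, T.col (σ.symm t) = T.col t := by
    intro t
    have := h1 (σ.symm t)
    simpa using this.symm
  have h5 : σ.symm x = σ.symm y := T.inj _ _ (by rw [h3, h3, hw]) (by rw [h4, h4, hc])
  exact σ.symm.injective h5

private theorem colpres_mul (T : Tab α n) {σ : Perm α} (hσ : ∀ x, T.col (σ x) = T.col x)
    (τ : Perm α) : (∀ x, T.col ((σ * τ) x) = T.col x) ↔ ∀ x, T.col (τ x) = T.col x := by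
  simp only [Perm.coe_mul, Function.comp_apply, hσ]

private theorem colpres_inv (T : Tab α n) (σ : Perm α) :
    (∀ x, T.col (σ⁻¹ x) = T.col x) ↔ ∀ x, T.col (σ x) = T.col x := by
  constructor
  · intro h x
    have := h (σ x)
    simpa using this.symm
  · intro h x
    have := h (σ⁻¹ x)
    simpa using this.symm

private theorem sign_sq (σ : Perm α) :
    ((Perm.sign σ : ℤ) : K) * ((Perm.sign σ : ℤ) : K) = 1 := by
  have : ((Perm.sign σ : ℤ)) * ((Perm.sign σ : ℤ)) = 1 := by
    rcases Int.units_eq_one_or (Perm.sign σ) with h | h <;> rw [h] <;> norm_num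
  exact_mod_cast congrArg (fun t : ℤ => (t : K)) this

theorem z_comp (T : Tab α n) (w : α → Fin n) (σ : Perm α) (hσ : ∀ x, T.col (σ x) = T.col x) :
    z K T (w ∘ σ) = ((Perm.sign σ : ℤ) : K) * z K T w := by
  unfold z
  rw [Finset.mul_sum]
  refine Fintype.sum_equiv (Equiv.mulLeft σ) _ _ (fun τ => ?_)
  simp only [Equiv.coe_mulLeft, colpres_mul T hσ τ]
  have h1 : (w ∘ σ) ∘ τ = w ∘ (σ * τ : Perm α) := rfl
  rw [h1]
  split_ifs with h
  · rw [Perm.sign_mul]
    push_cast
    rw [← mul_assoc, sign_sq, one_mul]
  · rw [mul_zero]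

theorem z_row (T : Tab α n) : z K T T.row = 1 := by
  unfold z
  rw [Finset.sum_eq_single 1]
  · rw [if_pos]
    · simp
    · exact ⟨fun x => rfl, rfl⟩
  · intro σ _ hσ
    rw [if_neg]
    rintro ⟨h1, h2⟩
    apply hσ
    ext x
    exact T.inj _ _ (congrFun h2 x) (h1 x)
  · intro h; exact absurd (mem_univ _) h

theorem z_ct (T : Tab α n) {w : α → Fin n} (h : ct w ≠ ct T.row) : z K T w = 0 := by
  unfold z
  apply Finset.sum_eq_zero
  intro σ _
  rw [if_neg]
  rintro ⟨_, h2⟩
  apply h
  rw [← h2, ct_comp]

private theorem kap_eq (T : Tab α n) : kap K T = ∑ σ : Perm α, MonoidAlgebra.single σ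
    (if (∀ x, T.col (σ x) = T.col x) then ((Perm.sign σ : ℤ) : K) else 0) := by
  unfold kap
  apply Finset.sum_congr rfl
  intro σ _
  split_ifs with h
  · rw [MonoidAlgebra.of_apply, MonoidAlgebra.smul_single, smul_eq_mul, mul_one]
  · rw [MonoidAlgebra.single_zero]

private theorem kap_coeff (T : Tab α n) (σ : Perm α) : (kap K T).coeff σ =
    if (∀ x, T.col (σ x) = T.col x) then ((Perm.sign σ : ℤ) : K) else 0 := by
  classical
  rw [kap_eq]
  simp [MonoidAlgebra.coeff_single, Finsupp.single_apply]

theorem adj_kap (T : Tab α n) : adj (kap K T) = kap K T := by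
  unfold adj
  conv_rhs => rw [kap_eq]
  refine Fintype.sum_equiv (Equiv.inv (Perm α)) _ _ (fun σ => ?_)
  rw [kap_coeff]
  simp only [Equiv.inv_apply, colpres_inv, Perm.sign_inv]

theorem act_kap (T : Tab α n) (f : (α → Fin n) → K) (hf : ∀ w, ct w ≠ ct T.row → f w = 0) :
    act K n (kap K T) f = (dotProduct f (z K T)) • z K T := by
  classical
  funext w
  rw [act_apply, Pi.smul_apply, smul_eq_mul]
  simp only [kap_coeff]
  by_cases h1 : ct w = ct T.row
  swap
  · rw [z_ct T h1, mul_zero]
    apply Finset.sum_eq_zero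
    intro σ _
    rw [hf _ (by rw [ct_comp]; exact h1), mul_zero]
  by_cases h2 : ∀ x y, T.col x = T.col y → w x = w y → x = y
  · obtain ⟨τ, hτ, hw⟩ := exists_col T w h1 h2
    have h3 : ((Perm.sign τ : ℤ) : K) * z K T w = 1 := by
      rw [← z_comp T w τ hτ, hw, z_row]
    have h4 : z K T w = ((Perm.sign τ : ℤ) : K) := by
      calc z K T w = (((Perm.sign τ : ℤ) : K) * ((Perm.sign τ : ℤ) : K)) * z K T w := by
            rw [sign_sq, one_mul]
        _ = ((Perm.sign τ : ℤ) : K) := by rw [mul_assoc, h3, mul_one]
    have h5 : dotProduct f (z K T) = ∑ σ : Perm α,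
        (if (∀ x, T.col (σ x) = T.col x) then ((Perm.sign σ : ℤ) : K) else 0) * f (T.row ∘ σ) := by
      unfold dotProduct z
      simp only [Finset.mul_sum]
      rw [Finset.sum_comm]
      refine Fintype.sum_equiv (Equiv.inv (Perm α)) _ _ (fun σ => ?_)
      rw [Finset.sum_eq_single (T.row ∘ (σ⁻¹ : Perm α))]
      · have e1 : (T.row ∘ (σ⁻¹ : Perm α)) ∘ σ = T.row := by
          funext x; simp
        simp only [e1, and_true, Equiv.inv_apply, colpres_inv, Perm.sign_inv]
        ring
      · intro w' _ hw'
        rw [if_neg, mul_zero]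
        rintro ⟨_, h6⟩
        apply hw'
        rw [← h6]
        funext x; simp
      · intro h; exact absurd (mem_univ _) h
    rw [h4, h5, Finset.sum_mul]
    refine Fintype.sum_equiv (Equiv.mulLeft τ⁻¹) _ _ (fun σ => ?_)
    have hτ' : ∀ x, T.col (τ⁻¹ x) = T.col x := (colpres_inv T τ).2 hτ
    simp only [Equiv.coe_mulLeft, colpres_mul T hτ' σ]
    have e2 : T.row ∘ (τ⁻¹ * σ : Perm α) = w ∘ σ := by
      rw [← hw]
      funext x; simp
    rw [e2]
    split_ifs with h
    · rw [Perm.sign_mul, Perm.sign_inv]
      push_cast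
      have := sign_sq (K := K) τ
      linear_combination (-((Perm.sign σ : ℤ) : K) * f (w ∘ σ)) * this
    · simp
  · push Not at h2
    obtain ⟨x, y, hc, hw, hxy⟩ := h2
    rw [z_eq_zero T w hxy hc hw, mul_zero]
    have hsw : ∀ t, T.col (Equiv.swap x y t) = T.col t := by
      intro t
      by_cases hx : t = x
      · rw [hx, Equiv.swap_apply_left, hc]
      · by_cases hy : t = y
        · rw [hy, Equiv.swap_apply_right, hc]
        · rw [Equiv.swap_apply_of_ne_of_ne hx hy]
    have hws : w ∘ (Equiv.swap x y) = w := by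
      funext t
      by_cases hx : t = x
      · simp [hx, hw]
      · by_cases hy : t = y
        · simp [hy, hw]
        · simp [Equiv.swap_apply_of_ne_of_ne hx hy]
    apply Finset.sum_involution (fun σ _ => Equiv.swap x y * σ)
    · intro σ _
      simp only [colpres_mul T hsw σ]
      have e2 : w ∘ (Equiv.swap x y * σ : Perm α) = w ∘ σ := by
        funext t
        exact congrFun hws (σ t)
      rw [e2, Perm.sign_mul, Perm.sign_swap hxy]
      split_ifs with h
      · push_cast; ring
      · simp
    · intro σ _ _ h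
      have : Equiv.swap x y = 1 := mul_eq_right.1 h
      exact hxy (Equiv.swap_eq_one_iff.1 this)
    · intro σ _; exact mem_univ _
    · intro σ _
      rw [← mul_assoc, Equiv.swap_mul_self, one_mul]

theorem kap_row (T : Tab α n) : act K n (kap K T) (Pi.single T.row 1) = z K T := by
  classical
  rw [act_kap]
  · rw [single_one_dotProduct, z_row, one_smul]
  · intro w hw
    rw [Pi.single_eq_of_ne]
    rintro rfl
    exact hw rfl

end NoethSym
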