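import Pool.Agent.Lib.MP_a8d7f7_al.N.Col

/-!
# MP_a8d7f7_al, semiprimitive ideals, module Conj: tableaux of the same content are conjugate
`Tab.mv σ T`: rows and columns composed with `σ⁻¹`; `act_z`: reindex `π ↦ σ * π * σ⁻¹`.
`conj`: a column is the set of its rows, an initial segment; the number of columns of each height is determined by the content, so there is
a bijection of the columns preserving heights, and `σ x` := the place of `T'` in the column `β (T.col x)` and row `T.row x`.
-/

set_option autoImplicit false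
set_option linter.unusedSectionVars false
set_option linter.unusedVariables false

namespace NoethSym

open Finset Equiv FinSym
open SmallPrime (IsPrime SAlg incl)
open ThreeLetter (Ideals)

variable {K : Type*} [Field K] {α : Type*} [Fintype α] [DecidableEq α] {n : ℕ}

/-- the tableau moved by a permutation of the places -/
def Tab.mv (T : Tab α n) (σ : Perm α) : Tab α n where
  row := T.row ∘ σ.symm
  col := T.col ∘ σ.symm
  inj := by
    intro x y h1 h2
    exact σ.symm.injective (T.inj _ _ h1 h2)
  down := by
    intro x i hi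
    obtain ⟨y, h1, h2⟩ := T.down (σ.symm x) i hi
    exact ⟨σ y, by simpa using h1, by simpa using h2⟩

theorem act_z (T : Tab α n) (σ : Perm α) :
    act K n (MonoidAlgebra.of K (Perm α) σ) (z K T) = z K (T.mv σ) := by
  rw [act_of]
  funext w
  unfold z
  refine Fintype.sum_equiv (Equiv.permCongr σ) _ _ ?_
  intro π
  have hsign : Perm.sign (Equiv.permCongr σ π) = Perm.sign π := by
    rw [Perm.sign_permCongr]
  rw [hsign]
  have hiff : ((∀ x, T.col (π x) = T.col x) ∧ (w ∘ σ) ∘ π = T.row) ↔
      ((∀ x, (T.mv σ).col (Equiv.permCongr σ π x) = (T.mv σ).col x) ∧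
        w ∘ (Equiv.permCongr σ π) = (T.mv σ).row) := by
    constructor
    · rintro ⟨h1, h2⟩
      refine ⟨fun x => ?_, ?_⟩
      · simp only [Tab.mv, Function.comp_apply, Equiv.permCongr_apply, Equiv.symm_apply_apply]
        exact h1 _
      · funext x
        have := congrFun h2 (σ.symm x)
        simpa [Tab.mv, Equiv.permCongr_apply] using this
    · rintro ⟨h1, h2⟩
      refine ⟨fun x => ?_, ?_⟩
      · have := h1 (σ x)
        simpa [Tab.mv, Equiv.permCongr_apply] using this
      · funext x
        have := congrFun h2 (σ x)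
        simpa [Tab.mv, Equiv.permCongr_apply] using this
  by_cases h : (∀ x, T.col (π x) = T.col x) ∧ (w ∘ σ) ∘ π = T.row
  · rw [if_pos h, if_pos (hiff.1 h)]
  · rw [if_neg h, if_neg (fun h' => h (hiff.2 h'))]

theorem z_congr {T T' : Tab α n} (h1 : T.row = T'.row)
    (h2 : ∀ x y, T.col x = T.col y ↔ T'.col x = T'.col y) : z K T = z K T' := by
  funext w
  unfold z
  refine Finset.sum_congr rfl fun σ _ => ?_
  have hiff : ((∀ x, T.col (σ x) = T.col x) ∧ w ∘ σ = T.row) ↔
      ((∀ x, T'.col (σ x) = T'.col x) ∧ w ∘ σ = T'.row) := by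
    rw [h1]
    exact and_congr_left fun _ => forall_congr' fun x => h2 _ _
  by_cases h : (∀ x, T.col (σ x) = T.col x) ∧ w ∘ σ = T.row
  · rw [if_pos h, if_pos (hiff.1 h)]
  · rw [if_neg h, if_neg (fun h' => h (hiff.2 h'))]

theorem ct_mv (T : Tab α n) (σ : Perm α) : ct (T.mv σ).row = ct T.row :=
  ct_comp T.row σ.symm

/-- the rows of a column -/
private def cjR (T : Tab α n) (c : ℕ) : Finset (Fin n) :=
  (univ.filter (fun x => T.col x = c)).image T.row

private theorem cj_mem (T : Tab α n) (c : ℕ) (i : Fin n) :
    i ∈ cjR T c ↔ ∃ x, T.col x = c ∧ T.row x = i := by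
  unfold cjR
  simp [Finset.mem_image]

private theorem cj_lt (T : Tab α n) (c : ℕ) (i : Fin n) : i ∈ cjR T c ↔ (i : ℕ) < (cjR T c).card := by
  have low : ∀ i j : Fin n, i ∈ cjR T c → j < i → j ∈ cjR T c := by
    intro i j hi hj
    rw [cj_mem] at hi ⊢
    obtain ⟨x, h1, h2⟩ := hi
    obtain ⟨y, h3, h4⟩ := T.down x j (by rw [h2]; exact hj)
    exact ⟨y, h3.trans h1, h4⟩
  constructor
  · intro hi
    have hsub : Finset.Iic i ⊆ cjR T c := by
      intro j hj
      rcases (Finset.mem_Iic.1 hj).lt_or_eq with h | h
      · exact low i j hi h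
      · rw [h]; exact hi
    have := Finset.card_le_card hsub
    rw [Fin.card_Iic] at this
    omega
  · intro hi
    by_contra hcon
    have hsub : cjR T c ⊆ Finset.Iio i := by
      intro j hj
      rw [Finset.mem_Iio]
      by_contra hji
      rcases (not_lt.1 hji).lt_or_eq with h | h
      · exact hcon (low j i hj h)
      · exact hcon (h ▸ hj)
    have := Finset.card_le_card hsub
    rw [Fin.card_Iio] at this
    omega

/-- the columns of height greater than `k` -/
private theorem cj_card_gt (T : Tab α n) (k : ℕ) (hk : k < n) :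
    (((univ : Finset α).image T.col).filter (fun c => k < (cjR T c).card)).card =
      ct T.row ⟨k, hk⟩ := by
  have h : ((univ : Finset α).image T.col).filter (fun c => k < (cjR T c).card) =
      (univ.filter (fun x => T.row x = ⟨k, hk⟩)).image T.col := by
    ext c
    simp only [Finset.mem_filter, Finset.mem_image, Finset.mem_univ, true_and]
    constructor
    · rintro ⟨-, h⟩
      obtain ⟨x, h1, h2⟩ := (cj_mem T c ⟨k, hk⟩).1 ((cj_lt T c ⟨k, hk⟩).2 h)
      exact ⟨x, h2, h1⟩
    · rintro ⟨x, h1, h2⟩
      exact ⟨⟨x, h2⟩, (cj_lt T c ⟨k, hk⟩).1 ((cj_mem T c ⟨k, hk⟩).2 ⟨x, h2, h1⟩)⟩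
  rw [h, Finset.card_image_of_injOn]
  · rfl
  · intro x hx y hy hxy
    have hx' : T.row x = ⟨k, hk⟩ := by simpa using hx
    have hy' : T.row y = ⟨k, hk⟩ := by simpa using hy
    exact T.inj x y (hx'.trans hy'.symm) hxy

private theorem cj_card_le (T : Tab α n) (c : ℕ) : (cjR T c).card ≤ n := by
  simpa using Finset.card_le_univ (cjR T c)

private theorem cj_card_gt_eq {T T' : Tab α n} (h : ct T.row = ct T'.row) (k : ℕ) :
    (((univ : Finset α).image T.col).filter (fun c => k < (cjR T c).card)).card =
    (((univ : Finset α).image T'.col).filter (fun c => k < (cjR T' c).card)).card := by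
  by_cases hk : k < n
  · rw [cj_card_gt T k hk, cj_card_gt T' k hk, h]
  · have e : ∀ S : Tab α n,
        ((univ : Finset α).image S.col).filter (fun c => k < (cjR S c).card) = ∅ := by
      intro S
      refine Finset.filter_false_of_mem ?_
      intro c _
      have := cj_card_le S c
      omega
    rw [e, e]

private theorem cj_card_split (T : Tab α n) (k : ℕ) :
    (((univ : Finset α).image T.col).filter (fun c => k < (cjR T c).card)).card =
    (((univ : Finset α).image T.col).filter (fun c => (cjR T c).card = k + 1)).card +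
    (((univ : Finset α).image T.col).filter (fun c => k + 1 < (cjR T c).card)).card := by
  rw [← Finset.card_union_of_disjoint]
  · congr 1
    ext c
    simp only [Finset.mem_union, Finset.mem_filter]
    constructor
    · rintro ⟨h1, h2⟩
      rcases (Nat.succ_le_of_lt h2).lt_or_eq with h | h
      · exact Or.inr ⟨h1, h⟩
      · exact Or.inl ⟨h1, h.symm⟩
    · rintro (⟨h1, h2⟩ | ⟨h1, h2⟩)
      · exact ⟨h1, by omega⟩
      · exact ⟨h1, by omega⟩
  · rw [Finset.disjoint_left]
    intro c hc hc'
    have h1 := (Finset.mem_filter.1 hc).2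
    have h2 := (Finset.mem_filter.1 hc').2
    omega

private theorem cj_card_eq {T T' : Tab α n} (h : ct T.row = ct T'.row) (k : ℕ) :
    (((univ : Finset α).image T.col).filter (fun c => (cjR T c).card = k)).card =
    (((univ : Finset α).image T'.col).filter (fun c => (cjR T' c).card = k)).card := by
  have h0 : ∀ S : Tab α n, ((univ : Finset α).image S.col).filter (fun c => (cjR S c).card = 0) = ∅ := by
    intro S
    refine Finset.filter_false_of_mem ?_
    intro c hc h0
    obtain ⟨x, -, hx⟩ := Finset.mem_image.1 hc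
    have := (cj_mem S c (S.row x)).2 ⟨x, hx, rfl⟩
    rw [Finset.card_eq_zero.1 h0] at this
    exact absurd this (Finset.notMem_empty _)
  cases k with
  | zero => rw [h0, h0]
  | succ k =>
    have a1 := cj_card_split T k
    have a2 := cj_card_split T' k
    have a3 := cj_card_gt_eq h k
    have a4 := cj_card_gt_eq h (k + 1)
    omega

private theorem cj_beta {T T' : Tab α n} (h : ct T.row = ct T'.row) :
    ∃ β : ℕ → ℕ, (∀ x, (cjR T' (β (T.col x))).card = (cjR T (T.col x)).card) ∧
      ∀ x y, β (T.col x) = β (T.col y) → T.col x = T.col y := by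
  classical
  have key : ∀ k : ℕ, ∃ b : ℕ → ℕ, (∀ c ∈ ((univ : Finset α).image T.col).filter (fun c => (cjR T c).card = k),
      b c ∈ ((univ : Finset α).image T'.col).filter (fun c => (cjR T' c).card = k)) ∧
      ∀ c ∈ ((univ : Finset α).image T.col).filter (fun c => (cjR T c).card = k),
      ∀ c' ∈ ((univ : Finset α).image T.col).filter (fun c => (cjR T c).card = k), b c = b c' → c = c' := by
    intro k
    let e := Finset.equivOfCardEq (cj_card_eq h k)
    refine ⟨fun c => if hc : c ∈ ((univ : Finset α).image T.col).filter (fun c => (cjR T c).card = k) then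
      (e ⟨c, hc⟩ : ℕ) else 0, ?_, ?_⟩
    · intro c hc
      simp only [dif_pos hc]
      exact (e ⟨c, hc⟩).2
    · intro c hc c' hc' hcc
      simp only [dif_pos hc, dif_pos hc'] at hcc
      have := e.injective (Subtype.ext hcc)
      exact congrArg Subtype.val this
  choose b hb1 hb2 using key
  have hmem : ∀ x, T.col x ∈ ((univ : Finset α).image T.col).filter
      (fun c => (cjR T c).card = (cjR T (T.col x)).card) := by
    intro x
    exact Finset.mem_filter.2 ⟨Finset.mem_image_of_mem _ (Finset.mem_univ x), rfl⟩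
  refine ⟨fun c => b (cjR T c).card c, ?_, ?_⟩
  · intro x
    exact (Finset.mem_filter.1 (hb1 _ _ (hmem x))).2
  · intro x y hxy
    have h1 := (Finset.mem_filter.1 (hb1 _ _ (hmem x))).2
    have h2 := (Finset.mem_filter.1 (hb1 _ _ (hmem y))).2
    simp only at hxy
    have h3 : (cjR T (T.col x)).card = (cjR T (T.col y)).card := by
      rw [← h1, ← h2, hxy]
    rw [h3] at hxy
    refine hb2 _ _ ?_ _ (hmem y) hxy
    have := hmem x
    rw [h3] at this
    exact this

theorem conj (T T' : Tab α n) (h : ct T.row = ct T'.row) :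
    ∃ σ : Perm α, z K T' = act K n (MonoidAlgebra.of K (Perm α) σ) (z K T) := by
  obtain ⟨β, hβ1, hβ2⟩ := cj_beta h
  have hex : ∀ x, ∃ y, T'.col y = β (T.col x) ∧ T'.row y = T.row x := by
    intro x
    rw [← cj_mem, cj_lt, hβ1, ← cj_lt, cj_mem]
    exact ⟨x, rfl, rfl⟩
  choose s hs1 hs2 using hex
  have hinj : Function.Injective s := by
    intro x y hxy
    have h1 : T.row x = T.row y := by rw [← hs2 x, ← hs2 y, hxy]
    have h2 : T.col x = T.col y := hβ2 x y (by rw [← hs1 x, ← hs1 y, hxy])
    exact T.inj x y h1 h2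
  let σ : Perm α := Equiv.ofBijective s (Finite.injective_iff_bijective.1 hinj)
  have hσ : ∀ x, σ x = s x := fun x => rfl
  refine ⟨σ, ?_⟩
  rw [act_z]
  refine z_congr ?_ ?_
  · funext y
    have := hs2 (σ.symm y)
    rw [← hσ, Equiv.apply_symm_apply] at this
    exact this
  · intro x y
    have hx := hs1 (σ.symm x)
    have hy := hs1 (σ.symm y)
    rw [← hσ, Equiv.apply_symm_apply] at hx hy
    rw [hx, hy]
    constructor
    · intro h'
      exact hβ2 _ _ h'
    · intro h'
      have h'' : T.col (σ.symm x) = T.col (σ.symm y) := h'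
      rw [h'']

/-- the span is a submodule -/
theorem act_mem_Sp {a : Fin n → ℕ} (x : MonoidAlgebra K (Perm α)) {f : (α → Fin n) → K}
    (hf : f ∈ Sp K (α := α) a) : act K n x f ∈ Sp K (α := α) a := by
  unfold Sp at hf
  induction hf using Submodule.span_induction with
  | mem f hf =>
    obtain ⟨T, hT, rfl⟩ := hf
    have hsum : act K n x (z K T) = ∑ σ : Perm α, x.coeff σ • z K (T.mv σ) := by
      funext w
      rw [act_apply, Finset.sum_apply]
      refine Finset.sum_congr rfl fun σ _ => ?_
      rw [Pi.smul_apply, smul_eq_mul, ← act_z, act_of]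
    rw [hsum]
    refine Submodule.sum_mem _ fun σ _ => Submodule.smul_mem _ _ ?_
    exact Submodule.subset_span ⟨T.mv σ, by rw [ct_mv, hT], rfl⟩
  | zero => rw [map_zero]; exact Submodule.zero_mem _
  | add f g _ _ hf hg => rw [map_add]; exact Submodule.add_mem _ hf hg
  | smul c f _ hf => rw [map_smul]; exact Submodule.smul_mem _ _ hf

end NoethSym
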