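import Pool.Agent.Lib.MP_a8d7f7_al.N.Acc
import Pool.Agent.Lib.MP_a8d7f7_al.P.G0c

/-!
# MP_a8d7f7_al, semiprimitive ideals, module Dec: finite intersections and finite determination
`decompose`: let `S` be the set of the `NilFree` ideals which are not finite intersections of prime `NilFree` ideals; a maximal member `M` (`acc_max`) is not prime and not `⊤`: `x R y ⊆ M`, `x, y ∉ M`.
`I_x = sInf {J | NilFree J ∧ M ≤ J ∧ x ∈ J}`, `I_y` are `NilFree` (`nilFree_sInf`), `> M`, so finite intersections `L_x, L_y`; `L = L_x ++ L_y`: if `z ∈ I_x, I_y`, `z ∉ M` then by `nilFree_sep` there is `Q` prime `NilFree`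
`≥ M`, `z ∉ Q`; `x ∈ Q` or `y ∈ Q`, so `I_x ≤ Q` or `I_y ≤ Q`, contradiction.
`determined`: for a finite `D` let `C D = sInf {J | NilFree J ∧ ∀ x ∈ restr I D, x ∈ restr J D}`; a maximal member `C D₀` of `{C D}`; if `x ∈ I`, `x ∉ C D₀`, let `D` contain `D₀` and the letters moved by `x`
(`exists_support`): `C D₀ ≤ C D` (mono: `restr` grows), `x ∈ C D`, contradiction. So `I ≤ C D₀ ≤ J`. (`phi`, `restr` in `Growth.lean`, `exists_phi_of_on` in `P/G0c.lean`.)
-/

set_option autoImplicit false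
set_option linter.unusedSectionVars false
set_option linter.unusedVariables false

namespace NoethSym

open Finset Equiv FinSym
open SmallPrime (IsPrime SAlg incl)
open ThreeLetter (Ideals)

variable {K : Type*} [Field K] {Ω : Type*} [DecidableEq Ω]

private theorem dec_on (D : Finset Ω) (x : MonoidAlgebra K (Perm D)) : Rank2.On D (phi K D x) := by
  induction x using MonoidAlgebra.induction_on with
  | of g =>
    have h1 : phi K D (MonoidAlgebra.of K (Perm D) g) = MonoidAlgebra.of K (FSym Ω) (ext D g) := phi_o D g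
    rw [h1]
    exact Rank2.On.of fun z hz => ext_notMem D g hz
  | add x y hx hy =>
    rw [map_add]
    exact hx.add hy
  | smul r x hx =>
    rw [map_smul]
    exact hx.smul r

theorem decompose {p : ℕ} (hp : p.Prime) [CharP K p] [Infinite Ω] (I : Ideals K Ω) :
    NilFree I ↔ ∃ L : List (Ideals K Ω), (∀ P ∈ L, IsPrime P ∧ NilFree P) ∧
      ∀ y, y ∈ I ↔ ∀ P ∈ L, y ∈ P := by
  constructor
  · intro hI
    by_contra hcon
    obtain ⟨M, ⟨hM1, hM2⟩, hM3⟩ := acc_max hp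
      {J : Ideals K Ω | NilFree J ∧ ¬ ∃ L : List (Ideals K Ω), (∀ P ∈ L, IsPrime P ∧ NilFree P) ∧
        ∀ y, y ∈ J ↔ ∀ P ∈ L, y ∈ P} ⟨I, hI, hcon⟩ (fun J hJ => hJ.1)
    have hne : M ≠ ⊤ := by
      intro h
      apply hM2
      refine ⟨[], by simp, fun y => ?_⟩
      rw [h]
      simp
    have hnp : ¬ IsPrime M := by
      intro h
      apply hM2
      refine ⟨[M], ?_, fun y => ?_⟩
      · intro P hP
        rw [List.mem_singleton] at hP
        subst hP
        exact ⟨h, hM1⟩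
      · simp
    have h1 : ¬ ∀ x y : MonoidAlgebra K (FSym Ω), (∀ r, x * r * y ∈ M) → x ∈ M ∨ y ∈ M :=
      fun h => hnp ⟨hne, h⟩
    push Not at h1
    obtain ⟨x, y, hxy, hx, hy⟩ := h1
    have key : ∀ x : MonoidAlgebra K (FSym Ω), x ∉ M → ∃ L : List (Ideals K Ω),
        (∀ P ∈ L, IsPrime P ∧ NilFree P) ∧
          ∀ y, y ∈ sInf {J : Ideals K Ω | NilFree J ∧ M ≤ J ∧ x ∈ J} ↔ ∀ P ∈ L, y ∈ P := by
      intro x hx
      by_contra hc
      have h2 : NilFree (sInf {J : Ideals K Ω | NilFree J ∧ M ≤ J ∧ x ∈ J}) :=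
        nilFree_sInf fun J hJ => hJ.1
      have h3 : M ≤ sInf {J : Ideals K Ω | NilFree J ∧ M ≤ J ∧ x ∈ J} := le_sInf fun J hJ => hJ.2.1
      have h4 := hM3 _ ⟨h2, hc⟩ h3
      apply hx
      rw [← h4, TwoSidedIdeal.mem_sInf]
      exact fun J hJ => hJ.2.2
    obtain ⟨Lx, hLx1, hLx2⟩ := key x hx
    obtain ⟨Ly, hLy1, hLy2⟩ := key y hy
    apply hM2
    refine ⟨Lx ++ Ly, ?_, fun z => ?_⟩
    · intro P hP
      rcases List.mem_append.mp hP with h | h
      · exact hLx1 P h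
      · exact hLy1 P h
    · constructor
      · intro hz P hP
        rcases List.mem_append.mp hP with h | h
        · refine (hLx2 z).mp ?_ P h
          rw [TwoSidedIdeal.mem_sInf]
          exact fun J hJ => hJ.2.1 hz
        · refine (hLy2 z).mp ?_ P h
          rw [TwoSidedIdeal.mem_sInf]
          exact fun J hJ => hJ.2.1 hz
      · intro hz
        by_contra hzM
        have h5 := (hLx2 z).mpr fun P hP => hz P (List.mem_append_left _ hP)
        have h6 := (hLy2 z).mpr fun P hP => hz P (List.mem_append_right _ hP)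
        rw [TwoSidedIdeal.mem_sInf] at h5 h6
        obtain ⟨Q, hQ1, hQ2, hQ3, hQ4⟩ := nilFree_sep hM1 hzM
        rcases hQ1.2 x y (fun r => hQ3 (hxy r)) with h | h
        · exact hQ4 (h5 Q ⟨hQ2, hQ3, h⟩)
        · exact hQ4 (h6 Q ⟨hQ2, hQ3, h⟩)
  · rintro ⟨L, hL1, hL2⟩
    have h1 : I = sInf {P : Ideals K Ω | P ∈ L} := by
      ext y
      rw [hL2, TwoSidedIdeal.mem_sInf]
      rfl
    rw [h1]
    exact nilFree_sInf fun P hP => (hL1 P hP).2

theorem determined {p : ℕ} (hp : p.Prime) [CharP K p] [Infinite Ω] {I : Ideals K Ω} (hI : NilFree I) :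
    ∃ D : Finset Ω, ∀ J : Ideals K Ω, NilFree J → (∀ x ∈ restr I D, x ∈ restr J D) → I ≤ J := by
  set C : Finset Ω → Ideals K Ω := fun D =>
    sInf {J : Ideals K Ω | NilFree J ∧ ∀ x ∈ restr I D, x ∈ restr J D} with hC
  obtain ⟨M, ⟨D0, rfl⟩, hmax⟩ := acc_max hp (Set.range C) ⟨C ∅, ∅, rfl⟩ (by
    rintro _ ⟨D, rfl⟩
    exact nilFree_sInf fun J hJ => hJ.1)
  refine ⟨D0, fun J hJ hJI x hx => ?_⟩
  have h0 : C D0 ≤ J := sInf_le ⟨hJ, hJI⟩
  apply h0
  obtain ⟨D1, hD1⟩ := Rank2.exists_On x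
  have hsub0 : D0 ⊆ D0 ∪ D1 := Finset.subset_union_left
  have hle : C D0 ≤ C (D0 ∪ D1) := by
    refine sInf_le_sInf fun J' hJ' => ⟨hJ'.1, fun y hy => ?_⟩
    obtain ⟨y', hy'⟩ := SmallPrime.exists_phi_of_on ((dec_on D0 y).mono hsub0)
    have h1 : y' ∈ restr I (D0 ∪ D1) := by
      show phi K (D0 ∪ D1) y' ∈ I
      rw [hy']
      exact hy
    have h2 : phi K (D0 ∪ D1) y' ∈ J' := hJ'.2 y' h1
    show phi K D0 y ∈ J'
    rw [← hy']
    exact h2
  rw [← hmax _ ⟨D0 ∪ D1, rfl⟩ hle]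
  show x ∈ sInf {J : Ideals K Ω | NilFree J ∧ ∀ x ∈ restr I (D0 ∪ D1), x ∈ restr J (D0 ∪ D1)}
  rw [TwoSidedIdeal.mem_sInf]
  intro J' hJ'
  obtain ⟨x', hx'⟩ := SmallPrime.exists_phi_of_on (hD1.mono (Finset.subset_union_right (s₁ := D0)))
  have h3 : x' ∈ restr I (D0 ∪ D1) := by
    show phi K (D0 ∪ D1) x' ∈ I
    rw [hx']
    exact hx
  have h4 : phi K (D0 ∪ D1) x' ∈ J' := hJ'.2 x' h3
  rwa [hx'] at h4

end NoethSym
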