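import Pool.Agent.Lib.MP_a8d7f7_al.N.Defs

/-!
# MP_a8d7f7_al, semiprimitive ideals, module Exi: existence of tableaux, dominance, Dickson
-/

set_option autoImplicit false
set_option linter.unusedSectionVars false
set_option linter.unusedVariables false

namespace NoethSym

open Finset Equiv FinSym
open SmallPrime (IsPrime SAlg incl)
open ThreeLetter (Ideals)

variable {n : ℕ}

theorem exists_tab (b : Fin n → ℕ) (hb : Antitone b) :
    ∃ S : Tab (Fin (∑ i, b i)) n, ct S.row = b := by
  let e : Fin (∑ i, b i) ≃ (Σ i : Fin n, Fin (b i)) := finSigmaFinEquiv.symm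
  refine ⟨⟨fun x => (e x).1, fun x => ((e x).2 : ℕ), ?_, ?_⟩, ?_⟩
  · intro x y h1 h2
    apply e.injective
    generalize e x = u at h1 h2
    generalize e y = v at h1 h2
    obtain ⟨i, k⟩ := u
    obtain ⟨j, l⟩ := v
    simp only at h1
    subst h1
    simp only at h2
    rw [Fin.ext h2]
  · intro x i hi
    have h1 : ((e x).2 : ℕ) < b i := lt_of_lt_of_le (e x).2.2 (hb hi.le)
    have h2 : e (e.symm ⟨i, ⟨((e x).2 : ℕ), h1⟩⟩) = ⟨i, ⟨((e x).2 : ℕ), h1⟩⟩ := e.apply_symm_apply _
    refine ⟨e.symm ⟨i, ⟨((e x).2 : ℕ), h1⟩⟩, ?_, ?_⟩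
    · show ((e (e.symm ⟨i, ⟨((e x).2 : ℕ), h1⟩⟩)).2 : ℕ) = ((e x).2 : ℕ)
      rw [h2]
    · show (e (e.symm ⟨i, ⟨((e x).2 : ℕ), h1⟩⟩)).1 = i
      rw [h2]
  · funext i
    show (univ.filter (fun x => (e x).1 = i)).card = b i
    have h1 : (univ.filter (fun x => (e x).1 = i)).card = (univ : Finset (Fin (b i))).card := by
      symm
      refine Finset.card_bij (fun k _ => e.symm ⟨i, k⟩) ?_ ?_ ?_
      · intro k _
        simp
      · intro k _ l _ h
        have := e.symm.injective h
        simpa using this
      · intro x hx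
        rw [mem_filter] at hx
        refine ⟨Fin.cast (congrArg b hx.2) (e x).2, mem_univ _, ?_⟩
        rw [Equiv.symm_apply_eq]
        obtain ⟨_, hx2⟩ := hx
        generalize e x = u at hx2
        obtain ⟨j, l⟩ := u
        simp only at hx2
        subst hx2
        rfl
    rw [h1, card_univ, Fintype.card_fin]

theorem tab_antitone {α : Type*} [Fintype α] [DecidableEq α] (T : Tab α n) : Antitone (ct T.row) := by
  intro i j hij
  rcases hij.lt_or_eq with h | h
  · have key : ∀ x, T.row x = j → ∃ y, T.col y = T.col x ∧ T.row y = i := fun x hx =>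
      T.down x i (by rw [hx]; exact h)
    choose! f hf using key
    refine Finset.card_le_card_of_injOn f ?_ ?_
    · intro x hx
      have hx' : T.row x = j := by simpa using hx
      simpa using (hf x hx').2
    · intro x hx y hy hxy
      have hx' : T.row x = j := by simpa using hx
      have hy' : T.row y = j := by simpa using hy
      refine T.inj x y (hx'.trans hy'.symm) ?_
      rw [← (hf x hx').1, ← (hf y hy').1, hxy]
  · rw [h]

theorem dickson (a : ℕ → Fin n → ℕ) (ha : ∀ k, Antitone (a k)) :
    ∃ j k : ℕ, j < k ∧ ∃ b : Fin n → ℕ, Antitone b ∧ a k = a j + b := by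
  let A : ℕ → ℕ → ℕ := fun k i => if h : i < n then a k ⟨i, h⟩ else 0
  have hA : ∀ k i, A k (i + 1) ≤ A k i := by
    intro k i
    simp only [A]
    by_cases h1 : i + 1 < n
    · rw [dif_pos h1, dif_pos (by omega)]
      exact ha k (by simp [Fin.le_def])
    · rw [dif_neg h1]
      exact Nat.zero_le _
  have hAa : ∀ k (i : Fin n), A k i = a k i := fun k i => by simp [A]
  have hA0 : ∀ k i, n ≤ i → A k i = 0 := fun k i hi => by simp [A, Nat.not_lt.mpr hi]
  let g : ℕ → Fin n → ℕ := fun k i => A k i - A k (i + 1)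
  obtain ⟨j, k, hjk, hg⟩ := wellQuasiOrdered_le g
  refine ⟨j, k, hjk, fun i => a k i - a j i, ?_, ?_⟩
  all_goals
    have hD : Antitone (fun i : ℕ => (A k i : ℤ) - A j i) := by
      refine antitone_nat_of_succ_le fun i => ?_
      by_cases hi : i < n
      · have h1 := hg ⟨i, hi⟩
        simp only [g] at h1
        have h2 := hA k i
        have h3 := hA j i
        omega
      · have e1 := hA0 k i (by omega)
        have e2 := hA0 k (i + 1) (by omega)
        have e3 := hA0 j i (by omega)
        have e4 := hA0 j (i + 1) (by omega)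
        simp [e1, e2, e3, e4]
    have hle : ∀ i : Fin n, a j i ≤ a k i := by
      intro i
      have h1 := hD (a := (i : ℕ)) (b := n) i.2.le
      simp only [hA0 k n le_rfl, hA0 j n le_rfl, hAa] at h1
      omega
  · intro i i' hii
    have h1 := hD (a := (i : ℕ)) (b := (i' : ℕ)) hii
    simp only [hAa] at h1
    have h2 := hle i
    have h3 := hle i'
    simp only
    omega
  · funext i
    have := hle i
    simp only [Pi.add_apply]
    omega

end NoethSym
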