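import Pool.Agent.Lib.MP_a8d7f7_al.N.App
import Pool.Agent.Lib.MP_a8d7f7_al.N.Ink

/-!
# MP_a8d7f7_al, semiprimitive ideals, module Restr: restriction (the branching rule)
-/

set_option autoImplicit false
set_option linter.unusedSectionVars false
set_option linter.unusedVariables false

namespace NoethSym

open Finset Equiv FinSym
open SmallPrime (IsPrime SAlg incl)
open ThreeLetter (Ideals)

variable {K : Type*} [Field K] {n : ℕ}

private theorem restr_key {d m : ℕ} {T T' : Tab (Fin d) n} (S : Tab (Fin m) n)
    (hTT : ct T.row = ct T'.row) (x : SAlg K d) :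
    act K n (incl (Fin.castAddEmb m) (kap K T' * x)) (z K (T.app S)) =
      (dotProduct (act K n x (z K T)) (z K T')) • z K (T'.app S) := by
  have hf : ∀ w, ct w ≠ ct T'.row → act K n x (z K T) w = 0 := by
    refine act_supp (fun w => ct w = ct T'.row) ?_ x (z K T) ?_
    · intro w σ h
      rwa [ct_comp] at h
    · intro w hw
      exact z_ct T (by rw [hTT]; exact hw)
  funext u
  obtain ⟨w, v, rfl⟩ : ∃ w v, u = Fin.append w v :=
    ⟨fun i => u (Fin.castAdd m i), fun i => u (Fin.natAdd d i),
      (Fin.append_castAdd_natAdd (f := u)).symm⟩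
  rw [act_incl]
  have h1 : (fun w' => z K (T.app S) (Fin.append w' v)) = (z K S v) • z K T := by
    funext w'
    rw [z_app, Pi.smul_apply, smul_eq_mul, mul_comm]
  rw [h1, map_smul, map_mul, Module.End.mul_apply, act_kap T' _ hf]
  simp only [Pi.smul_apply, smul_eq_mul]
  rw [z_app]
  ring

theorem restrict {d m : ℕ} {a b : Fin n → ℕ} (S : Tab (Fin m) n) (hS : ct S.row = b)
    {x : SAlg K d} (hx : InK (a + b) (incl (Fin.castAddEmb m) x))
    (h1 : ¬ InK (a + b) (1 : SAlg K (d + m))) : InK a x := by
  intro T T' hT hT'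
  by_contra hγ
  apply h1
  have hct : ∀ U : Tab (Fin d) n, ct U.row = a → ct (U.app S).row = a + b := by
    intro U hU
    funext i
    show ct (Fin.append U.row S.row) i = (a + b) i
    rw [ct_append, hU, hS, Pi.add_apply]
  have h2 : InK (a + b) (incl (Fin.castAddEmb m) (kap K T' * x)) := by
    have := inK_mul hx (incl (Fin.castAddEmb m) (kap K T')) 1
    rwa [mul_one, ← incl_mul_castAdd] at this
  have h3 : ∀ U : Tab (Fin (d + m)) n, ct U.row = a + b →
      dotProduct (z K (T'.app S)) (z K U) = 0 := by
    intro U hU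
    have := h2 (T.app S) U (hct T hT) hU
    rw [restr_key S (hT.trans hT'.symm) x, smul_dotProduct, smul_eq_mul] at this
    exact (mul_eq_zero.mp this).resolve_left hγ
  have h4 : ∀ g ∈ Sp K (α := Fin (d + m)) (a + b), dotProduct (z K (T'.app S)) g = 0 := by
    intro g hg
    unfold Sp at hg
    induction hg using Submodule.span_induction with
    | mem g hg =>
      obtain ⟨U, hU, rfl⟩ := hg
      exact h3 U hU
    | zero => exact dotProduct_zero _
    | add f g _ _ hf hg => rw [dotProduct_add, hf, hg, add_zero]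
    | smul c f _ hf => rw [dotProduct_smul, hf, smul_zero]
  intro U U' hU hU'
  obtain ⟨σ, hσ⟩ := conj (K := K) (T'.app S) U ((hct T' hT').trans hU.symm)
  rw [map_one, Module.End.one_apply, hσ, dot_act]
  apply h4
  exact act_mem_Sp _ (Submodule.subset_span ⟨U', hU', rfl⟩)

end NoethSym
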