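import Pool.Agent.Lib.MP_a8d7f7_al.N.PrimeEq
import Pool.Agent.Lib.MP_a8d7f7_al.N.Restr
import Pool.Agent.Lib.MP_a8d7f7_al.N.Exi
import Pool.Agent.Lib.MP_a8d7f7_al.N.Sep
import Pool.Agent.Lib.MP_a8d7f7_al.N.AnnW
import Pool.Agent.Lib.MP_a8d7f7_al.N.Box

/-!
# MP_a8d7f7_al, semiprimitive ideals, module Desc: description by finitely many boxes (helper13)
-/

set_option autoImplicit false
set_option linter.unusedSectionVars false
set_option linter.unusedVariables false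

namespace NoethSym

open Finset Equiv FinSym
open SmallPrime (IsPrime SAlg incl emb)
open ThreeLetter (Ideals)

variable {K : Type*} [Field K] {Ω : Type*} [DecidableEq Ω]

/-- a prime ideal over `I` is given by a content -/
theorem over_eq [Infinite Ω] {n : ℕ} {I : Ideals K Ω} (hn : Ann K Ω n ≤ I) {e : ℕ}
    {M : TwoSidedIdeal (SAlg K e)} (hM : Over I M) :
    ∃ a : Fin n → ℕ, Antitone a ∧ ∑ i, a i = e ∧ ¬ InK a (1 : SAlg K e) ∧ ∀ x, x ∈ M ↔ InK a x := by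
  obtain ⟨s⟩ := exists_tuple' (Ω := Ω) e
  obtain ⟨a, ha⟩ := prime_eq (n := n) hM.1 (fun x hx => hM.2 s x (hn (ann_emb s hx)))
  have h1 : ¬ InK a (1 : SAlg K e) := by
    intro h
    apply hM.1.1
    rw [eq_top_iff]
    intro x _
    have h2 := M.mul_mem_left x _ ((ha 1).2 h)
    rwa [mul_one] at h2
  have h2 : ∃ T : Tab (Fin e) n, ct T.row = a := by
    by_contra hcon
    apply h1
    intro T T' hT
    exact absurd ⟨T, hT⟩ hcon
  obtain ⟨T, rfl⟩ := h2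
  exact ⟨ct T.row, tab_antitone T, by rw [sum_ct, Fintype.card_fin], h1, ha⟩

/-- **Description of the semiprimitive ideals.** -/
theorem desc {p : ℕ} (hp : p.Prime) [CharP K p] [Infinite Ω] {I : Ideals K Ω} (hI : NilFree I)
    (h0 : I ≠ ⊥) : ∃ (n : ℕ) (C : Finset (Fin n → ℕ∞)), ∀ (d : ℕ) (s : Fin d ↪ Ω) (x : SAlg K d),
      emb K s x ∈ I ↔ ∀ (e : ℕ) (f : Fin d ↪ Fin e) (a : Fin n → ℕ), Antitone a → ∑ i, a i = e →
        InBox C a → InK a (incl f x) := by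
  obtain ⟨n, hn⟩ := exists_ann_le hp h0
  let D : Set (Fin n → ℕ) := {g | ∃ (N : ℕ) (b : Fin n → ℕ), Antitone b ∧ ∑ i, b i = N ∧ g ≤ gap b ∧
    ¬ InK b (1 : SAlg K N) ∧ ∀ x : SAlg K N, (∀ s : Fin N ↪ Ω, emb K s x ∈ I) → InK b x}
  have hD : IsLowerSet D := by
    rintro g g' hgg ⟨N, b, h1, h2, h3, h4, h5⟩
    exact ⟨N, b, h1, h2, hgg.trans h3, h4, h5⟩
  obtain ⟨C, hC⟩ := lower_boxes D hD
  refine ⟨n, C, fun d s x => ⟨fun hx e f a ha hsum hbox => ?_, fun h => ?_⟩⟩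
  · have hg : gap a ∈ D := (hC _).2 hbox
    obtain ⟨N, b, hb, hN, hgb, h1, hall⟩ := hg
    obtain ⟨ν, hν, rfl⟩ := exists_add ha hb hgb
    obtain ⟨S, hS⟩ := exists_tab ν hν
    have hN' : e + ∑ i, ν i = N := by
      rw [← hN, ← hsum]
      simp only [Pi.add_apply]
      rw [Finset.sum_add_distrib]
    subst hN'
    refine restrict S hS (hall _ fun s' => ?_) h1
    rw [emb_incl, emb_incl]
    exact (emb_conj s _ x).1 hx
  · by_contra hcon
    obtain ⟨e, f, M, hM, hf⟩ := exists_level hI s x hcon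
    obtain ⟨a, ha, hsum, h1, hMa⟩ := over_eq hn hM
    apply hf
    rw [hMa]
    refine h e f a ha hsum ((hC _).1 ?_)
    exact ⟨e, a, ha, hsum, le_rfl, h1, fun y hy => by
      obtain ⟨s'⟩ := exists_tuple' (Ω := Ω) e
      exact (hMa y).1 (hM.2 s' y (hy s'))⟩

end NoethSym
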