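import Pool.Agent.Lib.MP_a8d7f7_al.N.KBid

/-!
# MP_a8d7f7_al, semiprimitive ideals, module Desc2: every semiprimitive ideal is given by finitely many boxes
`desc` (`N/Desc.lean`) gives `n`, `C`. (→) `N = 0`: for `emb K s x = y`, `f = refl` (`incl_refl`). (←) take `e₀ ≥` all the `N_c`, `c ∈ C` (finite), a presentation `y = emb s x` of level `≥ e₀` (`exists_emb_ge`); for `f : Fin e ↪ Fin e'`, `a` in the box `c`:
`T` with `s = f.trans T` (`extend_tuple`), `emb T (incl f x) = y`, `KB c y`. `desc_prime`: `P` prime, `y ∈ P ↔ ∀ c ∈ C, KB c y`; induction on `C`: each `KB c` is everything (`kb_fin`) or an ideal `P_c` (`kb_ideal`); if `P_c ≤ P` for no `c ∈ C` take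
`y_c ∈ P_c - P` and a nonzero product `y_c1 r y_c2 ...` outside `P` but in all `P_c`. (`C` without the `c` of the first kind is not empty as `P ≠ ⊤`.)
-/

set_option autoImplicit false
set_option linter.unusedSectionVars false
set_option linter.unusedVariables false

namespace NoethSym

open Finset Equiv FinSym
open SmallPrime (IsPrime SAlg incl emb)
open ThreeLetter (Ideals)

variable {K : Type*} [Field K] {Ω : Type*} [DecidableEq Ω]

theorem desc2 {p : ℕ} (hp : p.Prime) [CharP K p] [Infinite Ω] {I : Ideals K Ω} (hI : NilFree I)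
    (h0 : I ≠ ⊥) : ∃ (n : ℕ) (C : Finset (Fin n → ℕ∞)), ∀ y, y ∈ I ↔ ∀ c ∈ C, KB c y := by
  obtain ⟨n, C, hC⟩ := desc hp hI h0
  refine ⟨n, C, fun y => ⟨fun hy c hc => ⟨0, fun e s x _ hx a ha hs => ?_⟩, fun h => ?_⟩⟩
  · have h1 : emb K s x ∈ I := by rwa [hx]
    have h2 := (hC e s x).1 h1 e (Function.Embedding.refl _) a ha.1 hs ⟨c, hc, ha.2⟩
    rwa [incl_refl] at h2
  · unfold KB at h
    choose! F hF using h
    obtain ⟨e, s, x, he, hx⟩ := exists_emb_ge (C.sup F) y
    rw [← hx, hC]
    rintro e' f a ha hs ⟨c, hc, hg⟩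
    obtain ⟨T, hT⟩ := extend_tuple f s
    refine hF c hc e' T (incl f x) ?_ ?_ a ⟨ha, hg⟩ hs
    · have h1 : e ≤ e' := by
        have := Fintype.card_le_of_embedding f
        rwa [Fintype.card_fin, Fintype.card_fin] at this
      exact (Finset.le_sup hc).trans (he.trans h1)
    · rw [emb_incl, ← hT, hx]

theorem desc_prime {p : ℕ} (hp : p.Prime) [CharP K p] [Infinite Ω] {P : Ideals K Ω}
    (hP : IsPrime P) (hN : NilFree P) (h0 : P ≠ ⊥) :
    ∃ (n : ℕ) (c : Fin n → ℕ∞), ∀ y, y ∈ P ↔ KB c y := by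
  classical
  obtain ⟨n, C, hC⟩ := desc2 hp hN h0
  have h1 : (1 : MonoidAlgebra K (FSym Ω)) ∉ P := by
    intro h
    apply hP.1
    rw [eq_top_iff]
    intro x _
    have h2 := P.mul_mem_left x _ h
    rwa [mul_one] at h2
  by_cases hex : ∃ c ∈ C, ∀ y, KB c y → y ∈ P
  · obtain ⟨c, hc, hcP⟩ := hex
    exact ⟨n, c, fun y => ⟨fun hy => (hC y).1 hy c hc, hcP y⟩⟩
  · exfalso
    push Not at hex
    have key : ∀ D : Finset (Fin n → ℕ∞), D ⊆ C → ∃ z ∉ P, ∀ c ∈ D, KB c z := by
      intro D
      induction D using Finset.induction_on with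
      | empty => exact fun _ => ⟨1, h1, fun c hc => absurd hc (notMem_empty c)⟩
      | insert c D _ ih =>
        intro hD
        obtain ⟨z, hz, hzD⟩ := ih ((subset_insert c D).trans hD)
        rcases Set.finite_or_infinite {a : Fin n → ℕ | Below c a ∧ PReg p a} with hf | hi
        · refine ⟨z, hz, fun c' hc' => ?_⟩
          rcases mem_insert.1 hc' with rfl | hc'
          · exact kb_fin hp hf z
          · exact hzD c' hc'
        · obtain ⟨Q, -, hQ⟩ := kb_ideal (K := K) (Ω := Ω) hp hi
          obtain ⟨y, hy, hyP⟩ := hex c (hD (mem_insert_self c D))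
          have h2 : ∃ r, z * r * y ∉ P := by
            by_contra hcon
            push Not at hcon
            rcases hP.2 z y hcon with h | h
            · exact hz h
            · exact hyP h
          obtain ⟨r, hr⟩ := h2
          refine ⟨z * r * y, hr, fun c' hc' => ?_⟩
          rcases mem_insert.1 hc' with rfl | hc'
          · exact (hQ _).1 (Q.mul_mem_left _ _ ((hQ y).2 hy))
          · rcases Set.finite_or_infinite {a : Fin n → ℕ | Below c' a ∧ PReg p a} with hf' | hi'
            · exact kb_fin hp hf' _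
            · obtain ⟨Q', -, hQ'⟩ := kb_ideal (K := K) (Ω := Ω) hp hi'
              rw [mul_assoc]
              exact (hQ' _).1 (Q'.mul_mem_right _ _ ((hQ' z).2 (hzD c' hc')))
    obtain ⟨z, hz, hzC⟩ := key C (Finset.Subset.refl C)
    exact hz ((hC z).2 hzC)

end NoethSym
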