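import Pool.Agent.Lib.MP_a8d7f7_al.N.Raise

/-!
# MP_a8d7f7_al, semiprimitive ideals, module Dom: highest vectors have dominant content
PROOF (inclusion-exclusion). Suppose `a i < a (i+1)`, let `w` be a word of content `a`; show `f w = 0`.
`C = w⁻¹(i)`, `B = w⁻¹{i, i+1}`, `b = a (i+1)`. For `Z ⊆ C` let `u_Z` = the word equal to `w` off `B`, `i+1` on `Z`, `i` on `B - Z`.
`(E i (b - #Z) f) (u_Z) = ∑ f v` over the words `v` of content `a` equal to `w` off `B`, with values in `{i, i+1}` on `B` and `= i+1` on `Z`
(the number of changed places is automatically `b - #Z ≥ b - a i ≥ 1`), and it is `0`.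
`0 = ∑_{Z ⊆ C} (-1)^#Z (E i (b - #Z) f)(u_Z) = ∑_v f v * ∑_{Z ⊆ C ∩ v⁻¹(i+1)} (-1)^#Z = ∑_{v : C ∩ v⁻¹(i+1) = ∅} f v = f w`
(`Finset.sum_powerset_neg_one_pow_card`-type; `v` has `i` on `C`, and `#(B - C) = b` places for its `b` letters `i+1`, so `v = w`).
-/

set_option autoImplicit false
set_option linter.unusedSectionVars false
set_option linter.unusedVariables false

namespace NoethSym

open Finset Equiv FinSym
open SmallPrime (IsPrime SAlg incl)
open ThreeLetter (Ideals)

variable {K : Type*} [Field K] {α : Type*} [Fintype α] [DecidableEq α] {n : ℕ}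

/-- the word equal to `w` off the letters `i, j`, with `j` on `Z` and `i` elsewhere -/
private def dmU (w : α → Fin n) (i j : Fin n) (Z : Finset α) : α → Fin n :=
  fun x => if x ∈ Z then j else if w x = i ∨ w x = j then i else w x

private theorem dm_up {w v : α → Fin n} {i j : Fin n} (hij : (i : ℕ) + 1 = j) {Z : Finset α}
    (hZ : ∀ x ∈ Z, w x = i) {a : Fin n → ℕ} (hv : ct v = a) :
    Up i (a j - Z.card) v (dmU w i j Z) ↔
      ((∀ x, v x ≠ w x → (w x = i ∨ w x = j) ∧ (v x = i ∨ v x = j)) ∧ ∀ x ∈ Z, v x = j) := by
  have hne : i ≠ j := fun h => by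
    have := congrArg Fin.val h
    omega
  have hj : ∀ y : Fin n, (y : ℕ) = i + 1 ↔ y = j := by
    intro y
    rw [Fin.ext_iff]
    omega
  have hi : ∀ y : Fin n, (y : ℕ) = i ↔ y = i := by
    intro y
    rw [Fin.ext_iff]
  constructor
  · rintro ⟨h1, -⟩
    have hZj : ∀ x ∈ Z, v x = j := by
      intro x hx
      by_contra hh
      have hu : dmU w i j Z x = j := by
        unfold dmU
        rw [if_pos hx]
      have := (h1 x (by rw [hu]; exact hh)).1
      rw [hu, hi] at this
      exact hne this.symm
    refine ⟨fun x hx => ?_, hZj⟩
    by_cases hxZ : x ∈ Z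
    · exact ⟨Or.inl (hZ x hxZ), Or.inr (hZj x hxZ)⟩
    · by_cases hB : w x = i ∨ w x = j
      · refine ⟨hB, ?_⟩
        have hu : dmU w i j Z x = i := by
          unfold dmU
          rw [if_neg hxZ, if_pos hB]
        by_cases hvu : v x = dmU w i j Z x
        · exact Or.inl (hvu.trans hu)
        · exact Or.inr ((hj _).1 (h1 x hvu).2)
      · exfalso
        have hu : dmU w i j Z x = w x := by
          unfold dmU
          rw [if_neg hxZ, if_neg hB]
        have := (h1 x (by rw [hu]; exact hx)).1
        rw [hu, hi] at this
        exact hB (Or.inl this)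
  · rintro ⟨hP, hZj⟩
    have key : ∀ x, v x ≠ dmU w i j Z x ↔ (v x = j ∧ x ∉ Z) := by
      intro x
      by_cases hxZ : x ∈ Z
      · have hu : dmU w i j Z x = j := by
          unfold dmU
          rw [if_pos hxZ]
        rw [hu, hZj x hxZ]
        simp [hxZ]
      · by_cases hB : w x = i ∨ w x = j
        · have hu : dmU w i j Z x = i := by
            unfold dmU
            rw [if_neg hxZ, if_pos hB]
          rw [hu]
          have hvB : v x = i ∨ v x = j := by
            by_cases hvw : v x = w x
            · rw [hvw]
              exact hB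
            · exact (hP x hvw).2
          constructor
          · intro h
            exact ⟨hvB.resolve_left h, hxZ⟩
          · rintro ⟨h, -⟩ h'
            exact hne (h'.symm.trans h)
        · have hu : dmU w i j Z x = w x := by
            unfold dmU
            rw [if_neg hxZ, if_neg hB]
          rw [hu]
          have hvw : v x = w x := by
            by_contra hh
            exact hB (hP x hh).1
          constructor
          · intro h
            exact absurd hvw h
          · rintro ⟨h, -⟩
            exact absurd (Or.inr (hvw.symm.trans h)) hB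
    refine ⟨fun x hx => ?_, ?_⟩
    · obtain ⟨h1, h2⟩ := (key x).1 hx
      refine ⟨?_, (hj _).2 h1⟩
      rw [hi]
      by_cases hB : w x = i ∨ w x = j
      · unfold dmU
        rw [if_neg h2, if_pos hB]
      · exfalso
        have hu : dmU w i j Z x = w x := by
          unfold dmU
          rw [if_neg h2, if_neg hB]
        rw [hu] at hx
        exact hB (hP x hx).1
    · have hset : (univ.filter (fun x => v x ≠ dmU w i j Z x)) =
          (univ.filter (fun x => v x = j)) \ Z := by
        ext x
        rw [mem_filter, mem_sdiff, mem_filter, key x]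
        tauto
      rw [hset, card_sdiff_of_subset, ← hv]
      · rfl
      · intro x hx
        exact mem_filter.2 ⟨mem_univ _, hZj x hx⟩

theorem dom {a : Fin n → ℕ} {f : (α → Fin n) → K} (hf : ∀ w, ct w ≠ a → f w = 0) (hHi : Hi f)
    (h0 : f ≠ 0) (i j : Fin n) (hij : (i : ℕ) + 1 = j) : a j ≤ a i := by
  by_contra hlt
  rw [not_le] at hlt
  refine h0 (funext fun w => ?_)
  by_cases hw : ct w = a
  swap
  · exact hf w hw
  have hne : i ≠ j := fun h => by
    have := congrArg Fin.val h
    omega
  set C : Finset α := univ.filter (fun x => w x = i) with hC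
  have hCc : C.card = a i := by
    rw [← hw]
    rfl
  let P : (α → Fin n) → Prop :=
    fun v => ∀ x, v x ≠ w x → (w x = i ∨ w x = j) ∧ (v x = i ∨ v x = j)
  -- the value of the raising operator
  have hE : ∀ Z ∈ C.powerset, ∑ v : α → Fin n,
      (if P v ∧ ∀ x ∈ Z, v x = j then f v else 0) = 0 := by
    intro Z hZ
    rw [mem_powerset] at hZ
    have hZc : Z.card ≤ a i := by
      rw [← hCc]
      exact card_le_card hZ
    have h1 := congrFun (hHi i (a j - Z.card) (by omega)) (dmU w i j Z)
    unfold E at h1
    rw [Pi.zero_apply] at h1
    refine Eq.trans (sum_congr rfl fun v _ => ?_) h1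
    by_cases hv : ct v = a
    · have h2 := dm_up (w := w) (v := v) hij (Z := Z)
        (fun x hx => (mem_filter.1 (hZ hx)).2) hv
      by_cases h3 : P v ∧ ∀ x ∈ Z, v x = j
      · rw [if_pos h3, if_pos (h2.2 h3)]
      · rw [if_neg h3, if_neg (fun hh => h3 (h2.1 hh))]
    · rw [hf v hv]
      simp
  have h4 : ∑ Z ∈ C.powerset, ((-1 : ℤ) ^ Z.card : K) * ∑ v : α → Fin n,
      (if P v ∧ ∀ x ∈ Z, v x = j then f v else 0) = 0 := by
    refine sum_eq_zero fun Z hZ => ?_
    rw [hE Z hZ, mul_zero]
  simp only [mul_sum] at h4
  rw [sum_comm] at h4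
  have h5 : ∀ v : α → Fin n, ∑ Z ∈ C.powerset, ((-1 : ℤ) ^ Z.card : K) *
      (if P v ∧ ∀ x ∈ Z, v x = j then f v else 0) =
      if v = w then f v else 0 := by
    intro v
    by_cases hP : P v
    · set D : Finset α := C.filter (fun x => v x = j) with hD
      have h6 : ∑ Z ∈ C.powerset, ((-1 : ℤ) ^ Z.card : K) *
          (if P v ∧ ∀ x ∈ Z, v x = j then f v else 0) =
          ∑ Z ∈ D.powerset, ((-1 : ℤ) ^ Z.card : K) * f v := by
        have hsub : D.powerset ⊆ C.powerset := powerset_mono.2 (filter_subset _ _)
        rw [← sum_subset hsub]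
        · refine sum_congr rfl fun Z hZ => ?_
          rw [if_pos ⟨hP, fun x hx => (mem_filter.1 (mem_powerset.1 hZ hx)).2⟩]
        · intro Z hZ hZ'
          rw [if_neg, mul_zero]
          rintro ⟨-, h⟩
          exact hZ' (mem_powerset.2 fun x hx =>
            mem_filter.2 ⟨mem_powerset.1 hZ hx, h x hx⟩)
      rw [h6, ← sum_mul]
      have h7 : (∑ Z ∈ D.powerset, ((-1 : ℤ) ^ Z.card : K)) = if D = ∅ then 1 else 0 := by
        have := Finset.sum_powerset_neg_one_pow_card (x := D)
        have h8 := congrArg (fun z : ℤ => (z : K)) this
        push_cast at h8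
        push_cast
        rw [h8]
      rw [h7]
      by_cases hDe : D = ∅
      · rw [if_pos hDe, one_mul]
        by_cases hv : ct v = a
        · have hDno : ∀ x, w x = i → v x ≠ j := by
            intro x hx hx'
            have : x ∈ D := mem_filter.2 ⟨mem_filter.2 ⟨mem_univ _, hx⟩, hx'⟩
            rw [hDe] at this
            exact absurd this (notMem_empty _)
          have hsub : univ.filter (fun x => v x = j) ⊆ univ.filter (fun x => w x = j) := by
            intro x hx
            have hvx := (mem_filter.1 hx).2
            refine mem_filter.2 ⟨mem_univ _, ?_⟩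
            by_cases hvw : v x = w x
            · rw [← hvw, hvx]
            · rcases (hP x hvw).1 with h | h
              · exact absurd hvx (hDno x h)
              · exact h
          have hcard : (univ.filter (fun x => w x = j)).card ≤
              (univ.filter (fun x => v x = j)).card := by
            have h9 : (univ.filter (fun x => w x = j)).card = a j := by
              rw [← hw]
              rfl
            have h10 : (univ.filter (fun x => v x = j)).card = a j := by
              rw [← hv]
              rfl
            rw [h9, h10]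
          have heq := Finset.eq_of_subset_of_card_le hsub hcard
          have hvw : v = w := by
            funext x
            by_contra hh
            rcases (hP x hh).1 with h | h
            · rcases (hP x hh).2 with h' | h'
              · exact hh (h'.trans h.symm)
              · exact hDno x h h'
            · have : x ∈ univ.filter (fun x => v x = j) := by
                rw [heq]
                exact mem_filter.2 ⟨mem_univ _, h⟩
              exact hh ((mem_filter.1 this).2.trans h.symm)
          rw [if_pos hvw]
        · rw [hf v hv]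
          simp
      · rw [if_neg hDe, zero_mul, if_neg]
        rintro rfl
        refine hDe (Finset.eq_empty_of_forall_notMem fun x hx => ?_)
        rw [hD, mem_filter, hC, mem_filter] at hx
        exact hne (hx.1.2.symm.trans hx.2)
    · rw [if_neg]
      · refine sum_eq_zero fun Z _ => ?_
        rw [if_neg (fun h => hP h.1), mul_zero]
      · rintro rfl
        exact hP fun x hx => absurd rfl hx
  rw [sum_congr rfl fun v _ => h5 v] at h4
  rw [Finset.sum_ite_eq' univ w f] at h4
  simpa using h4

end NoethSym
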