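import Mathlib
import Pool.Agent.Lib.MP_a8d7f7_al.N.Defs

/-!
# MP_a8d7f7_al, semiprimitive ideals, module ExtT: one more place
`ct_cons` is immediate. `exists_ext_tab`: if `j > 0` there is a cell of row `j - 1` with no cell of row `j` in its column (else the cells of row `j` would be at least as
many: the map row `j - 1` → row `j`, same column, is injective); give the new place `0` row `j` and that column. If `j = 0` take a new column name (larger than all
`T₀.col x`). `down` is clear; the column of `0` has exactly the rows `0..j`.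
The permutations `σ` of `Fin (d + 1)` which keep the columns and satisfy `Fin.cons j w ∘ σ = T.row` fix `0` (`w' (σ 0) = j` and the column of `0`...: if
`σ y = 0` then `T.row y = j` in the column of `0`, so `y = 0` by `inj`), so are `decomposeFin.symm (0, σ₀)` (`Equiv.Perm.decomposeFin`, `decomposeFin.symm_sign`). For `j < i`: `σ y = 0`
gives `T.row y = i > j` in the column of `0`, impossible.
-/

set_option autoImplicit false
set_option linter.unusedSectionVars false
set_option linter.unusedVariables false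

namespace NoethSym

open Finset Equiv FinSym
open SmallPrime (IsPrime SAlg incl)
open ThreeLetter (Ideals)

variable {K : Type*} [Field K] {n : ℕ}

theorem ct_cons {d : ℕ} (j : Fin n) (w : Fin d → Fin n) (i : Fin n) :
    ct (Fin.cons j w : Fin (d + 1) → Fin n) i = ct w i + if i = j then 1 else 0 := by
  unfold ct
  rw [Finset.card_filter, Finset.card_filter, Fin.sum_univ_succ]
  simp only [Fin.cons_zero, Fin.cons_succ]
  rw [add_comm]
  congr 1
  simp only [eq_comm]

/-- a column for the new place -/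
private theorem extT_column {d : ℕ} (T₀ : Tab (Fin d) n) (j : Fin n)
    (h : ∀ i : Fin n, (i : ℕ) + 1 = j → ct T₀.row j < ct T₀.row i) :
    ∃ c : ℕ, (∀ i : Fin n, i < j → ∃ y, T₀.col y = c ∧ T₀.row y = i) ∧ ∀ y, T₀.col y = c → T₀.row y < j := by
  classical
  rcases Nat.eq_zero_or_pos (j : ℕ) with h0 | h0
  · refine ⟨(∑ y, T₀.col y) + 1, ?_, ?_⟩
    · intro i hi
      exact absurd (Fin.lt_def.mp hi) (by omega)
    · intro y hy
      exfalso
      have := Finset.single_le_sum (f := fun y => T₀.col y) (fun y _ => Nat.zero_le _) (Finset.mem_univ y)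
      omega
  · obtain ⟨i0, hi0⟩ : ∃ i0 : Fin n, (i0 : ℕ) + 1 = j :=
      ⟨⟨(j : ℕ) - 1, by have := j.2; omega⟩, by change (j : ℕ) - 1 + 1 = j; omega⟩
    have h1 := h i0 hi0
    obtain ⟨x, hx, hx'⟩ : ∃ x, T₀.row x = i0 ∧ ∀ y, T₀.col y = T₀.col x → T₀.row y ≠ j := by
      by_contra hcon
      push Not at hcon
      have h2 : ct T₀.row i0 ≤ ct T₀.row j := by
        unfold ct
        choose! g hg using hcon
        refine Finset.card_le_card_of_injOn g ?_ ?_
        · intro x hx
          have hx1 := (Finset.mem_filter.mp (Finset.mem_coe.mp hx)).2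
          exact Finset.mem_coe.mpr (Finset.mem_filter.mpr ⟨Finset.mem_univ _, (hg x hx1).2⟩)
        · intro x hx y hy hxy
          have hx1 := (Finset.mem_filter.mp (Finset.mem_coe.mp hx)).2
          have hy1 := (Finset.mem_filter.mp (Finset.mem_coe.mp hy)).2
          refine T₀.inj x y (hx1.trans hy1.symm) ?_
          rw [← (hg x hx1).1, ← (hg y hy1).1, hxy]
      omega
    refine ⟨T₀.col x, ?_, ?_⟩
    · intro i hi
      rcases lt_or_eq_of_le (show (i : ℕ) ≤ i0 by have := Fin.lt_def.mp hi; omega) with h2 | h2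
      · refine T₀.down x i ?_
        rw [hx]
        exact Fin.lt_def.mpr h2
      · exact ⟨x, rfl, by rw [hx]; exact (Fin.ext h2).symm⟩
    · intro y hy
      by_contra h2
      rcases lt_or_eq_of_le (not_lt.mp h2) with h3 | h3
      · obtain ⟨y', hy1, hy2⟩ := T₀.down y j h3
        exact hx' y' (hy1.trans hy) hy2
      · exact hx' y hy h3.symm

private theorem extT_cond {d : ℕ} (T₀ : Tab (Fin d) n) (j : Fin n) (c : ℕ) (w : Fin d → Fin n)
    (e : Perm (Fin d)) :
    ((∀ x, (Fin.cons c T₀.col : Fin (d + 1) → ℕ) (Equiv.Perm.decomposeFin.symm (0, e) x) =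
        (Fin.cons c T₀.col : Fin (d + 1) → ℕ) x) ∧
      (Fin.cons j w : Fin (d + 1) → Fin n) ∘ (Equiv.Perm.decomposeFin.symm (0, e)) =
        (Fin.cons j T₀.row : Fin (d + 1) → Fin n)) ↔
    ((∀ x, T₀.col (e x) = T₀.col x) ∧ w ∘ e = T₀.row) := by
  have hs : ∀ x : Fin d, Equiv.Perm.decomposeFin.symm (0, e) x.succ = (e x).succ := by
    intro x
    rw [Equiv.Perm.decomposeFin_symm_apply_succ, Equiv.swap_self]
    rfl
  have h0 : Equiv.Perm.decomposeFin.symm ((0 : Fin (d + 1)), e) 0 = 0 :=
    Equiv.Perm.decomposeFin_symm_apply_zero _ _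
  constructor
  · rintro ⟨h1, h2⟩
    refine ⟨fun x => ?_, funext fun x => ?_⟩
    · have h3 := h1 x.succ
      rw [hs, Fin.cons_succ, Fin.cons_succ] at h3
      exact h3
    · have h3 := congrFun h2 x.succ
      rw [Function.comp_apply, hs, Fin.cons_succ, Fin.cons_succ] at h3
      exact h3
  · rintro ⟨h1, h2⟩
    refine ⟨fun x => ?_, funext fun x => ?_⟩
    · refine Fin.cases ?_ (fun y => ?_) x
      · rw [h0]
      · rw [hs, Fin.cons_succ, Fin.cons_succ]
        exact h1 y
    · refine Fin.cases ?_ (fun y => ?_) x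
      · rw [Function.comp_apply, h0, Fin.cons_zero, Fin.cons_zero]
      · rw [Function.comp_apply, hs, Fin.cons_succ, Fin.cons_succ]
        exact congrFun h2 y

theorem exists_ext_tab {d : ℕ} (T₀ : Tab (Fin d) n) (j : Fin n)
    (h : ∀ i : Fin n, (i : ℕ) + 1 = j → ct T₀.row j < ct T₀.row i) :
    ∃ T : Tab (Fin (d + 1)) n, T.row = Fin.cons j T₀.row ∧
      (∀ w : Fin d → Fin n, z K T (Fin.cons j w : Fin (d + 1) → Fin n) = z K T₀ w) ∧
      ∀ (i : Fin n) (w : Fin d → Fin n), j < i → z K T (Fin.cons i w : Fin (d + 1) → Fin n) = 0 := by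
  obtain ⟨c, hc1, hc2⟩ := extT_column T₀ j h
  have hinj : ∀ x y : Fin (d + 1), (Fin.cons j T₀.row : Fin (d + 1) → Fin n) x =
      (Fin.cons j T₀.row : Fin (d + 1) → Fin n) y → (Fin.cons c T₀.col : Fin (d + 1) → ℕ) x =
      (Fin.cons c T₀.col : Fin (d + 1) → ℕ) y → x = y := by
    intro x y
    refine Fin.cases ?_ (fun x' => ?_) x
    · refine Fin.cases ?_ (fun y' => ?_) y
      · intro _ _
        rfl
      · intro h1 h2
        rw [Fin.cons_zero, Fin.cons_succ] at h1 h2
        exact absurd (hc2 y' h2.symm) (by rw [← h1]; exact lt_irrefl _)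
    · refine Fin.cases ?_ (fun y' => ?_) y
      · intro h1 h2
        rw [Fin.cons_zero, Fin.cons_succ] at h1 h2
        exact absurd (hc2 x' h2) (by rw [h1]; exact lt_irrefl _)
      · intro h1 h2
        rw [Fin.cons_succ, Fin.cons_succ] at h1 h2
        rw [T₀.inj x' y' h1 h2]
  have hdown : ∀ (x : Fin (d + 1)) (i : Fin n), i < (Fin.cons j T₀.row : Fin (d + 1) → Fin n) x →
      ∃ y, (Fin.cons c T₀.col : Fin (d + 1) → ℕ) y = (Fin.cons c T₀.col : Fin (d + 1) → ℕ) x ∧
        (Fin.cons j T₀.row : Fin (d + 1) → Fin n) y = i := by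
    intro x i
    refine Fin.cases ?_ (fun x' => ?_) x
    · intro h1
      rw [Fin.cons_zero] at h1
      obtain ⟨y, hy1, hy2⟩ := hc1 i h1
      refine ⟨y.succ, ?_, ?_⟩
      · rw [Fin.cons_succ, Fin.cons_zero]
        exact hy1
      · rw [Fin.cons_succ]
        exact hy2
    · intro h1
      rw [Fin.cons_succ] at h1
      obtain ⟨y, hy1, hy2⟩ := T₀.down x' i h1
      refine ⟨y.succ, ?_, ?_⟩
      · rw [Fin.cons_succ, Fin.cons_succ]
        exact hy1
      · rw [Fin.cons_succ]
        exact hy2
  refine ⟨⟨Fin.cons j T₀.row, Fin.cons c T₀.col, hinj, hdown⟩, rfl, ?_, ?_⟩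
  · intro w
    unfold z
    rw [← Equiv.sum_comp Equiv.Perm.decomposeFin.symm, Fintype.sum_prod_type]
    rw [Finset.sum_eq_single (0 : Fin (d + 1))]
    · refine Finset.sum_congr rfl fun e _ => ?_
      have hcond := extT_cond T₀ j c w e
      by_cases hc : (∀ x, T₀.col (e x) = T₀.col x) ∧ w ∘ e = T₀.row
      · rw [if_pos hc, if_pos (hcond.mpr hc), Equiv.Perm.decomposeFin.symm_sign, if_pos rfl, one_mul]
      · rw [if_neg hc, if_neg (fun hh => hc (hcond.mp hh))]
    · intro p _ hp
      refine Finset.sum_eq_zero fun e _ => ?_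
      rw [if_neg]
      rintro ⟨h1, h2⟩
      apply hp
      obtain ⟨y, hy⟩ := (Equiv.Perm.decomposeFin.symm (p, e)).surjective 0
      have h3 := h1 y
      have h4 := congrFun h2 y
      rw [Function.comp_apply, hy] at h4
      rw [hy] at h3
      have h5 : (0 : Fin (d + 1)) = y := by
        refine hinj 0 y ?_ h3
        exact h4
      rw [← h5, Equiv.Perm.decomposeFin_symm_apply_zero] at hy
      exact hy
    · intro h1
      exact absurd (Finset.mem_univ _) h1
  · intro i w hi
    unfold z
    refine Finset.sum_eq_zero fun σ _ => ?_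
    rw [if_neg]
    rintro ⟨h1, h2⟩
    obtain ⟨y, hy⟩ := σ.surjective 0
    have h3 := h1 y
    have h4 := congrFun h2 y
    rw [Function.comp_apply, hy] at h4
    rw [hy] at h3
    revert h3 h4
    refine Fin.cases ?_ (fun y' => ?_) y
    · intro _ h4
      rw [Fin.cons_zero] at h4
      change i = (Fin.cons j T₀.row : Fin (d + 1) → Fin n) 0 at h4
      rw [Fin.cons_zero] at h4
      exact absurd h4 (ne_of_gt hi)
    · intro h3 h4
      change (Fin.cons c T₀.col : Fin (d + 1) → ℕ) 0 = (Fin.cons c T₀.col : Fin (d + 1) → ℕ) y'.succ at h3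
      change (Fin.cons i w : Fin (d + 1) → Fin n) 0 = (Fin.cons j T₀.row : Fin (d + 1) → Fin n) y'.succ at h4
      rw [Fin.cons_zero, Fin.cons_succ] at h3 h4
      have h5 := hc2 y' h3.symm
      rw [← h4] at h5
      exact absurd h5 (not_lt.mpr hi.le)

end NoethSym
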