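import Pool.Agent.Lib.MP_a8d7f7_al.N.Act

/-!
# MP_a8d7f7_al, semiprimitive ideals, module Raise: raising operators
`E_act`: by linearity for `x = σ`; `Up i k (w ∘ σ) (w' ∘ σ) ↔ Up i k w w'`.
`hi_of_kills`: `f` of content `a`, `k ≥ 1`: `E i k f` is supported on words `w'` with `wt w' + k = wt a`
(`up_wt`; if `f w ≠ 0` then `wt w = ∑ i * a i`), write it as the sum over the contents `b` (a finite set,
e.g. `univ.image ct`) of its parts; each part is killed by `x`, as the weight is smaller.
-/

set_option autoImplicit false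
set_option linter.unusedSectionVars false
set_option linter.unusedVariables false

namespace NoethSym

open Finset Equiv FinSym
open SmallPrime (IsPrime SAlg incl)
open ThreeLetter (Ideals)

variable {K : Type*} [Field K] {α : Type*} [Fintype α] [DecidableEq α] {n : ℕ}

theorem up_wt {i k : ℕ} {w w' : α → Fin n} (h : Up i k w w') : wt w = wt w' + k := by
  obtain ⟨h1, h2⟩ := h
  unfold wt
  rw [← h2, card_filter, ← sum_add_distrib]
  refine sum_congr rfl fun x _ => ?_
  by_cases hx : w x = w' x
  · simp [hx]
  · obtain ⟨ha, hb⟩ := h1 x hx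
    rw [if_pos hx, ha, hb]

theorem up_comp (i k : ℕ) (w w' : α → Fin n) (σ : Perm α) :
    Up i k (w ∘ σ) (w' ∘ σ) ↔ Up i k w w' := by
  unfold Up
  have hc : (univ.filter (fun x => (w ∘ σ) x ≠ (w' ∘ σ) x)).card =
      (univ.filter (fun x => w x ≠ w' x)).card := by
    refine Finset.card_bijective σ σ.bijective fun x => ?_
    simp
  rw [hc]
  refine and_congr_left fun _ => ⟨fun h x hx => ?_, fun h x hx => h (σ x) hx⟩
  have := h (σ.symm x)
  simpa using this (by simpa using hx)

theorem E_act (i k : ℕ) (x : MonoidAlgebra K (Perm α)) (f : (α → Fin n) → K) :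
    E i k (act K n x f) = act K n x (E i k f) := by
  funext w'
  rw [act_apply]
  unfold E
  have h1 : ∀ w : α → Fin n, (if Up i k w w' then act K n x f w else 0) =
      ∑ σ : Perm α, x.coeff σ * (if Up i k w w' then f (w ∘ σ) else 0) := by
    intro w
    split_ifs with h
    · rw [act_apply]
    · simp
  rw [sum_congr rfl fun w _ => h1 w, sum_comm]
  refine sum_congr rfl fun σ _ => ?_
  rw [← mul_sum]
  congr 1
  refine Fintype.sum_equiv (Equiv.arrowCongr σ.symm (Equiv.refl _)) _ _ fun w => ?_
  have h2 : (Equiv.arrowCongr σ.symm (Equiv.refl (Fin n))) w = w ∘ σ := by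
    funext x
    simp [Equiv.arrowCongr]
  rw [h2]
  by_cases hU : Up i k w w'
  · rw [if_pos hU, if_pos ((up_comp i k w w' σ).2 hU)]
  · rw [if_neg hU, if_neg (fun hh => hU ((up_comp i k w w' σ).1 hh))]

theorem hi_sub {f g : (α → Fin n) → K} (hf : Hi f) (hg : Hi g) : Hi (f - g) := by
  intro i k hk
  funext w'
  have h1 := congrFun (hf i k hk) w'
  have h2 := congrFun (hg i k hk) w'
  unfold E at *
  simp only [Pi.zero_apply] at *
  have : (∑ w : α → Fin n, if Up i k w w' then (f - g) w else 0) =
      (∑ w : α → Fin n, if Up i k w w' then f w else 0) -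
        ∑ w : α → Fin n, if Up i k w w' then g w else 0 := by
    rw [← sum_sub_distrib]
    refine sum_congr rfl fun w _ => ?_
    split_ifs <;> simp
  rw [this, h1, h2, sub_zero]

theorem hi_sum {ι : Type*} (s : Finset ι) (f : ι → (α → Fin n) → K) (hf : ∀ i ∈ s, Hi (f i)) :
    Hi (∑ i ∈ s, f i) := by
  intro i k hk
  funext w'
  unfold E
  have h1 : ∀ w : α → Fin n, (if Up i k w w' then (∑ j ∈ s, f j) w else 0) =
      ∑ j ∈ s, (if Up i k w w' then f j w else 0) := by
    intro w
    split_ifs with h
    · rw [Finset.sum_apply]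
    · simp
  rw [sum_congr rfl fun w _ => h1 w, sum_comm, Pi.zero_apply]
  refine sum_eq_zero fun j hj => ?_
  have h2 := congrFun (hf j hj i k hk) w'
  unfold E at h2
  exact h2

theorem hi_smul (c : K) {f : (α → Fin n) → K} (hf : Hi f) : Hi (c • f) := by
  intro i k hk
  funext w'
  have h1 := congrFun (hf i k hk) w'
  unfold E at *
  simp only [Pi.zero_apply] at *
  have : (∑ w : α → Fin n, if Up i k w w' then (c • f) w else 0) =
      c * (∑ w : α → Fin n, if Up i k w w' then f w else 0) := by
    rw [mul_sum]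
    refine sum_congr rfl fun w _ => ?_
    split_ifs <;> simp
  rw [this, h1, mul_zero]

/-- an element which kills all contents of smaller weight maps content `a` to highest vectors -/
theorem hi_of_kills {a : Fin n → ℕ} {x : MonoidAlgebra K (Perm α)}
    (h : ∀ b : Fin n → ℕ, ∑ i : Fin n, (i : ℕ) * b i < ∑ i : Fin n, (i : ℕ) * a i → Kills b x)
    {f : (α → Fin n) → K} (hf : ∀ w, ct w ≠ a → f w = 0) : Hi (act K n x f) := by
  intro i k hk
  rw [E_act]
  classical
  set g := E i k f with hg
  -- the support of `g`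
  have hsupp : ∀ w', g w' ≠ 0 → ∑ i : Fin n, (i : ℕ) * ct w' i < ∑ i : Fin n, (i : ℕ) * a i := by
    intro w' hw'
    rw [hg] at hw'
    unfold E at hw'
    obtain ⟨w, _, hw⟩ := Finset.exists_ne_zero_of_sum_ne_zero hw'
    by_cases hU : Up i k w w'
    · rw [if_pos hU] at hw
      have hct : ct w = a := by
        by_contra hne
        exact hw (hf w hne)
      have h3 := up_wt hU
      rw [wt_eq_ct, wt_eq_ct, hct] at h3
      omega
    · rw [if_neg hU] at hw
      exact absurd rfl hw
  have hdec : g = ∑ b ∈ (univ.image (ct : (α → Fin n) → Fin n → ℕ)),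
      (fun w => if ct w = b then g w else 0) := by
    funext w
    rw [Finset.sum_apply, Finset.sum_eq_single (ct w)]
    · simp
    · intro b _ hb
      rw [if_neg (fun hh => hb hh.symm)]
    · intro hh
      exact absurd (mem_image_of_mem _ (mem_univ w)) hh
  rw [hdec, map_sum]
  refine sum_eq_zero fun b _ => ?_
  by_cases hb : ∑ i : Fin n, (i : ℕ) * b i < ∑ i : Fin n, (i : ℕ) * a i
  · refine h b hb _ fun w hw => ?_
    rw [if_neg hw]
  · have : (fun w => if ct w = b then g w else 0) = (0 : (α → Fin n) → K) := by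
      funext w
      by_cases hw : ct w = b
      · rw [if_pos hw]
        by_contra hne
        exact hb (hw ▸ hsupp w hne)
      · rw [if_neg hw]
        rfl
    rw [this, map_zero]

end NoethSym
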