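import Pool.Agent.Lib.MP_a8d7f7_al.N.Col
import Pool.Agent.Lib.MP_a8d7f7_al.N.Raise

/-!
# MP_a8d7f7_al, semiprimitive ideals, module HiZ: polytabloids are highest vectors
PROOF. `z T = act (kap T) (Pi.single T.row 1)` (`kap_row`), `E i k` commutes with `act` (`E_act`). `E i k (Pi.single T.row 1)` is the sum of
`Pi.single w 1` over the `w` with `Up i k T.row w`; for `k ≥ 1` such a `w` has a place `y` with `T.row y = i + 1`, `w y = i`; by `T.down` there is `x` in the
column of `y` with `T.row x = i`, `w x = i`; `kap T` kills `Pi.single w 1` when `w x = w y`, pairing `σ` with `σ * swap x y`.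
-/

set_option autoImplicit false
set_option linter.unusedSectionVars false
set_option linter.unusedVariables false

namespace NoethSym

open Finset Equiv FinSym
open SmallPrime (IsPrime SAlg incl)
open ThreeLetter (Ideals)

variable {K : Type*} [Field K] {α : Type*} [Fintype α] [DecidableEq α] {n : ℕ}

private theorem hz_kap (T : Tab α n) (f : (α → Fin n) → K) (w : α → Fin n) :
    act K n (kap K T) f w = ∑ σ : Perm α,
      if (∀ x, T.col (σ x) = T.col x) then ((Perm.sign σ : ℤ) : K) * f (w ∘ σ) else 0 := by
  unfold kap
  rw [map_sum, LinearMap.sum_apply, Finset.sum_apply]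
  refine sum_congr rfl fun σ _ => ?_
  split_ifs with h
  · rw [map_smul, LinearMap.smul_apply, act_of]
    rfl
  · simp

private theorem hz_kill (T : Tab α n) (v : α → Fin n) {x y : α} (hxy : x ≠ y)
    (hc : T.col x = T.col y) (hv : v x = v y) :
    act K n (kap K T) (Pi.single v 1) = 0 := by
  funext w
  rw [hz_kap, Pi.zero_apply]
  have hcol : ∀ z, T.col (swap x y z) = T.col z := by
    intro z
    rcases eq_or_ne z x with rfl | hzx
    · rw [swap_apply_left, hc]
    · rcases eq_or_ne z y with rfl | hzy
      · rw [swap_apply_right, hc]
      · rw [swap_apply_of_ne_of_ne hzx hzy]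
  have hvs : v ∘ swap x y = v := by
    funext z
    rw [Function.comp_apply]
    rcases eq_or_ne z x with rfl | hzx
    · rw [swap_apply_left, hv]
    · rcases eq_or_ne z y with rfl | hzy
      · rw [swap_apply_right, hv]
      · rw [swap_apply_of_ne_of_ne hzx hzy]
  refine Finset.sum_involution (fun σ _ => σ * swap x y) ?_ ?_ (fun _ _ => mem_univ _) ?_
  · intro σ _
    have h1 : (∀ z, T.col ((σ * swap x y) z) = T.col z) ↔ (∀ z, T.col (σ z) = T.col z) := by
      constructor
      · intro h z
        have := h (swap x y z)
        rw [Perm.mul_apply, swap_apply_self, hcol] at this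
        exact this
      · intro h z
        rw [Perm.mul_apply, h, hcol]
    have h2 : w ∘ (σ * swap x y) = v ↔ w ∘ σ = v := by
      constructor
      · intro h
        funext z
        have := congrFun h (swap x y z)
        rw [Function.comp_apply, Perm.mul_apply, swap_apply_self] at this
        rw [Function.comp_apply, this]
        exact congrFun hvs z
      · intro h
        funext z
        have := congrFun h (swap x y z)
        rw [Function.comp_apply] at this
        rw [Function.comp_apply, Perm.mul_apply, this]
        exact congrFun hvs z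
    have h3 : (Pi.single v 1 : (α → Fin n) → K) (w ∘ (σ * swap x y)) =
        (Pi.single v 1 : (α → Fin n) → K) (w ∘ σ) := by
      rw [Pi.single_apply, Pi.single_apply]
      by_cases h : w ∘ σ = v
      · rw [if_pos h, if_pos (h2.2 h)]
      · rw [if_neg h, if_neg (fun hh => h (h2.1 hh))]
    by_cases h : ∀ z, T.col (σ z) = T.col z
    · rw [if_pos h, if_pos (h1.2 h), h3, Perm.sign_mul, Perm.sign_swap hxy]
      push_cast
      ring
    · rw [if_neg h, if_neg (fun hh => h (h1.1 hh)), add_zero]
  · intro σ _ _ hσ
    have : swap x y = 1 := by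
      have := mul_left_cancel (a := σ) (b := swap x y) (c := 1) (by simpa using hσ)
      exact this
    exact hxy (swap_eq_one_iff.1 this)
  · intro σ _
    simp [mul_assoc]

theorem hi_z (T : Tab α n) : Hi (z K T) := by
  intro i k hk
  rw [← kap_row, E_act]
  have hE : E i k (Pi.single T.row (1 : K)) =
      ∑ v : α → Fin n, (if Up i k T.row v then Pi.single v (1 : K) else 0) := by
    funext w'
    unfold E
    rw [Finset.sum_apply, Finset.sum_eq_single T.row, Finset.sum_eq_single w']
    · split_ifs <;> simp
    · intro v _ hv
      split_ifs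
      · rw [Pi.single_eq_of_ne (Ne.symm hv)]
      · rfl
    · intro h
      exact absurd (mem_univ _) h
    · intro v _ hv
      split_ifs
      · rw [Pi.single_eq_of_ne hv]
      · rfl
    · intro h
      exact absurd (mem_univ _) h
  rw [hE, map_sum]
  refine sum_eq_zero fun v _ => ?_
  split_ifs with hU
  · obtain ⟨h1, h2⟩ := hU
    have hne : (univ.filter (fun x => T.row x ≠ v x)).Nonempty := by
      rw [← Finset.card_pos, h2]
      exact hk
    obtain ⟨y, hy⟩ := hne
    rw [mem_filter] at hy
    obtain ⟨ha, hb⟩ := h1 y hy.2
    have hi : i < n := by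
      have := (v y).2
      omega
    obtain ⟨x, hx1, hx2⟩ := T.down y ⟨i, hi⟩ (by rw [Fin.lt_def, hb]; exact Nat.lt_succ_self i)
    have hvx : v x = T.row x := by
      by_contra hne
      have := (h1 x (Ne.symm hne)).2
      rw [hx2] at this
      simp at this
    refine hz_kill T v (x := x) (y := y) ?_ hx1 ?_
    · rintro rfl
      rw [hx2] at hb
      simp at hb
    · rw [hvx, hx2]
      exact Fin.ext ha.symm
  · exact map_zero _

end NoethSym
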