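import Pool.Agent.Lib.MP_a8d7f7_al.N.Desc
import Pool.Agent.Lib.MP_a8d7f7_al.N.Emb
import Pool.Agent.Lib.MP_a8d7f7_al.P.U1c
import Pool.Agent.Lib.MP_a8d7f7_al.P.O1c

/-!
# MP_a8d7f7_al, semiprimitive ideals, module InclG: `incl` for general embeddings
-/

set_option autoImplicit false
set_option linter.unusedSectionVars false
set_option linter.unusedVariables false

namespace NoethSym

open Finset Equiv FinSym
open SmallPrime (IsPrime SAlg incl emb)
open ThreeLetter (Ideals)

variable {K : Type*} [Field K] {n : ℕ}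

theorem incl_one' {d e : ℕ} (f : Fin d ↪ Fin e) : incl f (1 : SAlg K d) = 1 := by
  apply emb_injective (K := K) (Ω := ℕ) Fin.valEmbedding
  rw [emb_incl, map_one, map_one]

theorem incl_mul' {d e : ℕ} (f : Fin d ↪ Fin e) (x y : SAlg K d) :
    incl f (x * y) = incl f x * incl f y := by
  apply emb_injective (K := K) (Ω := ℕ) Fin.valEmbedding
  rw [emb_incl, map_mul, map_mul, emb_incl, emb_incl]

theorem incl_incl {d e e' : ℕ} (f : Fin d ↪ Fin e) (g : Fin e ↪ Fin e') (x : SAlg K d) :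
    incl g (incl f x) = incl (f.trans g) x := by
  apply emb_injective (K := K) (Ω := ℕ) Fin.valEmbedding
  rw [emb_incl, emb_incl, emb_incl]
  rfl

theorem incl_refl {d : ℕ} (x : SAlg K d) : incl (Function.Embedding.refl _) x = x := by
  apply emb_injective (K := K) (Ω := ℕ) Fin.valEmbedding
  rw [emb_incl]
  rfl

theorem inK_conj {d e : ℕ} {a : Fin n → ℕ} (f f' : Fin d ↪ Fin e) {x : SAlg K d}
    (h : InK a (incl f x)) : InK a (incl f' x) := by
  obtain ⟨τ, hτ⟩ := SmallPrime.exists_extend f f'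
  have h1 : incl f' x = MonoidAlgebra.of K (Perm (Fin e)) τ * incl f x *
      MonoidAlgebra.of K (Perm (Fin e)) τ⁻¹ := by
    rw [SmallPrime.incl_eq_sum, SmallPrime.incl_eq_sum, mul_sum, sum_mul]
    apply sum_congr rfl
    intro σ _
    rw [SmallPrime.via_conj f f' hτ, map_mul, map_mul, mul_smul_comm, smul_mul_assoc]
  rw [h1]
  exact inK_mul h _ _

theorem inK_of_one {α : Type*} [Fintype α] [DecidableEq α] {a : Fin n → ℕ}
    (h : InK a (1 : MonoidAlgebra K (Perm α))) (x : MonoidAlgebra K (Perm α)) : InK a x := by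
  have h1 := inK_mul h x 1
  rwa [mul_one, mul_one] at h1

theorem restrictG {d e : ℕ} (f : Fin d ↪ Fin e) {a b : Fin n → ℕ} (ha : Antitone a)
    (hb : Antitone b) (hg : gap a ≤ gap b) (hsa : ∑ i, a i = d) (hsb : ∑ i, b i = e)
    (h1 : ¬ InK b (1 : SAlg K e)) {x : SAlg K d} (hx : InK b (incl f x)) : InK a x := by
  obtain ⟨ν, hν, rfl⟩ := exists_add ha hb hg
  obtain ⟨S, hS⟩ := exists_tab ν hν
  have hN' : d + ∑ i, ν i = e := by
    rw [← hsb, ← hsa]
    simp only [Pi.add_apply]
    rw [Finset.sum_add_distrib]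
  subst hN'
  exact restrict S hS (inK_conj f _ hx) h1

end NoethSym
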