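import Pool.Agent.Lib.MP_a8d7f7_al.N.Emb
import Pool.Agent.Lib.MP_a8d7f7_al.N.Ring

/-!
# MP_a8d7f7_al, semiprimitive ideals, module Jac: `J(A/I) = 0` iff `A/I` has no nil ideal
-/

set_option autoImplicit false
set_option linter.unusedSectionVars false
set_option linter.unusedVariables false

namespace NoethSym

open Finset Equiv FinSym
open SmallPrime (IsPrime SAlg incl)
open ThreeLetter (Ideals)

theorem nilFree_of_semiprimitive {R : Type*} [Ring R] {I : TwoSidedIdeal R} (h : Semiprimitive I) :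
    NilFree I := by
  intro J hJ x hx
  rw [← TwoSidedIdeal.mem_asIdeal, ← h, Ideal.mem_jacobson_iff]
  intro y
  obtain ⟨N, hN⟩ := hJ (-(y * x)) (J.neg_mem (J.mul_mem_left y x hx))
  refine ⟨∑ i ∈ range N, (-(y * x)) ^ i, ?_⟩
  have h1 := geom_sum_mul (-(y * x)) N
  have h2 : (∑ i ∈ range N, (-(y * x)) ^ i) * y * x + (∑ i ∈ range N, (-(y * x)) ^ i) - 1 =
      -((-(y * x)) ^ N) := by
    have h3 : (∑ i ∈ range N, (-(y * x)) ^ i) * (-(y * x) - 1) =
        -((∑ i ∈ range N, (-(y * x)) ^ i) * y * x + (∑ i ∈ range N, (-(y * x)) ^ i)) := by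
      noncomm_ring
    rw [h3] at h1
    have h4 : (∑ i ∈ range N, (-(y * x)) ^ i) * y * x + (∑ i ∈ range N, (-(y * x)) ^ i) =
        -((-(y * x)) ^ N - 1) := by rw [← h1, neg_neg]
    rw [h4]; abel
  rw [h2, TwoSidedIdeal.mem_asIdeal]
  exact I.neg_mem hN

variable {K : Type*} [Field K] {Ω : Type*} [DecidableEq Ω]

open SmallPrime (emb rho)

/-- an element which generates a finite-dimensional algebra satisfies `(1 + q y) y^m = 0` -/
private theorem exists_pow_fitting {A : Type*} [Ring A] [Algebra K A] {y : A}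
    (hy : IsIntegral K y) : ∃ (m : ℕ) (q : A), (1 + q * y) * y ^ m = 0 := by
  obtain ⟨P, hP, hPy⟩ := hy
  have hPy' : Polynomial.aeval y P = 0 := hPy
  obtain ⟨Q, hQ, hQ0⟩ := P.exists_eq_pow_rootMultiplicity_mul_and_not_dvd hP.ne_zero 0
  rw [map_zero, sub_zero] at hQ hQ0
  set m := P.rootMultiplicity 0
  have hc : Q.coeff 0 ≠ 0 := fun h => hQ0 (Polynomial.X_dvd_iff.2 h)
  have hdiv := Polynomial.divX_mul_X_add Q
  refine ⟨m, (Q.coeff 0)⁻¹ • Polynomial.aeval y Q.divX, ?_⟩
  have e1 : Polynomial.aeval y Q * y ^ m = 0 := by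
    have : Polynomial.aeval y (Q * Polynomial.X ^ m) = 0 := by
      rw [mul_comm, ← hQ, hPy']
    rwa [map_mul, map_pow, Polynomial.aeval_X] at this
  have e2 : Polynomial.aeval y Q = Polynomial.aeval y Q.divX * y + algebraMap K A (Q.coeff 0) := by
    conv_lhs => rw [← hdiv]
    rw [map_add, map_mul, Polynomial.aeval_X, Polynomial.aeval_C]
  have e3 : (1 + (Q.coeff 0)⁻¹ • Polynomial.aeval y Q.divX * y) =
      (Q.coeff 0)⁻¹ • Polynomial.aeval y Q := by
    rw [e2, smul_add, smul_mul_assoc, Algebra.algebraMap_eq_smul_one, smul_smul,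
      inv_mul_cancel₀ hc, one_smul, add_comm]
  rw [e3, smul_mul_assoc, e1, smul_zero]

theorem semiprimitive_iff [Infinite Ω] (I : Ideals K Ω) : Semiprimitive I ↔ NilFree I := by
  refine ⟨nilFree_of_semiprimitive, fun h => ?_⟩
  have h1 : I.jacobson ≤ I := by
    apply h
    intro y hy
    obtain ⟨a⟩ := exists_tuple' (Ω := Ω) 0
    obtain ⟨e, f, a', b, -, hb⟩ := exists_emb (K := K) a y
    have hbi : IsIntegral K b := by
      have : Module.Finite K (SAlg K e) := by
        unfold SAlg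
        infer_instance
      exact IsIntegral.of_finite K b
    have hyi : IsIntegral K y := by
      rw [← hb]; exact hbi.map (emb K a')
    obtain ⟨m, q, hq⟩ := exists_pow_fitting hyi
    refine ⟨m, ?_⟩
    obtain ⟨z, hz⟩ := TwoSidedIdeal.mem_jacobson_iff.1 hy q
    have h2 : (z * q * y + z - 1) * y ^ m ∈ I := I.mul_mem_right _ _ hz
    have h3 : (z * q * y + z - 1) * y ^ m = -(y ^ m) := by
      have h4 : (z * q * y + z - 1) * y ^ m = z * ((1 + q * y) * y ^ m) - y ^ m := by
        noncomm_ring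
      rw [h4, hq, mul_zero, zero_sub]
    rw [h3] at h2
    have := I.neg_mem h2
    rwa [neg_neg] at this
  unfold Semiprimitive
  apply le_antisymm
  · intro x hx
    rw [TwoSidedIdeal.mem_asIdeal]
    apply h1
    rw [← TwoSidedIdeal.mem_asIdeal, TwoSidedIdeal.asIdeal_jacobson]
    exact hx
  · exact Ideal.le_jacobson

end NoethSym
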