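import Pool.Agent.Lib.MP_a8d7f7_al.N.BDefs

/-!
# MP_a8d7f7_al, semiprimitive ideals, module Join: joins in the gap order
`g i = ∑ k ≥ i, max (gap a k) (gap b k)`. `a i = ∑_{k ≥ i} gap a k` for antitone `a`. `PReg`: if `g i ≠ 0`, `g j = g i`, `j = i + (p - 1)`: the gaps of `g` at `i..j-1` vanish, so those of `a` and `b`; some gap at
`k ≥ i` is nonzero, so `k ≥ j` and it is a gap of `a` (say): `a i = a j ≠ 0`, contradiction. `sum_le_of_gap_le`: from `exists_add`.
`infinite_large`: only finitely many `a : Fin n → ℕ` have `∑ a ≤ N`.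
-/

set_option autoImplicit false
set_option linter.unusedSectionVars false
set_option linter.unusedVariables false

namespace NoethSym

open Finset Equiv FinSym
open SmallPrime (IsPrime SAlg incl emb)
open ThreeLetter (Ideals)

variable {n : ℕ}

/-- the content with given gaps -/
private def tl (v : Fin n → ℕ) : Fin n → ℕ := fun i => ∑ k ∈ univ.filter (fun k => i ≤ k), v k

private theorem tl_antitone (v : Fin n → ℕ) : Antitone (tl v) := by
  intro i j hij
  refine sum_le_sum_of_subset fun k hk => ?_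
  rw [mem_filter] at hk ⊢
  exact ⟨hk.1, hij.trans hk.2⟩

private theorem tl_succ (v : Fin n → ℕ) (i : Fin n) (h : (i : ℕ) + 1 < n) :
    tl v i = v i + tl v ⟨i + 1, h⟩ := by
  unfold tl
  have e : univ.filter (fun k : Fin n => i ≤ k) =
      insert i (univ.filter (fun k : Fin n => (⟨i + 1, h⟩ : Fin n) ≤ k)) := by
    ext k
    simp only [mem_filter, mem_univ, true_and, mem_insert, Fin.le_def, Fin.ext_iff]
    omega
  rw [e, sum_insert]
  simp only [mem_filter, mem_univ, true_and, Fin.le_def]
  omega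

private theorem tl_last (v : Fin n → ℕ) (i : Fin n) (h : ¬ (i : ℕ) + 1 < n) : tl v i = v i := by
  unfold tl
  have e : univ.filter (fun k : Fin n => i ≤ k) = {i} := by
    ext k
    have := k.2
    simp only [mem_filter, mem_univ, true_and, mem_singleton, Fin.le_def, Fin.ext_iff]
    omega
  rw [e, sum_singleton]

private theorem gap_tl (v : Fin n → ℕ) (i : Fin n) : gap (tl v) i = v i := by
  unfold gap
  split_ifs with h
  · rw [tl_succ v i h]
    omega
  · rw [tl_last v i h]
    omega

/-- vanishing gaps: constant -/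
private theorem const_of_gap {a : Fin n → ℕ} (ha : Antitone a) {i : Fin n} : ∀ (m : ℕ) (j : Fin n),
    (i : ℕ) + m = j → (∀ k : Fin n, i ≤ k → k < j → gap a k = 0) → a j = a i := by
  intro m
  induction m with
  | zero =>
    intro j hj _
    have : i = j := Fin.ext (by omega)
    rw [this]
  | succ m ih =>
    intro j hj h
    have hlt : (i : ℕ) + m < n := by omega
    have hlt2 : (i : ℕ) + m + 1 < n := by omega
    have h1 := ih ⟨i + m, hlt⟩ rfl (fun k hik hk => h k hik (by
      rw [Fin.lt_def] at hk ⊢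
      simp only at hk
      omega))
    have h2 := h ⟨i + m, hlt⟩ (by rw [Fin.le_def]; simp only; omega) (by rw [Fin.lt_def]; simp only; omega)
    unfold gap at h2
    rw [dif_pos hlt2] at h2
    have hj' : j = ⟨i + m + 1, hlt2⟩ := Fin.ext (by simp only; omega)
    have h3 : a j ≤ a ⟨i + m, hlt⟩ := ha (by rw [Fin.le_def]; simp only; omega)
    rw [hj'] at h3 ⊢
    simp only at h2
    omega

theorem exists_join {p : ℕ} (hp : p.Prime) {a b : Fin n → ℕ} (ha : Antitone a) (hb : Antitone b)
    (hra : PReg p a) (hrb : PReg p b) :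
    ∃ g : Fin n → ℕ, Antitone g ∧ PReg p g ∧ ∀ i, gap g i = max (gap a i) (gap b i) := by
  refine ⟨tl fun k => max (gap a k) (gap b k), tl_antitone _, ?_, fun i => gap_tl _ i⟩
  intro i j hij hne heq
  have hg := tl_antitone fun k => max (gap a k) (gap b k)
  have hgap : ∀ k : Fin n, i ≤ k → k < j → gap a k = 0 ∧ gap b k = 0 := by
    intro k hik hkj
    have h1 : gap (tl fun k => max (gap a k) (gap b k)) k = max (gap a k) (gap b k) := gap_tl _ k
    have hlt : (k : ℕ) + 1 < n := by
      rw [Fin.lt_def] at hkj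
      omega
    have h2 := hg hik
    have h3 : tl (fun k => max (gap a k) (gap b k)) j ≤ tl (fun k => max (gap a k) (gap b k)) ⟨k + 1, hlt⟩ :=
      hg (by rw [Fin.le_def]; rw [Fin.lt_def] at hkj; simp only; omega)
    have h5 : gap (tl fun k => max (gap a k) (gap b k)) k = tl (fun k => max (gap a k) (gap b k)) k -
        tl (fun k => max (gap a k) (gap b k)) ⟨k + 1, hlt⟩ := by
      rw [gap, dif_pos hlt]
    rw [heq] at h3
    have h6 : gap (tl fun k => max (gap a k) (gap b k)) k = 0 := by
      rw [h5]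
      exact Nat.sub_eq_zero_of_le (h2.trans h3)
    rw [h6] at h1
    omega
  have key : ∀ c : Fin n → ℕ, Antitone c → PReg p c → (∀ k : Fin n, i ≤ k → k < j → gap c k = 0) →
      ∀ k : Fin n, i ≤ k → gap c k = 0 := by
    intro c hc hrc hz k hik
    have h1 : c i = 0 := by
      by_contra h
      exact hrc i j hij h (const_of_gap hc _ j hij hz)
    have h2 := hc hik
    unfold gap
    omega
  have hA := key a ha hra fun k h1 h2 => (hgap k h1 h2).1
  have hB := key b hb hrb fun k h1 h2 => (hgap k h1 h2).2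
  apply hne
  refine sum_eq_zero fun k hk => ?_
  rw [mem_filter] at hk
  rw [hA k hk.2, hB k hk.2]
  rfl

theorem sum_le_of_gap_le {a b : Fin n → ℕ} (ha : Antitone a) (hb : Antitone b) (h : gap a ≤ gap b) :
    ∑ i, a i ≤ ∑ i, b i := by
  obtain ⟨c, -, rfl⟩ := exists_add ha hb h
  exact sum_le_sum fun i _ => Nat.le_add_right _ _

theorem infinite_large {S : Set (Fin n → ℕ)} (hS : S.Infinite) (N : ℕ) :
    ∃ a ∈ S, N ≤ ∑ i, a i := by
  by_contra h
  push Not at h
  apply hS
  refine (Set.Finite.pi' (fun _ : Fin n => Set.finite_Iic N)).subset fun a ha i => ?_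
  have h1 := h a ha
  have h2 : a i ≤ ∑ i, a i := single_le_sum (f := a) (fun _ _ => Nat.zero_le _) (mem_univ i)
  exact h2.trans h1.le

theorem finite_large {S : Set (Fin n → ℕ)} (hS : S.Finite) : ∃ N : ℕ, ∀ a ∈ S, ∑ i, a i < N := by
  obtain ⟨N, hN⟩ := (hS.image fun a : Fin n → ℕ => ∑ i, a i).bddAbove
  exact ⟨N + 1, fun a ha => Nat.lt_succ_of_le (hN ⟨a, ha, rfl⟩)⟩

end NoethSym
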