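import Pool.Agent.Lib.MP_a8d7f7_al.N.Ink
import Pool.Agent.Lib.MP_a8d7f7_al.N.BDefs

/-!
# MP_a8d7f7_al, semiprimitive ideals, module KPr: `{x | InK a x}` is a maximal, prime ideal
`inK_unit`: the ideal `M = span {x} ⊔ {InK a}` is everything by `ink_max`: membership in `M`: `v + k`, `v ∈ span {x}`, `InK a k` (define `M` with `TwoSidedIdeal.mk'` and carrier `{v + k}`, or `TwoSidedIdeal.mem_sup`).
`inK_pow`: `v^N - 1` is a multiple of `v - 1` (`InK a (v^(N+1))` would give `InK a (v^N)` etc: `v^N = v^(N+1) + v^N (1 - v)`).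
`inK_prime`: otherwise `v * v'` satisfies `InK a` for all `v ∈ span {x}`, `v' ∈ span {y}` (span induction), but `1 - v v' = (1 - v) + v (1 - v')`.
-/

set_option autoImplicit false
set_option linter.unusedSectionVars false
set_option linter.unusedVariables false

namespace NoethSym

open Finset Equiv FinSym
open SmallPrime (IsPrime SAlg incl emb)
open ThreeLetter (Ideals)

variable {K : Type*} [Field K] {α : Type*} [Fintype α] [DecidableEq α] {n : ℕ}

private theorem kpr_zero {a : Fin n → ℕ} : InK a (0 : MonoidAlgebra K (Perm α)) := by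
  intro T T' _ _
  rw [map_zero, LinearMap.zero_apply, zero_dotProduct]

private theorem kpr_neg {a : Fin n → ℕ} {x : MonoidAlgebra K (Perm α)} (hx : InK a x) :
    InK a (-x) := by
  have h := inK_smul (-1 : K) hx
  rwa [neg_one_smul] at h

private theorem kpr_left {a : Fin n → ℕ} {y : MonoidAlgebra K (Perm α)} (hy : InK a y)
    (x : MonoidAlgebra K (Perm α)) : InK a (x * y) := by
  have h := inK_mul hy x 1
  rwa [mul_one] at h

private theorem kpr_right {a : Fin n → ℕ} {x : MonoidAlgebra K (Perm α)} (hx : InK a x)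
    (y : MonoidAlgebra K (Perm α)) : InK a (x * y) := by
  have h := inK_mul hx 1 y
  rwa [one_mul] at h

theorem inK_unit {a : Fin n → ℕ} {x : MonoidAlgebra K (Perm α)} (hx : ¬ InK a x) :
    ∃ v ∈ TwoSidedIdeal.span {x}, InK a (1 - v) := by
  let I : TwoSidedIdeal (MonoidAlgebra K (Perm α)) :=
    .mk' {u | InK a u} kpr_zero (fun h h' => inK_add h h') (fun h => kpr_neg h)
      (fun {u v} h => kpr_left h u) (fun {u v} h => kpr_right h v)
  have hI : ∀ u, u ∈ I ↔ InK a u := fun u => TwoSidedIdeal.mem_mk' _ _ _ _ _ _ u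
  have hM : TwoSidedIdeal.span {x} ⊔ I = ⊤ :=
    ink_max (a := a) (fun u hu => TwoSidedIdeal.mem_sup_right ((hI u).2 hu))
      (TwoSidedIdeal.mem_sup_left (TwoSidedIdeal.subset_span (Set.mem_singleton x))) hx
  have h1 : (1 : MonoidAlgebra K (Perm α)) ∈ TwoSidedIdeal.span {x} ⊔ I := by
    rw [hM]
    trivial
  obtain ⟨v, hv, k, hk, hvk⟩ := TwoSidedIdeal.mem_sup.1 h1
  refine ⟨v, hv, ?_⟩
  rw [← hvk, add_sub_cancel_left]
  exact (hI k).1 hk

theorem inK_pow {a : Fin n → ℕ} (h1 : ¬ InK a (1 : MonoidAlgebra K (Perm α)))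
    {v : MonoidAlgebra K (Perm α)} (hv : InK a (1 - v)) (N : ℕ) : ¬ InK a (v ^ N) := by
  induction N with
  | zero => rwa [pow_zero]
  | succ N ih =>
    intro h
    apply ih
    have h2 : v ^ N = v ^ (N + 1) + v ^ N * (1 - v) := by
      rw [pow_succ, mul_sub, mul_one]
      abel
    rw [h2]
    exact inK_add h (kpr_left hv _)

theorem inK_prime {a : Fin n → ℕ} {x y : MonoidAlgebra K (Perm α)} (hx : ¬ InK a x)
    (hy : ¬ InK a y) : ∃ r, ¬ InK a (x * r * y) := by
  by_contra hcon
  push Not at hcon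
  obtain ⟨v, hv, hv1⟩ := inK_unit hx
  obtain ⟨v', hv', hv1'⟩ := inK_unit hy
  have hstep : ∀ u ∈ TwoSidedIdeal.span {x}, ∀ r, InK a (u * r * y) := by
    intro u hu
    let J : TwoSidedIdeal (MonoidAlgebra K (Perm α)) :=
      .mk' {u | ∀ r, InK a (u * r * y)}
        (fun r => by rw [zero_mul, zero_mul]; exact kpr_zero)
        (fun h h' r => by rw [add_mul, add_mul]; exact inK_add (h r) (h' r))
        (fun h r => by rw [neg_mul, neg_mul]; exact kpr_neg (h r))
        (fun {c w} h r => by rw [mul_assoc c w r, mul_assoc c (w * r) y]; exact kpr_left (h r) c)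
        (fun {w c} h r => by rw [mul_assoc w c r]; exact h (c * r))
    have hJ : ∀ u, u ∈ J ↔ ∀ r, InK a (u * r * y) := fun u => TwoSidedIdeal.mem_mk' _ _ _ _ _ _ u
    refine (hJ u).1 (TwoSidedIdeal.mem_span_iff.1 hu J ?_)
    intro w hw
    rw [Set.mem_singleton_iff] at hw
    rw [hw]
    exact (hJ x).2 hcon
  have hstep2 : ∀ w ∈ TwoSidedIdeal.span {y}, ∀ u ∈ TwoSidedIdeal.span {x}, InK a (u * w) := by
    intro w hw
    let J : TwoSidedIdeal (MonoidAlgebra K (Perm α)) :=
      .mk' {w | ∀ u ∈ TwoSidedIdeal.span {x}, InK a (u * w)}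
        (fun u _ => by rw [mul_zero]; exact kpr_zero)
        (fun h h' u hu => by rw [mul_add]; exact inK_add (h u hu) (h' u hu))
        (fun h u hu => by rw [mul_neg]; exact kpr_neg (h u hu))
        (fun {c w} h u hu => by
          rw [← mul_assoc u c w]
          exact h (u * c) (TwoSidedIdeal.mul_mem_right _ _ _ hu))
        (fun {w c} h u hu => by rw [← mul_assoc u w c]; exact kpr_right (h u hu) c)
    have hJ : ∀ w, w ∈ J ↔ ∀ u ∈ TwoSidedIdeal.span {x}, InK a (u * w) :=
      fun w => TwoSidedIdeal.mem_mk' _ _ _ _ _ _ w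
    refine (hJ w).1 (TwoSidedIdeal.mem_span_iff.1 hw J ?_)
    intro w' hw'
    rw [Set.mem_singleton_iff] at hw'
    rw [hw']
    refine (hJ y).2 fun u hu => ?_
    have h := hstep u hu 1
    rwa [mul_one] at h
  have h1 : InK a (1 : MonoidAlgebra K (Perm α)) := by
    have h2 : (1 : MonoidAlgebra K (Perm α)) = (1 - v) + v * (1 - v') + v * v' := by
      rw [mul_sub, mul_one]
      abel
    rw [h2]
    exact inK_add (inK_add hv1 (kpr_left hv1' v)) (hstep2 v' hv' v hv)
  apply hx
  have h3 := kpr_left h1 x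
  rwa [mul_one] at h3

end NoethSym
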