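import Pool.Agent.Lib.MP_a8d7f7_al.N.BDefs
import Pool.Agent.Lib.MP_a8d7f7_al.N.Conj

/-!
# MP_a8d7f7_al, semiprimitive ideals, module RegB: the form is zero when `p` nonzero rows are equal
PROOF. Let `a i = a j ≠ 0`, `j = i + p - 1`, `π` = a permutation of order `p` of the letters `i..j` (Cauchy). There is `ρ` = a permutation of the places
which keeps the columns, `row ∘ ρ = π ∘ row`, `ρ^p = 1`. So `z T (π ∘ w) = sign ρ * z T w` and `(sign ρ : K) = 1`. So `F w = z T w * z T' w` satisfies
`F (π ∘ w) = F w`. `F w = 0` unless `ct w = a`, and then `π ∘ w ≠ w`. For each value `v ≠ 0` the number of `w` with `F w = v` is divisible by `p`.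
-/

set_option autoImplicit false
set_option linter.unusedSectionVars false
set_option linter.unusedVariables false

namespace NoethSym

open Finset Equiv FinSym
open SmallPrime (IsPrime SAlg incl emb)
open ThreeLetter (Ideals)

variable {K : Type*} [Field K] {α : Type*} [Fintype α] [DecidableEq α] {n : ℕ}

/-- a column which reaches row `i` reaches row `j` when rows `i` and `j` have the same length -/
private theorem rb_cell {a : Fin n → ℕ} (T : Tab α n) (hT : ct T.row = a) {i j : Fin n}
    (hij : i ≤ j) (he : a j = a i) {x : α} (h1 : i ≤ T.row x) {k : Fin n} (hk : k ≤ j) :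
    ∃ y, T.col y = T.col x ∧ T.row y = k := by
  have hi : ∃ y, T.col y = T.col x ∧ T.row y = i := by
    rcases h1.lt_or_eq with h | h
    · exact T.down x i h
    · exact ⟨x, rfl, h.symm⟩
  have hcard : ∀ k : Fin n, ((univ.filter (fun y => T.row y = k)).image T.col).card = a k := by
    intro k
    rw [Finset.card_image_of_injOn]
    · rw [← hT]; rfl
    · intro y hy y' hy' hyy
      have e1 : T.row y = k := by simpa using hy
      have e2 : T.row y' = k := by simpa using hy'
      exact T.inj y y' (e1.trans e2.symm) hyy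
  have hsub : (univ.filter (fun y => T.row y = j)).image T.col ⊆
      (univ.filter (fun y => T.row y = i)).image T.col := by
    intro c hc
    simp only [Finset.mem_image, Finset.mem_filter, Finset.mem_univ, true_and] at hc ⊢
    obtain ⟨y, h2, h3⟩ := hc
    rcases hij.lt_or_eq with h | h
    · obtain ⟨y', h4, h5⟩ := T.down y i (by rw [h2]; exact h)
      exact ⟨y', h5, h4.trans h3⟩
    · exact ⟨y, h2.trans h.symm, h3⟩
  have heq := Finset.eq_of_subset_of_card_le hsub (by rw [hcard, hcard, he])
  obtain ⟨y, h2, h3⟩ := hi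
  have hmem : T.col x ∈ (univ.filter (fun y => T.row y = i)).image T.col := by
    simp only [Finset.mem_image, Finset.mem_filter, Finset.mem_univ, true_and]
    exact ⟨y, h3, h2⟩
  rw [← heq] at hmem
  simp only [Finset.mem_image, Finset.mem_filter, Finset.mem_univ, true_and] at hmem
  obtain ⟨y', h4, h5⟩ := hmem
  rcases hk.lt_or_eq with h | h
  · obtain ⟨y'', h6, h7⟩ := T.down y' k (by rw [h4]; exact h)
    exact ⟨y'', h6.trans h5, h7⟩
  · exact ⟨y', h5, h4.trans h.symm⟩

private theorem rb_perm {a : Fin n → ℕ} (T : Tab α n) (hT : ct T.row = a) {i j : Fin n}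
    (hij : i ≤ j) (he : a j = a i) (π : Perm (Fin n)) (hπ : ∀ k, ¬ (i ≤ k ∧ k ≤ j) → π k = k) :
    ∃ ρ : Perm α, (∀ x, T.col (ρ x) = T.col x) ∧ ∀ x, T.row (ρ x) = π (T.row x) := by
  have hex : ∀ x, ∃ y, T.col y = T.col x ∧ T.row y = π (T.row x) := by
    intro x
    by_cases h : i ≤ T.row x ∧ T.row x ≤ j
    · by_cases h' : i ≤ π (T.row x) ∧ π (T.row x) ≤ j
      · exact rb_cell T hT hij he h.1 h'.2
      · have e := π.injective (hπ _ h')
        exact ⟨x, rfl, e.symm⟩
    · exact ⟨x, rfl, (hπ _ h).symm⟩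
  choose s hs1 hs2 using hex
  have hinj : Function.Injective s := by
    intro x y hxy
    apply T.inj
    · apply π.injective
      rw [← hs2 x, ← hs2 y, hxy]
    · rw [← hs1 x, ← hs1 y, hxy]
  exact ⟨Equiv.ofBijective s (Finite.injective_iff_bijective.1 hinj), fun x => hs1 x, fun x => hs2 x⟩

private theorem rb_z (T : Tab α n) (π : Perm (Fin n)) (ρ : Perm α)
    (h1 : ∀ x, T.col (ρ x) = T.col x) (h2 : ∀ x, T.row (ρ x) = π (T.row x)) (w : α → Fin n) :
    z K T (π ∘ w) = ((Perm.sign ρ : ℤ) : K) * z K T w := by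
  unfold z
  rw [Finset.mul_sum]
  refine Fintype.sum_equiv (Equiv.mulRight ρ) _ _ (fun σ => ?_)
  have hiff : ((∀ x, T.col (σ x) = T.col x) ∧ (π ∘ w) ∘ σ = T.row) ↔
      ((∀ x, T.col ((σ * ρ) x) = T.col x) ∧ w ∘ (σ * ρ : Perm α) = T.row) := by
    constructor
    · rintro ⟨h3, h4⟩
      refine ⟨fun x => ?_, ?_⟩
      · rw [Perm.mul_apply, h3, h1]
      · funext x
        have e := congrFun h4 (ρ x)
        simp only [Function.comp_apply, h2] at e
        simpa using π.injective e
    · rintro ⟨h3, h4⟩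
      refine ⟨fun x => ?_, ?_⟩
      · have e := h3 (ρ.symm x)
        have e2 := h1 (ρ.symm x)
        rw [Equiv.apply_symm_apply] at e2
        rw [Perm.mul_apply, Equiv.apply_symm_apply] at e
        rw [e, e2]
      · funext x
        have e := congrFun h4 (ρ.symm x)
        have e2 := h2 (ρ.symm x)
        rw [Equiv.apply_symm_apply] at e2
        simp only [Function.comp_apply, Perm.mul_apply, Equiv.apply_symm_apply] at e
        simp only [Function.comp_apply]
        rw [e, e2]
  have hsgn : ((Perm.sign ρ : ℤ) : K) * ((Perm.sign (σ * ρ) : ℤ) : K) = ((Perm.sign σ : ℤ) : K) := by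
    rw [Perm.sign_mul]
    have : ((Perm.sign ρ : ℤ)) * ((Perm.sign ρ : ℤ)) = 1 := by
      rcases Int.units_eq_one_or (Perm.sign ρ) with h | h <;> rw [h] <;> norm_num
    have e := congrArg (fun t : ℤ => (t : K)) this
    push_cast at e ⊢
    linear_combination ((Perm.sign σ : ℤ) : K) * e
  by_cases h : (∀ x, T.col (σ x) = T.col x) ∧ (π ∘ w) ∘ σ = T.row
  · rw [if_pos h]
    have h' := hiff.1 h
    change (∀ x, T.col (Equiv.mulRight ρ σ x) = T.col x) ∧ w ∘ (Equiv.mulRight ρ σ) = T.row at h'
    rw [if_pos h']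
    exact hsgn.symm
  · rw [if_neg h]
    have h' := fun h' => h (hiff.2 h')
    change ¬ ((∀ x, T.col (Equiv.mulRight ρ σ x) = T.col x) ∧ w ∘ (Equiv.mulRight ρ σ) = T.row) at h'
    rw [if_neg h', mul_zero]

private theorem rb_sign {p : ℕ} [Fact p.Prime] [CharP K p] (T : Tab α n) (π : Perm (Fin n))
    (hp : π ^ p = 1) (ρ : Perm α)
    (h1 : ∀ x, T.col (ρ x) = T.col x) (h2 : ∀ x, T.row (ρ x) = π (T.row x)) :
    ((Perm.sign ρ : ℤ) : K) = 1 := by
  have hk : ∀ m : ℕ, ∀ x, T.col ((ρ ^ m) x) = T.col x ∧ T.row ((ρ ^ m) x) = (π ^ m) (T.row x) := by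
    intro m
    induction m with
    | zero => intro x; exact ⟨rfl, rfl⟩
    | succ m ih =>
      intro x
      obtain ⟨e1, e2⟩ := ih (ρ x)
      rw [pow_succ, pow_succ, Perm.mul_apply, Perm.mul_apply, e1, e2, h1, h2]
      exact ⟨rfl, rfl⟩
  have hρ : ρ ^ p = 1 := by
    ext x
    obtain ⟨e1, e2⟩ := hk p x
    rw [hp] at e2
    exact T.inj _ _ e2 e1
  have hs : ((Perm.sign ρ : ℤ) : K) ^ p = 1 := by
    have e : (Perm.sign ρ) ^ p = 1 := by rw [← map_pow, hρ, map_one]
    have e2 : ((Perm.sign ρ : ℤ)) ^ p = 1 := by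
      rw [← Units.val_pow_eq_pow_val, e]; rfl
    have e3 := congrArg (fun t : ℤ => (t : K)) e2
    push_cast at e3
    exact e3
  have h0 : (((Perm.sign ρ : ℤ) : K) - 1) ^ p = 0 := by
    rw [sub_pow_char, hs, one_pow, sub_self]
  exact sub_eq_zero.1 (pow_eq_zero_iff (Nat.Prime.ne_zero Fact.out) |>.1 h0)

private theorem rb_sum {W : Type*} [Fintype W] [DecidableEq W] {p : ℕ} [hpf : Fact p.Prime] [CharP K p]
    (F : W → K) (θ : Perm W) (h1 : θ ^ p = 1) (h2 : ∀ w, F (θ w) = F w)
    (h3 : ∀ w, θ w = w → F w = 0) : ∑ w, F w = 0 := by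
  classical
  have hcard : ∀ v : K, v ≠ 0 → ((univ.filter (fun w => F w = v)).card : K) = 0 := by
    intro v hv
    let S := {w : W // F w = v}
    let τ : Perm S := θ.subtypePerm (fun w => by rw [h2])
    have hτ : τ ^ p ^ 1 = 1 := by
      rw [pow_one]
      ext w
      have e : ∀ m : ℕ, ∀ w : S, (((τ ^ m) w : S) : W) = (θ ^ m) (w : W) := by
        intro m
        induction m with
        | zero => intro w; rfl
        | succ m ih =>
          intro w
          rw [pow_succ, pow_succ, Perm.mul_apply, Perm.mul_apply, ih]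
          rfl
      rw [e, h1]
      rfl
    have hc := Equiv.Perm.card_compl_support_modEq (p := p) (n := 1) hτ
    have h0 : τ.supportᶜ = ∅ := by
      rw [Finset.eq_empty_iff_forall_notMem]
      intro w hw
      rw [Finset.mem_compl, Perm.notMem_support] at hw
      have e : θ (w : W) = w := congrArg Subtype.val hw
      exact hv (by rw [← w.2, h3 _ e])
    rw [h0, Finset.card_empty] at hc
    have hd : p ∣ Fintype.card S := (Nat.modEq_zero_iff_dvd).1 hc.symm
    have hcc : Fintype.card S = (univ.filter (fun w => F w = v)).card := Fintype.card_subtype _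
    rw [← hcc]
    exact (CharP.cast_eq_zero_iff K p _).2 hd
  rw [← Finset.sum_fiberwise_of_maps_to (t := univ.image F) (g := F) (fun w _ => Finset.mem_image_of_mem _ (Finset.mem_univ w))]
  refine Finset.sum_eq_zero ?_
  intro v _
  have e : ∑ w ∈ univ.filter (fun w => F w = v), F w = ((univ.filter (fun w => F w = v)).card : K) * v := by
    rw [Finset.sum_congr rfl (g := fun _ => v) (fun w hw => (Finset.mem_filter.1 hw).2)]
    rw [Finset.sum_const, nsmul_eq_mul]
  rw [e]
  by_cases hv : v = 0
  · rw [hv, mul_zero]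
  · rw [hcard v hv, zero_mul]

theorem inK_one_of_not_reg {p : ℕ} (hp : p.Prime) [CharP K p] {a : Fin n → ℕ} (ha : Antitone a)
    (hr : ¬ PReg p a) : InK a (1 : MonoidAlgebra K (Perm α)) := by
  classical
  have : Fact p.Prime := ⟨hp⟩
  unfold PReg at hr
  push Not at hr
  obtain ⟨i, j, hij, hi0, he⟩ := hr
  have hle : i ≤ j := by rw [Fin.le_def]; omega
  -- a permutation of order `p` of the letters `i..j`
  have hcard : Fintype.card {k : Fin n // i ≤ k ∧ k ≤ j} = p := by
    rw [Fintype.card_subtype]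
    have e : univ.filter (fun k : Fin n => i ≤ k ∧ k ≤ j) = Finset.Icc i j := by
      ext k; simp
    rw [e, Fin.card_Icc]
    have := hp.two_le
    omega
  have hdvd : p ∣ Fintype.card (Perm {k : Fin n // i ≤ k ∧ k ≤ j}) := by
    rw [Fintype.card_perm, hcard]
    exact Nat.dvd_factorial hp.pos le_rfl
  obtain ⟨s, hs⟩ := exists_prime_orderOf_dvd_card p hdvd
  have hs1 : s ^ p = 1 := by rw [← hs]; exact pow_orderOf_eq_one s
  have hs2 : ∃ k, s k ≠ k := by
    by_contra hcon
    push Not at hcon
    have e : s = 1 := by ext k; rw [hcon]; rfl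
    rw [e, orderOf_one] at hs
    exact hp.one_lt.ne hs
  obtain ⟨k, hk⟩ := hs2
  let π : Perm (Fin n) := Perm.ofSubtype s
  have hπp : π ^ p = 1 := by
    change (Perm.ofSubtype s) ^ p = 1
    rw [← map_pow, hs1, map_one]
  have hπ : ∀ l, ¬ (i ≤ l ∧ l ≤ j) → π l = l := by
    intro l hl
    exact Perm.ofSubtype_apply_of_not_mem s hl
  have hπk : π (k : Fin n) ≠ k := by
    change Perm.ofSubtype s (k : Fin n) ≠ k
    rw [Perm.ofSubtype_apply_coe]
    exact fun h => hk (Subtype.ext h)
  have hak : a (k : Fin n) ≠ 0 := by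
    have e1 := ha k.2.1
    have e2 := ha k.2.2
    omega
  intro T T' hT hT'
  rw [map_one]
  change ∑ w, z K T w * z K T' w = 0
  have hz : ∀ T : Tab α n, ct T.row = a → ∀ w, z K T (π ∘ w) = z K T w := by
    intro T hT w
    obtain ⟨ρ, h1, h2⟩ := rb_perm T hT hle he π hπ
    rw [rb_z T π ρ h1 h2, rb_sign (p := p) T π hπp ρ h1 h2, one_mul]
  refine rb_sum (p := p) (fun w => z K T w * z K T' w) (Equiv.arrowCongr (Equiv.refl α) π) ?_ ?_ ?_
  · have e : ∀ m : ℕ, ∀ w : α → Fin n, ((Equiv.arrowCongr (Equiv.refl α) π : Perm (α → Fin n)) ^ m) w = (π ^ m : Perm (Fin n)) ∘ w := by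
      intro m
      induction m with
      | zero => intro w; rfl
      | succ m ih =>
        intro w
        rw [pow_succ, pow_succ, Perm.mul_apply, ih]
        rfl
    ext w x
    rw [e, hπp]
    rfl
  · intro w
    change z K T (π ∘ w) * z K T' (π ∘ w) = _
    rw [hz T hT, hz T' hT']
  · intro w hw
    by_cases hc : ct w = a
    · exfalso
      have hne : (univ.filter (fun x => w x = (k : Fin n))).card ≠ 0 := by
        have e := congrFun hc k
        change (univ.filter (fun x => w x = (k : Fin n))).card = a k at e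
        rw [e]; exact hak
      obtain ⟨x, hx⟩ := Finset.card_pos.1 (Nat.pos_of_ne_zero hne)
      have hx' : w x = k := (Finset.mem_filter.1 hx).2
      have e := congrFun hw x
      change π (w x) = w x at e
      rw [hx'] at e
      exact hπk e
    · have e : z K T w = 0 := z_ct T (by rw [hT]; exact hc)
      change z K T w * z K T' w = 0
      rw [e, zero_mul]

end NoethSym
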