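import Pool.Agent.Lib.MP_a8d7f7_al.N.Emb

/-!
# MP_a8d7f7_al, semiprimitive ideals, module Tup: tuples of letters
`extend_tuple`: send the indices outside the range of `f` to new letters (`Ω` infinite: e.g. an embedding of `Fin e` in the complement of the finite set `range s`, used off the range of `f`).
`exists_emb₂`: `exists_emb` twice (`a = f.trans a'`, `emb_incl`). `exists_emb_ge`: start `exists_emb` with a tuple of `N` letters (`exists_tuple'`); `N ≤ e` from the embedding.
-/

set_option autoImplicit false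
set_option linter.unusedSectionVars false
set_option linter.unusedVariables false

namespace NoethSym

open Finset Equiv FinSym
open SmallPrime (IsPrime SAlg incl emb)
open ThreeLetter (Ideals)

variable {K : Type*} [Field K] {Ω : Type*} [DecidableEq Ω]

theorem extend_tuple [Infinite Ω] {d e : ℕ} (f : Fin d ↪ Fin e) (s : Fin d ↪ Ω) :
    ∃ T : Fin e ↪ Ω, s = f.trans T := by
  classical
  have hinf : (Set.range s)ᶜ.Infinite := (Set.finite_range s).infinite_compl
  have : Infinite ((Set.range s)ᶜ : Set Ω) := hinf.to_subtype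
  let g := Infinite.natEmbedding ((Set.range s)ᶜ : Set Ω)
  have hex : ∀ i : Fin e, (∃ j, f j = i) ∨ ¬ ∃ j, f j = i := fun i => Classical.em _
  let T0 : Fin e → Ω := fun i => if h : ∃ j, f j = i then s h.choose else (g i.val : Ω)
  have h1 : ∀ j, T0 (f j) = s j := by
    intro j
    have h : ∃ j', f j' = f j := ⟨j, rfl⟩
    have h2 : h.choose = j := f.injective h.choose_spec
    show (if h : ∃ j', f j' = f j then s h.choose else (g (f j).val : Ω)) = s j
    rw [dif_pos h, h2]
  have h2 : ∀ i, (¬ ∃ j, f j = i) → T0 i = (g i.val : Ω) := fun i hi => dif_neg hi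
  have hinj : Function.Injective T0 := by
    intro i i' hii
    rcases hex i with ⟨j, rfl⟩ | hi
    · rcases hex i' with ⟨j', rfl⟩ | hi'
      · rw [h1, h1] at hii
        rw [s.injective hii]
      · rw [h1, h2 i' hi'] at hii
        exact absurd ⟨j, hii⟩ (g i'.val).2
    · rcases hex i' with ⟨j', rfl⟩ | hi'
      · rw [h1, h2 i hi] at hii
        exact absurd ⟨j', hii.symm⟩ (g i.val).2
      · rw [h2 i hi, h2 i' hi'] at hii
        exact Fin.val_injective (g.injective (Subtype.val_injective hii))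
  refine ⟨⟨T0, hinj⟩, ?_⟩
  apply Function.Embedding.ext
  intro j
  exact (h1 j).symm

theorem exists_emb₂ {d : ℕ} (s : Fin d ↪ Ω) (y y' : MonoidAlgebra K (FSym Ω)) :
    ∃ (e : ℕ) (f : Fin d ↪ Fin e) (T : Fin e ↪ Ω) (u u' : SAlg K e), s = f.trans T ∧
      emb K T u = y ∧ emb K T u' = y' := by
  obtain ⟨e1, f1, T1, u1, h1, hu1⟩ := exists_emb s y
  obtain ⟨e2, f2, T2, u2, h2, hu2⟩ := exists_emb T1 y'
  refine ⟨e2, f1.trans f2, T2, incl f2 u1, u2, ?_, ?_, hu2⟩
  · rw [h1, h2]
    rfl
  · rw [emb_incl, ← h2, hu1]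

theorem exists_emb_ge [Infinite Ω] (N : ℕ) (y : MonoidAlgebra K (FSym Ω)) :
    ∃ (e : ℕ) (s : Fin e ↪ Ω) (x : SAlg K e), N ≤ e ∧ emb K s x = y := by
  obtain ⟨s0⟩ := exists_tuple' (Ω := Ω) N
  obtain ⟨e, f, T, b, _, hb⟩ := exists_emb (K := K) s0 y
  refine ⟨e, T, b, ?_, hb⟩
  have := Fintype.card_le_of_embedding f
  simpa using this

/-- an embedding between two sizes exists -/
theorem exists_embFin {d e : ℕ} (h : d ≤ e) : Nonempty (Fin d ↪ Fin e) :=
  ⟨Fin.castLEEmb h⟩

end NoethSym
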