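import Pool.Agent.Lib.MP_a8d7f7_al.N.RegA
import Pool.Agent.Lib.MP_a8d7f7_al.N.RegB
import Pool.Agent.Lib.MP_a8d7f7_al.N.Join
import Pool.Agent.Lib.MP_a8d7f7_al.N.InclG
import Pool.Agent.Lib.MP_a8d7f7_al.N.Tup
import Pool.Agent.Lib.MP_a8d7f7_al.N.KPr

/-!
# MP_a8d7f7_al, semiprimitive ideals, module KB1: `KB c` and the levels
`kb_all`: let `R` = the `Below c`, `PReg p` vectors, infinite. If `a` is not `PReg`: `inK_one_of_not_reg`, `inK_of_one`. Else take `b ∈ R` with `∑ b ≥ max N e` (`infinite_large`), `g` = `exists_join a b` (`Below c g`),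
`∑ g ≥ ∑ b` (`sum_le_of_gap_le`), `f : Fin e ↪ Fin (∑ g)`, `T` = `extend_tuple`: `emb T (incl f x) = y` (`emb_incl`), so `InK g (incl f x)`; `restrictG` with `reg_ok` for `g`.
`kb_fin`: `finite_large` gives `N`; for `e ≥ N` the `a` of size `e` below `c` are not `PReg`.
`kb_big` (used for sums and products): to show `InK a x` at level `e` it is enough to show `InK g (incl f x)` for all large `g ∈ R` above `a`.
-/

set_option autoImplicit false
set_option linter.unusedSectionVars false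
set_option linter.unusedVariables false

namespace NoethSym

open Finset Equiv FinSym
open SmallPrime (IsPrime SAlg incl emb)
open ThreeLetter (Ideals)

variable {K : Type*} [Field K] {Ω : Type*} [DecidableEq Ω] {n : ℕ}

/-- the join of `a` with a large vector below `c` -/
private theorem kb1_join {p : ℕ} (hp : p.Prime) {c : Fin n → ℕ∞}
    (hinf : {a : Fin n → ℕ | Below c a ∧ PReg p a}.Infinite) {a : Fin n → ℕ}
    (ha : Below c a) (hr : PReg p a) (N : ℕ) :
    ∃ g : Fin n → ℕ, Below c g ∧ PReg p g ∧ N ≤ ∑ i, g i ∧ ∑ i, a i ≤ ∑ i, g i ∧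
      gap a ≤ gap g := by
  obtain ⟨b, hb, hbN⟩ := infinite_large hinf N
  obtain ⟨hb1, hb2⟩ := hb
  obtain ⟨g, hg1, hg2, hg3⟩ := exists_join hp ha.1 hb1.1 hr hb2
  have hga : gap a ≤ gap g := fun i => by rw [hg3 i]; exact le_max_left _ _
  have hgb : gap b ≤ gap g := fun i => by rw [hg3 i]; exact le_max_right _ _
  refine ⟨g, ⟨hg1, fun i => ?_⟩, hg2, hbN.trans (sum_le_of_gap_le hb1.1 hg1 hgb),
    sum_le_of_gap_le ha.1 hg1 hga, hga⟩
  rw [hg3 i]
  rcases le_total (gap a i) (gap b i) with h | h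
  · rw [max_eq_right h]
    exact hb1.2 i
  · rw [max_eq_left h]
    exact ha.2 i

theorem kb_big {p : ℕ} (hp : p.Prime) [CharP K p] {c : Fin n → ℕ∞}
    (hinf : {a : Fin n → ℕ | Below c a ∧ PReg p a}.Infinite) {e : ℕ} {x : SAlg K e} {a : Fin n → ℕ}
    (ha : Below c a) (hs : ∑ i, a i = e) (N : ℕ)
    (h : ∀ (g : Fin n → ℕ) (E : ℕ), Below c g → PReg p g → ∑ i, g i = E → N ≤ E → gap a ≤ gap g →
      ∃ f : Fin e ↪ Fin E, InK g (incl f x)) : InK a x := by
  by_cases hr : PReg p a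
  · obtain ⟨g, hg1, hg2, hg3, hg4, hg5⟩ := kb1_join hp hinf ha hr N
    obtain ⟨f, hf⟩ := h g (∑ i, g i) hg1 hg2 rfl hg3 hg5
    exact restrictG f ha.1 hg1.1 hg5 hs rfl (reg_ok hp hg1.1 rfl hg2) hf
  · exact inK_of_one (inK_one_of_not_reg hp ha.1 hr) x

theorem kb_all {p : ℕ} (hp : p.Prime) [CharP K p] [Infinite Ω] {c : Fin n → ℕ∞}
    (hinf : {a : Fin n → ℕ | Below c a ∧ PReg p a}.Infinite) {y : MonoidAlgebra K (FSym Ω)}
    (hy : KB c y) {e : ℕ} {s : Fin e ↪ Ω} {x : SAlg K e} (hx : emb K s x = y) {a : Fin n → ℕ}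
    (ha : Below c a) (hs : ∑ i, a i = e) : InK a x := by
  by_cases hr : PReg p a
  · obtain ⟨N, hN⟩ := hy
    obtain ⟨g, hg1, hg2, hg3, hg4, hg5⟩ := kb1_join hp hinf ha hr N
    have hle : e ≤ ∑ i, g i := by rw [← hs]; exact hg4
    obtain ⟨T, hT⟩ := extend_tuple (Fin.castLEEmb hle) s
    have h1 : emb K T (incl (Fin.castLEEmb hle) x) = y := by
      rw [emb_incl, ← hT, hx]
    exact restrictG _ ha.1 hg1.1 hg5 hs rfl (reg_ok hp hg1.1 rfl hg2)
      (hN _ T _ hg3 h1 g hg1 rfl)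
  · exact inK_of_one (inK_one_of_not_reg hp ha.1 hr) x

theorem kb_fin {p : ℕ} (hp : p.Prime) [CharP K p] [Infinite Ω] {c : Fin n → ℕ∞}
    (hfin : {a : Fin n → ℕ | Below c a ∧ PReg p a}.Finite) (y : MonoidAlgebra K (FSym Ω)) : KB c y := by
  obtain ⟨N, hN⟩ := finite_large hfin
  refine ⟨N, fun e s x he hx a ha hs => ?_⟩
  by_cases hr : PReg p a
  · have h1 := hN a ⟨ha, hr⟩
    omega
  · exact inK_of_one (inK_one_of_not_reg hp ha.1 hr) x

end NoethSym
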