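import Pool.Agent.Lib.MP_a8d7f7_al.N.KB1

/-!
# MP_a8d7f7_al, semiprimitive ideals, module KBid: in the infinite case `KB c` is a proper two-sided ideal
Use `TwoSidedIdeal.mk'` with carrier `{y | KB c y}` and `N = 0` in all proofs (`kb_all`). Sum: given `emb K s x = y + y'`, `s = f.trans T`, `y = emb T u`, `y' = emb T u'` (`exists_emb₂`), level `E₀`; `kb_big` with `N = E₀`: for `g` of size `E ≥ E₀`
take `F : Fin E₀ ↪ Fin E` and `W` with `T = F.trans W` (`extend_tuple`); `incl F (incl f x) = incl F u + incl F u'` by `emb_injective W` (`emb_incl`, `map_add`), `kb_all` for `y`, `y'`, `inK_add`; the embedding is `f.trans F` (`incl_incl`).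
Negative, left and right multiplication in the same way (`incl_mul'`, `inK_mul`, `inK_smul`). `1`: take `a` in the infinite set, any tuple of `∑ a` letters, `emb K s 1 = 1`, `kb_all`, `reg_ok`.
-/

set_option autoImplicit false
set_option linter.unusedSectionVars false
set_option linter.unusedVariables false

namespace NoethSym

open Finset Equiv FinSym
open SmallPrime (IsPrime SAlg incl emb)
open ThreeLetter (Ideals)

variable {K : Type*} [Field K] {Ω : Type*} [DecidableEq Ω] {n : ℕ}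

/-- represent `y`, `y'` and the given tuple at all large levels -/
private theorem kbid_lev [Infinite Ω] {e : ℕ} (s : Fin e ↪ Ω) (y y' : MonoidAlgebra K (FSym Ω)) :
    ∃ E₀ : ℕ, ∀ E, E₀ ≤ E → ∃ (f : Fin e ↪ Fin E) (W : Fin E ↪ Ω) (v v' : SAlg K E),
      f.trans W = s ∧ emb K W v = y ∧ emb K W v' = y' := by
  obtain ⟨E₀, f0, T, u, u', hs, hu, hu'⟩ := exists_emb₂ s y y'
  refine ⟨E₀, fun E hE => ?_⟩
  obtain ⟨F⟩ := exists_embFin hE
  obtain ⟨W, hW⟩ := extend_tuple F T
  refine ⟨f0.trans F, W, incl F u, incl F u', ?_, ?_, ?_⟩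
  · rw [hs, hW]
    rfl
  · rw [emb_incl, ← hW, hu]
  · rw [emb_incl, ← hW, hu']

private theorem kbid_zero {α : Type*} [Fintype α] [DecidableEq α] {a : Fin n → ℕ} :
    InK a (0 : MonoidAlgebra K (Perm α)) := by
  intro T T' _ _
  rw [map_zero, LinearMap.zero_apply, zero_dotProduct]

theorem kb_ideal {p : ℕ} (hp : p.Prime) [CharP K p] [Infinite Ω] {c : Fin n → ℕ∞}
    (hinf : {a : Fin n → ℕ | Below c a ∧ PReg p a}.Infinite) :
    ∃ P : Ideals K Ω, P ≠ ⊤ ∧ ∀ y, y ∈ P ↔ KB c y := by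
  have h0 : KB c (0 : MonoidAlgebra K (FSym Ω)) := by
    refine ⟨0, fun e s x _ hx a ha hs => ?_⟩
    have h1 : x = 0 := emb_injective s (by rw [hx, map_zero])
    rw [h1]
    exact kbid_zero
  have hadd : ∀ {y y' : MonoidAlgebra K (FSym Ω)}, KB c y → KB c y' → KB c (y + y') := by
    intro y y' hy hy'
    refine ⟨0, fun e s x _ hx a ha hs => ?_⟩
    obtain ⟨E₀, hE₀⟩ := kbid_lev s y y'
    refine kb_big hp hinf ha hs E₀ fun g E hg _ hsg hE _ => ?_
    obtain ⟨f, W, v, v', hfW, hv, hv'⟩ := hE₀ E hE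
    refine ⟨f, ?_⟩
    have h1 : incl f x = v + v' := by
      apply emb_injective W
      rw [emb_incl, hfW, hx, map_add, hv, hv']
    rw [h1]
    exact inK_add (kb_all hp hinf hy hv hg hsg) (kb_all hp hinf hy' hv' hg hsg)
  have hneg : ∀ {y : MonoidAlgebra K (FSym Ω)}, KB c y → KB c (-y) := by
    intro y hy
    refine ⟨0, fun e s x _ hx a ha hs => ?_⟩
    have h1 : InK a (-x) := kb_all hp hinf hy (s := s) (by rw [map_neg, hx, neg_neg]) ha hs
    have h2 := inK_smul (-1 : K) h1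
    rwa [neg_smul, one_smul, neg_neg] at h2
  have hml : ∀ {y y' : MonoidAlgebra K (FSym Ω)}, KB c y' → KB c (y * y') := by
    intro y y' hy'
    refine ⟨0, fun e s x _ hx a ha hs => ?_⟩
    obtain ⟨E₀, hE₀⟩ := kbid_lev s y y'
    refine kb_big hp hinf ha hs E₀ fun g E hg _ hsg hE _ => ?_
    obtain ⟨f, W, v, v', hfW, hv, hv'⟩ := hE₀ E hE
    refine ⟨f, ?_⟩
    have h1 : incl f x = v * v' := by
      apply emb_injective W
      rw [emb_incl, hfW, hx, map_mul, hv, hv']
    rw [h1]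
    have h2 := inK_mul (kb_all hp hinf hy' hv' hg hsg) v 1
    rwa [mul_one] at h2
  have hmr : ∀ {y y' : MonoidAlgebra K (FSym Ω)}, KB c y → KB c (y * y') := by
    intro y y' hy
    refine ⟨0, fun e s x _ hx a ha hs => ?_⟩
    obtain ⟨E₀, hE₀⟩ := kbid_lev s y y'
    refine kb_big hp hinf ha hs E₀ fun g E hg _ hsg hE _ => ?_
    obtain ⟨f, W, v, v', hfW, hv, hv'⟩ := hE₀ E hE
    refine ⟨f, ?_⟩
    have h1 : incl f x = v * v' := by
      apply emb_injective W
      rw [emb_incl, hfW, hx, map_mul, hv, hv']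
    rw [h1]
    have h2 := inK_mul (kb_all hp hinf hy hv hg hsg) 1 v'
    rwa [one_mul] at h2
  refine ⟨TwoSidedIdeal.mk' {y | KB c y} h0 (fun {a b} h h' => hadd h h') (fun {a} h => hneg h)
    (fun {a b} h => hml h) (fun {a b} h => hmr h), ?_, ?_⟩
  · intro htop
    have h1 : (1 : MonoidAlgebra K (FSym Ω)) ∈ TwoSidedIdeal.mk' {y | KB c y} h0
        (fun {a b} h h' => hadd h h') (fun {a} h => hneg h)
        (fun {a b} h => hml h) (fun {a b} h => hmr h) := by
      rw [htop]
      trivial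
    rw [TwoSidedIdeal.mem_mk'] at h1
    have h1 : KB c (1 : MonoidAlgebra K (FSym Ω)) := h1
    obtain ⟨a, ha, hr⟩ := hinf.nonempty
    obtain ⟨s⟩ := exists_tuple' (Ω := Ω) (∑ i, a i)
    have h2 := kb_all hp hinf h1 (s := s) (x := 1) (map_one _) ha rfl
    exact reg_ok hp ha.1 rfl hr h2
  · intro y
    rw [TwoSidedIdeal.mem_mk']
    rfl

end NoethSym
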