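import Pool.Agent.Lib.MP_a8d7f7_al.N.KB1

/-!
# MP_a8d7f7_al, semiprimitive ideals, module KBpr: in the infinite case the ideal is prime and has no nil ideals above it
`kb_not`: if `¬ KB c y` then for every `N` there are `e ≥ N`, `s`, `x` with `emb s x = y` and a `Below c` `a` of size `e` with `¬ InK a x`; it is `PReg` (else `inK_of_one`).
`kb_prime`: `y, y' ∉ P`. Take presentations `(e, s, x, a)`, `(e', s', x', a')` as in `kb_not`; `g` = join of `a` and `a'`, `E = ∑ g`. `T₁ : Fin E ↪ Ω` with `s = f₁.trans T₁`; `u = incl f₁ x`, `¬ InK g u` (`restrictG`), `y = emb T₁ u`.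
Similarly `T₂`, `u' = incl f₂ x'`, `y' = emb T₂ u'`, `¬ InK g u'`. Choose `γ ∈ FSym` with `γ ∘ T₂ = T₁` (`exists_mv`): `γ y' γ⁻¹ = emb T₁ u'` (as in `emb_conj`). By `inK_prime` there is `r'` with `¬ InK g (u * r' * u')`;
`r = emb T₁ r' * γ`: `y * r * y' = emb T₁ (u r' u') * γ`, so if it were in `P` then `emb T₁ (u r' u') ∈ P` and `kb_all` gives `InK g (u r' u')`.
`kb_nil`: `J` nil mod `P`, `y ∈ J`, `y ∉ P`: `kb_not`: `y = emb s x`, `¬ InK a x`, `¬ InK a 1` (`reg_ok`); `inK_unit`: `v ∈ span {x}`, `InK a (1 - v)`; `emb s v ∈ J` (span induction), so `(emb s v)^N = emb s (v^N) ∈ P`, `kb_all`: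
`InK a (v^N)`, contradiction with `inK_pow`.
-/

set_option autoImplicit false
set_option linter.unusedSectionVars false
set_option linter.unusedVariables false

namespace NoethSym

open Finset Equiv FinSym
open SmallPrime (IsPrime SAlg incl emb)
open ThreeLetter (Ideals)

variable {K : Type*} [Field K] {Ω : Type*} [DecidableEq Ω] {n : ℕ}

/-- `rho a' σ = g * rho a σ * g⁻¹` if `g ∘ a = a'` -/
private theorem kp_rho_conj {d : ℕ} (a a' : Fin d ↪ Ω) (g : FSym Ω) (hg : ∀ i, (g : Perm Ω) (a i) = a' i)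
    (σ : Perm (Fin d)) : SmallPrime.rho a' σ = g * SmallPrime.rho a σ * g⁻¹ := by
  apply Subtype.ext
  apply Equiv.ext
  intro z
  have hR : ((g * SmallPrime.rho a σ * g⁻¹ : FSym Ω) : Perm Ω) z =
      (g : Perm Ω) ((SmallPrime.rho a σ : Perm Ω) ((g : Perm Ω)⁻¹ z)) := rfl
  rw [hR]
  by_cases hz : ∃ i, a' i = z
  · obtain ⟨i, rfl⟩ := hz
    have h1 : (g : Perm Ω)⁻¹ (a' i) = a i := by rw [Perm.inv_eq_iff_eq, hg]
    rw [h1, SmallPrime.rho_apply, SmallPrime.rho_apply, hg]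
  · push Not at hz
    have h2 : (g : Perm Ω) ((g : Perm Ω)⁻¹ z) = z := Equiv.apply_symm_apply (g : Perm Ω) z
    rw [SmallPrime.rho_fix a' σ hz, SmallPrime.rho_fix a σ, h2]
    intro i hi
    apply hz i
    rw [← hg, hi, h2]

private theorem kp_conj_eq {d : ℕ} (a a' : Fin d ↪ Ω) (g : FSym Ω) (hg : ∀ i, (g : Perm Ω) (a i) = a' i)
    (x : SAlg K d) : emb K a' x = MonoidAlgebra.of K (FSym Ω) g * emb K a x * MonoidAlgebra.of K (FSym Ω) g⁻¹ := by
  induction x using MonoidAlgebra.induction_on with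
  | of σ =>
    rw [SmallPrime.emb_of, SmallPrime.emb_of, ← map_mul, ← map_mul, kp_rho_conj a a' g hg σ]
  | add f h hf hh =>
    rw [map_add, map_add, hf, hh, mul_add, add_mul]
  | smul c f hf =>
    rw [map_smul, map_smul, hf, mul_smul_comm, smul_mul_assoc]

private theorem kb_not {p : ℕ} (hp : p.Prime) [CharP K p] {c : Fin n → ℕ∞}
    {y : MonoidAlgebra K (FSym Ω)} (h : ¬ KB c y) :
    ∃ (e : ℕ) (s : Fin e ↪ Ω) (x : SAlg K e) (a : Fin n → ℕ), emb K s x = y ∧ Below c a ∧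
      ∑ i, a i = e ∧ ¬ InK a x ∧ PReg p a := by
  unfold KB at h
  push Not at h
  obtain ⟨e, s, x, _, hx, a, ha, hs, hn⟩ := h 0
  refine ⟨e, s, x, a, hx, ha, hs, hn, ?_⟩
  by_contra hr
  exact hn (inK_of_one (inK_one_of_not_reg hp ha.1 hr) x)

/-- lift of a presentation to a larger content -/
private theorem kb_lift {p : ℕ} (hp : p.Prime) [CharP K p] [Infinite Ω] {e E : ℕ} {s : Fin e ↪ Ω} {x : SAlg K e}
    {a g : Fin n → ℕ} (ha : Antitone a) (hg : Antitone g) (hgap : gap a ≤ gap g)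
    (hsa : ∑ i, a i = e) (hsg : ∑ i, g i = E) (hr : PReg p g) (hx : ¬ InK a x) :
    ∃ (T : Fin E ↪ Ω) (u : SAlg K E), emb K T u = emb K s x ∧ ¬ InK g u := by
  have hle : e ≤ E := by
    rw [← hsa, ← hsg]
    exact sum_le_of_gap_le ha hg hgap
  obtain ⟨T, hT⟩ := extend_tuple (Fin.castLEEmb hle) s
  refine ⟨T, incl (Fin.castLEEmb hle) x, ?_, fun h => hx ?_⟩
  · rw [emb_incl, ← hT]
  · exact restrictG (Fin.castLEEmb hle) ha hg hgap hsa hsg (reg_ok hp hg hsg hr) h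

theorem kb_prime {p : ℕ} (hp : p.Prime) [CharP K p] [Infinite Ω] {c : Fin n → ℕ∞}
    (hinf : {a : Fin n → ℕ | Below c a ∧ PReg p a}.Infinite) {P : Ideals K Ω} (hP : P ≠ ⊤)
    (hmem : ∀ y, y ∈ P ↔ KB c y) : IsPrime P := by
  refine ⟨hP, fun y y' h => ?_⟩
  by_contra hcon
  push Not at hcon
  obtain ⟨hy, hy'⟩ := hcon
  rw [hmem] at hy hy'
  obtain ⟨e, s, x, a, hx, ha, hsa, hna, hra⟩ := kb_not hp hy
  obtain ⟨e', s', x', a', hx', ha', hsa', hna', hra'⟩ := kb_not hp hy'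
  obtain ⟨g, hg, hrg, hgap⟩ := exists_join hp ha.1 ha'.1 hra hra'
  have hBg : Below c g := by
    refine ⟨hg, fun i => ?_⟩
    rw [hgap]
    rcases le_total (gap a i) (gap a' i) with h1 | h1
    · rw [max_eq_right h1]
      exact ha'.2 i
    · rw [max_eq_left h1]
      exact ha.2 i
  obtain ⟨T₁, u, hu, hnu⟩ := kb_lift (s := s) hp ha.1 hg (fun i => by rw [hgap]; exact le_max_left _ _) hsa rfl hrg hna
  obtain ⟨T₂, u', hu', hnu'⟩ := kb_lift (s := s') hp ha'.1 hg (fun i => by rw [hgap]; exact le_max_right _ _) hsa' rfl hrg hna'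
  obtain ⟨γ, hγ⟩ := SmallPrime.exists_mv T₂ T₁ T₂.injective T₁.injective
  have hc := kp_conj_eq T₂ T₁ γ hγ u'
  obtain ⟨r', hr'⟩ := inK_prime hnu hnu'
  have h1 := P.mul_mem_right _ (MonoidAlgebra.of K (FSym Ω) γ⁻¹)
    (h (emb K T₁ r' * MonoidAlgebra.of K (FSym Ω) γ))
  have h2 : y * (emb K T₁ r' * MonoidAlgebra.of K (FSym Ω) γ) * y' * MonoidAlgebra.of K (FSym Ω) γ⁻¹ =
      emb K T₁ (u * r' * u') := by
    rw [map_mul, map_mul, hc, hu, hu', hx, hx']
    simp only [mul_assoc]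
  rw [h2] at h1
  exact hr' (kb_all hp hinf ((hmem _).1 h1) rfl hBg rfl)

theorem kb_nil {p : ℕ} (hp : p.Prime) [CharP K p] [Infinite Ω] {c : Fin n → ℕ∞}
    (hinf : {a : Fin n → ℕ | Below c a ∧ PReg p a}.Infinite) {P : Ideals K Ω}
    (hmem : ∀ y, y ∈ P ↔ KB c y) : NilFree P := by
  intro J hJ y hy
  by_contra hyP
  have hyP' : ¬ KB c y := fun h => hyP ((hmem y).2 h)
  obtain ⟨e, s, x, a, hx, ha, hsa, hna, hra⟩ := kb_not hp hyP'
  obtain ⟨v, hv, h1v⟩ := inK_unit hna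
  have hle : TwoSidedIdeal.span {x} ≤ J.comap (emb K s) := by
    rw [TwoSidedIdeal.span_le]
    intro w hw
    rw [Set.mem_singleton_iff.1 hw]
    show x ∈ J.comap (emb K s)
    rw [TwoSidedIdeal.mem_comap, hx]
    exact hy
  have hvJ : emb K s v ∈ J := (TwoSidedIdeal.mem_comap _).1 (hle hv)
  obtain ⟨N, hN⟩ := hJ _ hvJ
  rw [← map_pow, hmem] at hN
  exact inK_pow (reg_ok hp ha.1 hsa hra) h1v N (kb_all hp hinf hN rfl ha hsa)

end NoethSym
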