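import Pool.Agent.Lib.MP_a8d7f7_al.N.Dom
import Pool.Agent.Lib.MP_a8d7f7_al.N.HiZ
import Pool.Agent.Lib.MP_a8d7f7_al.N.ExtT

/-!
# MP_a8d7f7_al, semiprimitive ideals, module KI: highest vectors are combinations of polytabloids
PROOF. Induction on `d`. `d = 0`: one word, the empty tableau. Step: strong downward induction on `j` (`∀ m ≤ n`, every such `f` with `f (cons i w) = 0` for all
`i ≥ m` lies in the span; `m = 0` gives `f = 0`, the claim is `m = n`). Given `f ≠ 0` vanishing for the first letter `> j`: `f_j w = f (Fin.cons j w)` has content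
`a - ε_j` (`ct_cons`; if `f_j ≠ 0` then `a j ≥ 1`) and is highest: `E i k f_j w = E i k f (Fin.cons j w)` as the other terms in the latter have first letter `i + 1 = j + 1`.
By induction `f_j = ∑ c_T₀ z T₀` with `ct T₀.row = a - ε_j`; by `dom` (for `f`) the hypothesis of `exists_ext_tab` holds; subtract `∑ c_T₀ z T` from `f` (`hi_z`, `hi_sub`).
Convenient: `Submodule.span_induction` for the statement: for every `g` in the span of `{z T₀ | ct T₀.row = a - ε_j}` there is `G` in `Sp K a`, highest, with
`G (cons j w) = g w` and `G (cons i w) = 0` for `i > j`.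
-/

set_option autoImplicit false
set_option linter.unusedSectionVars false
set_option linter.unusedVariables false

namespace NoethSym

open Finset Equiv FinSym
open SmallPrime (IsPrime SAlg incl)
open ThreeLetter (Ideals)

variable {K : Type*} [Field K] {n : ℕ}

private theorem ki_E_zero {α : Type*} [Fintype α] [DecidableEq α] (i k : ℕ) :
    E i k (0 : (α → Fin n) → K) = 0 := by
  funext w'
  unfold E
  simp

private theorem ki_hi_zero {α : Type*} [Fintype α] [DecidableEq α] :
    Hi (0 : (α → Fin n) → K) := fun i k _ => ki_E_zero i k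

private theorem ki_hi_add {α : Type*} [Fintype α] [DecidableEq α] {f g : (α → Fin n) → K}
    (hf : Hi f) (hg : Hi g) : Hi (f + g) := by
  have h := hi_sub hf (hi_sub ki_hi_zero hg)
  rwa [zero_sub, sub_neg_eq_add] at h

private theorem ki_hi_smul {α : Type*} [Fintype α] [DecidableEq α] {f : (α → Fin n) → K} (c : K)
    (hf : Hi f) : Hi (c • f) := by
  intro i k hk
  funext w'
  have h1 := congrFun (hf i k hk) w'
  unfold E at *
  simp only [Pi.zero_apply, Pi.smul_apply, smul_eq_mul] at *
  have : (∑ w : α → Fin n, if Up i k w w' then c * f w else 0) =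
      c * ∑ w : α → Fin n, if Up i k w w' then f w else 0 := by
    rw [mul_sum]
    refine sum_congr rfl fun w _ => ?_
    split_ifs <;> simp
  rw [this, h1, mul_zero]

/-- the content with one letter `j` less -/
private def ki_pred (a : Fin n → ℕ) (j : Fin n) : Fin n → ℕ := fun i => a i - if i = j then 1 else 0

private theorem ki_ct_cons {d : ℕ} {a : Fin n → ℕ} {j : Fin n} (ha : 1 ≤ a j)
    {w : Fin d → Fin n} : ct (Fin.cons j w : Fin (d + 1) → Fin n) = a ↔ ct w = ki_pred a j := by
  constructor
  · intro h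
    funext i
    have := congrFun h i
    rw [ct_cons] at this
    unfold ki_pred
    omega
  · intro h
    funext i
    rw [ct_cons, h]
    unfold ki_pred
    by_cases hi : i = j
    · subst hi
      simp only [if_true]
      omega
    · simp [hi]

private theorem ki_lift {d : ℕ} {a : Fin n → ℕ} {j : Fin n} (ha : 1 ≤ a j)
    (hdom : ∀ i : Fin n, (i : ℕ) + 1 = j → a j ≤ a i) {g : (Fin d → Fin n) → K}
    (hg : g ∈ Sp K (α := Fin d) (ki_pred a j)) :
    ∃ G ∈ Sp K (α := Fin (d + 1)) a, Hi G ∧ (∀ w, ct w ≠ a → G w = 0) ∧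
      (∀ w : Fin d → Fin n, G (Fin.cons j w : Fin (d + 1) → Fin n) = g w) ∧
      ∀ (i : Fin n) (w : Fin d → Fin n), j < i → G (Fin.cons i w : Fin (d + 1) → Fin n) = 0 := by
  unfold Sp at hg
  induction hg using Submodule.span_induction with
  | mem g hg =>
    obtain ⟨T₀, hT₀, rfl⟩ := hg
    obtain ⟨T, hT, h1, h2⟩ := exists_ext_tab (K := K) T₀ j (by
      intro i hi
      have hij : i ≠ j := by
        rintro rfl
        omega
      have := hdom i hi
      rw [hT₀]
      unfold ki_pred
      simp only [if_true, if_neg hij]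
      omega)
    have hrow : ct T.row = a := by
      rw [hT]
      exact (ki_ct_cons ha).2 hT₀
    refine ⟨z K T, Submodule.subset_span ⟨T, hrow, rfl⟩, hi_z T, ?_, h1, h2⟩
    intro w hw
    exact z_ct T (by rwa [hrow])
  | zero =>
    exact ⟨0, Submodule.zero_mem _, ki_hi_zero, fun _ _ => rfl, fun _ => rfl, fun _ _ _ => rfl⟩
  | add g₁ g₂ _ _ ih₁ ih₂ =>
    obtain ⟨G₁, m₁, k₁, c₁, e₁, f₁⟩ := ih₁
    obtain ⟨G₂, m₂, k₂, c₂, e₂, f₂⟩ := ih₂
    refine ⟨G₁ + G₂, Submodule.add_mem _ m₁ m₂, ki_hi_add k₁ k₂, ?_, ?_, ?_⟩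
    · intro w hw
      rw [Pi.add_apply, c₁ w hw, c₂ w hw, add_zero]
    · intro w
      rw [Pi.add_apply, Pi.add_apply, e₁, e₂]
    · intro i w hi
      rw [Pi.add_apply, f₁ i w hi, f₂ i w hi, add_zero]
  | smul c g₁ _ ih₁ =>
    obtain ⟨G₁, m₁, k₁, c₁, e₁, f₁⟩ := ih₁
    refine ⟨c • G₁, Submodule.smul_mem _ c m₁, ki_hi_smul c k₁, ?_, ?_, ?_⟩
    · intro w hw
      rw [Pi.smul_apply, c₁ w hw, smul_zero]
    · intro w
      rw [Pi.smul_apply, Pi.smul_apply, e₁]
    · intro i w hi
      rw [Pi.smul_apply, f₁ i w hi, smul_zero]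

private theorem ki_up_cons {d : ℕ} {i k : ℕ} {j l : Fin n} {w w' : Fin d → Fin n} :
    Up i k (Fin.cons l w : Fin (d + 1) → Fin n) (Fin.cons j w') ↔
      (l ≠ j → (j : ℕ) = i ∧ (l : ℕ) = i + 1) ∧
        (∀ x, w x ≠ w' x → ((w' x : ℕ) = i ∧ (w x : ℕ) = i + 1)) ∧
        (if l ≠ j then 1 else 0) + (univ.filter (fun x => w x ≠ w' x)).card = k := by
  unfold Up
  have hc : (univ.filter (fun x => (Fin.cons l w : Fin (d + 1) → Fin n) x ≠
      (Fin.cons j w' : Fin (d + 1) → Fin n) x)).card =
      (if l ≠ j then 1 else 0) + (univ.filter (fun x => w x ≠ w' x)).card := by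
    rw [card_filter, card_filter, Fin.sum_univ_succ]
    simp only [Fin.cons_zero, Fin.cons_succ]
  rw [hc, Fin.forall_fin_succ]
  simp only [Fin.cons_zero, Fin.cons_succ]
  tauto

private theorem ki_hi_slice {d : ℕ} {f : (Fin (d + 1) → Fin n) → K} (hHi : Hi f) {j : Fin n}
    (hz : ∀ i : Fin n, j < i → ∀ w : Fin d → Fin n, f (Fin.cons i w : Fin (d + 1) → Fin n) = 0) :
    Hi (fun w : Fin d → Fin n => f (Fin.cons j w : Fin (d + 1) → Fin n)) := by
  intro i k hk
  funext w'
  have h1 := congrFun (hHi i k hk) (Fin.cons j w')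
  unfold E at *
  simp only [Pi.zero_apply] at *
  refine Eq.trans ?_ h1
  refine Fintype.sum_of_injective (fun w : Fin d → Fin n => (Fin.cons j w : Fin (d + 1) → Fin n))
    (fun w₁ w₂ h => ?_) _ _ ?_ ?_
  · funext x
    have := congrFun h x.succ
    simpa only [Fin.cons_succ] using this
  · intro v hv
    have hv0 : v 0 ≠ j := by
      intro h
      apply hv
      refine ⟨Fin.tail v, ?_⟩
      simp only
      rw [← h, Fin.cons_self_tail]
    by_cases hu : Up i k v (Fin.cons j w')
    · rw [if_pos hu]
      rw [← Fin.cons_self_tail v] at hu ⊢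
      have := (ki_up_cons.1 hu).1 hv0
      apply hz
      rw [Fin.lt_def]
      omega
    · rw [if_neg hu]
  · intro w
    have : Up i k (Fin.cons j w : Fin (d + 1) → Fin n) (Fin.cons j w') ↔ Up i k w w' := by
      rw [ki_up_cons]
      unfold Up
      simp
    by_cases hu : Up i k w w'
    · rw [if_pos hu, if_pos (this.2 hu)]
    · rw [if_neg hu, if_neg (fun h => hu (this.1 h))]

theorem mem_Sp_of_hi {d : ℕ} {a : Fin n → ℕ} {f : (Fin d → Fin n) → K}
    (hf : ∀ w, ct w ≠ a → f w = 0) (hHi : Hi f) : f ∈ Sp K (α := Fin d) a := by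
  induction d generalizing a with
  | zero =>
    have hw0 : ∀ w : Fin 0 → Fin n, w = Fin.elim0 := fun w => Subsingleton.elim _ _
    by_cases ha : ct (Fin.elim0 : Fin 0 → Fin n) = a
    · let T : Tab (Fin 0) n := ⟨Fin.elim0, Fin.elim0, fun x => x.elim0, fun x => x.elim0⟩
      have hz : f = f Fin.elim0 • z K T := by
        funext w
        rw [hw0 w, Pi.smul_apply]
        have : z K T Fin.elim0 = 1 := z_row T
        rw [this, smul_eq_mul, mul_one]
      rw [hz]
      exact Submodule.smul_mem _ _ (Submodule.subset_span ⟨T, ha, rfl⟩)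
    · have : f = 0 := by
        funext w
        rw [hw0 w]
        exact hf _ ha
      rw [this]
      exact Submodule.zero_mem _
  | succ d ih =>
    have key : ∀ m : ℕ, ∀ f : (Fin (d + 1) → Fin n) → K, (∀ w, ct w ≠ a → f w = 0) → Hi f →
        (∀ i : Fin n, m ≤ (i : ℕ) → ∀ w : Fin d → Fin n,
          f (Fin.cons i w : Fin (d + 1) → Fin n) = 0) → f ∈ Sp K (α := Fin (d + 1)) a := by
      intro m
      induction m with
      | zero =>
        intro f _ _ h
        have : f = 0 := by
          funext w
          rw [← Fin.cons_self_tail w]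
          exact h _ (Nat.zero_le _) _
        rw [this]
        exact Submodule.zero_mem _
      | succ m ihm =>
        intro f hf hHi h
        by_cases hmn : m < n
        swap
        · exact ihm f hf hHi (fun i hi => absurd (hi.trans_lt i.2) hmn)
        by_cases hg0 : ∀ w : Fin d → Fin n,
            f (Fin.cons (⟨m, hmn⟩ : Fin n) w : Fin (d + 1) → Fin n) = 0
        · refine ihm f hf hHi (fun i hi w => ?_)
          rcases hi.eq_or_lt with e | e
          · have : i = ⟨m, hmn⟩ := Fin.ext e.symm
            rw [this]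
            exact hg0 w
          · exact h i e w
        push Not at hg0
        obtain ⟨w₀, hw₀⟩ := hg0
        obtain ⟨j, hj⟩ : ∃ j : Fin n, j = ⟨m, hmn⟩ := ⟨_, rfl⟩
        rw [← hj] at hw₀
        have hjm : (j : ℕ) = m := by rw [hj]
        have hct : ct (Fin.cons j w₀ : Fin (d + 1) → Fin n) = a := by
          by_contra hc
          exact hw₀ (hf _ hc)
        have haj : 1 ≤ a j := by
          rw [← hct, ct_cons]
          simp
        have hf0 : f ≠ 0 := by
          rintro rfl
          exact hw₀ rfl
        have hz : ∀ i : Fin n, j < i → ∀ w : Fin d → Fin n,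
            f (Fin.cons i w : Fin (d + 1) → Fin n) = 0 := by
          intro i hi w
          apply h
          rw [Fin.lt_def] at hi
          omega
        obtain ⟨G, hG, hGHi, hGc, hGj, hGi⟩ := ki_lift (K := K) haj
          (fun i hi => dom hf hHi hf0 i j hi)
          (ih (a := ki_pred a j)
            (f := fun w : Fin d → Fin n => f (Fin.cons j w : Fin (d + 1) → Fin n))
            (fun w hw => hf _ (fun hc => hw ((ki_ct_cons haj).1 hc))) (ki_hi_slice hHi hz))
        have hmem : f - G ∈ Sp K (α := Fin (d + 1)) a := by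
          refine ihm (f - G) ?_ (hi_sub hHi hGHi) ?_
          · intro w hw
            rw [Pi.sub_apply, hf w hw, hGc w hw, sub_zero]
          · intro i hi w
            rw [Pi.sub_apply]
            rcases hi.eq_or_lt with e | e
            · have : i = j := Fin.ext (by omega)
              rw [this, hGj w, sub_self]
            · have hji : j < i := by
                rw [Fin.lt_def]
                omega
              rw [hz i hji w, hGi i w hji, sub_zero]
        have := Submodule.add_mem _ hmem hG
        rwa [sub_add_cancel] at this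
    exact key n f hf hHi (fun i hi => absurd i.2 (not_lt.mpr hi))

end NoethSym
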