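import Pool.Agent.Lib.MP_a8d7f7_al.N.BDefs
import Pool.Agent.Lib.MP_a8d7f7_al.N.Col

/-!
# MP_a8d7f7_al, semiprimitive ideals, module RegA: the form is nonzero when no `p` nonzero rows are equal
PROOF (James). Cells `x = (i, c)`, `c < a i` (`finSigmaFinEquiv`: `Fin (∑ a) ≃ Σ i, Fin (a i)`; `subst hs`). `T`: row `i`, column `c`. `T*`: row `i`, column `a i - 1 - c`. Claim
`⟨z T, z T*⟩ = #{w : ...} = #H` where `H` = the permutations of the cells keeping `T`-column and the value `a (row)`. Then `p ∤ #H`: an element `σ ∈ H` of order `p` (Cauchy,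
`exists_prime_orderOf_dvd_card`) moves some cell `x`, its orbit has `p` elements in one `T`-column, rows with the same `a ≠ 0`: `p` equal nonzero entries of `a`, contradiction with `PReg` (antitone).
CLAIM. Let `w` be a word with `z T w ≠ 0`, `z T* w ≠ 0`: there are `σ` keeping `T.col`, `τ` keeping `T*.col`, `w ∘ σ = row = w ∘ τ`. So in each `T`-column (and each `T*`-column) the multiset of the letters
`w y` is that of the rows. (1) `a (w x) = a (row x)` for all cells `x`: induction on the `T`-column `c` of `x`. First `a (w x) ≥ a (row x)`: if `v = a (w x) < a (row x) = a i`, count in the `T*`-column `y* = a i - 1 - c` of `x`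
the cells `y` with `a (w y) = v` and with `a (row y) = v`: equally many; the cells with `a (row y) = v < a i` have `T`-column `v - 1 - y* < c` so satisfy `a (w y) = v` by induction, and `x` is one more: contradiction.
Then `∑ a (w x) = ∑ a (row x)` over the `T`-column `c` gives equality. (2) So `σ x` and `τ x` (the cell `y` of the column of `x` with `w y = row x`) both keep the value `a (row)`; a set `{T.col = c, a (row) = v}` is also
`{T*.col = v - 1 - c, a (row) = v}`; so `σ = τ ∈ H` and `z T w * z T* w = (sign σ)² = 1`. (3) Conversely for `σ ∈ H`, `w = row ∘ σ⁻¹` has `z T w = z T* w = sign σ` (`z_comp`, `z_row`). So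
`⟨z T, z T*⟩ = ∑_{σ ∈ H} 1 = #H` in `K` (`w ↔ σ` is injective), nonzero.
-/

set_option autoImplicit false
set_option linter.unusedSectionVars false
set_option linter.unusedVariables false

namespace NoethSym

open Finset Equiv FinSym
open SmallPrime (IsPrime SAlg incl emb)
open ThreeLetter (Ideals)

variable {K : Type*} [Field K] {n : ℕ}

/-- the value of the row is kept (claim (1)) -/
private theorem regA_val {α : Type*} [Fintype α] [DecidableEq α] {a : Fin n → ℕ} {r : α → Fin n}
    {c : α → ℕ} (hc : ∀ x, c x < a (r x)) {w : α → Fin n} {σ τ : Perm α}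
    (hσ : ∀ x, c (σ x) = c x) (hσw : w ∘ σ = r)
    (hτ : ∀ x, a (r (τ x)) - 1 - c (τ x) = a (r x) - 1 - c x) (hτw : w ∘ τ = r) :
    ∀ c0 : ℕ, ∀ x, c x = c0 → a (w x) = a (r x) := by
  intro c0
  induction c0 using Nat.strong_induction_on with
  | _ c0 ih =>
    have hge : ∀ x, c x = c0 → a (r x) ≤ a (w x) := by
      intro x hx
      by_contra hlt
      push Not at hlt
      have hcard : (univ.filter (fun y => a (r y) - 1 - c y = a (r x) - 1 - c x ∧
          a (r y) = a (w x))).card =
          (univ.filter (fun y => a (r y) - 1 - c y = a (r x) - 1 - c x ∧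
          a (w y) = a (w x))).card := by
        apply Finset.card_equiv τ
        intro y
        simp only [mem_filter, mem_univ, true_and]
        have h1 : w (τ y) = r y := congrFun hτw y
        rw [hτ y, h1]
      have hss : (univ.filter (fun y => a (r y) - 1 - c y = a (r x) - 1 - c x ∧
          a (r y) = a (w x))) ⊂
          (univ.filter (fun y => a (r y) - 1 - c y = a (r x) - 1 - c x ∧
          a (w y) = a (w x))) := by
        rw [Finset.ssubset_iff_of_subset]
        · refine ⟨x, by simp, ?_⟩
          simp only [mem_filter, mem_univ, true_and]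
          omega
        · intro y hy
          simp only [mem_filter, mem_univ, true_and] at hy ⊢
          refine ⟨hy.1, ?_⟩
          have h1 := hc y
          have h2 := hc x
          have h3 : c y < c0 := by omega
          rw [ih (c y) h3 y rfl]
          exact hy.2
      exact absurd hcard (Finset.card_lt_card hss).ne
    have hsum : ∑ x ∈ univ.filter (fun x => c x = c0), a (r x) =
        ∑ x ∈ univ.filter (fun x => c x = c0), a (w x) := by
      refine Finset.sum_equiv σ ?_ ?_
      · intro y
        simp only [mem_filter, mem_univ, true_and, hσ]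
      · intro y _
        rw [← congrFun hσw y]
        rfl
    intro x hx
    have h := (Finset.sum_eq_sum_iff_of_le (fun y hy => hge y (by simpa using hy))).1 hsum x
      (by simpa using hx)
    exact h.symm


/-- the form of the two tableaux is the order of the group -/
private theorem regA_dot {α : Type*} [Fintype α] [DecidableEq α] {a : Fin n → ℕ}
    (T T' : Tab α n) (hrow : T'.row = T.row) (hc : ∀ x, T.col x < a (T.row x))
    (hc' : ∀ x, T'.col x = a (T.row x) - 1 - T.col x) :
    dotProduct (z K T) (z K T') =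
      ((univ.filter (fun σ : Perm α => ∀ x, T.col (σ x) = T.col x ∧
        a (T.row (σ x)) = a (T.row x))).card : K) := by
  classical
  have hmain : ∀ σ : Perm α, (∀ x, T.col (σ x) = T.col x) →
      ((Perm.sign σ : ℤ) : K) * z K T' (T.row ∘ (σ⁻¹ : Perm α)) =
        if (∀ x, T.col (σ x) = T.col x ∧ a (T.row (σ x)) = a (T.row x)) then 1 else 0 := by
    intro σ hσ
    split_ifs with h
    · have h1 : ∀ x, T'.col ((σ⁻¹ : Perm α) x) = T'.col x := by
        intro x
        have h2 := h ((σ⁻¹ : Perm α) x)
        have e0 : σ ((σ⁻¹ : Perm α) x) = x := by simp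
        rw [e0] at h2
        rw [hc', hc', ← h2.1, ← h2.2]
      rw [← hrow, z_comp T' T'.row (σ⁻¹ : Perm α) h1, z_row, mul_one, Perm.sign_inv]
      have : ((Perm.sign σ : ℤ)) * ((Perm.sign σ : ℤ)) = 1 := by
        rcases Int.units_eq_one_or (Perm.sign σ) with h | h <;> rw [h] <;> norm_num
      exact_mod_cast congrArg (fun t : ℤ => (t : K)) this
    · have h0 : z K T' (T.row ∘ (σ⁻¹ : Perm α)) = 0 := by
        unfold z
        apply Finset.sum_eq_zero
        intro τ _
        rw [if_neg]
        rintro ⟨h1, h2⟩
        apply h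
        rw [hrow] at h2
        have hσw : (T.row ∘ (σ⁻¹ : Perm α)) ∘ σ = T.row := by
          funext x; simp
        have h3 := regA_val (a := a) (r := T.row) (c := T.col) hc
          (w := T.row ∘ (σ⁻¹ : Perm α)) (σ := σ) (τ := τ) hσ hσw
          (fun x => by rw [← hc', ← hc']; exact h1 x) h2
        intro x
        refine ⟨hσ x, ?_⟩
        have h4 := h3 _ (σ x) rfl
        rw [← h4]
        simp
      rw [h0, mul_zero]
  have hz : dotProduct (z K T) (z K T') = ∑ σ : Perm α, if (∀ x, T.col (σ x) = T.col x) then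
      ((Perm.sign σ : ℤ) : K) * z K T' (T.row ∘ (σ⁻¹ : Perm α)) else 0 := by
    have h0 : dotProduct (z K T) (z K T') = ∑ w : α → Fin n, ∑ σ : Perm α,
        (if (∀ x, T.col (σ x) = T.col x) ∧ w ∘ σ = T.row then
          ((Perm.sign σ : ℤ) : K) else 0) * z K T' w := by
      unfold dotProduct
      apply Finset.sum_congr rfl
      intro w _
      rw [← Finset.sum_mul]
      rfl
    rw [h0, Finset.sum_comm]
    apply Finset.sum_congr rfl
    intro σ _
    rw [Finset.sum_eq_single (T.row ∘ (σ⁻¹ : Perm α))]
    · have e1 : (T.row ∘ (σ⁻¹ : Perm α)) ∘ σ = T.row := by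
        funext x; simp
      simp only [e1, and_true]
      split_ifs <;> simp
    · intro w' _ hw'
      rw [if_neg, zero_mul]
      rintro ⟨_, h6⟩
      apply hw'
      rw [← h6]
      funext x; simp
    · intro h; exact absurd (mem_univ _) h
  rw [hz, Finset.card_filter]
  push_cast
  apply Finset.sum_congr rfl
  intro σ _
  by_cases hσ : ∀ x, T.col (σ x) = T.col x
  · rw [if_pos hσ, hmain σ hσ]
  · rw [if_neg hσ, if_neg]
    intro h
    exact hσ (fun x => (h x).1)

/-- the group of the permutations keeping `c` and `A` -/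
private def regAH {α : Type*} (c A : α → ℕ) : Subgroup (Perm α) where
  carrier := {σ | ∀ x, c (σ x) = c x ∧ A (σ x) = A x}
  mul_mem' := by
    intro σ τ hσ hτ x
    exact ⟨(hσ (τ x)).1.trans (hτ x).1, (hσ (τ x)).2.trans (hτ x).2⟩
  one_mem' := fun x => ⟨rfl, rfl⟩
  inv_mem' := by
    intro σ hσ x
    have h := hσ ((σ⁻¹ : Perm α) x)
    have e0 : σ ((σ⁻¹ : Perm α) x) = x := by simp
    rw [e0] at h
    exact ⟨h.1.symm, h.2.symm⟩

private theorem regA_card {α : Type*} [Fintype α] [DecidableEq α] {p : ℕ} (hp : p.Prime)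
    {a : Fin n → ℕ} (ha : Antitone a) (hr : PReg p a) {r : α → Fin n} {c : α → ℕ}
    (hc : ∀ x, c x < a (r x)) (hinj : ∀ x y, r x = r y → c x = c y → x = y) :
    ¬ p ∣ (univ.filter (fun σ : Perm α => ∀ x, c (σ x) = c x ∧ a (r (σ x)) = a (r x))).card := by
  classical
  intro hdvd
  have hcard : Nat.card (regAH c (fun x => a (r x))) =
      (univ.filter (fun σ : Perm α => ∀ x, c (σ x) = c x ∧ a (r (σ x)) = a (r x))).card := by
    rw [Nat.card_eq_fintype_card, ← Fintype.card_subtype]
    exact Fintype.card_congr (Equiv.refl _)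
  rw [← hcard] at hdvd
  have : Fact p.Prime := ⟨hp⟩
  obtain ⟨⟨σ, hσ⟩, hord⟩ := exists_prime_orderOf_dvd_card' p hdvd
  have hord' : orderOf σ = p := by
    rw [← hord]; exact (Subgroup.orderOf_mk σ hσ).symm
  have hne : σ ≠ 1 := by
    intro h
    rw [h, orderOf_one] at hord'
    exact hp.one_lt.ne hord'
  obtain ⟨x, hx⟩ : ∃ x, σ x ≠ x := by
    by_contra h
    push Not at h
    exact hne (Equiv.ext h)
  have hper : Function.IsPeriodicPt σ p x := by
    unfold Function.IsPeriodicPt Function.IsFixedPt
    rw [← Perm.coe_pow, ← hord', pow_orderOf_eq_one]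
    rfl
  have hmin : Function.minimalPeriod σ x = p := by
    rcases (Nat.dvd_prime hp).1 hper.minimalPeriod_dvd with h | h
    · exact absurd (Function.minimalPeriod_eq_one_iff_isFixedPt.1 h) hx
    · exact h
  have hkeep : ∀ k : ℕ, c (σ^[k] x) = c x ∧ a (r (σ^[k] x)) = a (r x) := by
    intro k
    induction k with
    | zero => exact ⟨rfl, rfl⟩
    | succ k ih =>
      rw [Function.iterate_succ_apply']
      exact ⟨(hσ _).1.trans ih.1, (hσ _).2.trans ih.2⟩
  have hinj2 : Set.InjOn (fun k => r (σ^[k] x)) (range p : Finset ℕ) := by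
    intro k hk l hl hkl
    have h1 : σ^[k] x = σ^[l] x := hinj _ _ hkl ((hkeep k).1.trans (hkeep l).1.symm)
    have hk' : k < Function.minimalPeriod σ x := by rw [hmin]; simpa using hk
    have hl' : l < Function.minimalPeriod σ x := by rw [hmin]; simpa using hl
    exact Function.iterate_injOn_Iio_minimalPeriod hk' hl' h1
  have hcardS : p ≤ (univ.filter (fun i : Fin n => a i = a (r x))).card := by
    have h1 : (range p).card ≤ (univ.filter (fun i : Fin n => a i = a (r x))).card := by
      apply Finset.card_le_card_of_injOn (fun k => r (σ^[k] x))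
      · intro k _
        simp only [coe_filter, mem_univ, true_and, Set.mem_ofPred_eq]
        exact (hkeep k).2
      · exact hinj2
    simpa using h1
  have hpos : 0 < a (r x) := lt_of_le_of_lt (Nat.zero_le _) (hc x)
  have hSne : (univ.filter (fun i : Fin n => a i = a (r x))).Nonempty := ⟨r x, by simp⟩
  set S := univ.filter (fun i : Fin n => a i = a (r x)) with hS
  have hi0 : a (S.min' hSne) = a (r x) := by
    have := S.min'_mem hSne
    simpa [hS] using this
  have hj0 : a (S.max' hSne) = a (r x) := by
    have := S.max'_mem hSne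
    simpa [hS] using this
  have hsub : S ⊆ Icc (S.min' hSne) (S.max' hSne) := by
    intro i hi
    rw [mem_Icc]
    exact ⟨S.min'_le i hi, S.le_max' i hi⟩
  have h1 := Finset.card_le_card hsub
  rw [Fin.card_Icc] at h1
  have hp1 := hp.one_lt
  have hjn : ((S.min' hSne : Fin n) : ℕ) + (p - 1) < n := by
    have := (S.max' hSne).2
    omega
  have hle : (⟨(S.min' hSne : ℕ) + (p - 1), hjn⟩ : Fin n) ≤ S.max' hSne := by
    rw [Fin.le_def]
    show ((S.min' hSne : Fin n) : ℕ) + (p - 1) ≤ _
    omega
  have hge : S.min' hSne ≤ (⟨(S.min' hSne : ℕ) + (p - 1), hjn⟩ : Fin n) := by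
    rw [Fin.le_def]
    show ((S.min' hSne : Fin n) : ℕ) ≤ (S.min' hSne : ℕ) + (p - 1)
    omega
  have h2 := ha hle
  have h3 := ha hge
  refine hr (S.min' hSne) ⟨(S.min' hSne : ℕ) + (p - 1), hjn⟩ rfl (by rw [hi0]; exact hpos.ne') ?_
  omega

private theorem regA_cells {e : ℕ} {a : Fin n → ℕ} (hs : ∑ i, a i = e) :
    ∃ (r : Fin e → Fin n) (c : Fin e → ℕ), (∀ x y, r x = r y → c x = c y → x = y) ∧
      (∀ (i : Fin n) (d : ℕ), d < a i → ∃ y, r y = i ∧ c y = d) ∧ ∀ x, c x < a (r x) := by
  subst hs
  refine ⟨fun x => ((finSigmaFinEquiv (n := a)).symm x).1,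
    fun x => (((finSigmaFinEquiv (n := a)).symm x).2 : ℕ), ?_, ?_, ?_⟩
  · intro x y h1 h2
    simp only at h1 h2
    apply (finSigmaFinEquiv (n := a)).symm.injective
    rcases hx : (finSigmaFinEquiv (n := a)).symm x with ⟨i, c⟩
    rcases hy : (finSigmaFinEquiv (n := a)).symm y with ⟨j, d⟩
    rw [hx, hy] at h1 h2
    simp only at h1 h2
    subst h1
    rw [Fin.ext h2]
  · intro i d hd
    refine ⟨(finSigmaFinEquiv (n := a)) ⟨i, ⟨d, hd⟩⟩, ?_, ?_⟩
    · simp only [Equiv.symm_apply_apply]
    · show (((finSigmaFinEquiv (n := a)).symm ((finSigmaFinEquiv (n := a)) ⟨i, ⟨d, hd⟩⟩)).2 : ℕ) = d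
      rw [Equiv.symm_apply_apply]
  · intro x
    exact ((finSigmaFinEquiv (n := a)).symm x).2.2

theorem reg_ok {p : ℕ} (hp : p.Prime) [CharP K p] {e : ℕ} {a : Fin n → ℕ} (ha : Antitone a)
    (hs : ∑ i, a i = e) (hr : PReg p a) : ¬ InK a (1 : SAlg K e) := by
  classical
  intro hI
  obtain ⟨r, c, hinj, hsurj, hlt⟩ := regA_cells hs
  let T : Tab (Fin e) n :=
    { row := r
      col := c
      inj := hinj
      down := by
        intro x i hi
        obtain ⟨y, h1, h2⟩ := hsurj i (c x) (lt_of_lt_of_le (hlt x) (ha hi.le))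
        exact ⟨y, h2, h1⟩ }
  let T' : Tab (Fin e) n :=
    { row := r
      col := fun x => a (r x) - 1 - c x
      inj := by
        intro x y h1 h2
        apply hinj x y h1
        have h3 := hlt x
        have h4 := hlt y
        rw [h1] at h2 h3
        omega
      down := by
        intro x i hi
        have h3 := hlt x
        have h4 : a (r x) ≤ a i := ha hi.le
        obtain ⟨y, h1, h2⟩ := hsurj i (a i - 1 - (a (r x) - 1 - c x)) (by omega)
        refine ⟨y, ?_, h1⟩
        rw [h1, h2]
        omega }
  have hct : ct T.row = a := by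
    funext i
    unfold ct
    have h1 : (univ.filter (fun x => T.row x = i)).card = (range (a i)).card := by
      apply Finset.card_bij (fun x _ => c x)
      · intro x hx
        simp only [mem_filter, mem_univ, true_and] at hx
        rw [mem_range, ← hx]
        exact hlt x
      · intro x hx y hy h
        simp only [mem_filter, mem_univ, true_and] at hx hy
        exact hinj x y (hx.trans hy.symm) h
      · intro d hd
        rw [mem_range] at hd
        obtain ⟨y, h1, h2⟩ := hsurj i d hd
        exact ⟨y, by simp only [mem_filter, mem_univ, true_and]; exact h1, h2⟩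
    rw [h1, card_range]
  have h := hI T T' hct hct
  rw [map_one, Module.End.one_apply] at h
  rw [regA_dot (a := a) T T' rfl hlt (fun x => rfl)] at h
  exact regA_card hp ha hr (r := T.row) (c := T.col) hlt hinj ((CharP.cast_eq_zero_iff K p _).1 h)

end NoethSym
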