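import Pool.Agent.Lib.MP_a8d7f7_al.N.BDefs
import Pool.Agent.Lib.MP_a8d7f7_al.N.Act

/-!
# MP_a8d7f7_al, characteristic 2: a twisted action of the symmetric groups (helper13)

`V = K^(n+2)` with letters `0, 1, ...` and the square zero operator `d` which connects the letters
`0` and `1`. In characteristic 2 the map `c (v ⊗ w) = w ⊗ v + d w ⊗ d v` satisfies `c² = 1` and the
braid relation (the symmetric tensor category of Venkatesh), so the symmetric groups act on the
powers of `V`: `rho σ = (product of the 1 + d_a d_b over the pairs reversed by σ⁻¹) * σ`.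
-/

set_option autoImplicit false
set_option linter.unusedSectionVars false
set_option linter.unusedVariables false

namespace NoethSym

open Finset Equiv FinSym
open SmallPrime (IsPrime SAlg incl emb)
open ThreeLetter (Ideals)

/-- functions on the words of length `e` in `n + 2` letters -/
abbrev FW (K : Type*) (n e : ℕ) : Type _ := (Fin e → Fin (n + 2)) → K

/-- the square zero operator at the place `i` -/
def dop (K : Type*) [Field K] (n : ℕ) {e : ℕ} (i : Fin e) : Module.End K (FW K n e) where
  toFun f w := if w i = 1 then f (Function.update w i 0) else 0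
  map_add' f g := by
    funext w
    by_cases h : w i = 1 <;> simp [h]
  map_smul' c f := by
    funext w
    by_cases h : w i = 1 <;> simp [h]

/-- the permutation action -/
def pm (K : Type*) [Field K] (n : ℕ) {e : ℕ} (σ : Perm (Fin e)) : Module.End K (FW K n e) :=
  LinearMap.funLeft K K (fun w => w ∘ σ)

section

variable {K : Type*} [Field K] {n e : ℕ}

theorem dop_apply (i : Fin e) (f : FW K n e) (w : Fin e → Fin (n + 2)) :
    dop K n i f w = if w i = 1 then f (Function.update w i 0) else 0 := rfl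

theorem pm_apply (σ : Perm (Fin e)) (f : FW K n e) (w : Fin e → Fin (n + 2)) :
    pm K n σ f w = f (w ∘ σ) := rfl

theorem pm_mul (σ τ : Perm (Fin e)) : pm K n (σ * τ) = pm K n σ * pm K n τ := rfl

theorem pm_one : pm K n (1 : Perm (Fin e)) = 1 := rfl

theorem zero_ne_one' : (0 : Fin (n + 2)) ≠ 1 := by
  intro h
  have := congrArg Fin.val h
  simp at this

theorem dop_sq (i : Fin e) : dop K n i * dop K n i = 0 := by
  apply LinearMap.ext
  intro f
  funext w
  rw [Module.End.mul_apply, dop_apply]
  by_cases h : w i = 1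
  · rw [if_pos h, dop_apply, Function.update_self, if_neg zero_ne_one']
    rfl
  · rw [if_neg h]
    rfl

theorem dop_comm (i j : Fin e) : dop K n i * dop K n j = dop K n j * dop K n i := by
  by_cases hij : i = j
  · rw [hij]
  apply LinearMap.ext
  intro f
  funext w
  rw [Module.End.mul_apply, Module.End.mul_apply, dop_apply, dop_apply, dop_apply, dop_apply,
    Function.update_of_ne (Ne.symm hij), Function.update_of_ne hij,
    Function.update_comm (Ne.symm hij)]
  by_cases h : w i = 1 <;> by_cases h' : w j = 1 <;> simp [h, h']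

theorem dop_commute (i j : Fin e) : Commute (dop K n i) (dop K n j) := dop_comm i j

theorem pm_dop (σ : Perm (Fin e)) (i : Fin e) :
    pm K n σ * dop K n i = dop K n (σ i) * pm K n σ := by
  apply LinearMap.ext
  intro f
  funext w
  rw [Module.End.mul_apply, Module.End.mul_apply, pm_apply, dop_apply, dop_apply, pm_apply,
    Function.comp_apply, Function.update_comp_eq_of_injective w σ.injective]

/-- `1 + d_a d_b` -/
def Rz (K : Type*) [Field K] (n : ℕ) {e : ℕ} (z : Sym2 (Fin e)) : Module.End K (FW K n e) :=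
  Sym2.lift ⟨fun i j => 1 + dop K n i * dop K n j, fun i j => by
    show 1 + dop K n i * dop K n j = 1 + dop K n j * dop K n i
    rw [dop_comm]⟩ z

theorem Rz_mk (i j : Fin e) : Rz K n s(i, j) = 1 + dop K n i * dop K n j := rfl

theorem Rz_commute (z z' : Sym2 (Fin e)) : Commute (Rz K n z) (Rz K n z') := by
  induction z using Sym2.ind with
  | _ i j =>
    induction z' using Sym2.ind with
    | _ k l =>
      rw [Rz_mk, Rz_mk]
      have h : Commute (dop K n i * dop K n j) (dop K n k * dop K n l) :=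
        ((dop_commute i k).mul_right (dop_commute i l)).mul_left
          ((dop_commute j k).mul_right (dop_commute j l))
      exact (Commute.one_left _).add_left ((Commute.one_right _).add_right h)

theorem Rz_sq [CharP K 2] (z : Sym2 (Fin e)) : Rz K n z * Rz K n z = 1 := by
  induction z using Sym2.ind with
  | _ i j =>
    rw [Rz_mk]
    have h1 : (dop K n i * dop K n j) * (dop K n i * dop K n j) = 0 := by
      rw [mul_assoc, ← mul_assoc (dop K n j), dop_comm j i, mul_assoc (dop K n i) (dop K n j),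
        dop_sq, mul_zero, mul_zero]
    have h2 : (dop K n i * dop K n j) + (dop K n i * dop K n j) = 0 := by
      have h3 : (2 : K) = 0 := CharTwo.two_eq_zero
      rw [← two_smul K, h3, zero_smul]
    have h4 : (1 + dop K n i * dop K n j) * (1 + dop K n i * dop K n j) =
        1 + ((dop K n i * dop K n j) + (dop K n i * dop K n j)) +
          (dop K n i * dop K n j) * (dop K n i * dop K n j) := by
      noncomm_ring
    rw [h4, h1, h2, add_zero, add_zero]

theorem pm_Rz (σ : Perm (Fin e)) (z : Sym2 (Fin e)) :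
    pm K n σ * Rz K n z = Rz K n (Sym2.map σ z) * pm K n σ := by
  induction z using Sym2.ind with
  | _ i j =>
    rw [Sym2.map_mk, Rz_mk, Rz_mk, mul_add, add_mul, mul_one, one_mul, ← mul_assoc, pm_dop,
      mul_assoc, pm_dop, ← mul_assoc]

/-- the commutative monoid generated by the `1 + d_a d_b` -/
def Cm (K : Type*) [Field K] (n e : ℕ) : Submonoid (Module.End K (FW K n e)) :=
  Submonoid.closure (Set.range (Rz K n))

theorem Cm_comm (a b : Cm K n e) : a * b = b * a := by
  have h : IsMulCommutative (Submonoid.closure (Set.range (Rz K n (e := e)))) :=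
    Submonoid.isMulCommutative_closure _ (by
      rintro _ ⟨z, rfl⟩ _ ⟨z', rfl⟩
      exact Rz_commute z z')
  exact h.is_comm.comm a b

noncomputable instance : CommMonoid (Cm K n e) :=
  { (inferInstance : Monoid (Cm K n e)) with mul_comm := Cm_comm }

/-- `1 + d_a d_b` in `Cm` -/
def Rc (K : Type*) [Field K] (n : ℕ) {e : ℕ} (z : Sym2 (Fin e)) : Cm K n e :=
  ⟨Rz K n z, Submonoid.subset_closure ⟨z, rfl⟩⟩

theorem Rc_sq [CharP K 2] (z : Sym2 (Fin e)) : Rc K n z * Rc K n z = 1 :=
  Subtype.ext (Rz_sq z)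

theorem Cm_mul (c c' : Cm K n e) : ((c * c' : Cm K n e) : Module.End K (FW K n e)) = c * c' := rfl

theorem Cm_one : ((1 : Cm K n e) : Module.End K (FW K n e)) = 1 := rfl

/-- the pair `z` is reversed by `σ⁻¹` -/
def rev (σ : Perm (Fin e)) (z : Sym2 (Fin e)) : Prop :=
  Sym2.lift ⟨fun a b => (a < b ∧ σ⁻¹ b < σ⁻¹ a) ∨ (b < a ∧ σ⁻¹ a < σ⁻¹ b), fun a b => by
    apply propext
    tauto⟩ z

theorem rev_mk (σ : Perm (Fin e)) (a b : Fin e) :
    rev σ s(a, b) ↔ (a < b ∧ σ⁻¹ b < σ⁻¹ a) ∨ (b < a ∧ σ⁻¹ a < σ⁻¹ b) := Iff.rfl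

open Classical in
/-- the cocycle -/
noncomputable def qc (K : Type*) [Field K] (n : ℕ) {e : ℕ} (σ : Perm (Fin e)) : Cm K n e :=
  ∏ z : Sym2 (Fin e), if rev σ z then Rc K n z else 1

/-- the twisted action -/
noncomputable def rho (K : Type*) [Field K] (n : ℕ) {e : ℕ} (σ : Perm (Fin e)) :
    Module.End K (FW K n e) := (qc K n σ : Module.End K (FW K n e)) * pm K n σ

theorem rev_mul (σ τ : Perm (Fin e)) (z : Sym2 (Fin e)) :
    rev (σ * τ) z ↔ ¬ (rev σ z ↔ rev τ (Sym2.map (σ⁻¹ : Perm (Fin e)) z)) := by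
  induction z using Sym2.ind with
  | _ a b =>
    rw [Sym2.map_mk, rev_mk, rev_mk, rev_mk, mul_inv_rev, Perm.mul_apply, Perm.mul_apply]
    have h1 : a = b ↔ σ⁻¹ a = σ⁻¹ b := (σ⁻¹).injective.eq_iff.symm
    have h2 : σ⁻¹ a = σ⁻¹ b ↔ τ⁻¹ (σ⁻¹ a) = τ⁻¹ (σ⁻¹ b) := (τ⁻¹).injective.eq_iff.symm
    generalize τ⁻¹ (σ⁻¹ a) = a2 at *
    generalize τ⁻¹ (σ⁻¹ b) = b2 at *
    generalize σ⁻¹ a = a1 at *
    generalize σ⁻¹ b = b1 at *
    rcases lt_trichotomy a b with h | h | h
    · have h3 : a1 ≠ b1 := fun h' => h.ne (h1.2 h')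
      have h4 : a2 ≠ b2 := fun h' => h3 (h2.2 h')
      rcases lt_or_gt_of_ne h3 with h5 | h5 <;> rcases lt_or_gt_of_ne h4 with h6 | h6 <;>
        simp [h, h5, h6, h.not_gt, h5.not_gt, h6.not_gt]
    · have h3 := h1.1 h
      have h4 := h2.1 h3
      subst h
      subst h3
      subst h4
      simp
    · have h3 : a1 ≠ b1 := fun h' => h.ne' (h1.2 h')
      have h4 : a2 ≠ b2 := fun h' => h3 (h2.2 h')
      rcases lt_or_gt_of_ne h3 with h5 | h5 <;> rcases lt_or_gt_of_ne h4 with h6 | h6 <;>
        simp [h, h5, h6, h.not_gt, h5.not_gt, h6.not_gt]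

theorem rev_one (z : Sym2 (Fin e)) : ¬ rev 1 z := by
  induction z using Sym2.ind with
  | _ a b =>
    rw [rev_mk]
    rintro (⟨h1, h2⟩ | ⟨h1, h2⟩)
    · exact lt_asymm h1 h2
    · exact lt_asymm h1 h2

theorem pm_prod (σ : Perm (Fin e)) (g g' : Sym2 (Fin e) → Cm K n e)
    (h : ∀ z, pm K n σ * (g z : Module.End K (FW K n e)) = g' z * pm K n σ) (s : Finset (Sym2 (Fin e))) :
    pm K n σ * ((∏ z ∈ s, g z : Cm K n e) : Module.End K (FW K n e)) =
      ((∏ z ∈ s, g' z : Cm K n e) : Module.End K (FW K n e)) * pm K n σ := by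
  classical
  induction s using Finset.induction_on with
  | empty =>
    rw [prod_empty, prod_empty, Cm_one, mul_one, one_mul]
  | insert a s ha ih =>
    rw [prod_insert ha, prod_insert ha, Cm_mul, Cm_mul, ← mul_assoc, h, mul_assoc, ih, ← mul_assoc]

theorem qc_one : qc K n (1 : Perm (Fin e)) = 1 := by
  unfold qc
  apply prod_eq_one
  intro z _
  rw [if_neg (rev_one z)]

theorem rho_one : rho K n (1 : Perm (Fin e)) = 1 := by
  unfold rho
  rw [qc_one, Cm_one, pm_one, one_mul]

theorem rho_mul [CharP K 2] (σ τ : Perm (Fin e)) :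
    rho K n (σ * τ) = rho K n σ * rho K n τ := by
  classical
  unfold rho
  have h1 : pm K n σ * (qc K n τ : Module.End K (FW K n e)) =
      ((∏ z : Sym2 (Fin e), if rev τ (Sym2.map (σ⁻¹ : Perm (Fin e)) z) then Rc K n z else 1 : Cm K n e) :
        Module.End K (FW K n e)) * pm K n σ := by
    unfold qc
    rw [pm_prod σ _ (fun z => if rev τ z then Rc K n (Sym2.map σ z) else 1)]
    · congr 2
      let E : Sym2 (Fin e) ≃ Sym2 (Fin e) :=
        { toFun := Sym2.map σ
          invFun := Sym2.map (σ⁻¹ : Perm (Fin e))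
          left_inv := fun z => by
            induction z using Sym2.ind with
            | _ a b => simp [Sym2.map_mk]
          right_inv := fun z => by
            induction z using Sym2.ind with
            | _ a b => simp [Sym2.map_mk] }
      refine Fintype.prod_equiv E _ _ fun z => ?_
      have h2 : Sym2.map (σ⁻¹ : Perm (Fin e)) (E z) = z := E.left_inv z
      rw [h2]
      rfl
    · intro z
      by_cases h : rev τ z
      · rw [if_pos h, if_pos h]
        exact pm_Rz σ z
      · rw [if_neg h, if_neg h, Cm_one, mul_one, one_mul]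
  have h3 : qc K n (σ * τ) = qc K n σ *
      ∏ z : Sym2 (Fin e), (if rev τ (Sym2.map (σ⁻¹ : Perm (Fin e)) z) then Rc K n z else 1) := by
    unfold qc
    rw [← prod_mul_distrib]
    apply prod_congr rfl
    intro z _
    have h4 := rev_mul σ τ z
    by_cases h5 : rev σ z <;> by_cases h6 : rev τ (Sym2.map (σ⁻¹ : Perm (Fin e)) z)
    · rw [if_pos h5, if_pos h6, if_neg (by tauto), Rc_sq]
    · rw [if_pos h5, if_neg h6, if_pos (by tauto), mul_one]
    · rw [if_neg h5, if_pos h6, if_pos (by tauto), one_mul]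
    · rw [if_neg h5, if_neg h6, if_neg (by tauto), mul_one]
  rw [h3, Cm_mul, pm_mul, mul_assoc, mul_assoc, ← mul_assoc (pm K n σ), h1, mul_assoc]

/-- the twisted action of the group algebra -/
noncomputable def tw (K : Type*) [Field K] [CharP K 2] (n e : ℕ) :
    SAlg K e →ₐ[K] Module.End K (FW K n e) :=
  MonoidAlgebra.lift K _ _
    { toFun := rho K n
      map_one' := rho_one
      map_mul' := rho_mul }

theorem tw_of [CharP K 2] (σ : Perm (Fin e)) :
    tw K n e (MonoidAlgebra.of K (Perm (Fin e)) σ) = rho K n σ := by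
  unfold tw
  rw [MonoidAlgebra.lift_of]
  rfl

end

end NoethSym
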