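import Pool.Agent.Lib.MP_a8d7f7_al.N.Tw
import Pool.Agent.Lib.MP_a8d7f7_al.N.InclG
import Pool.Agent.Lib.MP_a8d7f7_al.N.Tup

/-!
# MP_a8d7f7_al, characteristic 2: the twisted action on blocks of places (helper13)
-/

set_option autoImplicit false
set_option linter.unusedSectionVars false
set_option linter.unusedVariables false

namespace NoethSym

open Finset Equiv FinSym
open SmallPrime (IsPrime SAlg incl emb)
open ThreeLetter (Ideals)

variable {K : Type*} [Field K] {n d e : ℕ}

theorem rev_swap {a b : Fin e} (hab : (a : ℕ) + 1 = b) (z : Sym2 (Fin e)) :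
    rev (swap a b) z ↔ z = s(a, b) := by
  induction z using Sym2.ind with
  | _ x y =>
    rw [rev_mk, swap_inv, Sym2.eq_iff, swap_apply_def, swap_apply_def]
    simp only [Fin.lt_def, Fin.ext_iff]
    split_ifs <;> omega

theorem rho_swap {a b : Fin e} (hab : (a : ℕ) + 1 = b) :
    rho K n (swap a b) = Rz K n s(a, b) * pm K n (swap a b) := by
  classical
  unfold rho qc
  congr 1
  have h1 : (∏ z : Sym2 (Fin e), if rev (swap a b) z then Rc K n z else 1) = Rc K n s(a, b) := by
    rw [prod_eq_single s(a, b)]
    · rw [if_pos ((rev_swap hab _).2 rfl)]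
    · intro z _ hz
      rw [if_neg fun h => hz ((rev_swap hab _).1 h)]
    · intro h
      exact absurd (mem_univ _) h
  rw [h1]
  rfl

section

variable (f : Fin d ↪ Fin e) (W : Fin e → Fin (n + 2))

theorem ext_update (u : Fin d → Fin (n + 2)) (i : Fin d) (a : Fin (n + 2)) :
    Function.update (Function.extend f u W) (f i) a = Function.extend f (Function.update u i a) W := by
  funext x
  by_cases hx : ∃ j, f j = x
  · obtain ⟨j, rfl⟩ := hx
    rw [f.injective.extend_apply]
    by_cases hij : j = i
    · rw [hij, Function.update_self, Function.update_self]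
    · rw [Function.update_of_ne hij, Function.update_of_ne (fun h => hij (f.injective h)),
        f.injective.extend_apply]
  · rw [Function.extend_apply' _ _ _ hx, Function.update_of_ne, Function.extend_apply' _ _ _ hx]
    rintro rfl
    exact hx ⟨i, rfl⟩

theorem ext_via (u : Fin d → Fin (n + 2)) (σ : Perm (Fin d)) :
    Function.extend f u W ∘ (σ.viaFintypeEmbedding f) = Function.extend f (u ∘ σ) W := by
  funext x
  rw [Function.comp_apply]
  by_cases hx : ∃ j, f j = x
  · obtain ⟨j, rfl⟩ := hx
    rw [Perm.viaFintypeEmbedding_apply_image, f.injective.extend_apply, f.injective.extend_apply]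
    rfl
  · rw [Perm.viaFintypeEmbedding_apply_notMem_range _ _ hx, Function.extend_apply' _ _ _ hx,
      Function.extend_apply' _ _ _ hx]

theorem ext_self (w : Fin e → Fin (n + 2)) : Function.extend f (w ∘ f) w = w := by
  funext x
  by_cases hx : ∃ j, f j = x
  · obtain ⟨j, rfl⟩ := hx
    rw [f.injective.extend_apply]
    rfl
  · rw [Function.extend_apply' _ _ _ hx]

theorem ext_comp (u : Fin d → Fin (n + 2)) : Function.extend f u W ∘ f = u := by
  funext i
  rw [Function.comp_apply, f.injective.extend_apply]

theorem dop_ext (F : FW K n e) (u : Fin d → Fin (n + 2)) (i : Fin d) :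
    dop K n (f i) F (Function.extend f u W) =
      dop K n i (fun u' => F (Function.extend f u' W)) u := by
  rw [dop_apply, dop_apply, f.injective.extend_apply, ext_update]

theorem via_swap (a b : Fin d) : (swap a b).viaFintypeEmbedding f = swap (f a) (f b) := by
  apply Equiv.ext
  intro x
  by_cases hx : ∃ j, f j = x
  · obtain ⟨j, rfl⟩ := hx
    rw [Perm.viaFintypeEmbedding_apply_image]
    rw [swap_apply_def, swap_apply_def]
    simp only [f.injective.eq_iff]
    split_ifs <;> rfl
  · rw [Perm.viaFintypeEmbedding_apply_notMem_range _ _ hx, swap_apply_of_ne_of_ne]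
    · rintro rfl
      exact hx ⟨a, rfl⟩
    · rintro rfl
      exact hx ⟨b, rfl⟩

theorem via_one' : (1 : Perm (Fin d)).viaFintypeEmbedding f = 1 := by
  apply Equiv.ext
  intro x
  by_cases hx : ∃ j, f j = x
  · obtain ⟨j, rfl⟩ := hx
    rw [Perm.viaFintypeEmbedding_apply_image]
    rfl
  · rw [Perm.viaFintypeEmbedding_apply_notMem_range _ _ hx]
    rfl

theorem via_mul' (σ τ : Perm (Fin d)) :
    (σ * τ).viaFintypeEmbedding f = σ.viaFintypeEmbedding f * τ.viaFintypeEmbedding f := by
  apply Equiv.ext
  intro x
  rw [Perm.mul_apply]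
  by_cases hx : ∃ j, f j = x
  · obtain ⟨j, rfl⟩ := hx
    rw [Perm.viaFintypeEmbedding_apply_image, Perm.viaFintypeEmbedding_apply_image,
      Perm.viaFintypeEmbedding_apply_image]
    rfl
  · rw [Perm.viaFintypeEmbedding_apply_notMem_range _ _ hx,
      Perm.viaFintypeEmbedding_apply_notMem_range τ _ hx,
      Perm.viaFintypeEmbedding_apply_notMem_range σ _ hx]

theorem adj_ind {P : Perm (Fin d) → Prop} (h1 : P 1) (hm : ∀ σ τ, P σ → P τ → P (σ * τ))
    (hs : ∀ a b : Fin d, (a : ℕ) + 1 = b → P (swap a b)) (σ : Perm (Fin d)) : P σ := by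
  cases d with
  | zero =>
    rw [Subsingleton.elim σ 1]
    exact h1
  | succ k =>
    have h : σ ∈ Submonoid.closure (Set.range fun i : Fin k => swap i.castSucc i.succ) := by
      rw [Perm.mclosure_swap_castSucc_succ]
      trivial
    induction h using Submonoid.closure_induction with
    | mem x hx =>
      obtain ⟨i, rfl⟩ := hx
      exact hs _ _ (by simp)
    | one => exact h1
    | mul x y _ _ hx hy => exact hm x y hx hy

theorem rho_ext [CharP K 2] {c : ℕ} (hf : ∀ i, (f i : ℕ) = c + i) (σ : Perm (Fin d)) :
    ∀ (F : FW K n e) (u : Fin d → Fin (n + 2)),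
      rho K n (σ.viaFintypeEmbedding f) F (Function.extend f u W) =
        rho K n σ (fun u' => F (Function.extend f u' W)) u := by
  refine adj_ind (P := fun σ => ∀ (F : FW K n e) (u : Fin d → Fin (n + 2)),
      rho K n (σ.viaFintypeEmbedding f) F (Function.extend f u W) =
        rho K n σ (fun u' => F (Function.extend f u' W)) u) ?_ ?_ ?_ σ
  · intro F u
    rw [via_one', rho_one, rho_one]
    rfl
  · intro σ τ hσ hτ F u
    have h2 : (fun u' => rho K n (τ.viaFintypeEmbedding f) F (Function.extend f u' W)) =
        rho K n τ (fun u' => F (Function.extend f u' W)) := funext fun u' => hτ F u'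
    rw [via_mul', rho_mul, rho_mul, Module.End.mul_apply, Module.End.mul_apply, hσ, h2]
  · intro a b hab F u
    have hab' : ((f a : Fin e) : ℕ) + 1 = f b := by
      rw [hf, hf]
      omega
    have h1 : ∀ u', pm K n (swap (f a) (f b)) F (Function.extend f u' W) =
        pm K n (swap a b) (fun u' => F (Function.extend f u' W)) u' := by
      intro u'
      rw [pm_apply, pm_apply, ← via_swap, ext_via]
    rw [via_swap, rho_swap hab, rho_swap hab', Rz_mk, Rz_mk, Module.End.mul_apply,
      Module.End.mul_apply, LinearMap.add_apply, LinearMap.add_apply, Pi.add_apply, Pi.add_apply,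
      Module.End.one_apply, Module.End.one_apply, h1, Module.End.mul_apply, Module.End.mul_apply,
      dop_ext]
    have h3 : (fun u'' => pm K n (swap (f a) (f b)) F (Function.extend f u'' W)) =
        pm K n (swap a b) (fun u' => F (Function.extend f u' W)) := funext h1
    have h2 : (fun u' => dop K n (f b) (pm K n (swap (f a) (f b)) F) (Function.extend f u' W)) =
        dop K n b (pm K n (swap a b) (fun u' => F (Function.extend f u' W))) := by
      funext u'
      rw [dop_ext, h3]
    rw [h2]

theorem tw_ext [CharP K 2] {c : ℕ} (hf : ∀ i, (f i : ℕ) = c + i) (x : SAlg K d) (F : FW K n e)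
    (u : Fin d → Fin (n + 2)) :
    tw K n e (incl f x) F (Function.extend f u W) =
      tw K n d x (fun u' => F (Function.extend f u' W)) u := by
  induction x using MonoidAlgebra.induction_on with
  | of σ =>
    rw [SmallPrime.incl_of, tw_of, tw_of, rho_ext f W hf]
  | add x y hx hy =>
    rw [SmallPrime.incl_add, map_add, map_add, LinearMap.add_apply, LinearMap.add_apply,
      Pi.add_apply, Pi.add_apply, hx, hy]
  | smul r x hx =>
    rw [SmallPrime.incl_smul, map_smul, map_smul, LinearMap.smul_apply, LinearMap.smul_apply,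
      Pi.smul_apply, Pi.smul_apply, hx]

end

theorem tw_conj [CharP K 2] (f f' : Fin d ↪ Fin e) {x : SAlg K d}
    (h : tw K n e (incl f x) = 0) : tw K n e (incl f' x) = 0 := by
  obtain ⟨τ, hτ⟩ := SmallPrime.exists_extend f f'
  have h1 : incl f' x = MonoidAlgebra.of K (Perm (Fin e)) τ * incl f x *
      MonoidAlgebra.of K (Perm (Fin e)) τ⁻¹ := by
    rw [SmallPrime.incl_eq_sum, SmallPrime.incl_eq_sum, mul_sum, sum_mul]
    apply sum_congr rfl
    intro σ _
    rw [SmallPrime.via_conj f f' hτ, map_mul, map_mul, mul_smul_comm, smul_mul_assoc]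
  rw [h1, map_mul, map_mul, h, mul_zero, zero_mul]

/-- the kernel does not depend on the level -/
theorem tw_incl_iff [CharP K 2] (f : Fin d ↪ Fin e) (x : SAlg K d) :
    tw K n e (incl f x) = 0 ↔ tw K n d x = 0 := by
  have hle : d ≤ e := by simpa using Fintype.card_le_of_injective f f.injective
  have hf0 : ∀ i, ((Fin.castLEEmb hle i : Fin e) : ℕ) = 0 + i := fun i => by simp
  constructor
  · intro h
    have h0 := tw_conj f (Fin.castLEEmb hle) h
    apply LinearMap.ext
    intro g
    funext u
    have h1 := tw_ext (Fin.castLEEmb hle) (fun _ => (0 : Fin (n + 2))) hf0 x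
      (fun w => g (w ∘ Fin.castLEEmb hle)) u
    simp only [ext_comp] at h1
    rw [← h1, h0]
    rfl
  · intro h
    apply tw_conj (Fin.castLEEmb hle) f
    apply LinearMap.ext
    intro F
    funext w
    have h1 := tw_ext (Fin.castLEEmb hle) w hf0 x F (w ∘ Fin.castLEEmb hle)
    rw [ext_self] at h1
    rw [h1, h]
    rfl

/-- products of elements of two blocks -/
theorem tw_mul_ne [CharP K 2] {m : ℕ} {x : SAlg K d} {x' : SAlg K m} (hx : tw K n d x ≠ 0)
    (hx' : tw K n m x' ≠ 0) :
    tw K n (d + m) (incl (Fin.castAddEmb m) x * incl (Fin.natAddEmb d) x') ≠ 0 := by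
  have h1 : ∃ (g : FW K n d) (u : Fin d → Fin (n + 2)), tw K n d x g u ≠ 0 := by
    by_contra h
    push Not at h
    exact hx (LinearMap.ext fun g => funext fun u => h g u)
  have h2 : ∃ (g : FW K n m) (u : Fin m → Fin (n + 2)), tw K n m x' g u ≠ 0 := by
    by_contra h
    push Not at h
    exact hx' (LinearMap.ext fun g => funext fun u => h g u)
  obtain ⟨g, u, hg⟩ := h1
  obtain ⟨g', u', hg'⟩ := h2
  have hf1 : ∀ i, ((Fin.castAddEmb m i : Fin (d + m)) : ℕ) = 0 + i := fun i => by simp
  have hf2 : ∀ i, ((Fin.natAddEmb d i : Fin (d + m)) : ℕ) = d + i := fun i => by simp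
  have ha1 : ∀ (v : Fin d → Fin (n + 2)) (v' : Fin m → Fin (n + 2)),
      Fin.append v v' ∘ (Fin.castAddEmb m : Fin d ↪ Fin (d + m)) = v := by
    intro v v'
    funext i
    simp [Fin.castAddEmb_apply]
  have ha2 : ∀ (v : Fin d → Fin (n + 2)) (v' : Fin m → Fin (n + 2)),
      Fin.append v v' ∘ (Fin.natAddEmb d : Fin m ↪ Fin (d + m)) = v' := by
    intro v v'
    funext i
    simp [Fin.natAddEmb_apply]
  have he1 : ∀ (v v1 : Fin d → Fin (n + 2)) (v' : Fin m → Fin (n + 2)),
      Function.extend (Fin.castAddEmb m : Fin d ↪ Fin (d + m)) v (Fin.append v1 v') = Fin.append v v' := by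
    intro v v1 v'
    funext x
    refine Fin.addCases (fun i => ?_) (fun i => ?_) x
    · have h := (Fin.castAddEmb m : Fin d ↪ Fin (d + m)).injective.extend_apply v (Fin.append v1 v') i
      rw [Fin.castAddEmb_apply] at h
      rw [h, Fin.append_left]
    · rw [Function.extend_apply', Fin.append_right, Fin.append_right]
      rintro ⟨j, hj⟩
      rw [Fin.castAddEmb_apply] at hj
      have := congrArg Fin.val hj
      simp only [Fin.val_castAdd, Fin.val_natAdd] at this
      omega
  have he2 : ∀ (v : Fin d → Fin (n + 2)) (v' v1 : Fin m → Fin (n + 2)),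
      Function.extend (Fin.natAddEmb d : Fin m ↪ Fin (d + m)) v' (Fin.append v v1) = Fin.append v v' := by
    intro v v' v1
    funext x
    refine Fin.addCases (fun i => ?_) (fun i => ?_) x
    · rw [Function.extend_apply', Fin.append_left, Fin.append_left]
      rintro ⟨j, hj⟩
      rw [Fin.natAddEmb_apply] at hj
      have := congrArg Fin.val hj
      simp only [Fin.val_castAdd, Fin.val_natAdd] at this
      omega
    · have h := (Fin.natAddEmb d : Fin m ↪ Fin (d + m)).injective.extend_apply v' (Fin.append v v1) i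
      rw [Fin.natAddEmb_apply] at h
      rw [h, Fin.append_right]
  intro h0
  let F : FW K n (d + m) := fun w => g (w ∘ Fin.castAddEmb m) * g' (w ∘ Fin.natAddEmb d)
  have h3 : ∀ v, tw K n (d + m) (incl (Fin.natAddEmb d) x') F (Fin.append v u') =
      g v * tw K n m x' g' u' := by
    intro v
    have h4 := tw_ext (Fin.natAddEmb d) (Fin.append v u') hf2 x' F u'
    rw [he2] at h4
    rw [h4]
    have h5 : (fun v' => F (Function.extend (Fin.natAddEmb d : Fin m ↪ Fin (d + m)) v' (Fin.append v u'))) =
        g v • g' := by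
      funext v'
      rw [he2]
      show g (Fin.append v v' ∘ Fin.castAddEmb m) * g' (Fin.append v v' ∘ Fin.natAddEmb d) = _
      rw [ha1, ha2]
      rfl
    rw [h5, map_smul]
    rfl
  have h6 : tw K n (d + m) (incl (Fin.castAddEmb m) x * incl (Fin.natAddEmb d) x') F
      (Fin.append u u') = tw K n d x g u * tw K n m x' g' u' := by
    rw [map_mul, Module.End.mul_apply]
    have h4 := tw_ext (Fin.castAddEmb m) (Fin.append u u') hf1 x
      (tw K n (d + m) (incl (Fin.natAddEmb d) x') F) u
    rw [he1] at h4
    rw [h4]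
    have h5 : (fun v => tw K n (d + m) (incl (Fin.natAddEmb d) x') F
        (Function.extend (Fin.castAddEmb m : Fin d ↪ Fin (d + m)) v (Fin.append u u'))) =
        tw K n m x' g' u' • g := by
      funext v
      rw [he1, h3, mul_comm]
      rfl
    rw [h5, map_smul, Pi.smul_apply, smul_eq_mul, mul_comm]
  rw [h0] at h6
  exact mul_ne_zero hg hg' h6.symm

end NoethSym
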