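import Pool.Agent.Lib.MP_a8d7f7_al.N.TwB
import Pool.Agent.Lib.MP_a8d7f7_al.N.AnnC

/-!
# MP_a8d7f7_al, characteristic 2: the ideal of the twisted action (helper13)
-/

set_option autoImplicit false
set_option linter.unusedSectionVars false
set_option linter.unusedVariables false

namespace NoethSym

open Finset Equiv FinSym
open SmallPrime (IsPrime SAlg incl emb)
open ThreeLetter (Ideals)

section

variable {K : Type*} [Field K] {n e : ℕ}

/-- functions which vanish on the words with fewer than `r` letters `1` -/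
def Fil (r : ℕ) (f : FW K n e) : Prop := ∀ w, ct w 1 < r → f w = 0

theorem Fil.mono {r r' : ℕ} (h : r ≤ r') {f : FW K n e} (hf : Fil r' f) : Fil r f :=
  fun w hw => hf w (hw.trans_le h)

theorem Fil.add {r : ℕ} {f g : FW K n e} (hf : Fil r f) (hg : Fil r g) : Fil r (f + g) := by
  intro w hw
  rw [Pi.add_apply, hf w hw, hg w hw, add_zero]

theorem Fil.sub {r : ℕ} {f g : FW K n e} (hf : Fil r f) (hg : Fil r g) : Fil r (f - g) := by
  intro w hw
  rw [Pi.sub_apply, hf w hw, hg w hw, sub_zero]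

theorem Fil.smul {r : ℕ} {f : FW K n e} (hf : Fil r f) (c : K) : Fil r (c • f) := by
  intro w hw
  rw [Pi.smul_apply, hf w hw, smul_zero]

theorem ct_update_lt {w : Fin e → Fin (n + 2)} {i : Fin e} (h : w i = 1) :
    ct (Function.update w i 0) 1 < ct w 1 := by
  unfold ct
  apply card_lt_card
  rw [Finset.ssubset_iff_of_subset]
  · refine ⟨i, by simpa using h, ?_⟩
    simp only [mem_filter, mem_univ, true_and, Function.update_self]
    exact zero_ne_one'
  · intro x hx
    simp only [mem_filter, mem_univ, true_and] at hx ⊢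
    by_cases hxi : x = i
    · rw [hxi]
      exact h
    · rwa [Function.update_of_ne hxi] at hx

theorem Fil.dop {r : ℕ} {f : FW K n e} (hf : Fil r f) (i : Fin e) : Fil (r + 1) (dop K n i f) := by
  intro w hw
  rw [dop_apply]
  by_cases h : w i = 1
  · rw [if_pos h]
    apply hf
    have := ct_update_lt h
    omega
  · rw [if_neg h]

theorem fil_Rz {r : ℕ} {f : FW K n e} (hf : Fil r f) (z : Sym2 (Fin e)) :
    Fil (r + 1) (Rz K n z f - f) := by
  induction z using Sym2.ind with
  | _ i j =>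
    rw [Rz_mk, LinearMap.add_apply, Module.End.one_apply, add_sub_cancel_left, Module.End.mul_apply]
    exact ((hf.dop j).dop i).mono (by omega)

theorem fil_Cm (c : Module.End K (FW K n e)) (hc : c ∈ Cm K n e) :
    ∀ {r : ℕ} {f : FW K n e}, Fil r f → Fil (r + 1) (c f - f) := by
  induction hc using Submonoid.closure_induction with
  | mem x hx =>
    obtain ⟨z, rfl⟩ := hx
    intro r f hf
    exact fil_Rz hf z
  | one =>
    intro r f hf
    rw [Module.End.one_apply, sub_self]
    intro w _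
    rfl
  | mul x y _ _ hx hy =>
    intro r f hf
    have h1 := hy hf
    have h2 : Fil r (y f) := by
      have h3 := (h1.mono (Nat.le_succ r)).add hf
      rwa [sub_add_cancel] at h3
    have h4 := (hx h2).add h1
    rw [Module.End.mul_apply]
    rwa [sub_add_sub_cancel] at h4

theorem fil_pm {r : ℕ} {f : FW K n e} (hf : Fil r f) (σ : Perm (Fin e)) : Fil r (pm K n σ f) := by
  intro w hw
  rw [pm_apply]
  apply hf
  rwa [ct_comp]

theorem fil_tw [CharP K 2] {r : ℕ} {f : FW K n e} (hf : Fil r f) (x : SAlg K e) :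
    Fil (r + 1) (tw K n e x f - act K (n + 2) x f) := by
  induction x using MonoidAlgebra.induction_on with
  | of σ =>
    rw [tw_of]
    have h1 : act K (n + 2) (MonoidAlgebra.of K (Perm (Fin e)) σ) f = pm K n σ f := by
      rw [act_of]
      rfl
    rw [h1]
    exact fil_Cm _ (qc K n σ).2 (fil_pm hf σ)
  | add x y hx hy =>
    have h1 := hx.add hy
    rw [map_add, map_add, LinearMap.add_apply, LinearMap.add_apply]
    rwa [sub_add_sub_comm] at h1
  | smul c x hx =>
    have h1 := hx.smul c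
    rw [map_smul, map_smul, LinearMap.smul_apply, LinearMap.smul_apply]
    rwa [smul_sub] at h1

theorem act_of_tw [CharP K 2] {x : SAlg K e} (h : tw K n e x = 0) : act K (n + 2) x = 0 := by
  apply LinearMap.pi_ext
  intro u c
  funext w
  have h1 : Fil (ct u 1) (Pi.single u c : FW K n e) := by
    intro w hw
    rw [Pi.single_apply, if_neg]
    rintro rfl
    exact lt_irrefl _ hw
  have h2 := fil_tw h1 x
  rw [h, LinearMap.zero_apply, zero_sub] at h2
  rw [LinearMap.zero_apply]
  by_cases hw : ct w 1 = ct u 1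
  · have h3 := h2 w (by omega)
    rw [Pi.neg_apply, neg_eq_zero] at h3
    rw [h3]
    rfl
  · rw [act_apply]
    apply sum_eq_zero
    intro σ _
    rw [Pi.single_apply, if_neg, mul_zero]
    intro h4
    apply hw
    rw [← h4, ct_comp]

theorem tw_nilp [CharP K 2] {x : SAlg K e} (h : act K (n + 2) x = 0) :
    tw K n e (x ^ (e + 1)) = 0 := by
  have h1 : ∀ (k : ℕ) (f : FW K n e), Fil k (((tw K n e x) ^ k) f) := by
    intro k
    induction k with
    | zero =>
      intro f w hw
      omega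
    | succ k ih =>
      intro f
      have h2 := fil_tw (ih f) x
      rw [h, LinearMap.zero_apply, sub_zero] at h2
      rw [pow_succ', Module.End.mul_apply]
      exact h2
  rw [map_pow]
  apply LinearMap.ext
  intro f
  funext w
  refine h1 (e + 1) f w ?_
  unfold ct
  exact lt_of_le_of_lt (card_le_univ _) (by simp)

end

section

variable {K : Type*} [Field K] [CharP K 2] {Ω : Type*} [DecidableEq Ω] {n : ℕ}

/-- membership in the ideal -/
def TwK (n : ℕ) (y : MonoidAlgebra K (FSym Ω)) : Prop :=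
  ∀ (e : ℕ) (s : Fin e ↪ Ω) (x : SAlg K e), emb K s x = y → tw K n e x = 0

theorem exists_common {d e : ℕ} (s : Fin d ↪ Ω) (s' : Fin e ↪ Ω) :
    ∃ (E : ℕ) (T : Fin E ↪ Ω) (f : Fin d ↪ Fin E) (f' : Fin e ↪ Fin E),
      f.trans T = s ∧ f'.trans T = s' := by
  let W : Finset Ω := univ.image s ∪ univ.image s'
  have hs : ∀ i, s i ∈ W := fun i => mem_union_left _ (mem_image_of_mem s (mem_univ i))
  have hs' : ∀ i, s' i ∈ W := fun i => mem_union_right _ (mem_image_of_mem s' (mem_univ i))
  refine ⟨W.card, W.equivFin.symm.toEmbedding.trans (Function.Embedding.subtype _),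
    ⟨fun i => W.equivFin ⟨s i, hs i⟩, fun i j hij =>
      s.injective (congrArg Subtype.val (W.equivFin.injective hij))⟩,
    ⟨fun i => W.equivFin ⟨s' i, hs' i⟩, fun i j hij =>
      s'.injective (congrArg Subtype.val (W.equivFin.injective hij))⟩, ?_, ?_⟩
  · apply Function.Embedding.ext
    intro i
    change ((W.equivFin.symm (W.equivFin ⟨s i, hs i⟩) : W) : Ω) = s i
    rw [Equiv.symm_apply_apply]
  · apply Function.Embedding.ext
    intro i
    change ((W.equivFin.symm (W.equivFin ⟨s' i, hs' i⟩) : W) : Ω) = s' i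
    rw [Equiv.symm_apply_apply]

theorem twk_iff {e : ℕ} (s : Fin e ↪ Ω) (x : SAlg K e) :
    TwK n (emb K s x) ↔ tw K n e x = 0 := by
  constructor
  · intro h
    exact h e s x rfl
  · intro h e' s' x' hx'
    obtain ⟨E, T, f, f', hf, hf'⟩ := exists_common s s'
    have h1 : incl f x = incl f' x' := by
      apply emb_injective T
      rw [emb_incl, emb_incl, hf, hf', hx']
    rw [← tw_incl_iff f', ← h1, tw_incl_iff]
    exact h

/-- two elements have presentations at a common level -/
theorem exists_pres (y y' : MonoidAlgebra K (FSym Ω)) :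
    ∃ (E : ℕ) (T : Fin E ↪ Ω) (u u' : SAlg K E), emb K T u = y ∧ emb K T u' = y' := by
  obtain ⟨E, f, T, u, u', -, hu, hu'⟩ := exists_emb₂ (K := K)
    (⟨Fin.elim0, fun i => i.elim0⟩ : Fin 0 ↪ Ω) y y'
  exact ⟨E, T, u, u', hu, hu'⟩

/-- the kernel of the twisted action -/
noncomputable def TwI (K : Type*) [Field K] [CharP K 2] (Ω : Type*) [DecidableEq Ω] (n : ℕ) :
    Ideals K Ω :=
  TwoSidedIdeal.mk' {y | TwK n y}
    (by
      have h := (twk_iff (K := K) (n := n) (⟨Fin.elim0, fun i => i.elim0⟩ : Fin 0 ↪ Ω) 0).2 (map_zero _)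
      rwa [map_zero] at h)
    (fun {a b} h h' => by
      obtain ⟨E, T, u, u', rfl, rfl⟩ := exists_pres a b
      show TwK n _
      rw [← map_add, twk_iff, map_add, (twk_iff T u).1 h, (twk_iff T u').1 h', add_zero])
    (fun {a} h => by
      obtain ⟨E, T, u, u', rfl, -⟩ := exists_pres a a
      show TwK n _
      rw [← map_neg, twk_iff, map_neg, (twk_iff T u).1 h, neg_zero])
    (fun {a b} h => by
      obtain ⟨E, T, u, u', rfl, rfl⟩ := exists_pres a b
      show TwK n _
      rw [← map_mul, twk_iff, map_mul, (twk_iff T u').1 h, mul_zero])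
    (fun {a b} h => by
      obtain ⟨E, T, u, u', rfl, rfl⟩ := exists_pres a b
      show TwK n _
      rw [← map_mul, twk_iff, map_mul, (twk_iff T u).1 h, zero_mul])

theorem mem_TwI (y : MonoidAlgebra K (FSym Ω)) : y ∈ TwI K Ω n ↔ TwK n y := by
  unfold TwI
  rw [TwoSidedIdeal.mem_mk']
  rfl

theorem emb_mem_TwI {e : ℕ} (s : Fin e ↪ Ω) (x : SAlg K e) :
    emb K s x ∈ TwI K Ω n ↔ tw K n e x = 0 := by
  rw [mem_TwI, twk_iff]

private theorem tc_rho_conj {d : ℕ} (a a' : Fin d ↪ Ω) (g : FSym Ω) (hg : ∀ i, (g : Perm Ω) (a i) = a' i)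
    (σ : Perm (Fin d)) : SmallPrime.rho a' σ = g * SmallPrime.rho a σ * g⁻¹ := by
  apply Subtype.ext
  apply Equiv.ext
  intro z
  have hR : ((g * SmallPrime.rho a σ * g⁻¹ : FSym Ω) : Perm Ω) z =
      (g : Perm Ω) ((SmallPrime.rho a σ : Perm Ω) ((g : Perm Ω)⁻¹ z)) := rfl
  rw [hR]
  by_cases hz : ∃ i, a' i = z
  · obtain ⟨i, rfl⟩ := hz
    have h1 : (g : Perm Ω)⁻¹ (a' i) = a i := by rw [Perm.inv_eq_iff_eq, hg]
    rw [h1, SmallPrime.rho_apply, SmallPrime.rho_apply, hg]
  · push Not at hz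
    have h2 : (g : Perm Ω) ((g : Perm Ω)⁻¹ z) = z := Equiv.apply_symm_apply (g : Perm Ω) z
    rw [SmallPrime.rho_fix a' σ hz, SmallPrime.rho_fix a σ, h2]
    intro i hi
    apply hz i
    rw [← hg, hi, h2]

private theorem tc_conj_eq {d : ℕ} (a a' : Fin d ↪ Ω) (g : FSym Ω) (hg : ∀ i, (g : Perm Ω) (a i) = a' i)
    (x : SAlg K d) : emb K a' x = MonoidAlgebra.of K (FSym Ω) g * emb K a x * MonoidAlgebra.of K (FSym Ω) g⁻¹ := by
  induction x using MonoidAlgebra.induction_on with
  | of σ =>
    rw [SmallPrime.emb_of, SmallPrime.emb_of, ← map_mul, ← map_mul, tc_rho_conj a a' g hg σ]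
  | add f h hf hh =>
    rw [map_add, map_add, hf, hh, mul_add, add_mul]
  | smul c f hf =>
    rw [map_smul, map_smul, hf, mul_smul_comm, smul_mul_assoc]

theorem TwI_prime [Infinite Ω] : IsPrime (TwI K Ω n) := by
  constructor
  · intro h
    have h1 : (1 : MonoidAlgebra K (FSym Ω)) ∈ TwI K Ω n := by
      rw [h]
      trivial
    have h2 := (emb_mem_TwI (K := K) (n := n) (⟨Fin.elim0, fun i => i.elim0⟩ : Fin 0 ↪ Ω) 1).1
      (by rwa [map_one])
    rw [map_one] at h2
    have h3 := congrFun (congrArg (fun L : Module.End K (FW K n 0) => L (fun _ => 1)) h2)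
      (fun i => i.elim0)
    exact one_ne_zero h3
  · intro y y' h
    by_contra hcon
    push Not at hcon
    obtain ⟨hy, hy'⟩ := hcon
    obtain ⟨e, s, x, -, rfl, -⟩ := exists_pres y y
    obtain ⟨e', s', x', -, rfl, -⟩ := exists_pres y' y'
    rw [emb_mem_TwI] at hy hy'
    obtain ⟨T, hT⟩ := extend_tuple (Fin.castAddEmb e' : Fin e ↪ Fin (e + e')) s
    obtain ⟨γ, hγ⟩ := SmallPrime.exists_mv s' ((Fin.natAddEmb e).trans T) s'.injective
      ((Fin.natAddEmb e).trans T).injective
    have hc := tc_conj_eq (K := K) s' ((Fin.natAddEmb e).trans T) γ hγ x'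
    have h1 := (TwI K Ω n).mul_mem_right _ (MonoidAlgebra.of K (FSym Ω) γ⁻¹)
      (h (MonoidAlgebra.of K (FSym Ω) γ))
    have h2 : emb K s x * MonoidAlgebra.of K (FSym Ω) γ * emb K s' x' * MonoidAlgebra.of K (FSym Ω) γ⁻¹ =
        emb K T (incl (Fin.castAddEmb e') x * incl (Fin.natAddEmb e) x') := by
      rw [map_mul, emb_incl, emb_incl, hc, ← hT]
      simp only [mul_assoc]
    rw [h2, emb_mem_TwI] at h1
    exact tw_mul_ne hy hy' h1

theorem TwI_le : TwI K Ω n ≤ Ann K Ω (n + 2) := by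
  intro y hy
  obtain ⟨e, s, x, -, rfl, -⟩ := exists_pres y y
  exact ann_emb s (act_of_tw ((emb_mem_TwI s x).1 hy))

theorem Ann_nil_TwI (y : MonoidAlgebra K (FSym Ω)) (hy : y ∈ Ann K Ω (n + 2)) :
    ∃ N : ℕ, y ^ N ∈ TwI K Ω n := by
  obtain ⟨e, s, x, -, rfl, -⟩ := exists_pres y y
  refine ⟨e + 1, ?_⟩
  rw [← map_pow, emb_mem_TwI]
  exact tw_nilp (act_of_ann (by omega) s hy)

end

end NoethSym
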