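import Pool.Agent.Lib.MP_a8d7f7_al.N.TwC

/-!
# MP_a8d7f7_al, characteristic 2: the ideal of the twisted action is smaller than `Ann(M_n)` (helper13)
The sum of all permutations of `n + 3` letters kills the words in `n + 2` letters, but not in the twisted
action: it takes the word `0 0 0 2 3 ..` to `0 1 1 2 3 ..` with coefficient `3`.
-/

set_option autoImplicit false
set_option linter.unusedSectionVars false
set_option linter.unusedVariables false

namespace NoethSym

open Finset Equiv FinSym
open SmallPrime (IsPrime SAlg incl emb)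
open ThreeLetter (Ideals)

variable {K : Type*} [Field K] [CharP K 2] {n : ℕ}

/-- the sum of all permutations -/
noncomputable def eps (K : Type*) [Field K] (e : ℕ) : SAlg K e :=
  ∑ σ : Perm (Fin e), MonoidAlgebra.of K (Perm (Fin e)) σ

theorem act_eps : act K (n + 2) (eps K (n + 3)) = 0 := by
  apply LinearMap.ext
  intro f
  funext w
  unfold eps
  rw [map_sum, LinearMap.sum_apply, Finset.sum_apply, LinearMap.zero_apply, Pi.zero_apply]
  have h1 : ∀ σ : Perm (Fin (n + 3)), act K (n + 2) (MonoidAlgebra.of K (Perm (Fin (n + 3))) σ) f w =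
      f (w ∘ σ) := fun σ => by rw [act_of]
  simp only [h1]
  obtain ⟨i, j, hij, hw⟩ := Fintype.exists_ne_map_eq_of_card_lt w (by simp)
  refine sum_involution (fun σ _ => swap i j * σ) ?_ ?_ (fun _ _ => mem_univ _) ?_
  · intro σ _
    have h2 : w ∘ (swap i j * σ : Perm (Fin (n + 3))) = w ∘ σ := by
      funext x
      rw [Function.comp_apply, Function.comp_apply, Perm.mul_apply]
      by_cases h3 : σ x = i
      · rw [h3, swap_apply_left, hw]
      · by_cases h4 : σ x = j
        · rw [h4, swap_apply_right, hw]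
        · rw [swap_apply_of_ne_of_ne h3 h4]
    rw [h2]
    exact CharTwo.add_self_eq_zero _
  · intro σ _ _ h3
    have h4 := congrArg (fun τ : Perm (Fin (n + 3)) => τ (σ⁻¹ i)) h3
    rw [Perm.mul_apply, show σ (σ⁻¹ i) = i from σ.apply_symm_apply i, swap_apply_left] at h4
    exact hij h4.symm
  · intro σ _
    rw [← mul_assoc, swap_mul_self, one_mul]

/-- a product of `1 + d_a d_b`, on words without `1` -/
theorem Cm_zero {e : ℕ} (c : Module.End K (FW K n e)) (hc : c ∈ Cm K n e) :
    ∀ (h : FW K n e) (w : Fin e → Fin (n + 2)), (∀ i, w i ≠ 1) → c h w = h w := by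
  induction hc using Submonoid.closure_induction with
  | mem x hx =>
    obtain ⟨z, rfl⟩ := hx
    intro h w hw
    induction z using Sym2.ind with
    | _ i j =>
      rw [Rz_mk, LinearMap.add_apply, Module.End.one_apply, Pi.add_apply, Module.End.mul_apply,
        dop_apply, if_neg (hw i), add_zero]
  | one =>
    intro h w _
    rfl
  | mul x y _ _ hx hy =>
    intro h w hw
    rw [Module.End.mul_apply, hx _ w hw, hy _ w hw]

/-- the letters `0 0 0 2 3 ...` -/
def S0 (n : ℕ) : Fin (n + 3) → Fin (n + 2) := fun i =>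
  if h : (i : ℕ) ≤ 2 then 0 else ⟨(i : ℕ) - 1, by omega⟩

/-- the letters `0 1 1 2 3 ...` -/
def T0 (n : ℕ) : Fin (n + 3) → Fin (n + 2) :=
  Function.update (Function.update (S0 n) ⟨1, by omega⟩ 1) ⟨2, by omega⟩ 1

theorem S0_ne (i : Fin (n + 3)) : S0 n i ≠ 1 := by
  unfold S0
  split_ifs with h
  · exact zero_ne_one'
  · intro h1
    have := congrArg Fin.val h1
    simp at this
    omega

theorem T0_eq (i : Fin (n + 3)) : T0 n i = 1 ↔ (i = ⟨1, by omega⟩ ∨ i = ⟨2, by omega⟩) := by
  unfold T0
  by_cases h2 : i = ⟨2, by omega⟩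
  · rw [h2, Function.update_self]
    simp
  · rw [Function.update_of_ne h2]
    by_cases h1 : i = ⟨1, by omega⟩
    · rw [h1, Function.update_self]
      simp
    · rw [Function.update_of_ne h1]
      constructor
      · intro h
        exact absurd h (S0_ne i)
      · rintro (h | h)
        · exact absurd h h1
        · exact absurd h h2

theorem T0_update :
    Function.update (Function.update (T0 n) ⟨1, by omega⟩ 0) ⟨2, by omega⟩ 0 = S0 n := by
  funext i
  by_cases h2 : i = ⟨2, by omega⟩
  · rw [h2, Function.update_self]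
    unfold S0
    simp
  · rw [Function.update_of_ne h2]
    by_cases h1 : i = ⟨1, by omega⟩
    · rw [h1, Function.update_self]
      unfold S0
      simp
    · rw [Function.update_of_ne h1]
      unfold T0
      rw [Function.update_of_ne h2, Function.update_of_ne h1]

/-- the value of `(1 + d_a d_b) h` at `T0` -/
theorem Rz_T0 (z : Sym2 (Fin (n + 3))) (h : FW K n (n + 3)) :
    Rz K n z h (T0 n) = h (T0 n) +
      if z = s(⟨1, by omega⟩, ⟨2, by omega⟩) then h (S0 n) else 0 := by
  induction z using Sym2.ind with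
  | _ i j =>
    rw [Rz_mk, LinearMap.add_apply, Module.End.one_apply, Pi.add_apply, Module.End.mul_apply,
      dop_apply, dop_apply]
    congr 1
    by_cases hi : T0 n i = 1
    · rw [if_pos hi]
      rcases (T0_eq i).1 hi with rfl | rfl
      · by_cases hj : j = ⟨2, by omega⟩
        · subst hj
          rw [if_pos, T0_update, if_pos rfl]
          rw [Function.update_of_ne (by simp), T0_eq]
          right
          rfl
        · rw [if_neg, if_neg]
          · intro h1
            rw [Sym2.eq_iff] at h1
            rcases h1 with ⟨_, h1⟩ | ⟨h1, _⟩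
            · exact hj h1
            · simp at h1
          · by_cases hj1 : j = ⟨1, by omega⟩
            · rw [hj1, Function.update_self]
              exact zero_ne_one'
            · rw [Function.update_of_ne hj1, T0_eq]
              rintro (h1 | h1)
              · exact hj1 h1
              · exact hj h1
      · by_cases hj : j = ⟨1, by omega⟩
        · subst hj
          rw [if_pos, Function.update_comm (by simp), T0_update, if_pos Sym2.eq_swap]
          rw [Function.update_of_ne (by simp), T0_eq]
          left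
          rfl
        · rw [if_neg, if_neg]
          · intro h1
            rw [Sym2.eq_iff] at h1
            rcases h1 with ⟨h1, _⟩ | ⟨_, h1⟩
            · simp at h1
            · exact hj h1
          · by_cases hj1 : j = ⟨2, by omega⟩
            · rw [hj1, Function.update_self]
              exact zero_ne_one'
            · rw [Function.update_of_ne hj1, T0_eq]
              rintro (h1 | h1)
              · exact hj h1
              · exact hj1 h1
    · rw [if_neg hi, if_neg]
      intro h1
      apply hi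
      rw [T0_eq]
      rw [Sym2.eq_iff] at h1
      rcases h1 with ⟨h1, _⟩ | ⟨h1, _⟩
      · left
        exact h1
      · right
        exact h1

open Classical in
theorem prod_T0 (σ : Perm (Fin (n + 3))) (h : FW K n (n + 3)) (s : Finset (Sym2 (Fin (n + 3)))) :
    ((∏ z ∈ s, (if rev σ z then Rc K n z else 1) : Cm K n (n + 3)) : Module.End K (FW K n (n + 3))) h (T0 n) =
      h (T0 n) + if s(⟨1, by omega⟩, ⟨2, by omega⟩) ∈ s ∧ rev σ s(⟨1, by omega⟩, ⟨2, by omega⟩)
        then h (S0 n) else 0 := by
  induction s using Finset.induction_on with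
  | empty =>
    rw [prod_empty, Cm_one, Module.End.one_apply, if_neg (by simp), add_zero]
  | insert a s ha ih =>
    rw [prod_insert ha, Cm_mul, Module.End.mul_apply]
    by_cases h1 : rev σ a
    · rw [if_pos h1]
      have h2 : ((Rc K n a : Cm K n (n + 3)) : Module.End K (FW K n (n + 3))) = Rz K n a := rfl
      rw [h2, Rz_T0, ih, Cm_zero _ (Subtype.property _) _ _ S0_ne]
      by_cases h3 : a = s(⟨1, by omega⟩, ⟨2, by omega⟩)
      · subst h3
        rw [if_neg (fun h4 => ha h4.1), if_pos rfl, if_pos ⟨mem_insert_self _ _, h1⟩, add_zero]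
      · rw [if_neg h3, add_zero]
        congr 1
        have h4 : (s(⟨1, by omega⟩, ⟨2, by omega⟩) ∈ insert a s ∧ rev σ s(⟨1, by omega⟩, ⟨2, by omega⟩)) ↔
            (s((⟨1, by omega⟩ : Fin (n + 3)), ⟨2, by omega⟩) ∈ s ∧ rev σ s(⟨1, by omega⟩, ⟨2, by omega⟩)) := by
          rw [mem_insert]
          constructor
          · rintro ⟨h5 | h5, h6⟩
            · exact absurd h5.symm h3
            · exact ⟨h5, h6⟩
          · rintro ⟨h5, h6⟩
            exact ⟨Or.inr h5, h6⟩
        rw [if_congr h4 rfl rfl]
    · rw [if_neg h1, Cm_one, Module.End.one_apply, ih]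
      congr 1
      have h4 : (s(⟨1, by omega⟩, ⟨2, by omega⟩) ∈ insert a s ∧ rev σ s(⟨1, by omega⟩, ⟨2, by omega⟩)) ↔
          (s((⟨1, by omega⟩ : Fin (n + 3)), ⟨2, by omega⟩) ∈ s ∧ rev σ s(⟨1, by omega⟩, ⟨2, by omega⟩)) := by
        rw [mem_insert]
        constructor
        · rintro ⟨h5 | h5, h6⟩
          · rw [← h5] at h1
            exact absurd h6 h1
          · exact ⟨h5, h6⟩
        · rintro ⟨h5, h6⟩
          exact ⟨Or.inr h5, h6⟩
      rw [if_congr h4 rfl rfl]

open Classical in
theorem rho_T0 (σ : Perm (Fin (n + 3))) (h : FW K n (n + 3)) :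
    rho K n σ h (T0 n) = h (T0 n ∘ σ) + if rev σ s(⟨1, by omega⟩, ⟨2, by omega⟩)
      then h (S0 n ∘ σ) else 0 := by
  unfold rho
  rw [Module.End.mul_apply]
  unfold qc
  have h1 := prod_T0 (K := K) σ (pm K n σ h) univ
  rw [if_congr (and_iff_right (mem_univ _)) rfl rfl] at h1
  rw [h1, pm_apply, pm_apply]

theorem tw_eps : tw K n (n + 3) (eps K (n + 3)) ≠ 0 := by
  classical
  intro h0
  have h1 : tw K n (n + 3) (eps K (n + 3)) (Pi.single (S0 n) 1) (T0 n) = 1 := by
    unfold eps
    rw [map_sum, LinearMap.sum_apply, Finset.sum_apply]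
    have h2 : ∀ σ : Perm (Fin (n + 3)), tw K n (n + 3) (MonoidAlgebra.of K (Perm (Fin (n + 3))) σ)
        (Pi.single (S0 n) 1) (T0 n) =
          if rev σ s(⟨1, by omega⟩, ⟨2, by omega⟩) ∧ S0 n ∘ σ = S0 n then 1 else 0 := by
      intro σ
      rw [tw_of, rho_T0]
      have h3 : (Pi.single (S0 n) 1 : FW K n (n + 3)) (T0 n ∘ σ) = 0 := by
        rw [Pi.single_apply, if_neg]
        intro h4
        have h5 := congrFun h4 (σ⁻¹ ⟨1, by omega⟩)
        rw [Function.comp_apply, show σ (σ⁻¹ ⟨1, by omega⟩) = ⟨1, by omega⟩ from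
          σ.apply_symm_apply _, (T0_eq _).2 (Or.inl rfl)] at h5
        exact S0_ne _ h5.symm
      rw [h3, zero_add, Pi.single_apply, ite_and]
    simp only [h2]
    -- the permutation `(0 2)` is left alone, the others are paired
    have hS : ∀ i : Fin (n + 3), S0 n i = 0 ↔ (i : ℕ) ≤ 2 := by
      intro i
      unfold S0
      split_ifs with h
      · simp [h]
      · simp only [h, iff_false]
        intro h5
        have := congrArg Fin.val h5
        simp at this
        omega
    let a0 : Fin (n + 3) := ⟨0, by omega⟩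
    let a1 : Fin (n + 3) := ⟨1, by omega⟩
    let a2 : Fin (n + 3) := ⟨2, by omega⟩
    have h01 : a0 ≠ a1 := by simp [a0, a1]
    have h02 : a0 ≠ a2 := by simp [a0, a2]
    have h12 : a1 ≠ a2 := by simp [a1, a2]
    have hrev : ∀ σ : Perm (Fin (n + 3)), rev σ s(a1, a2) ↔ σ⁻¹ a2 < σ⁻¹ a1 := by
      intro σ
      rw [rev_mk]
      constructor
      · rintro (⟨_, h⟩ | ⟨h, _⟩)
        · exact h
        · exact absurd h (by simp [a1, a2, Fin.lt_def])
      · intro h
        exact Or.inl ⟨by simp [a1, a2, Fin.lt_def], h⟩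
    have hst : ∀ σ : Perm (Fin (n + 3)), S0 n ∘ σ = S0 n → ∀ i, S0 n (σ⁻¹ i) = S0 n i := by
      intro σ hσ i
      have h := congrFun hσ (σ⁻¹ i)
      rw [Function.comp_apply, show σ (σ⁻¹ i) = i from σ.apply_symm_apply i] at h
      exact h.symm
    have hsw : S0 n ∘ (swap a0 a1 : Perm (Fin (n + 3))) = S0 n := by
      funext x
      rw [Function.comp_apply]
      have e0 : S0 n a0 = 0 := (hS _).2 (by simp [a0])
      have e1 : S0 n a1 = 0 := (hS _).2 (by simp [a1])
      by_cases hx0 : x = a0
      · rw [hx0, swap_apply_left, e0, e1]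
      · by_cases hx1 : x = a1
        · rw [hx1, swap_apply_right, e0, e1]
        · rw [swap_apply_of_ne_of_ne hx0 hx1]
    have hsw2 : S0 n ∘ (swap a0 a2 : Perm (Fin (n + 3))) = S0 n := by
      funext x
      rw [Function.comp_apply]
      have e0 : S0 n a0 = 0 := (hS _).2 (by simp [a0])
      have e2 : S0 n a2 = 0 := (hS _).2 (by simp [a2])
      by_cases hx0 : x = a0
      · rw [hx0, swap_apply_left, e0, e2]
      · by_cases hx2 : x = a2
        · rw [hx2, swap_apply_right, e0, e2]
        · rw [swap_apply_of_ne_of_ne hx0 hx2]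
    let A : Perm (Fin (n + 3)) → Prop := fun σ => rev σ s(a1, a2) ∧ S0 n ∘ σ = S0 n
    have hA0 : A (swap a0 a2) := by
      refine ⟨(hrev _).2 ?_, hsw2⟩
      rw [swap_inv, swap_apply_right, swap_apply_of_ne_of_ne h01.symm h12]
      simp [a0, a1, Fin.lt_def]
    have hval : ∀ i : Fin (n + 3), S0 n i = 0 → i = a0 ∨ i = a1 ∨ i = a2 := by
      intro i hi
      have h3 := (hS i).1 hi
      have h4 : (i : ℕ) = 0 ∨ (i : ℕ) = 1 ∨ (i : ℕ) = 2 := by omega
      rcases h4 with h4 | h4 | h4
      · left
        exact Fin.ext h4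
      · right
        left
        exact Fin.ext h4
      · right
        right
        exact Fin.ext h4
    -- `A σ` and `σ⁻¹ a1 ≠ a2` give `σ = (0 2)`
    have hA1 : ∀ σ, A σ → σ⁻¹ a1 ≠ a2 → σ = swap a0 a2 := by
      rintro σ ⟨hr, hσ⟩ hne
      rw [hrev] at hr
      have e1 := hval _ ((hst σ hσ a1).trans ((hS _).2 (by simp [a1])))
      have e2 := hval _ ((hst σ hσ a2).trans ((hS _).2 (by simp [a2])))
      have e0 := hval _ ((hst σ hσ a0).trans ((hS _).2 (by simp [a0])))
      have f1 : σ⁻¹ a1 = a1 := by
        rcases e1 with h | h | h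
        · rw [h] at hr
          exact absurd hr (by simp [a0, Fin.lt_def])
        · exact h
        · exact absurd h hne
      have f2 : σ⁻¹ a2 = a0 := by
        rcases e2 with h | h | h
        · exact h
        · rw [h, f1] at hr
          exact absurd hr (lt_irrefl _)
        · rw [h, f1] at hr
          exact absurd hr (by simp [a1, a2, Fin.lt_def])
      have f0 : σ⁻¹ a0 = a2 := by
        rcases e0 with h | h | h
        · exact absurd ((σ⁻¹).injective (h.trans f2.symm)) h02
        · exact absurd ((σ⁻¹).injective (h.trans f1.symm)) h01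
        · exact h
      have g1 : σ a1 = a1 := by rw [← Perm.eq_inv_iff_eq, f1]
      have g2 : σ a0 = a2 := by rw [← Perm.eq_inv_iff_eq, f2]
      have g0 : σ a2 = a0 := by rw [← Perm.eq_inv_iff_eq, f0]
      apply Equiv.ext
      intro i
      by_cases hi0 : i = a0
      · rw [hi0, g2, swap_apply_left]
      · by_cases hi2 : i = a2
        · rw [hi2, g0, swap_apply_right]
        · rw [swap_apply_of_ne_of_ne hi0 hi2]
          by_cases hi1 : i = a1
          · rw [hi1, g1]
          · have h3 : ¬ (i : ℕ) ≤ 2 := by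
              intro h4
              rcases hval i ((hS i).2 h4) with h | h | h
              · exact hi0 h
              · exact hi1 h
              · exact hi2 h
            have h4 := congrFun hσ i
            rw [Function.comp_apply] at h4
            have h5 : ¬ ((σ i : Fin (n + 3)) : ℕ) ≤ 2 := by
              rw [← hS, h4, hS]
              exact h3
            unfold S0 at h4
            rw [dif_neg h5, dif_neg h3] at h4
            have h6 := congrArg Fin.val h4
            apply Fin.ext
            simp only at h6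
            omega
    have hinv : ∀ σ, A σ → σ⁻¹ a1 = a2 → A (σ * swap a0 a1) ∧ (σ * swap a0 a1)⁻¹ a1 = a2 := by
      rintro σ ⟨hr, hσ⟩ h3
      rw [hrev] at hr
      have e2 := hval _ ((hst σ hσ a2).trans ((hS _).2 (by simp [a2])))
      have f1 : (σ * swap a0 a1)⁻¹ a1 = a2 := by
        rw [mul_inv_rev, swap_inv, Perm.mul_apply, h3, swap_apply_of_ne_of_ne h02.symm h12.symm]
      refine ⟨⟨(hrev _).2 ?_, ?_⟩, f1⟩
      · rw [f1, mul_inv_rev, swap_inv, Perm.mul_apply]
        rcases e2 with h | h | h
        · rw [h, swap_apply_left]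
          simp [a1, a2, Fin.lt_def]
        · rw [h, swap_apply_right]
          simp [a0, a2, Fin.lt_def]
        · rw [h, h3] at hr
          exact absurd hr (lt_irrefl _)
      · rw [Perm.coe_mul, ← Function.comp_assoc, hσ, hsw]
    have hsum : ∑ σ ∈ univ.erase (swap a0 a2 : Perm (Fin (n + 3))),
        (if rev σ s(a1, a2) ∧ S0 n ∘ σ = S0 n then (1 : K) else 0) = 0 := by
      have h3 : ∑ σ ∈ univ.erase (swap a0 a2 : Perm (Fin (n + 3))),
          (if rev σ s(a1, a2) ∧ S0 n ∘ σ = S0 n then (1 : K) else 0) =
          ∑ σ ∈ univ.filter (fun σ : Perm (Fin (n + 3)) => A σ ∧ σ⁻¹ a1 = a2), (1 : K) := by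
        rw [← sum_filter]
        apply sum_congr _ fun _ _ => rfl
        ext σ
        simp only [mem_filter, mem_erase, mem_univ, and_true, true_and]
        constructor
        · rintro ⟨h4, h5⟩
          refine ⟨h5, ?_⟩
          by_contra h6
          exact h4 (hA1 σ h5 h6)
        · rintro ⟨h4, h5⟩
          refine ⟨?_, h4⟩
          rintro rfl
          rw [swap_inv, swap_apply_of_ne_of_ne h01.symm h12] at h5
          exact h12 h5
      rw [h3]
      refine sum_involution (fun σ _ => σ * swap a0 a1) ?_ ?_ ?_ ?_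
      · intro σ _
        exact CharTwo.add_self_eq_zero _
      · intro σ _ _ h4
        rw [mul_eq_left] at h4
        have h5 := congrArg (fun τ : Perm (Fin (n + 3)) => τ a0) h4
        simp only [swap_apply_left] at h5
        exact h01 h5.symm
      · intro σ hσ
        rw [mem_filter] at hσ ⊢
        exact ⟨mem_univ _, hinv σ hσ.2.1 hσ.2.2⟩
      · intro σ _
        rw [mul_assoc, swap_mul_self, mul_one]
    rw [← add_sum_erase univ _ (mem_univ (swap a0 a2 : Perm (Fin (n + 3))))]
    rw [if_pos hA0]
    exact (congrArg (fun t => (1 : K) + t) hsum).trans (add_zero _)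
  rw [h0] at h1
  exact zero_ne_one h1

theorem TwI_lt {Ω : Type*} [DecidableEq Ω] [Infinite Ω] : TwI K Ω n < Ann K Ω (n + 2) := by
  refine lt_of_le_of_ne TwI_le ?_
  intro h
  obtain ⟨s⟩ := exists_tuple' (Ω := Ω) (n + 3)
  have h1 := ann_emb s (act_eps (K := K) (n := n))
  rw [← h, emb_mem_TwI] at h1
  exact tw_eps h1

/-- in characteristic 2 there are primes with nonzero radical -/
theorem exists_prime_lt {Ω : Type*} [DecidableEq Ω] [Infinite Ω] (m : ℕ) (hm : 2 ≤ m) :
    ∃ P : Ideals K Ω, IsPrime P ∧ P < Ann K Ω m ∧ ∀ y ∈ Ann K Ω m, ∃ N : ℕ, y ^ N ∈ P := by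
  obtain ⟨n, rfl⟩ : ∃ n, m = n + 2 := ⟨m - 2, by omega⟩
  exact ⟨TwI K Ω n, TwI_prime, TwI_lt, Ann_nil_TwI⟩

end NoethSym
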