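import Pool.Agent.Lib.MP_a8d7f7_al.N.PrimeEq
import Pool.Agent.Lib.MP_a8d7f7_al.N.Restr
import Pool.Agent.Lib.MP_a8d7f7_al.N.Exi

/-!
# MP_a8d7f7_al, semiprimitive ideals, module Wqo: the branching order is a well-quasi-order
PROOF. `prime_eq`: `M k` is `{x | InK (a k) x}`. `InK (a k) 1` is false (prime is proper), so there is a tableau of content `a k` (`InK` is vacuous otherwise): `a k` is antitone
(`tab_antitone`) and `∑ i, a k i = d k` (`sum_ct`). `dickson`: `j < k`, `a k = a j + b`, `b` antitone; `d k = d j + ∑ i, b i`; `exists_tab` for `b`; the embedding `Fin.castAddEmb`,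
`restrict` (transport along `d k = d j + m`: `obtain`/`subst` after generalizing).
-/

set_option autoImplicit false
set_option linter.unusedSectionVars false
set_option linter.unusedVariables false

namespace NoethSym

open Finset Equiv FinSym
open SmallPrime (IsPrime SAlg incl)
open ThreeLetter (Ideals)

variable {K : Type*} [Field K] {n : ℕ}

private theorem wqo_sum {α : Type*} [Fintype α] (w : α → Fin n) : ∑ i, ct w i = Fintype.card α := by
  classical
  unfold ct
  have h := Finset.card_eq_sum_card_fiberwise (f := w) (s := (univ : Finset α)) (t := (univ : Finset (Fin n)))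
    (fun _ _ => Finset.mem_coe.mpr (Finset.mem_univ _))
  rw [Finset.card_univ] at h
  exact h.symm

private theorem wqo_key {d D m : ℕ} {a b c : Fin n → ℕ} (hD : D = d + m) (S : Tab (Fin m) n) (hS : ct S.row = b)
    (hc : c = a + b) (M : TwoSidedIdeal (SAlg K d)) (hM : ∀ x : SAlg K d, x ∈ M ↔ InK a x)
    (N : TwoSidedIdeal (SAlg K D)) (hN : ∀ x : SAlg K D, x ∈ N ↔ InK c x) (h1 : ¬ InK c (1 : SAlg K D)) :
    ∃ f : Fin d ↪ Fin D, ∀ x, incl f x ∈ N → x ∈ M := by
  subst hD
  subst hc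
  refine ⟨Fin.castAddEmb m, fun x hx => ?_⟩
  rw [hN] at hx
  rw [hM]
  exact restrict S hS hx h1

private theorem wqo_one {d : ℕ} {M : TwoSidedIdeal (SAlg K d)} (hM : IsPrime M) {a : Fin n → ℕ}
    (ha : ∀ x, x ∈ M ↔ InK a x) : ¬ InK a (1 : SAlg K d) := by
  intro h
  rw [← ha] at h
  apply hM.1
  rw [eq_top_iff]
  intro x _
  have := M.mul_mem_left x 1 h
  rwa [mul_one] at this

theorem wqo (d : ℕ → ℕ) (M : ∀ k, TwoSidedIdeal (SAlg K (d k))) (hM : ∀ k, IsPrime (M k))
    (h : ∀ k, ∀ x : SAlg K (d k), act K n x = 0 → x ∈ M k) :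
    ∃ j k : ℕ, j < k ∧ ∃ f : Fin (d j) ↪ Fin (d k), ∀ x, incl f x ∈ M k → x ∈ M j := by
  have h1 := fun k => prime_eq (hM k) (h k)
  choose a ha using h1
  have h2 : ∀ k, ¬ InK (a k) (1 : SAlg K (d k)) := fun k => wqo_one (hM k) (ha k)
  have h3 : ∀ k, ∃ T : Tab (Fin (d k)) n, ct T.row = a k := by
    intro k
    by_contra hcon
    push Not at hcon
    exact h2 k fun T _ hT _ => absurd hT (hcon T)
  have h4 : ∀ k, Antitone (a k) := by
    intro k
    obtain ⟨T, hT⟩ := h3 k
    rw [← hT]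
    exact tab_antitone T
  have h5 : ∀ k, ∑ i, a k i = d k := by
    intro k
    obtain ⟨T, hT⟩ := h3 k
    rw [← hT, wqo_sum, Fintype.card_fin]
  obtain ⟨j, k, hjk, b, hb, hab⟩ := dickson a h4
  obtain ⟨S, hS⟩ := exists_tab b hb
  refine ⟨j, k, hjk, ?_⟩
  refine wqo_key (m := ∑ i, b i) ?_ S hS hab (M j) (ha j) (M k) (ha k) (h2 k)
  rw [← h5 k, ← h5 j, hab, ← Finset.sum_add_distrib]
  rfl

end NoethSym
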